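import Mathlib
import Pool.Agent.NW.Conc

/-!
# Project F1: approximate triangle decompositions of high girth, definitions

Abstract part: a 3-uniform linear hypergraph with ground set `ι` and hyperedges `τ`
(`ed T` = the three elements of `T`), a family `conf` of forbidden configurations and a family
`bad` of overlap structures.  `St` is the state of the process, `nxt` the state after one bite.
-/

set_option autoImplicit false
set_option linter.unusedSectionVars false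

namespace F1

open Finset NWC

/-! ## Toolbox -/

section Tool

variable {Ω : Type*} [Fintype Ω]

theorem ex_mono_pos {w f g : Ω → ℝ} (h : PW w) (hfg : ∀ ω, 0 < w ω → f ω ≤ g ω) :
    Ex w f ≤ Ex w g := by
  unfold Ex
  refine Finset.sum_le_sum fun ω _ => ?_
  rcases (h.1 ω).eq_or_lt with h0 | h0
  · rw [← h0]; simp
  · exact mul_le_mul_of_nonneg_left (hfg ω h0) h0.le

theorem ex_congr_pos {w f g : Ω → ℝ} (h : PW w) (hfg : ∀ ω, 0 < w ω → f ω = g ω) :
    Ex w f = Ex w g :=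
  le_antisymm (ex_mono_pos h fun ω hω => (hfg ω hω).le) (ex_mono_pos h fun ω hω => (hfg ω hω).ge)

/-- an outcome of positive weight at which `f` is at most its mean -/
theorem exists_le_ex_pos {w f : Ω → ℝ} (h : PW w) : ∃ ω, 0 < w ω ∧ f ω ≤ Ex w f := by
  by_contra hcon
  push Not at hcon
  have h1 : Ex w f < Ex w f := by
    have h2 : ∃ ω, 0 < w ω := by
      by_contra h3
      push Not at h3
      have : ∑ ω, w ω ≤ 0 := Finset.sum_nonpos fun ω _ => h3 ω
      rw [h.2] at this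
      linarith
    obtain ⟨ω₀, hω₀⟩ := h2
    calc Ex w f = ∑ ω, w ω * f ω := rfl
      _ > ∑ ω, w ω * Ex w f := by
          refine Finset.sum_lt_sum (fun ω _ => ?_)
            ⟨ω₀, Finset.mem_univ _, mul_lt_mul_of_pos_left (hcon ω₀ hω₀) hω₀⟩
          rcases (h.1 ω).eq_or_lt with h0 | h0
          · rw [← h0]; simp
          · exact mul_le_mul_of_nonneg_left (hcon ω h0).le h0.le
      _ = Ex w f := ex_const h _
  exact lt_irrefl _ h1

end Tool

section Coins

variable {κ : Type*} [Fintype κ] [DecidableEq κ]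

/-- the weight of an outcome of independent coins with success probabilities `p` -/
noncomputable def cw (p : κ → ℝ) : (κ → Bool) → ℝ := prodW (fun c => coinW (p c))

/-- all coins of `G` are off -/
def off (G : Finset κ) (ω : κ → Bool) : Prop := ∀ c ∈ G, ω c = false

/-- all coins of `G` are on -/
def on (G : Finset κ) (ω : κ → Bool) : Prop := ∀ c ∈ G, ω c = true

instance (G : Finset κ) (ω : κ → Bool) : Decidable (off G ω) := by unfold off; infer_instance

instance (G : Finset κ) (ω : κ → Bool) : Decidable (on G ω) := by unfold on; infer_instance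

/-- the probability that all coins of `G` are off -/
noncomputable def po (p : κ → ℝ) (G : Finset κ) : ℝ := ∏ c ∈ G, (1 - p c)

theorem pw_cw {p : κ → ℝ} (h0 : ∀ c, 0 ≤ p c) (h1 : ∀ c, p c ≤ 1) : PW (cw p) :=
  pw_prod fun c => pw_coin (h0 c) (h1 c)

/-- an outcome of positive weight has no coin with success probability `0` switched on -/
theorem pos_of_on {p : κ → ℝ} (h0 : ∀ c, 0 ≤ p c) {ω : κ → Bool}
    (hω : 0 < cw p ω) {c : κ} (hc : ω c = true) : 0 < p c := by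
  by_contra h
  have hp : p c = 0 := le_antisymm (not_lt.1 h) (h0 c)
  have : cw p ω = 0 := by
    unfold cw prodW
    refine Finset.prod_eq_zero (Finset.mem_univ c) ?_
    rw [hc]; simp [coinW, hp]
  exact hω.ne' this

/-- disjoint sets of coins: `G` off and `H` on -/
theorem ex_off_on {p : κ → ℝ} (h0 : ∀ c, 0 ≤ p c) (h1 : ∀ c, p c ≤ 1) {G H : Finset κ}
    (hGH : Disjoint G H) :
    Ex (cw p) (fun ω => (if off G ω then (1 : ℝ) else 0) * (if on H ω then (1 : ℝ) else 0))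
      = po p G * ∏ c ∈ H, p c := by
  have key := ex_prod (fun c => pw_coin (h0 c) (h1 c)) (G ∪ H)
    (fun c b => if c ∈ G then (if b = false then (1 : ℝ) else 0)
      else (if b = true then (1 : ℝ) else 0))
  have e1 : (fun ω : κ → Bool => (if off G ω then (1 : ℝ) else 0) * (if on H ω then (1 : ℝ) else 0))
      = fun ω => ∏ c ∈ G ∪ H, (if c ∈ G then (if ω c = false then (1 : ℝ) else 0)
      else (if ω c = true then (1 : ℝ) else 0)) := by
    funext ω
    rw [Finset.prod_union hGH]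
    have a1 : ∏ c ∈ G, (if c ∈ G then (if ω c = false then (1 : ℝ) else 0)
        else (if ω c = true then (1 : ℝ) else 0)) = if off G ω then (1 : ℝ) else 0 := by
      rw [Finset.prod_congr rfl (fun c hc => if_pos hc), Finset.prod_ite_zero]
      simp [off]
    have a2 : ∏ c ∈ H, (if c ∈ G then (if ω c = false then (1 : ℝ) else 0)
        else (if ω c = true then (1 : ℝ) else 0)) = if on H ω then (1 : ℝ) else 0 := by
      rw [Finset.prod_congr rfl (fun c hc => if_neg (Finset.disjoint_right.1 hGH hc)),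
        Finset.prod_ite_zero]
      simp [on]
    rw [a1, a2]
  unfold cw
  rw [e1, key, Finset.prod_union hGH]
  unfold po
  congr 1
  · refine Finset.prod_congr rfl fun c hc => ?_
    simp [Ex, coinW, hc]
  · refine Finset.prod_congr rfl fun c hc => ?_
    have hc' : c ∉ G := Finset.disjoint_right.1 hGH hc
    simp [Ex, coinW, hc']

theorem ex_off {p : κ → ℝ} (h0 : ∀ c, 0 ≤ p c) (h1 : ∀ c, p c ≤ 1) (G : Finset κ) :
    Ex (cw p) (fun ω => if off G ω then (1 : ℝ) else 0) = po p G := by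
  have h := ex_off_on (p := p) h0 h1 (Finset.disjoint_empty_right G)
  simpa [on] using h

theorem ex_on {p : κ → ℝ} (h0 : ∀ c, 0 ≤ p c) (h1 : ∀ c, p c ≤ 1) (H : Finset κ) :
    Ex (cw p) (fun ω => if on H ω then (1 : ℝ) else 0) = ∏ c ∈ H, p c := by
  have h := ex_off_on (p := p) h0 h1 (Finset.disjoint_empty_left H)
  simpa [off, po] using h

theorem po_nonneg {p : κ → ℝ} (h1 : ∀ c, p c ≤ 1) (G : Finset κ) : 0 ≤ po p G :=
  Finset.prod_nonneg fun c _ => by linarith [h1 c]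

theorem po_le_one {p : κ → ℝ} (h0 : ∀ c, 0 ≤ p c) (h1 : ∀ c, p c ≤ 1) (G : Finset κ) :
    po p G ≤ 1 :=
  Finset.prod_le_one (fun c _ => by linarith [h1 c]) fun c _ => by linarith [h0 c]

theorem po_union_inter (p : κ → ℝ) (G H : Finset κ) :
    po p (G ∪ H) * po p (G ∩ H) = po p G * po p H := Finset.prod_union_inter

theorem po_anti {p : κ → ℝ} (h0 : ∀ c, 0 ≤ p c) (h1 : ∀ c, p c ≤ 1) {G H : Finset κ}
    (h : G ⊆ H) : po p H ≤ po p G := by
  have h2 : po p H = po p (H \ G) * po p G := (Finset.prod_sdiff h).symm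
  rw [h2]
  exact mul_le_of_le_one_left (po_nonneg h1 G) (po_le_one h0 h1 _)

/-- `1 - x ≥ exp (-2x)` for `0 ≤ x ≤ 1/2`, in product form -/
theorem exp_le_po {p : κ → ℝ} {G : Finset κ} (h0 : ∀ c ∈ G, 0 ≤ p c) (h1 : ∀ c ∈ G, p c ≤ 1 / 2) :
    Real.exp (-(2 * ∑ c ∈ G, p c)) ≤ po p G := by
  unfold po
  rw [Finset.mul_sum, ← Finset.sum_neg_distrib, Real.exp_sum]
  refine Finset.prod_le_prod (fun c _ => (Real.exp_pos _).le) fun c hc => ?_
  have hx0 := h0 c hc
  have hx1 := h1 c hc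
  have h3 : Real.exp (-(2 * p c)) = (Real.exp (2 * p c))⁻¹ := Real.exp_neg _
  rw [h3, inv_le_comm₀ (Real.exp_pos _) (by linarith)]
  have h4 : (1 - p c)⁻¹ ≤ 1 + 2 * p c := by
    rw [inv_le_comm₀ (by linarith) (by linarith), inv_le_iff_one_le_mul₀ (by linarith)]
    nlinarith
  linarith [Real.add_one_le_exp (2 * p c)]

end Coins

/-! ## Hypergraphs with conflicts -/

/-- a hypergraph with conflicts: `ed T` are the elements of the hyperedge `T`, `conf` the
forbidden configurations, `bad` the overlap structures -/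
structure Sys (ι τ : Type) [DecidableEq ι] [DecidableEq τ] where
  ed : τ → Finset ι
  conf : Finset (Finset τ)
  bad : Finset (Finset τ)

section

variable {ι τ : Type} [Fintype ι] [Fintype τ] [DecidableEq ι] [DecidableEq τ]

/-- the combinatorial axioms: configurations are matchings with between 2 and `J` members, and
all overlaps of configurations are in `bad` -/
structure Sys.Good (S : Sys ι τ) (J : ℕ) : Prop where
  card_ed : ∀ T, (S.ed T).card = 3
  lin : ∀ T T', T ≠ T' → (S.ed T ∩ S.ed T').card ≤ 1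
  conf_two : ∀ C ∈ S.conf, 2 ≤ C.card
  conf_card : ∀ C ∈ S.conf, C.card ≤ J
  conf_disj : ∀ C ∈ S.conf, ∀ T ∈ C, ∀ T' ∈ C, T ≠ T' → Disjoint (S.ed T) (S.ed T')
  bad_card : ∀ D ∈ S.bad, D.card ≤ 3 * J
  b1 : ∀ T T' T'', T ≠ T' → ∀ e ∈ S.ed T ∩ S.ed T', e ∉ S.ed T'' →
    ¬ Disjoint (S.ed T'') (S.ed T) → ¬ Disjoint (S.ed T'') (S.ed T') → {T, T', T''} ∈ S.bad
  b2 : ∀ C ∈ S.conf, ∀ T₁ ∈ C, ∀ T₂ ∈ C, T₁ ≠ T₂ → ∀ T, T ∉ C →
    ¬ Disjoint (S.ed T) (S.ed T₁) → ¬ Disjoint (S.ed T) (S.ed T₂) → insert T C ∈ S.bad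
  b3 : ∀ C ∈ S.conf, ∀ C' ∈ S.conf, C ≠ C' → ∀ T ∈ C ∩ C', ∀ T₁ ∈ C, ∀ T₂ ∈ C', T₁ ≠ T₂ →
    ¬ Disjoint (S.ed T₁) (S.ed T₂) → C ∪ C' ∈ S.bad
  b5 : ∀ C ∈ S.conf, ∀ C' ∈ S.conf, ∀ C'' ∈ S.conf, ∀ T ∈ C ∩ C', ∀ T' ∈ C ∩ C'',
    ∀ T'' ∈ C' ∩ C'', T ≠ T' → T'' ∉ C → C ∪ C' ∪ C'' ∈ S.bad

/-- the hyperedges through the element `e` -/
def Sys.star (S : Sys ι τ) (e : ι) : Finset τ := univ.filter (fun T => e ∈ S.ed T)

/-- the elements covered by `M` -/
def Sys.cov (S : Sys ι τ) (M : Finset τ) : Finset ι := M.biUnion S.ed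

/-- the hyperedges meeting `T` (with `T` itself) -/
def Sys.Sh (S : Sys ι τ) (T : τ) : Finset τ := univ.filter (fun T' => ¬ Disjoint (S.ed T') (S.ed T))

/-- the threats of `T`: all other members of a configuration through `T` and `T'` are in `M` -/
def Sys.Nb (S : Sys ι τ) (M : Finset τ) (T : τ) : Finset τ :=
  univ.filter (fun T' => T' ≠ T ∧ ∃ C ∈ S.conf, T ∈ C ∧ T' ∈ C ∧
    ∀ T'' ∈ C, T'' = T ∨ T'' = T' ∨ T'' ∈ M)

/-- the hyperedges whose coins are dangerous for `T` -/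
def Sys.nt (S : Sys ι τ) (M : Finset τ) (T : τ) : Finset τ := S.Sh T ∪ S.Nb M T

/-- total weight at the element `e` -/
noncomputable def Sys.W (S : Sys ι τ) (X : τ → ℝ) (e : ι) : ℝ := ∑ T ∈ S.star e, X T

/-- the state of the process: alive elements, weights, chosen hyperedges, exposures, flagged
configurations -/
structure St (ι τ : Type) where
  E : Finset ι
  X : τ → ℝ
  M : Finset τ
  a : τ → ℝ
  F : Finset (Finset τ)

/-- the weight of `T` with the chosen hyperedges counted with weight one -/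
noncomputable def St.y (s : St ι τ) (T : τ) : ℝ := s.X T + if T ∈ s.M then 1 else 0

/-- the weight of a set of hyperedges -/
noncomputable def St.yy (s : St ι τ) (C : Finset τ) : ℝ := ∏ T ∈ C, s.y T

noncomputable def Sys.Th (S : Sys ι τ) (s : St ι τ) : ℝ := ∑ C ∈ S.conf, s.yy C

noncomputable def St.Rep (s : St ι τ) : ℝ := ∑ C ∈ s.F, s.yy C

noncomputable def Sys.Xi (S : Sys ι τ) (s : St ι τ) : ℝ := ∑ D ∈ S.bad, s.yy D

noncomputable def Sys.Df (S : Sys ι τ) (s : St ι τ) : ℝ := ∑ e ∈ s.E, (1 - S.W s.X e)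

noncomputable def St.Psi (s : St ι τ) : ℝ := ∑ T, s.X T * s.a T

/-- elements lost without being covered -/
def Sys.kil (S : Sys ι τ) (E₀ : Finset ι) (s : St ι τ) : ℕ := ((E₀ \ s.E) \ S.cov s.M).card

/-- ordered pairs of distinct chosen hyperedges that meet -/
def Sys.coll (S : Sys ι τ) (M : Finset τ) : ℕ :=
  ((M ×ˢ M).filter (fun x => x.1 ≠ x.2 ∧ ¬ Disjoint (S.ed x.1) (S.ed x.2))).card

/-- the open threat weight -/
noncomputable def Sys.o (S : Sys ι τ) (s : St ι τ) (T : τ) : ℝ := ∑ T' ∈ S.Nb s.M T, s.X T'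

/-- weights after discarding the hyperedges with too large exposure -/
noncomputable def Sys.Xh (S : Sys ι τ) (θ A : ℝ) (s : St ι τ) (T : τ) : ℝ :=
  if s.a T + θ * S.o s T ≤ A then s.X T else 0

/-- probability that no chosen hyperedge contains `e` -/
noncomputable def Sys.nat (S : Sys ι τ) (θ A : ℝ) (s : St ι τ) (e : ι) : ℝ :=
  ∏ T ∈ S.star e, (1 - θ * S.Xh θ A s T)

/-- success probabilities of the coins: `inl T` chooses `T`, `inr e` kills `e` -/
noncomputable def Sys.pc (S : Sys ι τ) (θ A : ℝ) (s : St ι τ) : τ ⊕ ι → ℝ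
  | Sum.inl T => θ * S.Xh θ A s T
  | Sum.inr e => if e ∈ s.E then 1 - (1 - θ) / S.nat θ A s e else 0

/-- the coins that must be off for `T` to survive -/
def Sys.nb (S : Sys ι τ) (s : St ι τ) (T : τ) : Finset (τ ⊕ ι) := (S.nt s.M T).disjSum (S.ed T)

/-- the coins that must be off for `e` to survive -/
def Sys.st (S : Sys ι τ) (e : ι) : Finset (τ ⊕ ι) := (S.star e).disjSum {e}

/-- survival probability of `T` -/
noncomputable def Sys.ps (S : Sys ι τ) (θ A : ℝ) (s : St ι τ) (T : τ) : ℝ :=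
  po (S.pc θ A s) (S.nb s T)

/-- compensated weights -/
noncomputable def Sys.X1 (S : Sys ι τ) (θ A : ℝ) (s : St ι τ) (ω : τ ⊕ ι → Bool) (T : τ) : ℝ :=
  if off (S.nb s T) ω then S.Xh θ A s T * ((1 - θ) / S.ps θ A s T) else 0

/-- trimmed weights -/
noncomputable def Sys.X2 (S : Sys ι τ) (θ A : ℝ) (s : St ι τ) (ω : τ ⊕ ι → Bool) (T : τ) : ℝ :=
  S.X1 θ A s ω T * ∏ e ∈ S.ed T, (1 / max 1 (S.W (S.X1 θ A s ω) e))

/-- the hyperedges chosen in this bite -/
def newM (ω : τ ⊕ ι → Bool) : Finset τ := univ.filter (fun T => ω (Sum.inl T) = true)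

/-- the state after one bite -/
noncomputable def Sys.nxt (S : Sys ι τ) (θ A : ℝ) (s : St ι τ) (ω : τ ⊕ ι → Bool) : St ι τ where
  E := s.E.filter (fun e => off (S.st e) ω)
  X := S.X2 θ A s ω
  M := s.M ∪ newM ω
  a := fun T => s.a T + θ * S.o s T
  F := s.F ∪ S.conf.filter (fun C => 2 ≤ (C ∩ newM ω).card)

/-- the weight of the outcome `ω` -/
noncomputable def Sys.wt (S : Sys ι τ) (θ A : ℝ) (s : St ι τ) : (τ ⊕ ι → Bool) → ℝ :=
  cw (S.pc θ A s)

/-- the invariants; `B` bounds the weights -/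
structure Sys.Valid (S : Sys ι τ) (E₀ : Finset ι) (A B : ℝ) (s : St ι τ) : Prop where
  subE : s.E ⊆ E₀
  X0 : ∀ T, 0 ≤ s.X T
  a0 : ∀ T, 0 ≤ s.a T
  XE : ∀ T, 0 < s.X T → S.ed T ⊆ s.E
  W1 : ∀ e, S.W s.X e ≤ 1
  ME : ∀ T ∈ s.M, Disjoint (S.ed T) s.E
  MS : ∀ T ∈ s.M, S.ed T ⊆ E₀
  XB : ∀ T, s.X T ≤ B * Real.exp (2 * s.a T)
  XA : ∀ T, 0 < s.X T → s.a T ≤ A
  FC : s.F ⊆ S.conf
  I1 : ∀ C ∈ S.conf, C ∉ s.F → ¬ C ⊆ s.M
  I2 : ∀ C ∈ S.conf, C ∉ s.F → ∀ T ∈ C, C.erase T ⊆ s.M → s.X T = 0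

/-- the standing hypotheses of the one-bite lemmas: `δ` bounds all weights -/
structure Sys.Ctx (S : Sys ι τ) (J : ℕ) (E₀ : Finset ι) (θ A B δ : ℝ) (s : St ι τ) : Prop where
  good : S.Good J
  valid : S.Valid E₀ A B s
  θ0 : 0 < θ
  θ1 : θ ≤ 1 / 4
  A3 : 3 ≤ A
  B0 : 0 ≤ B
  Bδ : B * Real.exp (2 * A) ≤ δ
  δ1 : δ ≤ 1 / 2

/-- the seven tracked quantities -/
noncomputable def Sys.vec (S : Sys ι τ) (E₀ : Finset ι) (A : ℝ) (s : St ι τ) : Fin 7 → ℝ :=
  ![(s.E.card : ℝ), (S.kil E₀ s : ℝ), (S.coll s.M : ℝ), s.Rep, S.Df s + 3 / A * s.Psi,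
    S.Th s, S.Xi s]

end

/-- the expected change of the seven quantities -/
noncomputable def stp (J : ℕ) (c θ A η δ : ℝ) (v : Fin 7 → ℝ) : Fin 7 → ℝ :=
  ![(1 - θ) * v 0,
    v 1 + θ * v 4 + θ ^ 2 * J ^ 2 * v 5 + θ ^ 2 * v 0,
    v 2 + θ ^ 2 * v 0,
    v 3 + 2 ^ J * θ ^ 2 * v 5 + c * (δ * v 5 + v 6),
    (1 - θ) * v 4 + 3 / A * θ * J ^ 2 * v 5 + 3 * η / 2 * v 0 + c / η * (δ * v 0 + v 6),
    v 5 + c * (δ * v 5 + v 6),
    c * v 6]

end F1
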