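import Mathlib
import Pool.Agent.F1.Defs
import Pool.Agent.NW.Defs

/-!
# Project F1: the statements of the modules

See the note `F1` on MP_6a0350_co for the paper proof.
-/

set_option autoImplicit false
set_option linter.unusedSectionVars false

namespace F1

open Finset NWC

/-! ## Abstract part -/

/-- the state after a bite is valid (for outcomes of positive weight), the coins are coins -/
def ValidStatement : Prop :=
  ∀ (ι τ : Type) [Fintype ι] [Fintype τ] [DecidableEq ι] [DecidableEq τ] (S : Sys ι τ)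
    (J : ℕ) (E₀ : Finset ι) (θ A B δ : ℝ) (s : St ι τ), S.Ctx J E₀ θ A B δ s →
    PW (S.wt θ A s) ∧
    ∀ ω, 0 < S.wt θ A s ω → S.Valid E₀ A (B / (1 - θ) ^ 2) (S.nxt θ A s ω)

/-- the `k`-th component of the one-bite lemma -/
def Comp (k : Fin 7) : Prop :=
  ∀ (J : ℕ) (A : ℝ), 3 ≤ A → ∃ c : ℝ, 1 ≤ c ∧ ∀ c' : ℝ, c ≤ c' →
    ∀ (ι τ : Type) [Fintype ι] [Fintype τ] [DecidableEq ι] [DecidableEq τ] (S : Sys ι τ)
      (E₀ : Finset ι) (θ B δ η : ℝ) (s : St ι τ), S.Ctx J E₀ θ A B δ s → 0 < η →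
      Ex (S.wt θ A s) (fun ω => S.vec E₀ A (S.nxt θ A s ω) k)
        ≤ stp J c' θ A η δ (S.vec E₀ A s) k

/-- one bite -/
def BiteStatement : Prop :=
  ∀ (J : ℕ) (A : ℝ), 3 ≤ A → ∃ c : ℝ, 1 ≤ c ∧
    ∀ (ι τ : Type) [Fintype ι] [Fintype τ] [DecidableEq ι] [DecidableEq τ] (S : Sys ι τ)
      (E₀ : Finset ι) (θ B δ η : ℝ) (s : St ι τ), S.Ctx J E₀ θ A B δ s → 0 < η →
      ∀ l : Fin 7 → ℝ, (∀ k, 0 ≤ l k) →
      ∃ s' : St ι τ, S.Valid E₀ A (B / (1 - θ) ^ 2) s' ∧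
        ∑ k, l k * S.vec E₀ A s' k ≤ ∑ k, l k * stp J c θ A η δ (S.vec E₀ A s) k

/-- all seven quantities are nonnegative -/
def VecNonneg : Prop :=
  ∀ (ι τ : Type) [Fintype ι] [Fintype τ] [DecidableEq ι] [DecidableEq τ] (S : Sys ι τ)
    (E₀ : Finset ι) (A B : ℝ) (s : St ι τ), 0 < A → S.Valid E₀ A B s →
    ∀ k, 0 ≤ S.vec E₀ A s k

/-- overlap sum over configurations: all triples `T ≠ T'` of a configuration and `T''`
dangerous for both -/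
def OvConfStatement : Prop :=
  ∀ J : ℕ, ∃ c : ℝ, 1 ≤ c ∧
    ∀ (ι τ : Type) [Fintype ι] [Fintype τ] [DecidableEq ι] [DecidableEq τ] (S : Sys ι τ)
      (E₀ : Finset ι) (A B δ : ℝ) (s : St ι τ), S.Good J → S.Valid E₀ A B s →
      (∀ T, s.X T ≤ δ) →
      ∑ C ∈ S.conf, s.yy C * ∑ T ∈ C \ s.M, ∑ T' ∈ (C \ s.M).erase T,
        ∑ T'' ∈ S.nt s.M T ∩ S.nt s.M T', s.X T'' ≤ c * (δ * S.Th s + S.Xi s)

/-- overlap sum over pairs through a common element -/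
def OvPairStatement : Prop :=
  ∀ J : ℕ, ∃ c : ℝ, 1 ≤ c ∧
    ∀ (ι τ : Type) [Fintype ι] [Fintype τ] [DecidableEq ι] [DecidableEq τ] (S : Sys ι τ)
      (E₀ : Finset ι) (A B : ℝ) (s : St ι τ), S.Good J → S.Valid E₀ A B s →
      ∑ e ∈ s.E, ∑ T ∈ S.star e, ∑ T' ∈ (S.star e).erase T,
        s.X T * s.X T' * ∑ T'' ∈ (S.nt s.M T ∩ S.nt s.M T') \ S.star e, s.X T'' ≤ c * S.Xi s

/-- almost perfect matchings without configurations -/
def MatchStatement : Prop :=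
  ∀ (J : ℕ) (K γ : ℝ), 0 < K → 0 < γ → ∃ ε₀ : ℝ, 0 < ε₀ ∧
    ∀ (ι τ : Type) [Fintype ι] [Fintype τ] [DecidableEq ι] [DecidableEq τ] (S : Sys ι τ),
      S.Good J → ∀ (E₀ : Finset ι) (w : τ → ℝ) (N : ℝ), (E₀.card : ℝ) ≤ N →
      (∀ T, 0 ≤ w T) → (∀ T, w T ≤ ε₀) → (∀ T, 0 < w T → S.ed T ⊆ E₀) →
      (∀ e, S.W w e ≤ 1) →
      ∑ C ∈ S.conf, ∏ T ∈ C, w T ≤ K * N → ∑ D ∈ S.bad, ∏ T ∈ D, w T ≤ ε₀ * N →
      ∃ M : Finset τ, (∀ T ∈ M, S.ed T ⊆ E₀) ∧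
        (∀ T ∈ M, ∀ T' ∈ M, T ≠ T' → Disjoint (S.ed T) (S.ed T')) ∧
        (∀ C ∈ S.conf, ¬ C ⊆ M) ∧
        ((E₀ \ S.cov M).card : ℝ) ≤ ∑ e ∈ E₀, (1 - S.W w e) + γ * N

/-! ## Triangles -/

section Tri

variable (V : Type) [Fintype V] [DecidableEq V]

/-- triples of vertices -/
abbrev Tri := {t : Finset V // t.card = 3}

variable {V}

/-- the vertices of a set of triples -/
def vs (C : Finset (Tri V)) : Finset V := C.biUnion (fun T => T.1)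

variable (V)

/-- the hypergraph of all triples of `V`: elements are pairs of vertices, configurations are the
minimal sets of edge-disjoint triples with `|vs C| = |C| + 2`, bad structures are the sets with
`|vs D| ≤ |D| + 1` -/
def triSys (J : ℕ) : Sys (Sym2 V) (Tri V) where
  ed := fun T => NW.edg T.1
  conf := univ.filter (fun C => 3 ≤ C.card ∧ C.card ≤ J ∧
    (∀ T ∈ C, ∀ T' ∈ C, T ≠ T' → Disjoint (NW.edg T.1) (NW.edg T'.1)) ∧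
    (vs C).card = C.card + 2 ∧ ∀ D ⊆ C, D ≠ C → 2 ≤ D.card → D.card + 3 ≤ (vs D).card)
  bad := univ.filter (fun D => 1 ≤ D.card ∧ D.card ≤ 3 * J ∧ (vs D).card ≤ D.card + 1)

end Tri

/-- the axioms hold for triples -/
def GoodStatement : Prop :=
  ∀ (V : Type) [Fintype V] [DecidableEq V] (J : ℕ), 1 ≤ J → (triSys V J).Good J

/-- counting configurations and bad structures -/
def CountStatement : Prop :=
  ∀ (J : ℕ) (K : ℝ), 0 < K → ∃ K' : ℝ, 0 < K' ∧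
    ∀ (V : Type) [Fintype V] [DecidableEq V] (w : Tri V → ℝ), 1 ≤ Fintype.card V →
      (∀ T, 0 ≤ w T) → (∀ T, w T ≤ K / Fintype.card V) →
      ∑ C ∈ (triSys V J).conf, ∏ T ∈ C, w T ≤ K' * (Fintype.card V : ℝ) ^ 2 ∧
      ∑ D ∈ (triSys V J).bad, ∏ T ∈ D, w T ≤ K' * (Fintype.card V : ℝ)

/-- no configuration means girth at least `J + 3` -/
def GirthStatement : Prop :=
  ∀ (V : Type) [Fintype V] [DecidableEq V] (J : ℕ) (M : Finset (Tri V)),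
    (∀ T ∈ M, ∀ T' ∈ M, T ≠ T' → Disjoint (NW.edg T.1) (NW.edg T'.1)) →
    (∀ C ∈ (triSys V J).conf, ¬ C ⊆ M) →
    ∀ U : Finset V, 4 ≤ U.card → U.card ≤ J + 2 →
      (M.filter (fun T => T.1 ⊆ U)).card + 2 < U.card

/-- exact fractional decompositions with weights `O(1/n)` -/
def ExactStatement : Prop :=
  ∀ ε : ℝ, 0 < ε → ∃ K : ℝ, 0 < K ∧ ∃ n₀ : ℕ,
    ∀ (V : Type) [Fintype V] [DecidableEq V] (E : Finset (Sym2 V)), NW.NL E →
      n₀ ≤ Fintype.card V → (∀ v, (3 / 4 + ε) * (Fintype.card V : ℝ) ≤ (NW.deg E v : ℝ)) →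
      ∃ w : Tri V → ℝ, (∀ T, 0 ≤ w T) ∧ (∀ T, w T ≤ K / Fintype.card V) ∧
        (∀ T, 0 < w T → NW.edg T.1 ⊆ E) ∧
        ∀ e ∈ E, ∑ T ∈ univ.filter (fun T : Tri V => e ∈ NW.edg T.1), w T = 1

/-- bounded weights in an arbitrary host: the cap `K / n` costs at most `γ n ^ 2` -/
def BoundedStatement : Prop :=
  ∀ γ : ℝ, 0 < γ → ∃ K : ℝ, 0 < K ∧ ∃ n₀ : ℕ,
    ∀ (V : Type) [Fintype V] [DecidableEq V] (E : Finset (Sym2 V)), NW.NL E →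
      n₀ ≤ Fintype.card V → ∀ w : Tri V → ℝ, (∀ T, 0 ≤ w T) →
      (∀ T, 0 < w T → NW.edg T.1 ⊆ E) →
      (∀ e, ∑ T ∈ univ.filter (fun T : Tri V => e ∈ NW.edg T.1), w T ≤ 1) →
      ∃ w' : Tri V → ℝ, (∀ T, 0 ≤ w' T) ∧ (∀ T, w' T ≤ K / Fintype.card V) ∧
        (∀ T, 0 < w' T → NW.edg T.1 ⊆ E) ∧
        (∀ e, ∑ T ∈ univ.filter (fun T : Tri V => e ∈ NW.edg T.1), w' T ≤ 1) ∧
        ∑ T, w T ≤ ∑ T, w' T + γ * (Fintype.card V : ℝ) ^ 2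

/-- high girth packings in an arbitrary host: almost as large as the largest fractional one -/
def HostStatement : Prop :=
  ∀ (g : ℕ) (γ : ℝ), 0 < γ → ∃ n₀ : ℕ,
    ∀ (V : Type) [Fintype V] [DecidableEq V] (E : Finset (Sym2 V)), NW.NL E →
      n₀ ≤ Fintype.card V → ∀ w : Tri V → ℝ, (∀ T, 0 ≤ w T) →
      (∀ T, 0 < w T → NW.edg T.1 ⊆ E) →
      (∀ e, ∑ T ∈ univ.filter (fun T : Tri V => e ∈ NW.edg T.1), w T ≤ 1) →
      ∃ 𝒯 : Finset (Finset V), NW.IsPack 𝒯 E ∧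
        (∀ U : Finset V, 4 ≤ U.card → U.card < g →
          (𝒯.filter (fun t => t ⊆ U)).card + 2 < U.card) ∧
        ∑ T, w T ≤ (𝒯.card : ℝ) + γ * (Fintype.card V : ℝ) ^ 2

/-- the final theorem, for edge sets -/
def ApproxGirthStatement : Prop :=
  ∀ (g : ℕ) (γ : ℝ), 0 < γ → ∃ η : ℝ, 0 < η ∧ ∃ n₀ : ℕ,
    ∀ (V : Type) [Fintype V] [DecidableEq V] (E : Finset (Sym2 V)), NW.NL E →
      n₀ ≤ Fintype.card V → (∀ v, (3 / 4 - η) * (Fintype.card V : ℝ) ≤ (NW.deg E v : ℝ)) →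
      ∃ 𝒯 : Finset (Finset V), NW.IsPack 𝒯 E ∧
        (∀ U : Finset V, 4 ≤ U.card → U.card < g →
          (𝒯.filter (fun t => t ⊆ U)).card + 2 < U.card) ∧
        ((E \ 𝒯.biUnion NW.edg).card : ℝ) ≤ γ * (Fintype.card V : ℝ) ^ 2

end F1
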