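import Mathlib
import Pool.Agent.F1.Statements

/-!
# Project F1: basic facts about one bite
-/

set_option autoImplicit false
set_option linter.unusedSectionVars false

namespace F1

open Finset NWC

section Gen

variable {κ : Type*} [Fintype κ] [DecidableEq κ]

/-- `1 - sum ≤ prod (1 - x)` -/
theorem one_sub_sum_le_prod (G : Finset κ) (x : κ → ℝ) (h0 : ∀ c ∈ G, 0 ≤ x c)
    (h1 : ∀ c ∈ G, x c ≤ 1) : 1 - ∑ c ∈ G, x c ≤ ∏ c ∈ G, (1 - x c) := by
  induction G using Finset.induction_on with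
  | empty => simp
  | insert a G ha ih =>
    rw [Finset.sum_insert ha, Finset.prod_insert ha]
    have ih' := ih (fun c hc => h0 c (Finset.mem_insert_of_mem hc))
      (fun c hc => h1 c (Finset.mem_insert_of_mem hc))
    have ha0 := h0 a (Finset.mem_insert_self _ _)
    have ha1 := h1 a (Finset.mem_insert_self _ _)
    have hs : 0 ≤ ∑ c ∈ G, x c := Finset.sum_nonneg fun c hc =>
      h0 c (Finset.mem_insert_of_mem hc)
    have h2 : (1 - x a) * (1 - ∑ c ∈ G, x c) ≤ (1 - x a) * ∏ c ∈ G, (1 - x c) :=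
      mul_le_mul_of_nonneg_left ih' (by linarith)
    nlinarith [mul_nonneg ha0 hs]

/-- the union of sets of coins: `po` of the union is at least the product -/
theorem prod_po_le_po_biUnion {α : Type*} [DecidableEq α] (p : κ → ℝ) (h0 : ∀ c, 0 ≤ p c)
    (h1 : ∀ c, p c ≤ 1) (s : Finset α) (G : α → Finset κ) :
    ∏ a ∈ s, po p (G a) ≤ po p (s.biUnion G) := by
  induction s using Finset.induction_on with
  | empty => simp [po]
  | insert a s ha ih =>
    rw [Finset.prod_insert ha, Finset.biUnion_insert]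
    have h2 := po_union_inter p (G a) (s.biUnion G)
    have h3 : po p (G a) * ∏ b ∈ s, po p (G b) ≤ po p (G a) * po p (s.biUnion G) :=
      mul_le_mul_of_nonneg_left ih (po_nonneg h1 _)
    have h4 : po p (G a ∪ s.biUnion G) * po p (G a ∩ s.biUnion G) ≤ po p (G a ∪ s.biUnion G) :=
      mul_le_of_le_one_right (po_nonneg h1 _) (po_le_one h0 h1 _)
    linarith

theorem sum_biUnion_le {α : Type*} [DecidableEq α] (f : κ → ℝ) (h0 : ∀ c, 0 ≤ f c)
    (s : Finset α) (G : α → Finset κ) :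
    ∑ c ∈ s.biUnion G, f c ≤ ∑ a ∈ s, ∑ c ∈ G a, f c := by
  induction s using Finset.induction_on with
  | empty => simp
  | insert a s ha ih =>
    rw [Finset.sum_insert ha, Finset.biUnion_insert]
    have h2 := Finset.sum_union_inter (s₁ := G a) (s₂ := s.biUnion G) (f := f)
    have h3 : 0 ≤ ∑ c ∈ G a ∩ s.biUnion G, f c := Finset.sum_nonneg fun c _ => h0 c
    linarith

theorem po_mul_le_union (p : κ → ℝ) (h0 : ∀ c, 0 ≤ p c) (h1 : ∀ c, p c ≤ 1) (G H : Finset κ) :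
    po p G * po p H ≤ po p (G ∪ H) := by
  rw [← po_union_inter p G H]
  exact mul_le_of_le_one_right (po_nonneg h1 _) (po_le_one h0 h1 _)

theorem off_union (G H : Finset κ) (ω : κ → Bool) : off (G ∪ H) ω ↔ off G ω ∧ off H ω := by
  unfold off
  constructor
  · intro h
    exact ⟨fun c hc => h c (Finset.mem_union_left _ hc), fun c hc => h c (Finset.mem_union_right _ hc)⟩
  · rintro ⟨h1, h2⟩ c hc
    rcases Finset.mem_union.1 hc with h | h
    · exact h1 c h
    · exact h2 c h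

theorem off_anti {G H : Finset κ} (h : G ⊆ H) {ω : κ → Bool} (hH : off H ω) : off G ω :=
  fun c hc => hH c (h hc)

end Gen

section

variable {ι τ : Type} [Fintype ι] [Fintype τ] [DecidableEq ι] [DecidableEq τ]
variable {S : Sys ι τ} {J : ℕ} {E₀ : Finset ι} {θ A B δ : ℝ} {s : St ι τ}

theorem mem_star {e : ι} {T : τ} : T ∈ S.star e ↔ e ∈ S.ed T := by simp [Sys.star]

theorem mem_Sh {T T' : τ} : T' ∈ S.Sh T ↔ ¬ Disjoint (S.ed T') (S.ed T) := by simp [Sys.Sh]

theorem star_subset_Sh {e : ι} {T : τ} (h : e ∈ S.ed T) : S.star e ⊆ S.Sh T := by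
  intro T' hT'
  rw [mem_Sh, Finset.not_disjoint_iff]
  exact ⟨e, mem_star.1 hT', h⟩

theorem Sh_eq_biUnion (T : τ) : S.Sh T = (S.ed T).biUnion S.star := by
  ext T'
  rw [mem_Sh, Finset.not_disjoint_iff, Finset.mem_biUnion]
  constructor
  · rintro ⟨e, h1, h2⟩
    exact ⟨e, h2, mem_star.2 h1⟩
  · rintro ⟨e, h1, h2⟩
    exact ⟨e, mem_star.1 h2, h1⟩

theorem st_subset_nb {e : ι} {T : τ} (h : e ∈ S.ed T) : S.st e ⊆ S.nb s T := by
  unfold Sys.st Sys.nb Sys.nt
  intro c hc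
  rcases c with T' | e'
  · rw [Finset.inl_mem_disjSum] at hc ⊢
    exact Finset.mem_union_left _ (star_subset_Sh h hc)
  · rw [Finset.inr_mem_disjSum] at hc ⊢
    rw [Finset.mem_singleton] at hc
    rwa [hc]

namespace Sys.Valid

theorem X_of_mem_M (hv : S.Valid E₀ A B s) (hg : S.Good J) {T : τ} (h : T ∈ s.M) : s.X T = 0 := by
  by_contra hne
  have hpos : 0 < s.X T := lt_of_le_of_ne (hv.X0 T) (Ne.symm hne)
  have h1 := hv.XE T hpos
  have h2 := hv.ME T h
  have h3 : S.ed T = ∅ := by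
    have := Finset.disjoint_of_subset_right h1 h2
    exact (Finset.disjoint_self_iff_empty _).1 this
  have := hg.card_ed T
  rw [h3] at this
  simp at this

theorem y_of_mem (hv : S.Valid E₀ A B s) (hg : S.Good J) {T : τ} (h : T ∈ s.M) : s.y T = 1 := by
  unfold St.y
  rw [hv.X_of_mem_M hg h, if_pos h, zero_add]

theorem y_of_notMem {T : τ} (h : T ∉ s.M) : s.y T = s.X T := by
  unfold St.y
  rw [if_neg h, add_zero]

theorem y_nonneg (hv : S.Valid E₀ A B s) (T : τ) : 0 ≤ s.y T := by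
  unfold St.y
  have := hv.X0 T
  split_ifs <;> linarith

theorem X_le_y (T : τ) : s.X T ≤ s.y T := by
  unfold St.y
  split_ifs <;> linarith

theorem yy_nonneg (hv : S.Valid E₀ A B s) (C : Finset τ) : 0 ≤ s.yy C :=
  Finset.prod_nonneg fun T _ => hv.y_nonneg T

/-- the weight of `C` is the product over the unchosen members -/
theorem yy_eq (hv : S.Valid E₀ A B s) (hg : S.Good J) (C : Finset τ) :
    s.yy C = ∏ T ∈ C \ s.M, s.X T := by
  unfold St.yy
  rw [← Finset.prod_sdiff (Finset.inter_subset_left (s₁ := C) (s₂ := s.M)),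
    Finset.sdiff_inter_self_left]
  rw [Finset.prod_eq_one (s := C ∩ s.M) (fun T hT => hv.y_of_mem hg (Finset.mem_inter.1 hT).2),
    mul_one]
  exact Finset.prod_congr rfl fun T hT => y_of_notMem (Finset.mem_sdiff.1 hT).2

theorem W_nonneg (hv : S.Valid E₀ A B s) (e : ι) : 0 ≤ S.W s.X e :=
  Finset.sum_nonneg fun T _ => hv.X0 T

end Sys.Valid

namespace Sys.Ctx

variable (h : S.Ctx J E₀ θ A B δ s)

include h

theorem q_pos : 0 < 1 - θ := by linarith [h.θ1]

theorem δ0 : 0 ≤ δ := (mul_nonneg h.B0 (Real.exp_pos _).le).trans h.Bδ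

theorem X_le (T : τ) : s.X T ≤ δ := by
  rcases (h.valid.X0 T).eq_or_lt with h0 | h0
  · rw [← h0]; exact h.δ0
  · have h1 := h.valid.XB T
    have h2 := h.valid.XA T h0
    refine h1.trans (le_trans ?_ h.Bδ)
    exact mul_le_mul_of_nonneg_left (Real.exp_le_exp.2 (by linarith)) h.B0

theorem Xh_nonneg (T : τ) : 0 ≤ S.Xh θ A s T := by
  unfold Sys.Xh
  split_ifs
  · exact h.valid.X0 T
  · exact le_rfl

theorem Xh_le_X (T : τ) : S.Xh θ A s T ≤ s.X T := by
  unfold Sys.Xh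
  split_ifs
  · exact le_rfl
  · exact h.valid.X0 T

theorem Xh_le (T : τ) : S.Xh θ A s T ≤ δ := (h.Xh_le_X T).trans (h.X_le T)

theorem X_pos_of_Xh {T : τ} (hT : 0 < S.Xh θ A s T) : 0 < s.X T := hT.trans_le (h.Xh_le_X T)

theorem exposure_le {T : τ} (hT : 0 < S.Xh θ A s T) : s.a T + θ * S.o s T ≤ A := by
  unfold Sys.Xh at hT
  split_ifs at hT with h1
  · exact h1
  · exact absurd hT (lt_irrefl _)

theorem o_nonneg (T : τ) : 0 ≤ S.o s T := Finset.sum_nonneg fun T' _ => h.valid.X0 T'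

theorem theta_o_le {T : τ} (hT : 0 < S.Xh θ A s T) : θ * S.o s T ≤ A := by
  have := h.exposure_le hT
  have := h.valid.a0 T
  linarith

theorem ed_subset {T : τ} (hT : 0 < S.Xh θ A s T) : S.ed T ⊆ s.E :=
  h.valid.XE T (h.X_pos_of_Xh hT)

theorem W_Xh_le (e : ι) : S.W (S.Xh θ A s) e ≤ 1 :=
  (Finset.sum_le_sum fun T _ => h.Xh_le_X T).trans (h.valid.W1 e)

theorem W_Xh_nonneg (e : ι) : 0 ≤ S.W (S.Xh θ A s) e :=
  Finset.sum_nonneg fun T _ => h.Xh_nonneg T

theorem θXh_nonneg (T : τ) : 0 ≤ θ * S.Xh θ A s T := mul_nonneg h.θ0.le (h.Xh_nonneg T)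

theorem θXh_le_half (T : τ) : θ * S.Xh θ A s T ≤ 1 / 2 := by
  have h1 : θ * S.Xh θ A s T ≤ 1 * δ :=
    mul_le_mul (by linarith [h.θ1]) (h.Xh_le T) (h.Xh_nonneg T) zero_le_one
  linarith [h.δ1]

theorem nat_ge (e : ι) : 1 - θ ≤ S.nat θ A s e := by
  unfold Sys.nat
  refine le_trans ?_ (one_sub_sum_le_prod (S.star e) (fun T => θ * S.Xh θ A s T)
    (fun T _ => h.θXh_nonneg T) (fun T _ => by linarith [h.θXh_le_half T]))
  rw [← Finset.mul_sum]
  have h1 : ∑ T ∈ S.star e, S.Xh θ A s T ≤ 1 := h.W_Xh_le e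
  nlinarith [h.θ0]

theorem nat_pos (e : ι) : 0 < S.nat θ A s e := h.q_pos.trans_le (h.nat_ge e)

theorem nat_le_one (e : ι) : S.nat θ A s e ≤ 1 := by
  unfold Sys.nat
  exact Finset.prod_le_one (fun T _ => by linarith [h.θXh_le_half T])
    fun T _ => by linarith [h.θXh_nonneg T]

theorem nat_le_exp (e : ι) : S.nat θ A s e ≤ Real.exp (-(θ * S.W (S.Xh θ A s) e)) := by
  unfold Sys.nat Sys.W
  rw [Finset.mul_sum, ← Finset.sum_neg_distrib, Real.exp_sum]
  refine Finset.prod_le_prod (fun T _ => by linarith [h.θXh_le_half T]) fun T _ => ?_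
  have := Real.add_one_le_exp (-(θ * S.Xh θ A s T))
  linarith

theorem pc_nonneg (c : τ ⊕ ι) : 0 ≤ S.pc θ A s c := by
  rcases c with T | e
  · exact h.θXh_nonneg T
  · unfold Sys.pc
    simp only
    split_ifs
    · rw [sub_nonneg, div_le_one (h.nat_pos e)]
      exact h.nat_ge e
    · exact le_rfl

theorem pc_le_one (c : τ ⊕ ι) : S.pc θ A s c ≤ 1 := by
  rcases c with T | e
  · have := h.θXh_le_half T
    unfold Sys.pc
    simp only
    linarith
  · unfold Sys.pc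
    simp only
    split_ifs
    · have := div_nonneg h.q_pos.le (h.nat_pos e).le
      linarith
    · exact zero_le_one

theorem pc_inr_lt_one (e : ι) : S.pc θ A s (Sum.inr e) < 1 := by
  unfold Sys.pc
  simp only
  split_ifs
  · have := div_pos h.q_pos (h.nat_pos e)
    linarith
  · exact zero_lt_one

theorem pc_inl_le_half (T : τ) : S.pc θ A s (Sum.inl T) ≤ 1 / 2 := h.θXh_le_half T

theorem pw_wt : PW (S.wt θ A s) := pw_cw h.pc_nonneg h.pc_le_one

/-- every alive element survives with probability exactly `1 - θ` -/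
theorem po_st {e : ι} (he : e ∈ s.E) : po (S.pc θ A s) (S.st e) = 1 - θ := by
  unfold po Sys.st
  rw [Finset.prod_disjSum, Finset.prod_singleton]
  have h1 : ∏ T ∈ S.star e, (1 - S.pc θ A s (Sum.inl T)) = S.nat θ A s e := rfl
  rw [h1]
  unfold Sys.pc
  simp only
  rw [if_pos he]
  have := (h.nat_pos e).ne'
  field_simp
  ring

theorem ps_nonneg (T : τ) : 0 ≤ S.ps θ A s T := po_nonneg h.pc_le_one _

theorem ps_le_one (T : τ) : S.ps θ A s T ≤ 1 := po_le_one h.pc_nonneg h.pc_le_one _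

/-- lower bound for the survival probability -/
theorem ps_ge {T : τ} (hT : 0 < S.Xh θ A s T) :
    (1 - θ) ^ 3 * Real.exp (-(2 * (θ * S.o s T))) ≤ S.ps θ A s T := by
  have hsub : S.nb s T = (S.ed T).biUnion S.st ∪ (S.Nb s.M T).disjSum ∅ := by
    ext c
    rcases c with T' | e'
    · simp only [Sys.nb, Sys.nt, Finset.inl_mem_disjSum, Finset.mem_union, Finset.mem_biUnion,
        Sys.st, Sh_eq_biUnion]
    · simp only [Sys.nb, Finset.inr_mem_disjSum, Finset.mem_union, Finset.mem_biUnion, Sys.st,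
        Finset.mem_singleton, Finset.notMem_empty, or_false]
      constructor
      · intro h1; exact ⟨e', h1, rfl⟩
      · rintro ⟨a, ha, rfl⟩; exact ha
  have h1 : (1 - θ) ^ 3 ≤ po (S.pc θ A s) ((S.ed T).biUnion S.st) := by
    refine le_trans (le_of_eq ?_) (prod_po_le_po_biUnion _ h.pc_nonneg h.pc_le_one (S.ed T) S.st)
    rw [Finset.prod_congr rfl (fun e he => h.po_st (h.ed_subset hT he)), Finset.prod_const,
      h.good.card_ed T]
  have h2 : Real.exp (-(2 * (θ * S.o s T))) ≤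
      po (S.pc θ A s) ((S.Nb s.M T).disjSum (∅ : Finset ι)) := by
    have h3 : po (S.pc θ A s) ((S.Nb s.M T).disjSum (∅ : Finset ι))
        = po (fun T' : τ => θ * S.Xh θ A s T') (S.Nb s.M T) := by
      unfold po
      rw [Finset.prod_disjSum, Finset.prod_empty, mul_one]
      rfl
    rw [h3]
    refine le_trans ?_ (exp_le_po (fun T' _ => h.θXh_nonneg T') (fun T' _ => h.θXh_le_half T'))
    rw [Real.exp_le_exp, ← Finset.mul_sum, neg_le_neg_iff]
    refine mul_le_mul_of_nonneg_left (mul_le_mul_of_nonneg_left ?_ h.θ0.le) (by norm_num)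
    exact Finset.sum_le_sum fun T' _ => h.Xh_le_X T'
  have h4 := po_mul_le_union (S.pc θ A s) h.pc_nonneg h.pc_le_one ((S.ed T).biUnion S.st)
    ((S.Nb s.M T).disjSum (∅ : Finset ι))
  unfold Sys.ps
  rw [hsub]
  refine le_trans (mul_le_mul h1 h2 (Real.exp_pos _).le (po_nonneg h.pc_le_one _)) h4

theorem ps_pos {T : τ} (hT : 0 < S.Xh θ A s T) : 0 < S.ps θ A s T :=
  (mul_pos (pow_pos h.q_pos 3) (Real.exp_pos _)).trans_le (h.ps_ge hT)

/-- the compensation factor -/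
theorem fac_le {T : τ} (hT : 0 < S.Xh θ A s T) :
    (1 - θ) / S.ps θ A s T ≤ ((1 - θ) ^ 2)⁻¹ * Real.exp (2 * (θ * S.o s T)) := by
  rw [div_le_iff₀ (h.ps_pos hT)]
  have h1 := h.ps_ge hT
  have hq := h.q_pos
  have h2 : (1 - θ) = ((1 - θ) ^ 2)⁻¹ * Real.exp (2 * (θ * S.o s T)) *
      ((1 - θ) ^ 3 * Real.exp (-(2 * (θ * S.o s T)))) := by
    rw [Real.exp_neg]
    field_simp
  calc (1 - θ) = ((1 - θ) ^ 2)⁻¹ * Real.exp (2 * (θ * S.o s T)) *
      ((1 - θ) ^ 3 * Real.exp (-(2 * (θ * S.o s T)))) := h2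
    _ ≤ _ := mul_le_mul_of_nonneg_left h1 (by positivity)

/-- the compensation factor is bounded -/
theorem fac_le' {T : τ} (hT : 0 < S.Xh θ A s T) :
    (1 - θ) / S.ps θ A s T ≤ 2 * Real.exp (2 * A) := by
  refine (h.fac_le hT).trans ?_
  have hq : (3 : ℝ) / 4 ≤ 1 - θ := by linarith [h.θ1]
  have h1 : ((1 - θ) ^ 2)⁻¹ ≤ 2 := by
    rw [inv_le_comm₀ (pow_pos h.q_pos 2) (by norm_num)]
    nlinarith
  have h2 : Real.exp (2 * (θ * S.o s T)) ≤ Real.exp (2 * A) :=
    Real.exp_le_exp.2 (by linarith [h.theta_o_le hT])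
  exact mul_le_mul h1 h2 (Real.exp_pos _).le (by norm_num)

theorem X1_nonneg (ω : τ ⊕ ι → Bool) (T : τ) : 0 ≤ S.X1 θ A s ω T := by
  unfold Sys.X1
  split_ifs
  · exact mul_nonneg (h.Xh_nonneg T) (div_nonneg h.q_pos.le (h.ps_nonneg T))
  · exact le_rfl

theorem X1_pos {ω : τ ⊕ ι → Bool} {T : τ} (hT : 0 < S.X1 θ A s ω T) :
    off (S.nb s T) ω ∧ 0 < S.Xh θ A s T := by
  unfold Sys.X1 at hT
  split_ifs at hT with h1
  · refine ⟨h1, ?_⟩
    rcases (h.Xh_nonneg T).eq_or_lt with h0 | h0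
    · rw [← h0, zero_mul] at hT
      exact absurd hT (lt_irrefl _)
    · exact h0
  · exact absurd hT (lt_irrefl _)

theorem X1_le (ω : τ ⊕ ι → Bool) (T : τ) :
    S.X1 θ A s ω T ≤ S.Xh θ A s T * (((1 - θ) ^ 2)⁻¹ * Real.exp (2 * (θ * S.o s T))) := by
  have hq := h.q_pos
  rcases (h.Xh_nonneg T).eq_or_lt with h0 | h0
  · unfold Sys.X1
    rw [← h0]
    split_ifs <;> simp
  · unfold Sys.X1
    split_ifs
    · exact mul_le_mul_of_nonneg_left (h.fac_le h0) h0.le
    · positivity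

theorem X1_le' (ω : τ ⊕ ι → Bool) (T : τ) :
    S.X1 θ A s ω T ≤ 2 * Real.exp (2 * A) * S.Xh θ A s T := by
  rcases (h.Xh_nonneg T).eq_or_lt with h0 | h0
  · unfold Sys.X1
    rw [← h0]
    split_ifs <;> simp
  · unfold Sys.X1
    split_ifs
    · rw [mul_comm]
      exact mul_le_mul_of_nonneg_right (h.fac_le' h0) h0.le
    · positivity

theorem W_X1_nonneg (ω : τ ⊕ ι → Bool) (e : ι) : 0 ≤ S.W (S.X1 θ A s ω) e :=
  Finset.sum_nonneg fun T _ => h.X1_nonneg ω T

theorem trim_pos (ω : τ ⊕ ι → Bool) (e : ι) : 0 < 1 / max 1 (S.W (S.X1 θ A s ω) e) :=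
  div_pos one_pos (lt_of_lt_of_le one_pos (le_max_left _ _))

theorem trim_le_one (ω : τ ⊕ ι → Bool) (e : ι) : 1 / max 1 (S.W (S.X1 θ A s ω) e) ≤ 1 := by
  rw [div_le_one (lt_of_lt_of_le one_pos (le_max_left _ _))]
  exact le_max_left _ _

theorem X2_nonneg (ω : τ ⊕ ι → Bool) (T : τ) : 0 ≤ S.X2 θ A s ω T :=
  mul_nonneg (h.X1_nonneg ω T) (Finset.prod_nonneg fun e _ => (h.trim_pos ω e).le)

theorem X2_le_X1 (ω : τ ⊕ ι → Bool) (T : τ) : S.X2 θ A s ω T ≤ S.X1 θ A s ω T :=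
  mul_le_of_le_one_right (h.X1_nonneg ω T)
    (Finset.prod_le_one (fun e _ => (h.trim_pos ω e).le) fun e _ => h.trim_le_one ω e)

theorem X2_le_trim (ω : τ ⊕ ι → Bool) {T : τ} {e : ι} (he : e ∈ S.ed T) :
    S.X2 θ A s ω T ≤ S.X1 θ A s ω T * (1 / max 1 (S.W (S.X1 θ A s ω) e)) := by
  unfold Sys.X2
  refine mul_le_mul_of_nonneg_left ?_ (h.X1_nonneg ω T)
  rw [← Finset.mul_prod_erase _ _ he]
  exact mul_le_of_le_one_right (h.trim_pos ω e).le
    (Finset.prod_le_one (fun e _ => (h.trim_pos ω e).le) fun e _ => h.trim_le_one ω e)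

/-- the compensated weights are martingales, up to the factor `1 - θ` -/
theorem ex_X1 (T : τ) :
    Ex (S.wt θ A s) (fun ω => S.X1 θ A s ω T) = (1 - θ) * S.Xh θ A s T := by
  rcases (h.Xh_nonneg T).eq_or_lt with h0 | h0
  · have : (fun ω => S.X1 θ A s ω T) = fun _ => 0 := by
      funext ω
      unfold Sys.X1
      rw [← h0]
      split_ifs <;> simp
    rw [this, ex_const h.pw_wt, ← h0, mul_zero]
  · have e1 : (fun ω => S.X1 θ A s ω T) = fun ω =>
        S.Xh θ A s T * ((1 - θ) / S.ps θ A s T) * (if off (S.nb s T) ω then (1 : ℝ) else 0) := by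
      funext ω
      unfold Sys.X1
      split_ifs <;> simp
    rw [e1, ex_mul_left]
    unfold Sys.wt
    rw [ex_off h.pc_nonneg h.pc_le_one]
    have h1 : po (S.pc θ A s) (S.nb s T) = S.ps θ A s T := rfl
    rw [h1]
    have := (h.ps_pos h0).ne'
    field_simp

/-- a chosen hyperedge has positive weight -/
theorem Xh_pos_of_new {ω : τ ⊕ ι → Bool} (hω : 0 < S.wt θ A s ω) {T : τ} (hT : T ∈ newM ω) :
    0 < S.Xh θ A s T := by
  have h1 : ω (Sum.inl T) = true := by simpa [newM] using hT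
  have h2 := pos_of_on h.pc_nonneg hω h1
  have h3 : 0 < θ * S.Xh θ A s T := h2
  exact pos_of_mul_pos_right h3 h.θ0.le |>.trans_le le_rfl

theorem new_ed {ω : τ ⊕ ι → Bool} (hω : 0 < S.wt θ A s ω) {T : τ} (hT : T ∈ newM ω) :
    S.ed T ⊆ s.E := h.ed_subset (h.Xh_pos_of_new hω hT)

theorem new_notMem {ω : τ ⊕ ι → Bool} (hω : 0 < S.wt θ A s ω) {T : τ} (hT : T ∈ newM ω) :
    T ∉ s.M := by
  intro hM
  have h1 := h.X_pos_of_Xh (h.Xh_pos_of_new hω hT)
  rw [h.valid.X_of_mem_M h.good hM] at h1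
  exact lt_irrefl _ h1

/-- the total danger weight of `T` is bounded -/
theorem sum_nt_le {T : τ} (hT : 0 < S.Xh θ A s T) :
    θ * ∑ T' ∈ S.nt s.M T, s.X T' ≤ 3 * θ + A := by
  unfold Sys.nt
  have h1 : ∑ T' ∈ S.Sh T ∪ S.Nb s.M T, s.X T' ≤
      ∑ T' ∈ S.Sh T, s.X T' + ∑ T' ∈ S.Nb s.M T, s.X T' := by
    rw [← Finset.sum_union_inter]
    have : 0 ≤ ∑ T' ∈ S.Sh T ∩ S.Nb s.M T, s.X T' := Finset.sum_nonneg fun T' _ => h.valid.X0 T'
    linarith
  have h2 : ∑ T' ∈ S.Sh T, s.X T' ≤ 3 := by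
    rw [Sh_eq_biUnion]
    refine (sum_biUnion_le s.X h.valid.X0 (S.ed T) S.star).trans ?_
    have h4 : ∑ e ∈ S.ed T, ∑ T' ∈ S.star e, s.X T' ≤ ∑ _e ∈ S.ed T, (1 : ℝ) :=
      Finset.sum_le_sum fun e _ => h.valid.W1 e
    rw [Finset.sum_const, h.good.card_ed T] at h4
    simpa using h4
  have h3 := h.theta_o_le hT
  unfold Sys.o at h3
  nlinarith [h.θ0]

end Sys.Ctx

end

end F1
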