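import Mathlib
import Pool.Agent.F1.Statements

/-!
# Project F1, row F6: the one-bite lemma from its components

The seven component estimates and the validity statement give one outcome of positive weight at
which a given nonnegative linear functional of the seven quantities is at most its expected value.
-/

set_option autoImplicit false
set_option linter.unusedSectionVars false

namespace F1.Bite

open Finset NWC

theorem bite (hV : ValidStatement) (hC : ∀ k, Comp k) : BiteStatement := by
  intro J A hA
  choose c hc1 hc using fun k => hC k J A hA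
  have hc0 : ∀ k, 0 ≤ c k := fun k => le_trans zero_le_one (hc1 k)
  have hle : ∀ k, c k ≤ ∑ j, c j := fun k =>
    Finset.single_le_sum (f := c) (fun j _ => hc0 j) (Finset.mem_univ k)
  refine ⟨∑ j, c j, le_trans (hc1 0) (hle 0), ?_⟩
  intro ι τ _ _ _ _ S E₀ θ B δ η s hctx hη l hl
  obtain ⟨hPW, hval⟩ := hV ι τ S J E₀ θ A B δ s hctx
  obtain ⟨ω, hω, hle'⟩ := exists_le_ex_pos hPW
    (f := fun ω => ∑ k, l k * S.vec E₀ A (S.nxt θ A s ω) k)
  refine ⟨S.nxt θ A s ω, hval ω hω, le_trans hle' ?_⟩
  rw [ex_sum]
  refine Finset.sum_le_sum fun k _ => ?_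
  rw [ex_mul_left]
  exact mul_le_mul_of_nonneg_left (hc k _ (hle k) ι τ S E₀ θ B δ η s hctx hη) (hl k)

/-- the form of the plan (the nonnegativity of the quantities is not needed) -/
theorem bite' (hV : ValidStatement) (_hN : VecNonneg) (hC : ∀ k, Comp k) : BiteStatement :=
  bite hV hC

end F1.Bite
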