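import Pool.Agent.F1.Statements
import Pool.Agent.NW.NibbleOfLin
import Pool.Agent.H6.Abund.Farkas

/-!
# Project F1, module F13: bounded weights in an arbitrary host

Linear programming duality and the triangle removal lemma.
-/

set_option autoImplicit false
set_option linter.unusedSectionVars false

namespace F1

open Finset

namespace Bdd

/-! ## Linear programming -/

/-- an alternative for linear programs -/
theorem lp_alt {ι τ : Type} [Fintype ι] [Fintype τ] [DecidableEq ι] [DecidableEq τ]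
    (A : τ → ι → ℝ) (b : ι → ℝ) (c : τ → ℝ) (val : ℝ) :
    (∃ x : τ → ℝ, (∀ t, 0 ≤ x t) ∧ (∀ i, ∑ t, A t i * x t ≤ b i) ∧ val ≤ ∑ t, c t * x t) ∨
    ∃ (y : ι → ℝ) (q : ℝ), 0 ≤ q ∧ (∀ i, 0 ≤ y i) ∧ (∀ t, c t * q ≤ ∑ i, A t i * y i) ∧
      ∑ i, b i * y i < q * val := by
  classical
  let v : τ ⊕ ι ⊕ Unit → (ι ⊕ Unit → ℝ) := Sum.elim (fun t => Sum.elim (A t) (fun _ => c t))
    (Sum.elim (fun i => Pi.single (Sum.inl i) 1) (fun _ => -Pi.single (Sum.inr ()) 1))
  rcases Pool.Agent.H6.Abund.FarkasAux.farkas_fintype (K := ℝ) v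
    (Sum.elim b (fun _ => val)) with ⟨α, hα, hs⟩ | ⟨f, hf, hχ⟩
  · left
    refine ⟨fun t => α (Sum.inl t), fun t => hα _, ?_, ?_⟩
    · intro i
      have h1 := congrFun hs (Sum.inl i)
      rw [Finset.sum_apply, Fintype.sum_sum_type, Fintype.sum_sum_type] at h1
      simp only [v, Sum.elim_inl, Sum.elim_inr, Pi.smul_apply, smul_eq_mul, Pi.single_apply,
        Pi.neg_apply, Sum.inl.injEq, reduceCtorEq, if_false, mul_ite, mul_one, mul_zero,
        Finset.sum_ite_eq, Finset.mem_univ, if_true, neg_zero, Finset.sum_const_zero,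
        add_zero] at h1
      have h2 := hα (Sum.inr (Sum.inl i))
      have h3 : ∑ t, A t i * α (Sum.inl t) = ∑ t, α (Sum.inl t) * A t i :=
        Finset.sum_congr rfl fun t _ => mul_comm _ _
      rw [h3]
      linarith
    · have h1 := congrFun hs (Sum.inr ())
      rw [Finset.sum_apply, Fintype.sum_sum_type, Fintype.sum_sum_type] at h1
      simp only [v, Sum.elim_inl, Sum.elim_inr, Pi.smul_apply, smul_eq_mul, Pi.single_apply,
        Pi.neg_apply, reduceCtorEq, if_false, mul_zero, Finset.sum_const_zero, zero_add,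
        if_true, mul_neg, mul_one, Finset.univ_unique, Finset.sum_singleton] at h1
      have h2 := hα (Sum.inr (Sum.inr ()))
      have h3 : ∑ t, c t * α (Sum.inl t) = ∑ t, α (Sum.inl t) * c t :=
        Finset.sum_congr rfl fun t _ => mul_comm _ _
      rw [h3]
      have h4 : α (Sum.inr (Sum.inr (default : Unit))) = α (Sum.inr (Sum.inr ())) := rfl
      linarith
  · right
    have hfe : ∀ G : ι ⊕ Unit → ℝ, f G = ∑ e : ι ⊕ Unit, G e * f (Pi.single e 1) := by
      intro G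
      have h1 := LinearMap.pi_apply_eq_sum_univ f G
      rw [h1]
      refine Finset.sum_congr rfl fun e _ => ?_
      rw [smul_eq_mul]
      congr 2
      funext e'
      rw [Pi.single_apply]
      simp [eq_comm]
    refine ⟨fun i => f (Pi.single (Sum.inl i) 1), -f (Pi.single (Sum.inr ()) 1), ?_, ?_, ?_, ?_⟩
    · have h1 := hf (Sum.inr (Sum.inr ()))
      simpa [v] using h1
    · intro i
      have h1 := hf (Sum.inr (Sum.inl i))
      simpa [v] using h1
    · intro t
      have h1 := hf (Sum.inl t)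
      rw [hfe, Fintype.sum_sum_type] at h1
      simp only [v, Sum.elim_inl, Sum.elim_inr, Finset.univ_unique, Finset.sum_singleton] at h1
      have h4 : f (Pi.single (Sum.inr (default : Unit)) 1) = f (Pi.single (Sum.inr ()) 1) := rfl
      rw [h4] at h1
      linarith
    · rw [hfe, Fintype.sum_sum_type] at hχ
      simp only [Sum.elim_inl, Sum.elim_inr, Finset.univ_unique, Finset.sum_singleton] at hχ
      have h4 : f (Pi.single (Sum.inr (default : Unit)) 1) = f (Pi.single (Sum.inr ()) 1) := rfl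
      rw [h4] at hχ
      linarith

/-! ## Removal of the cheap triangles -/

variable {V : Type} [Fintype V] [DecidableEq V]

/-- the level of a pair -/
noncomputable def ty (y : Sym2 V → ℝ) (ε : ℝ) (L : ℕ) (e : Sym2 V) : Fin (L + 1) :=
  ⟨min ⌊y e / ε⌋₊ L, Nat.lt_succ_of_le (min_le_right _ _)⟩

/-- vertices of the auxiliary graph: a vertex, an index and a triple of levels -/
abbrev VV (V : Type) (L : ℕ) : Type := V × Fin 3 × (Fin 3 → Fin (L + 1))

/-- the auxiliary graph -/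
def gr (E : Finset (Sym2 V)) {L : ℕ} (τ : Sym2 V → Fin (L + 1)) (ε : ℝ) :
    SimpleGraph (VV V L) where
  Adj x x' := x.2.2 = x'.2.2 ∧ x.2.1 ≠ x'.2.1 ∧ s(x.1, x'.1) ∈ E ∧
    τ s(x.1, x'.1) = x.2.2 (-(x.2.1 + x'.2.1)) ∧ (∑ i, ((x.2.2 i : ℕ) : ℝ)) * ε < 1 - 4 * ε
  symm := ⟨by
    rintro x x' ⟨h1, h2, h3, h4, h5⟩
    refine ⟨h1.symm, h2.symm, ?_, ?_, ?_⟩
    · rw [Sym2.eq_swap]; exact h3
    · rw [Sym2.eq_swap, h4, h1, add_comm x.2.1 x'.2.1]
    · rw [← h1]; exact h5⟩
  loopless := ⟨fun x h => h.2.1 rfl⟩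

/-- the level triple of an ordered triple of vertices -/
def tp {L : ℕ} (τ : Sym2 V → Fin (L + 1)) (p : Fin 3 → V) : Fin 3 → Fin (L + 1) :=
  fun k => τ s(p (k + 1), p (k + 2))

/-- the clique of an ordered triple of vertices -/
def cl {L : ℕ} (τ : Sym2 V → Fin (L + 1)) (p : Fin 3 → V) : Finset (VV V L) :=
  univ.image (fun i => (p i, i, tp τ p))

/-- triples with large cap price -/
noncomputable def big (E : Finset (Sym2 V)) (z : Tri V → ℝ) (ε : ℝ) : Finset (Tri V) :=
  univ.filter (fun T => NW.edg T.1 ⊆ E ∧ ε ≤ z T)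

/-- their orderings -/
noncomputable def ords (E : Finset (Sym2 V)) (z : Tri V → ℝ) (ε : ℝ) : Finset (Fin 3 → V) :=
  (big E z ε).biUnion (fun T => Fintype.piFinset (fun _ => T.1))

theorem card_ords (E : Finset (Sym2 V)) {z : Tri V → ℝ} {ε : ℝ} (hz : ∀ T, 0 ≤ z T)
    (hε : 0 < ε) : ((ords E z ε).card : ℝ) ≤ 27 * (∑ T, z T) / ε := by
  have h1 : (ords E z ε).card ≤ (big E z ε).card * 27 := by
    refine Finset.card_biUnion_le_card_mul _ _ _ fun T _ => ?_
    rw [Fintype.card_piFinset]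
    simp [T.2]
  have h2 : ((big E z ε).card : ℝ) * ε ≤ ∑ T, z T := by
    calc ((big E z ε).card : ℝ) * ε = ∑ T ∈ big E z ε, ε := by
          rw [Finset.sum_const, nsmul_eq_mul]
      _ ≤ ∑ T ∈ big E z ε, z T := Finset.sum_le_sum fun T hT => (mem_filter.1 hT).2.2
      _ ≤ ∑ T, z T := Finset.sum_le_sum_of_subset_of_nonneg (subset_univ _) fun T _ _ => hz T
  rw [le_div_iff₀ hε]
  have h3 : ((ords E z ε).card : ℝ) ≤ (big E z ε).card * 27 := by exact_mod_cast h1
  nlinarith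

theorem sum_edg (y : Sym2 V → ℝ) {a b c : V} (hab : a ≠ b) (hbc : b ≠ c) (hac : a ≠ c) :
    ∑ e ∈ NW.edg ({a, b, c} : Finset V), y e = y s(a, b) + y s(b, c) + y s(a, c) := by
  rw [NW.edg_triple hab hbc hac]
  unfold NW.tri
  have h1 : s(a, b) ∉ ({s(b, c), s(a, c)} : Finset (Sym2 V)) := by
    simp only [Finset.mem_insert, Finset.mem_singleton, Sym2.eq_iff]
    rintro ((⟨h, _⟩ | ⟨h, _⟩) | (⟨_, h⟩ | ⟨h, _⟩))
    · exact hab h
    · exact hac h
    · exact hbc h
    · exact hac h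
  have h2 : s(b, c) ∉ ({s(a, c)} : Finset (Sym2 V)) := by
    simp only [Finset.mem_singleton, Sym2.eq_iff]
    rintro (⟨h, _⟩ | ⟨h, _⟩)
    · exact hab h.symm
    · exact hbc h
  rw [Finset.sum_insert h1, Finset.sum_insert h2, Finset.sum_singleton]
  ring

section

variable {E : Finset (Sym2 V)} {y : Sym2 V → ℝ} {z : Tri V → ℝ} {ε : ℝ} {L : ℕ}

theorem clique_mem (hE : NW.NL E) (hε : 0 < ε) (hL : 1 ≤ (L : ℝ) * ε)
    (hyz : ∀ T : Tri V, NW.edg T.1 ⊆ E → 1 ≤ ∑ e ∈ NW.edg T.1, y e + z T)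
    {a b c : V} {t : Fin 3 → Fin (L + 1)}
    (h01 : (gr E (ty y ε L) ε).Adj (a, 0, t) (b, 1, t))
    (h02 : (gr E (ty y ε L) ε).Adj (a, 0, t) (c, 2, t))
    (h12 : (gr E (ty y ε L) ε).Adj (b, 1, t) (c, 2, t)) :
    ({(a, 0, t), (b, 1, t), (c, 2, t)} : Finset (VV V L)) ∈
      (ords E z ε).image (cl (ty y ε L)) := by
  obtain ⟨-, -, e01, t01, hs⟩ := h01
  obtain ⟨-, -, e02, t02, -⟩ := h02
  obtain ⟨-, -, e12, t12, -⟩ := h12
  simp only at e01 t01 hs e02 t02 e12 t12
  have d01 : -((0 : Fin 3) + 1) = 2 := by decide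
  have d02 : -((0 : Fin 3) + 2) = 1 := by decide
  have d12 : -((1 : Fin 3) + 2) = 0 := by decide
  rw [d01] at t01
  rw [d02] at t02
  rw [d12] at t12
  have hab : a ≠ b := by rintro rfl; exact hE _ e01 (by simp)
  have hac : a ≠ c := by rintro rfl; exact hE _ e02 (by simp)
  have hbc : b ≠ c := by rintro rfl; exact hE _ e12 (by simp)
  refine Finset.mem_image.2 ⟨![a, b, c], ?_, ?_⟩
  · have hc : ({a, b, c} : Finset V).card = 3 := Finset.card_eq_three.2 ⟨a, b, c, hab, hac, hbc, rfl⟩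
    have hsub : NW.edg ({a, b, c} : Finset V) ⊆ E := by
      rw [NW.edg_triple hab hbc hac]
      intro e he
      rcases NW.mem_tri.1 he with rfl | rfl | rfl <;> assumption
    refine Finset.mem_biUnion.2 ⟨⟨{a, b, c}, hc⟩, Finset.mem_filter.2 ⟨mem_univ _, hsub, ?_⟩, ?_⟩
    · have h1 := hyz ⟨{a, b, c}, hc⟩ hsub
      rw [sum_edg y hab hbc hac] at h1
      have key : ∀ e : Sym2 V, (∃ i, ty y ε L e = t i) → y e < ((ty y ε L e : ℕ) + 1) * ε := by
        rintro e ⟨i, hi⟩
        have h2 : ((ty y ε L e : ℕ) : ℝ) * ε < 1 - 4 * ε := by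
          refine lt_of_le_of_lt ?_ hs
          rw [hi]
          refine mul_le_mul_of_nonneg_right ?_ hε.le
          exact Finset.single_le_sum (f := fun i => ((t i : ℕ) : ℝ)) (fun i _ => by positivity)
            (mem_univ i)
        have h3 : (ty y ε L e : ℕ) ≠ L := by
          intro h
          rw [h] at h2
          linarith
        have h4 : (ty y ε L e : ℕ) = ⌊y e / ε⌋₊ := by
          unfold ty at h3 ⊢
          simp only at h3 ⊢
          omega
        rw [h4, ← div_lt_iff₀ hε]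
        exact Nat.lt_floor_add_one _
      have k1 := key s(a, b) ⟨2, t01⟩
      have k2 := key s(b, c) ⟨0, t12⟩
      have k3 := key s(a, c) ⟨1, t02⟩
      rw [t01] at k1
      rw [t12] at k2
      rw [t02] at k3
      rw [Fin.sum_univ_three] at hs
      linarith
    · rw [Fintype.mem_piFinset]
      intro i
      fin_cases i <;> simp
  · have ht : tp (ty y ε L) ![a, b, c] = t := by
      funext k
      fin_cases k
      · exact t12
      · show ty y ε L s(c, a) = _
        rw [Sym2.eq_swap]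
        exact t02
      · exact t01
    unfold cl
    rw [ht]
    ext x
    simp only [Finset.mem_image, Finset.mem_univ, true_and, Finset.mem_insert,
      Finset.mem_singleton, Fin.exists_fin_succ, Fin.exists_fin_zero, or_false]
    simp [eq_comm]

theorem cliqueFinset_subset (hE : NW.NL E) (hε : 0 < ε) (hL : 1 ≤ (L : ℝ) * ε)
    (hyz : ∀ T : Tri V, NW.edg T.1 ⊆ E → 1 ≤ ∑ e ∈ NW.edg T.1, y e + z T)
    [DecidableRel (gr E (ty y ε L) ε).Adj] :
    (gr E (ty y ε L) ε).cliqueFinset 3 ⊆ (ords E z ε).image (cl (ty y ε L)) := by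
  intro s hs
  rw [SimpleGraph.mem_cliqueFinset_iff, SimpleGraph.is3Clique_iff] at hs
  obtain ⟨x, x', x'', h1, h2, h3, rfl⟩ := hs
  obtain ⟨a, i, t⟩ := x
  obtain ⟨b, j, t'⟩ := x'
  obtain ⟨c, k, t''⟩ := x''
  obtain rfl : t = t' := h1.1
  obtain rfl : t = t'' := h2.1
  have hij : i ≠ j := h1.2.1
  have hik : i ≠ k := h2.2.1
  have hjk : j ≠ k := h3.2.1
  have cm := fun (a b c : V) (h01 : (gr E (ty y ε L) ε).Adj (a, 0, t) (b, 1, t))
    (h02 : (gr E (ty y ε L) ε).Adj (a, 0, t) (c, 2, t))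
    (h12 : (gr E (ty y ε L) ε).Adj (b, 1, t) (c, 2, t)) =>
      clique_mem (z := z) hE hε hL hyz h01 h02 h12
  fin_cases i <;> fin_cases j <;> fin_cases k <;>
    first
    | exact absurd rfl hij
    | exact absurd rfl hik
    | exact absurd rfl hjk
    | skip
  · exact cm a b c h1 h2 h3
  · have h := cm a c b h2 h1 h3.symm
    rwa [Finset.pair_comm] at h
  · have h := cm b a c h1.symm h3 h2
    rwa [Finset.insert_comm] at h
  · have h := cm c a b h2.symm h3.symm h1
    have e : ∀ p q r : VV V L, ({p, q, r} : Finset (VV V L)) = {q, r, p} := by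
      intro p q r; ext x; simp only [Finset.mem_insert, Finset.mem_singleton]; tauto
    rwa [e] at h
  · have h := cm b c a h3 h1.symm h2.symm
    have e : ∀ p q r : VV V L, ({p, q, r} : Finset (VV V L)) = {r, p, q} := by
      intro p q r; ext x; simp only [Finset.mem_insert, Finset.mem_singleton]; tauto
    rwa [e] at h
  · have h := cm c b a h3.symm h2.symm h1.symm
    have e : ∀ p q r : VV V L, ({p, q, r} : Finset (VV V L)) = {r, q, p} := by
      intro p q r; ext x; simp only [Finset.mem_insert, Finset.mem_singleton]; tauto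
    rwa [e] at h

theorem card_VV (V : Type) [Fintype V] (L : ℕ) :
    Fintype.card (VV V L) = Fintype.card V * (3 * (L + 1) ^ 3) := by
  simp [VV]

/-- few edges hit all triangles of small price -/
theorem removal (ε ε' : ℝ) (hε : 0 < ε) (hε' : 0 < ε') : ∃ c : ℝ, 0 < c ∧
    ∀ (V : Type) [Fintype V] [DecidableEq V] (E : Finset (Sym2 V)) (y : Sym2 V → ℝ)
      (z : Tri V → ℝ), NW.NL E → 1 ≤ Fintype.card V → (∀ e, 0 ≤ y e) → (∀ T, 0 ≤ z T) →
      (∀ T : Tri V, NW.edg T.1 ⊆ E → 1 ≤ ∑ e ∈ NW.edg T.1, y e + z T) →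
      ∑ T, z T ≤ c * (Fintype.card V : ℝ) ^ 3 →
      ∃ R : Finset (Sym2 V), (R.card : ℝ) ≤ ε' * (Fintype.card V : ℝ) ^ 2 ∧
        ∀ T : Tri V, NW.edg T.1 ⊆ E → ∑ e ∈ NW.edg T.1, y e < 1 - 4 * ε →
          ¬ Disjoint (NW.edg T.1) R := by
  classical
  obtain ⟨L, hL⟩ : ∃ L : ℕ, 1 ≤ (L : ℝ) * ε := by
    obtain ⟨L, hL⟩ := exists_nat_ge (1 / ε)
    exact ⟨L, by rwa [div_le_iff₀ hε] at hL⟩
  set q : ℝ := 3 * ((L : ℝ) + 1) ^ 3 with hq
  have hq3 : 3 ≤ q := by
    have : (1 : ℝ) ≤ ((L : ℝ) + 1) ^ 3 := one_le_pow₀ (by linarith [Nat.cast_nonneg (α := ℝ) L])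
    linarith
  set ε₁ : ℝ := ε' / q ^ 2 with hε₁
  have hε₁0 : 0 < ε₁ := by positivity
  set β := SimpleGraph.triangleRemovalBound ε₁ with hβ
  have hβ0 : 0 < β := SimpleGraph.triangleRemovalBound_pos hε₁0
  refine ⟨β * ε / 2, by positivity, ?_⟩
  intro V _ _ E y z hE hV y0 z0 hyz hz
  have hn : (1 : ℝ) ≤ Fintype.card V := by exact_mod_cast hV
  set n : ℝ := (Fintype.card V : ℝ) with hnn
  have hVV : (Fintype.card (VV V L) : ℝ) = n * q := by
    rw [card_VV]; push_cast; rw [hq, hnn]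
  let G := gr E (ty y ε L) ε
  have hcl : ((G.cliqueFinset 3).card : ℝ) ≤ 27 * (∑ T, z T) / ε := by
    refine le_trans ?_ (card_ords E z0 hε)
    have h1 := (Finset.card_le_card (cliqueFinset_subset (z := z) (L := L) hE hε hL hyz)).trans
      Finset.card_image_le
    exact_mod_cast h1
  have hlt : ((G.cliqueFinset 3).card : ℝ) < β * (Fintype.card (VV V L) : ℝ) ^ 3 := by
    refine lt_of_le_of_lt hcl ?_
    rw [hVV, div_lt_iff₀ hε]
    have h1 : 27 * (∑ T, z T) ≤ 27 * (β * ε / 2 * n ^ 3) := by linarith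
    refine lt_of_le_of_lt h1 ?_
    have h2 : (27 : ℝ) ≤ q ^ 3 := by
      calc (27 : ℝ) = 3 ^ 3 := by norm_num
        _ ≤ q ^ 3 := pow_le_pow_left₀ (by norm_num) hq3 3
    have h3 : 0 < β * ε * n ^ 3 := by positivity
    have h4 : β * (n * q) ^ 3 * ε = β * ε * n ^ 3 * q ^ 3 := by ring
    rw [h4]
    nlinarith
  obtain ⟨G', hG', hdec, hcard, hfree⟩ := SimpleGraph.triangle_removal hlt
  refine ⟨(G.edgeFinset \ G'.edgeFinset).image (Sym2.map Prod.fst), ?_, ?_⟩
  · have h1 : (((G.edgeFinset \ G'.edgeFinset).image (Sym2.map Prod.fst)).card : ℝ) ≤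
        ((G.edgeFinset \ G'.edgeFinset).card : ℝ) := by exact_mod_cast Finset.card_image_le
    refine h1.trans ?_
    rw [Finset.cast_card_sdiff (SimpleGraph.edgeFinset_mono hG')]
    refine hcard.le.trans ?_
    push_cast
    rw [hVV, hε₁]
    have h2 : q ≠ 0 := by linarith
    field_simp
    exact le_rfl
  · rintro ⟨T, hT⟩ hTE hTy
    obtain ⟨a, b, c, hab, hac, hbc, rfl⟩ := Finset.card_eq_three.1 hT
    simp only at hTE hTy ⊢
    rw [sum_edg y hab hbc hac] at hTy
    rw [NW.edg_triple hab hbc hac] at hTE ⊢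
    have e01 : s(a, b) ∈ E := hTE (NW.mem_tri.2 (Or.inl rfl))
    have e12 : s(b, c) ∈ E := hTE (NW.mem_tri.2 (Or.inr (Or.inl rfl)))
    have e02 : s(a, c) ∈ E := hTE (NW.mem_tri.2 (Or.inr (Or.inr rfl)))
    let t : Fin 3 → Fin (L + 1) := ![ty y ε L s(b, c), ty y ε L s(a, c), ty y ε L s(a, b)]
    have hty : ∀ e : Sym2 V, ((ty y ε L e : ℕ) : ℝ) * ε ≤ y e := by
      intro e
      rw [← le_div_iff₀ hε]
      refine le_trans ?_ (Nat.floor_le (div_nonneg (y0 e) hε.le))
      exact_mod_cast min_le_left _ _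
    have hsum : (∑ i, ((t i : ℕ) : ℝ)) * ε < 1 - 4 * ε := by
      refine lt_of_le_of_lt ?_ hTy
      rw [Fin.sum_univ_three]
      have h1 := hty s(a, b)
      have h2 := hty s(b, c)
      have h3 := hty s(a, c)
      simp only [t, Matrix.cons_val_zero, Matrix.cons_val_one, Matrix.cons_val]
      linarith
    have g01 : G.Adj (a, 0, t) (b, 1, t) := ⟨rfl, by simp, e01, rfl, hsum⟩
    have g02 : G.Adj (a, 0, t) (c, 2, t) := ⟨rfl, by simp, e02, rfl, hsum⟩
    have g12 : G.Adj (b, 1, t) (c, 2, t) := by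
      refine ⟨rfl, by simp, e12, ?_, hsum⟩
      have d12 : -((1 : Fin 3) + 2) = 0 := by decide
      simp only [d12]
      rfl
    have hno : ¬ (G'.Adj (a, 0, t) (b, 1, t) ∧ G'.Adj (a, 0, t) (c, 2, t) ∧
        G'.Adj (b, 1, t) (c, 2, t)) := by
      intro h
      exact hfree _ (SimpleGraph.is3Clique_iff.2 ⟨_, _, _, h.1, h.2.1, h.2.2, rfl⟩)
    have hin : ∀ x x' : VV V L, G.Adj x x' → ¬ G'.Adj x x' →
        s(x.1, x'.1) ∈ (G.edgeFinset \ G'.edgeFinset).image (Sym2.map Prod.fst) := by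
      intro x x' h1 h2
      refine Finset.mem_image.2 ⟨s(x, x'), ?_, rfl⟩
      rw [Finset.mem_sdiff, SimpleGraph.mem_edgeFinset, SimpleGraph.mem_edgeFinset]
      exact ⟨h1, h2⟩
    rw [Finset.not_disjoint_iff]
    by_cases h1 : G'.Adj (a, 0, t) (b, 1, t)
    · by_cases h2 : G'.Adj (a, 0, t) (c, 2, t)
      · exact ⟨s(b, c), NW.mem_tri.2 (Or.inr (Or.inl rfl)), hin _ _ g12 fun h3 => hno ⟨h1, h2, h3⟩⟩
      · exact ⟨s(a, c), NW.mem_tri.2 (Or.inr (Or.inr rfl)), hin _ _ g02 h2⟩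
    · exact ⟨s(a, b), NW.mem_tri.2 (Or.inl rfl), hin _ _ g01 h1⟩

end

/-! ## Loads -/

section

variable {w : Tri V → ℝ}

theorem sum_mul_edg (w : Tri V → ℝ) (f : Sym2 V → ℝ) :
    ∑ T, w T * ∑ e ∈ NW.edg T.1, f e =
      ∑ e, f e * ∑ T ∈ univ.filter (fun T : Tri V => e ∈ NW.edg T.1), w T := by
  simp only [Finset.mul_sum]
  rw [Finset.sum_comm' (t' := univ) (s' := fun e => univ.filter (fun T : Tri V => e ∈ NW.edg T.1))
    (by intro T e; simp)]
  exact Finset.sum_congr rfl fun e _ => Finset.sum_congr rfl fun T _ => mul_comm _ _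

theorem sum_mul_edg_le (f : Sym2 V → ℝ) (hf : ∀ e, 0 ≤ f e)
    (wl : ∀ e, ∑ T ∈ univ.filter (fun T : Tri V => e ∈ NW.edg T.1), w T ≤ 1) :
    ∑ T, w T * ∑ e ∈ NW.edg T.1, f e ≤ ∑ e, f e := by
  rw [sum_mul_edg]
  refine Finset.sum_le_sum fun e _ => ?_
  exact mul_le_of_le_one_right (hf e) (wl e)

theorem sum_w_le (hn : 1 ≤ Fintype.card V)
    (wl : ∀ e, ∑ T ∈ univ.filter (fun T : Tri V => e ∈ NW.edg T.1), w T ≤ 1) :
    ∑ T, w T ≤ (Fintype.card V : ℝ) ^ 2 / 3 := by
  have h1 := sum_mul_edg_le (w := w) (fun _ => 1) (fun _ => zero_le_one) wl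
  have h2 : ∑ T, w T * ∑ e ∈ NW.edg T.1, (1 : ℝ) = 3 * ∑ T, w T := by
    rw [Finset.mul_sum]
    refine Finset.sum_congr rfl fun T _ => ?_
    rw [Finset.sum_const, NW.card_edg_three T.2]
    simp [mul_comm]
  have h3 : ∑ e : Sym2 V, (1 : ℝ) ≤ (Fintype.card V : ℝ) ^ 2 := by
    rw [Finset.sum_const, Finset.card_univ, nsmul_eq_mul, mul_one, Sym2.card,
      Nat.choose_two_right]
    have h4 : (Fintype.card V + 1) * (Fintype.card V + 1 - 1) / 2 ≤ Fintype.card V ^ 2 := by
      rw [Nat.add_sub_cancel]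
      refine Nat.div_le_of_le_mul ?_
      nlinarith
    exact_mod_cast h4
  rw [h2] at h1
  linarith

end

end Bdd

open Bdd in
/-- a cap `K / n` on the weights costs at most `γ n ^ 2` -/
theorem bounded : BoundedStatement := by
  classical
  intro γ hγ
  obtain ⟨c, hc, hrem⟩ := removal (3 * γ / 8) (γ / 2) (by positivity) (by positivity)
  refine ⟨1 / c, by positivity, 1, ?_⟩
  intro V _ _ E hE hn w w0 wE wl
  have hn1 : (1 : ℝ) ≤ Fintype.card V := by exact_mod_cast hn
  set n : ℝ := (Fintype.card V : ℝ) with hnn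
  have hn0 : 0 < n := by linarith
  have hw3 : ∑ T, w T ≤ n ^ 2 / 3 := sum_w_le hn wl
  let A : Tri V → Sym2 V ⊕ Tri V → ℝ := fun T =>
    Sum.elim (fun e => if NW.edg T.1 ⊆ E ∧ e ∈ NW.edg T.1 then 1 else 0)
      (fun T' => if NW.edg T.1 ⊆ E ∧ T' = T then 1 else 0)
  let b : Sym2 V ⊕ Tri V → ℝ := Sum.elim (fun _ => 1) (fun _ => 1 / c / n)
  let cc : Tri V → ℝ := fun T => if NW.edg T.1 ⊆ E then 1 else 0
  rcases lp_alt A b cc (∑ T, w T - γ * n ^ 2) with ⟨x, x0, hx, hv⟩ | ⟨y, q, q0, y0, hy, hlt⟩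
  · refine ⟨fun T => if NW.edg T.1 ⊆ E then x T else 0, ?_, ?_, ?_, ?_, ?_⟩
    · intro T
      beta_reduce
      split_ifs
      · exact x0 T
      · exact le_rfl
    · intro T
      have h1 := hx (Sum.inr T)
      simp only [A, b, Sum.elim_inr, ite_mul, one_mul, zero_mul] at h1
      have h2 : ∑ t : Tri V, (if NW.edg t.1 ⊆ E ∧ T = t then x t else 0) =
          if NW.edg T.1 ⊆ E then x T else 0 := by
        rw [Finset.sum_eq_single T]
        · simp
        · intro t _ ht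
          rw [if_neg]
          rintro ⟨_, rfl⟩
          exact ht rfl
        · intro h; exact absurd (mem_univ _) h
      rwa [h2] at h1
    · intro T hT
      by_contra h
      simp [h] at hT
    · intro e
      have h1 := hx (Sum.inl e)
      simp only [A, b, Sum.elim_inl, ite_mul, one_mul, zero_mul] at h1
      refine le_trans (le_of_eq ?_) h1
      rw [Finset.sum_filter]
      refine Finset.sum_congr rfl fun T _ => ?_
      by_cases h2 : NW.edg T.1 ⊆ E <;> by_cases h3 : e ∈ NW.edg T.1 <;> simp [h2, h3]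
    · simp only [cc, ite_mul, one_mul, zero_mul] at hv
      linarith
  · exfalso
    have hb0 : ∀ i, 0 ≤ b i * y i := by
      intro i
      refine mul_nonneg ?_ (y0 i)
      rcases i with e | T
      · exact zero_le_one
      · show 0 ≤ 1 / c / n
        positivity
    have hq : 0 < q := by
      rcases q0.eq_or_lt with h | h
      · exfalso
        rw [← h, zero_mul] at hlt
        exact absurd (Finset.sum_nonneg fun i _ => hb0 i) (not_le.2 hlt)
      · exact h
    let y' : Sym2 V → ℝ := fun e => y (Sum.inl e) / q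
    let z : Tri V → ℝ := fun T => y (Sum.inr T) / q
    have y'0 : ∀ e, 0 ≤ y' e := fun e => div_nonneg (y0 _) q0
    have z0 : ∀ T, 0 ≤ z T := fun T => div_nonneg (y0 _) q0
    have hyz : ∀ T : Tri V, NW.edg T.1 ⊆ E → 1 ≤ ∑ e ∈ NW.edg T.1, y' e + z T := by
      intro T hT
      have h1 := hy T
      rw [Fintype.sum_sum_type] at h1
      simp only [A, cc, Sum.elim_inl, Sum.elim_inr, hT, true_and, if_true, ite_mul, one_mul,
        zero_mul, Finset.sum_ite_eq', Finset.mem_univ] at h1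
      rw [← Finset.sum_filter, Finset.filter_mem_eq_inter, Finset.univ_inter] at h1
      have h2 : ∑ e ∈ NW.edg T.1, y' e + z T =
          (∑ e ∈ NW.edg T.1, y (Sum.inl e) + y (Sum.inr T)) / q := by
        rw [add_div, Finset.sum_div]
      rw [h2, le_div_iff₀ hq]
      linarith
    have hval : ∑ e, y' e + 1 / c / n * ∑ T, z T < ∑ T, w T - γ * n ^ 2 := by
      rw [Fintype.sum_sum_type] at hlt
      simp only [b, Sum.elim_inl, Sum.elim_inr, one_mul] at hlt
      rw [← Finset.mul_sum] at hlt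
      have h2 : ∑ e, y' e + 1 / c / n * ∑ T, z T =
          (∑ e, y (Sum.inl e) + 1 / c / n * ∑ T, y (Sum.inr T)) / q := by
        simp only [y', z]
        rw [← Finset.sum_div, ← Finset.sum_div]
        ring
      rw [h2, div_lt_iff₀ hq]
      linarith
    have hy's : 0 ≤ ∑ e, y' e := Finset.sum_nonneg fun e _ => y'0 e
    have hzs : 0 ≤ ∑ T, z T := Finset.sum_nonneg fun T _ => z0 T
    have hzc : ∑ T, z T ≤ c * n ^ 3 := by
      have h1 : 1 / c / n * ∑ T, z T ≤ n ^ 2 := by nlinarith [sq_nonneg n]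
      have h2 : 1 / c / n * ∑ T, z T = (∑ T, z T) / (c * n) := by
        field_simp
      rw [h2, div_le_iff₀ (by positivity)] at h1
      linarith [show n ^ 2 * (c * n) = c * n ^ 3 by ring]
    obtain ⟨R, hR, hRT⟩ := hrem V E y' z hE hn y'0 z0 hyz hzc
    have hR0 : ∀ e, 0 ≤ y' e + (if e ∈ R then (1 : ℝ) else 0) := fun e =>
      add_nonneg (y'0 e) (by split_ifs <;> norm_num)
    have h1 := sum_mul_edg_le (w := w) (fun e => y' e + (if e ∈ R then (1 : ℝ) else 0)) hR0 wl
    have h2 : ∑ e : Sym2 V, (y' e + (if e ∈ R then (1 : ℝ) else 0)) = ∑ e, y' e + R.card := by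
      rw [Finset.sum_add_distrib]
      congr 1
      rw [← Finset.sum_filter, Finset.filter_mem_eq_inter, Finset.univ_inter]
      simp
    have h3 : ∀ T, w T * (1 - 4 * (3 * γ / 8)) ≤
        w T * ∑ e ∈ NW.edg T.1, (y' e + (if e ∈ R then (1 : ℝ) else 0)) := by
      intro T
      rcases (w0 T).eq_or_lt with h | h
      · rw [← h]; simp
      · refine mul_le_mul_of_nonneg_left ?_ (w0 T)
        have hTE := wE T h
        by_cases h4 : 1 - 4 * (3 * γ / 8) ≤ ∑ e ∈ NW.edg T.1, y' e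
        · refine h4.trans (Finset.sum_le_sum fun e _ => ?_)
          split_ifs <;> linarith
        · have h5 := hRT T hTE (not_le.1 h4)
          rw [Finset.not_disjoint_iff] at h5
          obtain ⟨e, he, heR⟩ := h5
          have h6 : y' e + (if e ∈ R then (1 : ℝ) else 0) ≤
              ∑ e ∈ NW.edg T.1, (y' e + (if e ∈ R then (1 : ℝ) else 0)) :=
            Finset.single_le_sum (f := fun e => y' e + (if e ∈ R then (1 : ℝ) else 0))
              (fun e _ => hR0 e) he
          rw [if_pos heR] at h6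
          have := y'0 e
          linarith
    have h4 : (∑ T, w T) * (1 - 4 * (3 * γ / 8)) ≤
        ∑ T, w T * ∑ e ∈ NW.edg T.1, (y' e + (if e ∈ R then (1 : ℝ) else 0)) := by
      rw [Finset.sum_mul]
      exact Finset.sum_le_sum fun T _ => h3 T
    rw [h2] at h1
    have h5 : 0 ≤ 1 / c / n * ∑ T, z T := by positivity
    have h6 := h4.trans h1
    nlinarith

end F1
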