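import Mathlib
import Pool.Agent.F1.Statements
import Pool.Agent.F1.Basic

/-!
# Project F1: the components 0, 1 and 2 of the one-bite lemma

`Comp 0`: the number of alive elements, `Comp 1`: the number of elements lost without being
covered, `Comp 2`: the number of pairs of chosen hyperedges that meet.
-/

set_option autoImplicit false
set_option linter.unusedSectionVars false

namespace F1

open Finset NWC

namespace C012

variable {ι τ : Type} [Fintype ι] [Fintype τ] [DecidableEq ι] [DecidableEq τ]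
variable {S : Sys ι τ} {J : ℕ} {E₀ : Finset ι} {θ A B δ : ℝ} {s : St ι τ}

theorem card_filter_real {α : Type*} (G : Finset α) (p : α → Prop) [DecidablePred p] :
    ((G.filter p).card : ℝ) = ∑ a ∈ G, if p a then (1 : ℝ) else 0 := by
  rw [Finset.card_filter]
  push_cast
  rfl

/-- one coin -/
theorem ex_coin (h : S.Ctx J E₀ θ A B δ s) (c : τ ⊕ ι) :
    Ex (S.wt θ A s) (fun ω => if ω c = true then (1 : ℝ) else 0) = S.pc θ A s c := by
  have h1 := ex_on (p := S.pc θ A s) h.pc_nonneg h.pc_le_one {c}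
  rw [Finset.prod_singleton] at h1
  rw [← h1]
  unfold Sys.wt
  have e1 : (fun ω : τ ⊕ ι → Bool => if ω c = true then (1 : ℝ) else 0)
      = fun ω => if on {c} ω then (1 : ℝ) else 0 := by
    funext ω
    by_cases hc : ω c = true
    · have : on {c} ω := by
        intro d hd
        rw [Finset.mem_singleton.1 hd]
        exact hc
      rw [if_pos hc, if_pos this]
    · have : ¬ on {c} ω := fun h2 => hc (h2 c (Finset.mem_singleton_self c))
      rw [if_neg hc, if_neg this]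
  rw [e1]

/-- two coins -/
theorem ex_coin_two (h : S.Ctx J E₀ θ A B δ s) {T T' : τ} (hT : T ≠ T') :
    Ex (S.wt θ A s) (fun ω => if T ∈ newM ω ∧ T' ∈ newM ω then (1 : ℝ) else 0)
      = θ ^ 2 * (S.Xh θ A s T * S.Xh θ A s T') := by
  have h1 := ex_on (p := S.pc θ A s) h.pc_nonneg h.pc_le_one {Sum.inl T, Sum.inl T'}
  have hne : (Sum.inl T : τ ⊕ ι) ≠ Sum.inl T' := fun h2 => hT (Sum.inl.inj h2)
  rw [Finset.prod_pair hne] at h1
  have e2 : S.pc θ A s (Sum.inl T) * S.pc θ A s (Sum.inl T')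
      = θ ^ 2 * (S.Xh θ A s T * S.Xh θ A s T') := by
    have a1 : S.pc θ A s (Sum.inl T) = θ * S.Xh θ A s T := rfl
    have a2 : S.pc θ A s (Sum.inl T') = θ * S.Xh θ A s T' := rfl
    rw [a1, a2]
    ring
  rw [← e2, ← h1]
  unfold Sys.wt
  have e1 : (fun ω : τ ⊕ ι → Bool => if T ∈ newM ω ∧ T' ∈ newM ω then (1 : ℝ) else 0)
      = fun ω => if on {Sum.inl T, Sum.inl T'} ω then (1 : ℝ) else 0 := by
    funext ω
    by_cases hc : T ∈ newM ω ∧ T' ∈ newM ω
    · have : on {Sum.inl T, Sum.inl T'} ω := by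
        intro d hd
        rw [Finset.mem_insert, Finset.mem_singleton] at hd
        rcases hd with rfl | rfl
        · simpa [newM] using hc.1
        · simpa [newM] using hc.2
      rw [if_pos hc, if_pos this]
    · have : ¬ on {Sum.inl T, Sum.inl T'} ω := by
        intro h2
        refine hc ⟨?_, ?_⟩
        · have := h2 (Sum.inl T) (Finset.mem_insert_self _ _)
          simpa [newM] using this
        · have := h2 (Sum.inl T') (Finset.mem_insert_of_mem (Finset.mem_singleton_self _))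
          simpa [newM] using this
      rw [if_neg hc, if_neg this]
  rw [e1]

/-- every alive element survives with probability `1 - θ` -/
theorem ex_E (h : S.Ctx J E₀ θ A B δ s) :
    Ex (S.wt θ A s) (fun ω => ((S.nxt θ A s ω).E.card : ℝ)) = (1 - θ) * (s.E.card : ℝ) := by
  have e1 : (fun ω => ((S.nxt θ A s ω).E.card : ℝ))
      = fun ω => ∑ e ∈ s.E, if off (S.st e) ω then (1 : ℝ) else 0 := by
    funext ω
    exact card_filter_real s.E (fun e => off (S.st e) ω)
  rw [e1, ex_sum]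
  have e2 : ∀ e ∈ s.E, Ex (S.wt θ A s) (fun ω => if off (S.st e) ω then (1 : ℝ) else 0)
      = 1 - θ := by
    intro e he
    have h1 := ex_off (p := S.pc θ A s) h.pc_nonneg h.pc_le_one (S.st e)
    unfold Sys.wt
    rw [h1]
    exact h.po_st he
  rw [Finset.sum_congr rfl e2, Finset.sum_const, nsmul_eq_mul]
  ring

/-! ## Lost elements -/

theorem kil_le (ω : τ ⊕ ι → Bool) :
    (S.kil E₀ (S.nxt θ A s ω) : ℝ) ≤ (S.kil E₀ s : ℝ) +
      ∑ e ∈ s.E, if ω (Sum.inr e) = true then (1 : ℝ) else 0 := by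
  have hsub : (E₀ \ (S.nxt θ A s ω).E) \ S.cov (S.nxt θ A s ω).M
      ⊆ ((E₀ \ s.E) \ S.cov s.M) ∪ s.E.filter (fun e => ω (Sum.inr e) = true) := by
    intro e he
    rw [Finset.mem_sdiff, Finset.mem_sdiff] at he
    obtain ⟨⟨h0, h1⟩, h2⟩ := he
    have h2' : e ∉ S.cov (s.M ∪ newM ω) := h2
    have h1' : e ∉ s.E.filter (fun e => off (S.st e) ω) := h1
    rw [Finset.mem_union]
    by_cases hE : e ∈ s.E
    · right
      rw [Finset.mem_filter]
      refine ⟨hE, ?_⟩
      by_contra hk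
      apply h1'
      rw [Finset.mem_filter]
      refine ⟨hE, ?_⟩
      intro c hc
      unfold Sys.st at hc
      rcases c with T | e'
      · rw [Finset.inl_mem_disjSum] at hc
        by_contra hT
        have hT' : ω (Sum.inl T) = true := by
          cases hω : ω (Sum.inl T)
          · exact absurd hω hT
          · rfl
        apply h2'
        unfold Sys.cov
        rw [Finset.mem_biUnion]
        refine ⟨T, Finset.mem_union_right _ ?_, mem_star.1 hc⟩
        simp [newM, hT']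
      · rw [Finset.inr_mem_disjSum, Finset.mem_singleton] at hc
        rw [hc]
        cases hω : ω (Sum.inr e)
        · rfl
        · exact absurd hω hk
    · left
      rw [Finset.mem_sdiff, Finset.mem_sdiff]
      refine ⟨⟨h0, hE⟩, ?_⟩
      intro hc
      apply h2'
      unfold Sys.cov at hc ⊢
      rw [Finset.mem_biUnion] at hc ⊢
      obtain ⟨T, hT, heT⟩ := hc
      exact ⟨T, Finset.mem_union_left _ hT, heT⟩
  have h1 := (Finset.card_le_card hsub).trans (Finset.card_union_le _ _)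
  rw [← card_filter_real]
  unfold Sys.kil
  exact_mod_cast h1

/-- bound for the kill coin -/
theorem pc_inr_le (h : S.Ctx J E₀ θ A B δ s) (e : ι) (he : e ∈ s.E) :
    S.pc θ A s (Sum.inr e) ≤ θ * (1 - S.W (S.Xh θ A s) e) + θ ^ 2 := by
  have h0 := h.θ0
  have hq := h.q_pos
  have hW0 := h.W_Xh_nonneg e
  have hW1 := h.W_Xh_le e
  have hn := h.nat_pos e
  have h1 := h.nat_le_exp e
  have h2 := Real.add_one_le_exp (θ * S.W (S.Xh θ A s) e)
  have h3 : (1 + θ * S.W (S.Xh θ A s) e) * S.nat θ A s e ≤ 1 := by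
    calc (1 + θ * S.W (S.Xh θ A s) e) * S.nat θ A s e
        ≤ Real.exp (θ * S.W (S.Xh θ A s) e) * Real.exp (-(θ * S.W (S.Xh θ A s) e)) :=
          mul_le_mul (by linarith) h1 hn.le (Real.exp_pos _).le
      _ = 1 := by rw [← Real.exp_add]; simp
  have h4 : (1 - θ) * (1 + θ * S.W (S.Xh θ A s) e) ≤ (1 - θ) / S.nat θ A s e := by
    rw [le_div_iff₀ hn, mul_assoc]
    calc (1 - θ) * ((1 + θ * S.W (S.Xh θ A s) e) * S.nat θ A s e) ≤ (1 - θ) * 1 :=
          mul_le_mul_of_nonneg_left h3 hq.le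
      _ = 1 - θ := mul_one _
  have h5 : S.pc θ A s (Sum.inr e) = 1 - (1 - θ) / S.nat θ A s e := by
    unfold Sys.pc
    simp only
    rw [if_pos he]
  rw [h5]
  have h6 : θ ^ 2 * S.W (S.Xh θ A s) e ≤ θ ^ 2 * 1 :=
    mul_le_mul_of_nonneg_left hW1 (by positivity)
  nlinarith

/-- double counting over the elements -/
theorem sum_star (hg : S.Good J) (f : τ → ℝ) (hf : ∀ T, 0 ≤ f T) (E : Finset ι) :
    ∑ e ∈ E, ∑ T ∈ S.star e, f T ≤ 3 * ∑ T, f T := by
  have h1 : ∑ e ∈ E, ∑ T ∈ S.star e, f T ≤ ∑ e : ι, ∑ T ∈ S.star e, f T :=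
    Finset.sum_le_sum_of_subset_of_nonneg (Finset.subset_univ _)
      fun e _ _ => Finset.sum_nonneg fun T _ => hf T
  refine h1.trans (le_of_eq ?_)
  unfold Sys.star
  have h2 : ∀ e : ι, ∑ T ∈ univ.filter (fun T => e ∈ S.ed T), f T
      = ∑ T : τ, if e ∈ S.ed T then f T else 0 := fun e => Finset.sum_filter _ _
  rw [Finset.sum_congr rfl (fun e _ => h2 e), Finset.sum_comm, Finset.mul_sum]
  refine Finset.sum_congr rfl fun T _ => ?_
  rw [← Finset.sum_filter, Finset.filter_mem_eq_inter, Finset.univ_inter, Finset.sum_const,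
    hg.card_ed T, nsmul_eq_mul]
  norm_num

/-- the open threat weight is at most the number of threats -/
theorem sum_X_o (hv : S.Valid E₀ A B s) (hg : S.Good J) :
    ∑ T, s.X T * S.o s T ≤ (J : ℝ) ^ 2 * S.Th s := by
  have h1 : ∀ T : τ, s.X T * S.o s T
      ≤ ∑ T' : τ, ∑ C ∈ S.conf.filter (fun C => T ∈ C ∧ T' ∈ C), s.yy C := by
    intro T
    unfold Sys.o
    rw [Finset.mul_sum]
    refine le_trans (Finset.sum_le_sum (g := fun T' =>
      ∑ C ∈ S.conf.filter (fun C => T ∈ C ∧ T' ∈ C), s.yy C) ?_) ?_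
    · intro T' hT'
      unfold Sys.Nb at hT'
      rw [Finset.mem_filter] at hT'
      obtain ⟨-, hne, C, hC, hTC, hT'C, hall⟩ := hT'
      have hmem : C ∈ S.conf.filter (fun C => T ∈ C ∧ T' ∈ C) :=
        Finset.mem_filter.2 ⟨hC, hTC, hT'C⟩
      refine le_trans ?_ (Finset.single_le_sum
        (f := fun C => s.yy C) (fun D _ => hv.yy_nonneg D) hmem)
      have hyy : s.yy C = s.y T * s.y T' := by
        unfold St.yy
        have hsub : ({T, T'} : Finset τ) ⊆ C := by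
          intro D hD
          rw [Finset.mem_insert, Finset.mem_singleton] at hD
          rcases hD with rfl | rfl
          · exact hTC
          · exact hT'C
        rw [← Finset.prod_sdiff hsub, Finset.prod_pair (Ne.symm hne)]
        rw [Finset.prod_eq_one (s := C \ {T, T'}), one_mul]
        intro D hD
        rw [Finset.mem_sdiff, Finset.mem_insert, Finset.mem_singleton, not_or] at hD
        rcases hall D hD.1 with h2 | h2 | h2
        · exact absurd h2 hD.2.1
        · exact absurd h2 hD.2.2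
        · exact hv.y_of_mem hg h2
      rw [hyy]
      exact mul_le_mul (Sys.Valid.X_le_y T) (Sys.Valid.X_le_y T') (hv.X0 T') (hv.y_nonneg T)
    · exact Finset.sum_le_sum_of_subset_of_nonneg (Finset.subset_univ _)
        fun T' _ _ => Finset.sum_nonneg fun C _ => hv.yy_nonneg C
  refine (Finset.sum_le_sum fun T _ => h1 T).trans ?_
  have h2 : ∑ T : τ, ∑ T' : τ, ∑ C ∈ S.conf.filter (fun C => T ∈ C ∧ T' ∈ C), s.yy C
      = ∑ C ∈ S.conf, (C.card : ℝ) ^ 2 * s.yy C := by
    have h3 : ∀ T T' : τ, ∑ C ∈ S.conf.filter (fun C => T ∈ C ∧ T' ∈ C), s.yy C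
        = ∑ C ∈ S.conf, (if T ∈ C then (1 : ℝ) else 0) * ((if T' ∈ C then (1 : ℝ) else 0) *
          s.yy C) := by
      intro T T'
      rw [Finset.sum_filter]
      refine Finset.sum_congr rfl fun C _ => ?_
      by_cases a1 : T ∈ C <;> by_cases a2 : T' ∈ C <;> simp [a1, a2]
    have h4 : ∀ T : τ, ∑ T' : τ, ∑ C ∈ S.conf.filter (fun C => T ∈ C ∧ T' ∈ C), s.yy C
        = ∑ C ∈ S.conf, (if T ∈ C then (1 : ℝ) else 0) * ((C.card : ℝ) * s.yy C) := by
      intro T
      rw [Finset.sum_congr rfl (fun T' _ => h3 T T'), Finset.sum_comm]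
      refine Finset.sum_congr rfl fun C _ => ?_
      rw [← Finset.mul_sum, ← Finset.sum_mul]
      have h5 : ∑ T' : τ, (if T' ∈ C then (1 : ℝ) else 0) = (C.card : ℝ) := by
        rw [← card_filter_real, Finset.filter_mem_eq_inter, Finset.univ_inter]
      rw [h5]
    rw [Finset.sum_congr rfl (fun T _ => h4 T), Finset.sum_comm]
    refine Finset.sum_congr rfl fun C _ => ?_
    rw [← Finset.sum_mul]
    have h5 : ∑ T : τ, (if T ∈ C then (1 : ℝ) else 0) = (C.card : ℝ) := by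
      rw [← card_filter_real, Finset.filter_mem_eq_inter, Finset.univ_inter]
    rw [h5]
    ring
  rw [h2]
  unfold Sys.Th
  rw [Finset.mul_sum]
  refine Finset.sum_le_sum fun C hC => mul_le_mul_of_nonneg_right ?_ (hv.yy_nonneg C)
  have h6 : (C.card : ℝ) ≤ (J : ℝ) := by exact_mod_cast hg.conf_card C hC
  exact pow_le_pow_left₀ (Nat.cast_nonneg _) h6 2

/-- the weight discarded by the exposure rule -/
theorem X_sub_Xh_le (h : S.Ctx J E₀ θ A B δ s) (T : τ) :
    s.X T - S.Xh θ A s T ≤ (1 / A) * (s.X T * s.a T + θ * (s.X T * S.o s T)) := by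
  have hA : 0 < A := by linarith [h.A3]
  have hX := h.valid.X0 T
  have ha := h.valid.a0 T
  have ho := h.o_nonneg T
  have h0 := h.θ0
  unfold Sys.Xh
  split_ifs with h1
  · rw [sub_self]
    positivity
  · push Not at h1
    rw [sub_zero]
    have h2 : s.X T * s.a T + θ * (s.X T * S.o s T) = s.X T * (s.a T + θ * S.o s T) := by ring
    rw [h2, one_div, ← div_eq_inv_mul, le_div_iff₀ hA]
    exact mul_le_mul_of_nonneg_left h1.le hX

/-- the total loss of weight -/
theorem sum_loss (h : S.Ctx J E₀ θ A B δ s) :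
    ∑ e ∈ s.E, (1 - S.W (S.Xh θ A s) e) ≤
      S.Df s + 3 / A * s.Psi + 3 / A * θ * (J : ℝ) ^ 2 * S.Th s := by
  have hA : 0 < A := by linarith [h.A3]
  have h0 := h.θ0
  have h1 : ∑ e ∈ s.E, (1 - S.W (S.Xh θ A s) e)
      = S.Df s + ∑ e ∈ s.E, ∑ T ∈ S.star e, (s.X T - S.Xh θ A s T) := by
    unfold Sys.Df Sys.W
    rw [← Finset.sum_add_distrib]
    refine Finset.sum_congr rfl fun e _ => ?_
    rw [Finset.sum_sub_distrib]
    ring
  have h2 := sum_star h.good (fun T => s.X T - S.Xh θ A s T)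
    (fun T => sub_nonneg.2 (h.Xh_le_X T)) s.E
  have h3 : ∑ T, (s.X T - S.Xh θ A s T)
      ≤ ∑ T, (1 / A) * (s.X T * s.a T + θ * (s.X T * S.o s T)) :=
    Finset.sum_le_sum fun T _ => X_sub_Xh_le h T
  have h4 : ∑ T, (1 / A) * (s.X T * s.a T + θ * (s.X T * S.o s T))
      = (1 / A) * (s.Psi + θ * ∑ T, s.X T * S.o s T) := by
    rw [← Finset.mul_sum, Finset.sum_add_distrib, ← Finset.mul_sum]
    rfl
  have h5 := sum_X_o h.valid h.good
  have h6 : (1 / A) * (s.Psi + θ * ∑ T, s.X T * S.o s T)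
      ≤ (1 / A) * (s.Psi + θ * ((J : ℝ) ^ 2 * S.Th s)) :=
    mul_le_mul_of_nonneg_left (by nlinarith [mul_le_mul_of_nonneg_left h5 h0.le])
      (by positivity)
  have h7 : 3 * ((1 / A) * (s.Psi + θ * ((J : ℝ) ^ 2 * S.Th s)))
      = 3 / A * s.Psi + 3 / A * θ * (J : ℝ) ^ 2 * S.Th s := by ring
  rw [h1]
  have h8 : ∑ e ∈ s.E, ∑ T ∈ S.star e, (s.X T - S.Xh θ A s T)
      ≤ 3 * ∑ T, (s.X T - S.Xh θ A s T) := h2
  linarith

/-- the expected number of lost elements -/
theorem ex_kil (h : S.Ctx J E₀ θ A B δ s) :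
    Ex (S.wt θ A s) (fun ω => (S.kil E₀ (S.nxt θ A s ω) : ℝ)) ≤
      (S.kil E₀ s : ℝ) + θ * (S.Df s + 3 / A * s.Psi) + θ ^ 2 * (J : ℝ) ^ 2 * S.Th s
        + θ ^ 2 * (s.E.card : ℝ) := by
  have hA : 0 < A := by linarith [h.A3]
  have h0 := h.θ0
  have h1 : Ex (S.wt θ A s) (fun ω => (S.kil E₀ (S.nxt θ A s ω) : ℝ)) ≤
      Ex (S.wt θ A s) (fun ω => (S.kil E₀ s : ℝ) +
      ∑ e ∈ s.E, if ω (Sum.inr e) = true then (1 : ℝ) else 0) :=
    ex_mono h.pw_wt fun ω => kil_le ω
  refine h1.trans ?_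
  rw [ex_add, ex_const h.pw_wt, ex_sum, Finset.sum_congr rfl (fun e _ => ex_coin h (Sum.inr e))]
  have h2 : ∑ e ∈ s.E, S.pc θ A s (Sum.inr e)
      ≤ ∑ e ∈ s.E, (θ * (1 - S.W (S.Xh θ A s) e) + θ ^ 2) :=
    Finset.sum_le_sum fun e he => pc_inr_le h e he
  rw [Finset.sum_add_distrib, ← Finset.mul_sum, Finset.sum_const, nsmul_eq_mul] at h2
  have h3 := mul_le_mul_of_nonneg_left (sum_loss h) h0.le
  have hTh : 0 ≤ S.Th s := Finset.sum_nonneg fun C _ => h.valid.yy_nonneg C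
  have h4 : 3 / A ≤ 1 := by
    rw [div_le_one hA]
    exact h.A3
  have h5 : 3 / A * (θ ^ 2 * (J : ℝ) ^ 2 * S.Th s) ≤ 1 * (θ ^ 2 * (J : ℝ) ^ 2 * S.Th s) :=
    mul_le_mul_of_nonneg_right h4 (by positivity)
  nlinarith

/-! ## Collisions -/

theorem coll_le (h : S.Ctx J E₀ θ A B δ s) (ω : τ ⊕ ι → Bool) (hω : 0 < S.wt θ A s ω) :
    (S.coll (S.nxt θ A s ω).M : ℝ) ≤ (S.coll s.M : ℝ) +
      ∑ e ∈ s.E, ∑ T ∈ S.star e, ∑ T' ∈ (S.star e).erase T,
        if T ∈ newM ω ∧ T' ∈ newM ω then (1 : ℝ) else 0 := by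
  have hM : (S.nxt θ A s ω).M = s.M ∪ newM ω := rfl
  rw [hM]
  set P : Finset (τ × τ) := ((newM ω) ×ˢ (newM ω)).filter
    (fun x => x.1 ≠ x.2 ∧ ¬ Disjoint (S.ed x.1) (S.ed x.2)) with hP
  set Q : Finset (τ × τ) := (s.M ×ˢ s.M).filter
    (fun x => x.1 ≠ x.2 ∧ ¬ Disjoint (S.ed x.1) (S.ed x.2)) with hQ
  have hsub : ((s.M ∪ newM ω) ×ˢ (s.M ∪ newM ω)).filter
      (fun x => x.1 ≠ x.2 ∧ ¬ Disjoint (S.ed x.1) (S.ed x.2)) ⊆ Q ∪ P := by
    rintro ⟨T, T'⟩ hx
    rw [Finset.mem_filter, Finset.mem_product] at hx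
    obtain ⟨⟨hT, hT'⟩, hne, hd⟩ := hx
    rw [Finset.mem_union] at hT hT'
    rw [Finset.mem_union]
    simp only at hT hT' hne hd
    rcases hT with hT | hT
    · rcases hT' with hT' | hT'
      · left
        rw [hQ, Finset.mem_filter, Finset.mem_product]
        exact ⟨⟨hT, hT'⟩, hne, hd⟩
      · exact absurd (Finset.disjoint_of_subset_right (h.new_ed hω hT') (h.valid.ME T hT)) hd
    · rcases hT' with hT' | hT'
      · exact absurd (Finset.disjoint_of_subset_right (h.new_ed hω hT)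
          (h.valid.ME T' hT')).symm hd
      · right
        rw [hP, Finset.mem_filter, Finset.mem_product]
        exact ⟨⟨hT, hT'⟩, hne, hd⟩
  have h1 : S.coll (s.M ∪ newM ω) ≤ S.coll s.M + P.card :=
    (Finset.card_le_card hsub).trans (Finset.card_union_le _ _)
  have h2 : (P.card : ℝ) ≤ ∑ e ∈ s.E, ∑ T ∈ S.star e, ∑ T' ∈ (S.star e).erase T,
        if T ∈ newM ω ∧ T' ∈ newM ω then (1 : ℝ) else 0 := by
    have h3 : P ⊆ s.E.biUnion (fun e => (S.star e).biUnion (fun T =>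
        (((S.star e).erase T).filter (fun T' => T ∈ newM ω ∧ T' ∈ newM ω)).image
          (fun T' => (T, T')))) := by
      rintro ⟨T, T'⟩ hx
      rw [hP, Finset.mem_filter, Finset.mem_product] at hx
      obtain ⟨⟨hT, hT'⟩, hne, hd⟩ := hx
      simp only at hT hT' hne hd
      obtain ⟨e, he, he'⟩ := Finset.not_disjoint_iff.1 hd
      rw [Finset.mem_biUnion]
      refine ⟨e, h.new_ed hω hT he, ?_⟩
      rw [Finset.mem_biUnion]
      refine ⟨T, mem_star.2 he, ?_⟩
      rw [Finset.mem_image]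
      refine ⟨T', ?_, rfl⟩
      rw [Finset.mem_filter, Finset.mem_erase]
      exact ⟨⟨Ne.symm hne, mem_star.2 he'⟩, hT, hT'⟩
    have h4 : P.card ≤ ∑ e ∈ s.E, ∑ T ∈ S.star e,
        (((S.star e).erase T).filter (fun T' => T ∈ newM ω ∧ T' ∈ newM ω)).card := by
      refine (Finset.card_le_card h3).trans (Finset.card_biUnion_le.trans ?_)
      refine Finset.sum_le_sum fun e _ => Finset.card_biUnion_le.trans ?_
      exact Finset.sum_le_sum fun T _ => Finset.card_image_le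
    have h5 : (P.card : ℝ) ≤ ((∑ e ∈ s.E, ∑ T ∈ S.star e,
        (((S.star e).erase T).filter (fun T' => T ∈ newM ω ∧ T' ∈ newM ω)).card : ℕ) : ℝ) := by
      exact_mod_cast h4
    refine h5.trans (le_of_eq ?_)
    push_cast
    refine Finset.sum_congr rfl fun e _ => Finset.sum_congr rfl fun T _ => ?_
    exact card_filter_real _ _
  have h6 : (S.coll (s.M ∪ newM ω) : ℝ) ≤ (S.coll s.M : ℝ) + (P.card : ℝ) := by
    exact_mod_cast h1
  linarith

/-- the expected number of collisions -/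
theorem ex_coll (h : S.Ctx J E₀ θ A B δ s) :
    Ex (S.wt θ A s) (fun ω => (S.coll (S.nxt θ A s ω).M : ℝ)) ≤
      (S.coll s.M : ℝ) + θ ^ 2 * (s.E.card : ℝ) := by
  refine (ex_mono_pos h.pw_wt fun ω hω => coll_le h ω hω).trans ?_
  rw [ex_add, ex_const h.pw_wt, ex_sum]
  have h1 : ∀ e ∈ s.E, Ex (S.wt θ A s) (fun ω => ∑ T ∈ S.star e, ∑ T' ∈ (S.star e).erase T,
      if T ∈ newM ω ∧ T' ∈ newM ω then (1 : ℝ) else 0) ≤ θ ^ 2 := by
    intro e _
    rw [ex_sum]
    have h2 : ∀ T ∈ S.star e, Ex (S.wt θ A s) (fun ω => ∑ T' ∈ (S.star e).erase T,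
        if T ∈ newM ω ∧ T' ∈ newM ω then (1 : ℝ) else 0) ≤ θ ^ 2 * S.Xh θ A s T := by
      intro T _
      rw [ex_sum, Finset.sum_congr rfl (fun T' hT' =>
        ex_coin_two h (Ne.symm (Finset.mem_erase.1 hT').1))]
      rw [← Finset.mul_sum, ← Finset.mul_sum]
      have h3 : ∑ T' ∈ (S.star e).erase T, S.Xh θ A s T' ≤ 1 := by
        refine le_trans (Finset.sum_le_sum_of_subset_of_nonneg (Finset.erase_subset _ _)
          fun T' _ _ => h.Xh_nonneg T') ?_
        exact h.W_Xh_le e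
      refine mul_le_mul_of_nonneg_left ?_ (by positivity)
      exact mul_le_of_le_one_right (h.Xh_nonneg T) h3
    refine (Finset.sum_le_sum h2).trans ?_
    rw [← Finset.mul_sum]
    have h4 : ∑ T ∈ S.star e, S.Xh θ A s T ≤ 1 := h.W_Xh_le e
    exact mul_le_of_le_one_right (by positivity) h4
  have h5 := Finset.sum_le_sum h1
  rw [Finset.sum_const, nsmul_eq_mul] at h5
  linarith

end C012

/-- the number of alive elements -/
theorem comp0 : Comp 0 := by
  intro J A _
  refine ⟨1, le_rfl, fun c' _ ι τ _ _ _ _ S E₀ θ B δ η s h _ => ?_⟩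
  have e0 : (fun ω => S.vec E₀ A (S.nxt θ A s ω) 0)
      = fun ω => ((S.nxt θ A s ω).E.card : ℝ) := rfl
  have e1 : stp J c' θ A η δ (S.vec E₀ A s) 0 = (1 - θ) * (s.E.card : ℝ) := rfl
  rw [e0, e1]
  exact (C012.ex_E h).le

/-- the number of elements lost without being covered -/
theorem comp1 : Comp 1 := by
  intro J A _
  refine ⟨1, le_rfl, fun c' _ ι τ _ _ _ _ S E₀ θ B δ η s h _ => ?_⟩
  have e0 : (fun ω => S.vec E₀ A (S.nxt θ A s ω) 1)
      = fun ω => (S.kil E₀ (S.nxt θ A s ω) : ℝ) := rfl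
  have e1 : stp J c' θ A η δ (S.vec E₀ A s) 1 = (S.kil E₀ s : ℝ)
      + θ * (S.Df s + 3 / A * s.Psi) + θ ^ 2 * (J : ℝ) ^ 2 * S.Th s
        + θ ^ 2 * (s.E.card : ℝ) := rfl
  rw [e0, e1]
  exact C012.ex_kil h

/-- the number of collisions -/
theorem comp2 : Comp 2 := by
  intro J A _
  refine ⟨1, le_rfl, fun c' _ ι τ _ _ _ _ S E₀ θ B δ η s h _ => ?_⟩
  have e0 : (fun ω => S.vec E₀ A (S.nxt θ A s ω) 2)
      = fun ω => (S.coll (S.nxt θ A s ω).M : ℝ) := rfl
  have e1 : stp J c' θ A η δ (S.vec E₀ A s) 2 = (S.coll s.M : ℝ)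
      + θ ^ 2 * (s.E.card : ℝ) := rfl
  rw [e0, e1]
  exact C012.ex_coll h

end F1
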