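import Mathlib
import Pool.Agent.F1.Basic

/-!
# Project F1: the fourth component (deficiency and exposure)
-/

set_option autoImplicit false
set_option linter.unusedSectionVars false

namespace F1.C4

open Finset NWC

/-! ## Elementary inequalities -/

theorem one_sub_prod_le {α : Type} [DecidableEq α] (s : Finset α) (u : α → ℝ)
    (h0 : ∀ i ∈ s, 0 ≤ u i) (h1 : ∀ i ∈ s, u i ≤ 1) :
    1 - ∏ i ∈ s, u i ≤ ∑ i ∈ s, (1 - u i) := by
  induction s using Finset.induction_on with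
  | empty => simp
  | insert a s ha ih =>
    rw [Finset.prod_insert ha, Finset.sum_insert ha]
    have ih' := ih (fun i hi => h0 i (Finset.mem_insert_of_mem hi))
      (fun i hi => h1 i (Finset.mem_insert_of_mem hi))
    have hp0 : 0 ≤ ∏ i ∈ s, u i :=
      Finset.prod_nonneg fun i hi => h0 i (Finset.mem_insert_of_mem hi)
    have hp1 : ∏ i ∈ s, u i ≤ 1 :=
      Finset.prod_le_one (fun i hi => h0 i (Finset.mem_insert_of_mem hi))
        fun i hi => h1 i (Finset.mem_insert_of_mem hi)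
    have ha0 := h0 a (Finset.mem_insert_self a s)
    have ha1 := h1 a (Finset.mem_insert_self a s)
    nlinarith

theorem mul_one_sub_inv_max (W : ℝ) : W * (1 - 1 / max 1 W) = max (W - 1) 0 := by
  rcases le_total W 1 with h | h
  · rw [max_eq_left h, max_eq_right (by linarith)]; simp
  · have h0 : W ≠ 0 := by linarith
    rw [max_eq_right h, max_eq_left (by linarith)]
    field_simp

theorem max_le_quad {W h η : ℝ} (hh : h ≤ 1) (hη : 0 < η) :
    max (W - 1) 0 ≤ η / 2 + (W - h) ^ 2 / (2 * η) := by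
  have h1 : |W - h| ≤ η / 2 + (W - h) ^ 2 / (2 * η) := by
    rw [show η / 2 + (W - h) ^ 2 / (2 * η) = (η ^ 2 + (W - h) ^ 2) / (2 * η) by field_simp,
      le_div_iff₀ (by linarith)]
    nlinarith [sq_nonneg (|W - h| - η), sq_abs (W - h)]
  refine max_le ?_ ((abs_nonneg _).trans h1)
  exact (by linarith [le_abs_self (W - h)] : W - 1 ≤ |W - h|).trans h1

/-- `exp x ≤ 1 + x * exp m` for `0 ≤ x ≤ m` -/
theorem exp_le_one_add {x m : ℝ} (h0 : 0 ≤ x) (hm : x ≤ m) :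
    Real.exp x ≤ 1 + x * Real.exp m := by
  have h1 : 1 - x ≤ Real.exp (-x) := by linarith [Real.add_one_le_exp (-x)]
  have h2 : Real.exp (-x) * Real.exp x = 1 := by rw [← Real.exp_add]; simp
  have h3 : (1 - x) * Real.exp x ≤ 1 := by
    have := mul_le_mul_of_nonneg_right h1 (Real.exp_pos x).le
    linarith
  have h4 : Real.exp x ≤ Real.exp m := Real.exp_le_exp.2 hm
  nlinarith

theorem sum_biUnion_le {α β : Type} [DecidableEq α] [DecidableEq β] (s : Finset α)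
    (t : α → Finset β) (f : β → ℝ) (hf : ∀ b, 0 ≤ f b) :
    ∑ b ∈ s.biUnion t, f b ≤ ∑ a ∈ s, ∑ b ∈ t a, f b := by
  induction s using Finset.induction_on with
  | empty => simp
  | insert a s ha ih =>
    rw [Finset.biUnion_insert, Finset.sum_insert ha]
    have h1 : ∑ b ∈ t a ∪ s.biUnion t, f b ≤ ∑ b ∈ t a, f b + ∑ b ∈ s.biUnion t, f b := by
      rw [← Finset.sum_union_inter]
      exact le_add_of_nonneg_right (Finset.sum_nonneg fun b _ => hf b)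
    linarith

section

variable {ι τ : Type} [Fintype ι] [Fintype τ] [DecidableEq ι] [DecidableEq τ]
variable {S : Sys ι τ} {J : ℕ} {E₀ : Finset ι} {θ A B δ : ℝ} {s : St ι τ}

/-! ## Facts of the module Basic -/

theorem pc_nonneg (hc : S.Ctx J E₀ θ A B δ s) (c : τ ⊕ ι) : 0 ≤ S.pc θ A s c := hc.pc_nonneg c

theorem pc_le_one (hc : S.Ctx J E₀ θ A B δ s) (c : τ ⊕ ι) : S.pc θ A s c ≤ 1 := hc.pc_le_one c

theorem pc_inl_le (hc : S.Ctx J E₀ θ A B δ s) (T : τ) : S.pc θ A s (Sum.inl T) ≤ 1 / 2 :=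
  hc.pc_inl_le_half T

theorem po_st (hc : S.Ctx J E₀ θ A B δ s) {e : ι} (he : e ∈ s.E) :
    po (S.pc θ A s) (S.st e) = 1 - θ := hc.po_st he

theorem ps_ge (hc : S.Ctx J E₀ θ A B δ s) {T : τ} (hT : 0 < S.Xh θ A s T) :
    (1 - θ) ^ 3 * Real.exp (-(2 * θ * S.o s T)) ≤ S.ps θ A s T := by
  have h := hc.ps_ge hT
  rwa [← mul_assoc] at h

theorem Xh_nonneg (hc : S.Ctx J E₀ θ A B δ s) (T : τ) : 0 ≤ S.Xh θ A s T := hc.Xh_nonneg T

theorem Xh_le (hc : S.Ctx J E₀ θ A B δ s) (T : τ) : S.Xh θ A s T ≤ s.X T := hc.Xh_le_X T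

theorem Xh_le_δ (hc : S.Ctx J E₀ θ A B δ s) (T : τ) : S.Xh θ A s T ≤ δ := hc.Xh_le T

theorem W_Xh_le (hc : S.Ctx J E₀ θ A B δ s) (e : ι) : S.W (S.Xh θ A s) e ≤ 1 := hc.W_Xh_le e

theorem ex_X1 (hc : S.Ctx J E₀ θ A B δ s) (T : τ) :
    Ex (S.wt θ A s) (fun ω => S.X1 θ A s ω T) = (1 - θ) * S.Xh θ A s T := hc.ex_X1 T

/-! ## Deterministic facts -/

theorem mem_star {e : ι} {T : τ} : T ∈ S.star e ↔ e ∈ S.ed T := by
  simp [Sys.star]

theorem sum_star (f : τ → ι → ℝ) :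
    ∑ e, ∑ T ∈ S.star e, f T e = ∑ T, ∑ e ∈ S.ed T, f T e := by
  refine Finset.sum_comm' ?_
  intro e T
  simp [mem_star]

theorem st_sub_nb {e : ι} {T : τ} (hT : e ∈ S.ed T) : S.st e ⊆ S.nb s T := by
  intro c hc
  unfold Sys.st at hc
  unfold Sys.nb
  rw [Finset.mem_disjSum] at hc ⊢
  rcases hc with ⟨T', hT', rfl⟩ | ⟨e', he', rfl⟩
  · refine Or.inl ⟨T', ?_, rfl⟩
    unfold Sys.nt Sys.Sh
    rw [Finset.mem_union]
    left
    rw [Finset.mem_filter]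
    refine ⟨Finset.mem_univ _, ?_⟩
    rw [Finset.not_disjoint_iff]
    exact ⟨e, mem_star.1 hT', hT⟩
  · rw [Finset.mem_singleton] at he'
    subst he'
    exact Or.inr ⟨_, hT, rfl⟩

theorem off_mono {κ : Type} {G H : Finset κ} (h : G ⊆ H) {ω : κ → Bool} (hH : off H ω) :
    off G ω := fun c hc => hH c (h hc)

theorem q_pos (hc : S.Ctx J E₀ θ A B δ s) : 0 < 1 - θ := by linarith [hc.θ1]

theorem ps_nonneg (hc : S.Ctx J E₀ θ A B δ s) (T : τ) : 0 ≤ S.ps θ A s T :=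
  po_nonneg (pc_le_one hc) _

theorem ps_pos (hc : S.Ctx J E₀ θ A B δ s) {T : τ} (hT : 0 < S.Xh θ A s T) :
    0 < S.ps θ A s T :=
  lt_of_lt_of_le (mul_pos (pow_pos (q_pos hc) 3) (Real.exp_pos _)) (ps_ge hc hT)

theorem X1_nonneg (hc : S.Ctx J E₀ θ A B δ s) (ω : τ ⊕ ι → Bool) (T : τ) :
    0 ≤ S.X1 θ A s ω T := by
  unfold Sys.X1
  split_ifs
  · exact mul_nonneg (Xh_nonneg hc T) (div_nonneg (q_pos hc).le (ps_nonneg hc T))
  · exact le_rfl

theorem X1_pos (hc : S.Ctx J E₀ θ A B δ s) {ω : τ ⊕ ι → Bool} {T : τ}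
    (h : 0 < S.X1 θ A s ω T) : off (S.nb s T) ω ∧ 0 < S.Xh θ A s T := by
  unfold Sys.X1 at h
  split_ifs at h with h1
  · refine ⟨h1, ?_⟩
    rcases (Xh_nonneg hc T).eq_or_lt with h2 | h2
    · rw [← h2] at h; simp at h
    · exact h2
  · exact absurd h (lt_irrefl _)

/-- the alive elements after the bite -/
theorem mem_nxt_E {ω : τ ⊕ ι → Bool} {e : ι} :
    e ∈ (S.nxt θ A s ω).E ↔ e ∈ s.E ∧ off (S.st e) ω := by
  simp [Sys.nxt]

theorem X1_eq_zero (hc : S.Ctx J E₀ θ A B δ s) {ω : τ ⊕ ι → Bool} {T : τ} {e : ι}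
    (he : e ∈ S.ed T) (h : e ∉ (S.nxt θ A s ω).E) : S.X1 θ A s ω T = 0 := by
  by_contra h1
  have h2 : 0 < S.X1 θ A s ω T := lt_of_le_of_ne (X1_nonneg hc ω T) (Ne.symm h1)
  obtain ⟨h3, h4⟩ := X1_pos hc h2
  refine h (mem_nxt_E.2 ⟨?_, off_mono (st_sub_nb he) h3⟩)
  exact hc.valid.XE T (lt_of_lt_of_le h4 (Xh_le hc T)) he

theorem W1_nonneg (hc : S.Ctx J E₀ θ A B δ s) (ω : τ ⊕ ι → Bool) (e : ι) :
    0 ≤ S.W (S.X1 θ A s ω) e := Finset.sum_nonneg fun T _ => X1_nonneg hc ω T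

theorem W1_eq_zero (hc : S.Ctx J E₀ θ A B δ s) {ω : τ ⊕ ι → Bool} {e : ι}
    (h : e ∉ (S.nxt θ A s ω).E) : S.W (S.X1 θ A s ω) e = 0 :=
  Finset.sum_eq_zero fun _ hT => X1_eq_zero hc (mem_star.1 hT) h

theorem fac_nonneg (W : ℝ) : 0 ≤ 1 / max 1 W :=
  div_nonneg zero_le_one (le_trans zero_le_one (le_max_left _ _))

theorem fac_le_one (W : ℝ) : 1 / max 1 W ≤ 1 := by
  rw [div_le_one (lt_of_lt_of_le zero_lt_one (le_max_left _ _))]
  exact le_max_left _ _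

theorem X2_nonneg (hc : S.Ctx J E₀ θ A B δ s) (ω : τ ⊕ ι → Bool) (T : τ) :
    0 ≤ S.X2 θ A s ω T :=
  mul_nonneg (X1_nonneg hc ω T) (Finset.prod_nonneg fun _ _ => fac_nonneg _)

theorem X2_le (hc : S.Ctx J E₀ θ A B δ s) (ω : τ ⊕ ι → Bool) (T : τ) :
    S.X2 θ A s ω T ≤ S.X1 θ A s ω T :=
  mul_le_of_le_one_right (X1_nonneg hc ω T)
    (Finset.prod_le_one (fun _ _ => fac_nonneg _) fun _ _ => fac_le_one _)

/-- the trimming loss -/
theorem trim_loss (hc : S.Ctx J E₀ θ A B δ s) (ω : τ ⊕ ι → Bool) :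
    ∑ T, (S.X1 θ A s ω T - S.X2 θ A s ω T)
      ≤ ∑ e ∈ (S.nxt θ A s ω).E, max (S.W (S.X1 θ A s ω) e - 1) 0 := by
  have h1 : ∀ T, S.X1 θ A s ω T - S.X2 θ A s ω T
      ≤ ∑ e ∈ S.ed T, S.X1 θ A s ω T * (1 - 1 / max 1 (S.W (S.X1 θ A s ω) e)) := by
    intro T
    rw [← Finset.mul_sum]
    have h2 := one_sub_prod_le (S.ed T) (fun e => 1 / max 1 (S.W (S.X1 θ A s ω) e))
      (fun _ _ => fac_nonneg _) (fun _ _ => fac_le_one _)
    calc S.X1 θ A s ω T - S.X2 θ A s ω T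
        = S.X1 θ A s ω T * (1 - ∏ e ∈ S.ed T, (1 / max 1 (S.W (S.X1 θ A s ω) e))) := by
          unfold Sys.X2; ring
      _ ≤ _ := mul_le_mul_of_nonneg_left h2 (X1_nonneg hc ω T)
  calc ∑ T, (S.X1 θ A s ω T - S.X2 θ A s ω T)
      ≤ ∑ T, ∑ e ∈ S.ed T, S.X1 θ A s ω T * (1 - 1 / max 1 (S.W (S.X1 θ A s ω) e)) :=
        Finset.sum_le_sum fun T _ => h1 T
    _ = ∑ e, ∑ T ∈ S.star e, S.X1 θ A s ω T * (1 - 1 / max 1 (S.W (S.X1 θ A s ω) e)) :=
        (sum_star _).symm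
    _ = ∑ e, max (S.W (S.X1 θ A s ω) e - 1) 0 := by
        refine Finset.sum_congr rfl fun e _ => ?_
        rw [← Finset.sum_mul]
        exact mul_one_sub_inv_max _
    _ = ∑ e ∈ (S.nxt θ A s ω).E, max (S.W (S.X1 θ A s ω) e - 1) 0 := by
        symm
        refine Finset.sum_subset (Finset.subset_univ _) fun e _ he => ?_
        rw [W1_eq_zero hc he]
        norm_num

theorem Df_nxt (hc : S.Ctx J E₀ θ A B δ s) (ω : τ ⊕ ι → Bool) :
    S.Df (S.nxt θ A s ω) ≤ ∑ e ∈ s.E, ((if off (S.st e) ω then (1 : ℝ) else 0)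
        - S.W (S.X1 θ A s ω) e)
      + 3 * ∑ e ∈ s.E, (if off (S.st e) ω then (1 : ℝ) else 0)
          * max (S.W (S.X1 θ A s ω) e - 1) 0 := by
  have hE : ∀ f : ι → ℝ, ∑ e ∈ (S.nxt θ A s ω).E, f e
      = ∑ e ∈ s.E, (if off (S.st e) ω then (1 : ℝ) else 0) * f e := by
    intro f
    have : (S.nxt θ A s ω).E = s.E.filter (fun e => off (S.st e) ω) := rfl
    rw [this, Finset.sum_filter]
    refine Finset.sum_congr rfl fun e _ => ?_
    split_ifs <;> ring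
  have h1 : ∑ e ∈ (S.nxt θ A s ω).E, (S.W (S.X1 θ A s ω) e - S.W (S.X2 θ A s ω) e)
      ≤ 3 * ∑ T, (S.X1 θ A s ω T - S.X2 θ A s ω T) := by
    have h2 : ∀ e, S.W (S.X1 θ A s ω) e - S.W (S.X2 θ A s ω) e
        = ∑ T ∈ S.star e, (S.X1 θ A s ω T - S.X2 θ A s ω T) := by
      intro e
      unfold Sys.W
      rw [Finset.sum_sub_distrib]
    have h3 : ∀ T, 0 ≤ S.X1 θ A s ω T - S.X2 θ A s ω T := fun T =>
      sub_nonneg.2 (X2_le hc ω T)
    calc ∑ e ∈ (S.nxt θ A s ω).E, (S.W (S.X1 θ A s ω) e - S.W (S.X2 θ A s ω) e)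
        ≤ ∑ e, (S.W (S.X1 θ A s ω) e - S.W (S.X2 θ A s ω) e) := by
          refine Finset.sum_le_sum_of_subset_of_nonneg (Finset.subset_univ _) fun e _ _ => ?_
          rw [h2]
          exact Finset.sum_nonneg fun T _ => h3 T
      _ = ∑ e, ∑ T ∈ S.star e, (S.X1 θ A s ω T - S.X2 θ A s ω T) :=
          Finset.sum_congr rfl fun e _ => h2 e
      _ = ∑ T, ∑ e ∈ S.ed T, (S.X1 θ A s ω T - S.X2 θ A s ω T) := sum_star _
      _ = 3 * ∑ T, (S.X1 θ A s ω T - S.X2 θ A s ω T) := by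
          rw [Finset.mul_sum]
          refine Finset.sum_congr rfl fun T _ => ?_
          rw [Finset.sum_const, hc.good.card_ed T]
          simp
  have h4 := trim_loss hc ω
  have h5 : S.Df (S.nxt θ A s ω) = ∑ e ∈ (S.nxt θ A s ω).E, (1 - S.W (S.X1 θ A s ω) e)
      + ∑ e ∈ (S.nxt θ A s ω).E, (S.W (S.X1 θ A s ω) e - S.W (S.X2 θ A s ω) e) := by
    rw [← Finset.sum_add_distrib]
    unfold Sys.Df
    refine Finset.sum_congr rfl fun e _ => ?_
    have : (S.nxt θ A s ω).X = S.X2 θ A s ω := rfl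
    rw [this]
    ring
  have h6 : ∑ e ∈ (S.nxt θ A s ω).E, (1 - S.W (S.X1 θ A s ω) e)
      = ∑ e ∈ s.E, ((if off (S.st e) ω then (1 : ℝ) else 0) - S.W (S.X1 θ A s ω) e) := by
    rw [hE]
    refine Finset.sum_congr rfl fun e he => ?_
    by_cases h : off (S.st e) ω
    · simp [h]
    · have h7 : S.W (S.X1 θ A s ω) e = 0 :=
        W1_eq_zero hc fun h8 => h (mem_nxt_E.1 h8).2
      simp [h, h7]
  rw [h5, h6, ← hE]
  linarith

/-! ## Expectations -/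

theorem pw_wt (hc : S.Ctx J E₀ θ A B δ s) : PW (S.wt θ A s) :=
  pw_cw (pc_nonneg hc) (pc_le_one hc)

theorem ex_off_st (hc : S.Ctx J E₀ θ A B δ s) {e : ι} (he : e ∈ s.E) :
    Ex (S.wt θ A s) (fun ω => if off (S.st e) ω then (1 : ℝ) else 0) = 1 - θ := by
  unfold Sys.wt
  rw [ex_off (pc_nonneg hc) (pc_le_one hc), po_st hc he]

theorem ex_W1 (hc : S.Ctx J E₀ θ A B δ s) (e : ι) :
    Ex (S.wt θ A s) (fun ω => S.W (S.X1 θ A s ω) e) = (1 - θ) * S.W (S.Xh θ A s) e := by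
  unfold Sys.W
  rw [ex_sum, Finset.mul_sum]
  exact Finset.sum_congr rfl fun T _ => ex_X1 hc T

theorem ex_X1_X1 (hc : S.Ctx J E₀ θ A B δ s) (T T' : τ) :
    Ex (S.wt θ A s) (fun ω => S.X1 θ A s ω T * S.X1 θ A s ω T')
      = (S.Xh θ A s T * ((1 - θ) / S.ps θ A s T)) * (S.Xh θ A s T' * ((1 - θ) / S.ps θ A s T'))
        * po (S.pc θ A s) (S.nb s T ∪ S.nb s T') := by
  have h1 : (fun ω => S.X1 θ A s ω T * S.X1 θ A s ω T')
      = fun ω => ((S.Xh θ A s T * ((1 - θ) / S.ps θ A s T))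
        * (S.Xh θ A s T' * ((1 - θ) / S.ps θ A s T')))
        * (if off (S.nb s T ∪ S.nb s T') ω then (1 : ℝ) else 0) := by
    funext ω
    have h2 : off (S.nb s T ∪ S.nb s T') ω ↔ off (S.nb s T) ω ∧ off (S.nb s T') ω := by
      unfold off
      constructor
      · intro h
        exact ⟨fun c hc => h c (Finset.mem_union_left _ hc),
          fun c hc => h c (Finset.mem_union_right _ hc)⟩
      · rintro ⟨h3, h4⟩ c hc
        rcases Finset.mem_union.1 hc with h5 | h5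
        · exact h3 c h5
        · exact h4 c h5
    unfold Sys.X1
    by_cases h3 : off (S.nb s T) ω
    · by_cases h4 : off (S.nb s T') ω
      · rw [if_pos h3, if_pos h4, if_pos (h2.2 ⟨h3, h4⟩), mul_one]
      · rw [if_neg h4, if_neg (fun h => h4 (h2.1 h).2), mul_zero, mul_zero]
    · rw [if_neg h3, if_neg (fun h => h3 (h2.1 h).1), zero_mul, mul_zero]
  rw [h1, ex_mul_left]
  unfold Sys.wt
  rw [ex_off (pc_nonneg hc) (pc_le_one hc)]

/-- the exposure bound on the support of the discarded weights -/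
theorem θo_le (hc : S.Ctx J E₀ θ A B δ s) {T : τ} (hT : 0 < S.Xh θ A s T) :
    θ * S.o s T ≤ A := by
  unfold Sys.Xh at hT
  split_ifs at hT with h
  · linarith [hc.valid.a0 T]
  · exact absurd hT (lt_irrefl _)

theorem ex_diag (hc : S.Ctx J E₀ θ A B δ s) (T : τ) :
    Ex (S.wt θ A s) (fun ω => S.X1 θ A s ω T * S.X1 θ A s ω T)
      ≤ 2 * Real.exp (2 * A) * (δ * S.Xh θ A s T) := by
  rw [ex_X1_X1 hc, Finset.union_self]
  rcases (Xh_nonneg hc T).eq_or_lt with h0 | h0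
  · rw [← h0]; simp
  have hps := ps_pos hc h0
  have hq := q_pos hc
  have h1 : po (S.pc θ A s) (S.nb s T) = S.ps θ A s T := rfl
  rw [h1]
  have h2 : (1 - θ) ^ 2 / S.ps θ A s T ≤ 2 * Real.exp (2 * A) := by
    rw [div_le_iff₀ hps]
    have h3 := ps_ge hc h0
    have h4 : Real.exp (-(2 * A)) ≤ Real.exp (-(2 * θ * S.o s T)) := by
      refine Real.exp_le_exp.2 ?_
      have := θo_le hc h0
      linarith
    have h5 : (1 - θ) ^ 3 * Real.exp (-(2 * A)) ≤ S.ps θ A s T :=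
      (mul_le_mul_of_nonneg_left h4 (pow_pos hq 3).le).trans h3
    have h6 : Real.exp (2 * A) * Real.exp (-(2 * A)) = 1 := by rw [← Real.exp_add]; simp
    have h7 : 2 * Real.exp (2 * A) * ((1 - θ) ^ 3 * Real.exp (-(2 * A)))
        ≤ 2 * Real.exp (2 * A) * S.ps θ A s T :=
      mul_le_mul_of_nonneg_left h5 (by positivity)
    have h8 : 2 * Real.exp (2 * A) * ((1 - θ) ^ 3 * Real.exp (-(2 * A))) = 2 * (1 - θ) ^ 3 := by
      calc 2 * Real.exp (2 * A) * ((1 - θ) ^ 3 * Real.exp (-(2 * A)))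
          = 2 * (1 - θ) ^ 3 * (Real.exp (2 * A) * Real.exp (-(2 * A))) := by ring
        _ = 2 * (1 - θ) ^ 3 := by rw [h6, mul_one]
    have h9 : (1 - θ) ^ 2 ≤ 2 * (1 - θ) ^ 3 := by
      have h10 := hc.θ1
      have h11 : (0 : ℝ) ≤ (1 - θ) ^ 2 := sq_nonneg _
      nlinarith
    linarith
  have h3 : S.Xh θ A s T * ((1 - θ) / S.ps θ A s T) * (S.Xh θ A s T * ((1 - θ) / S.ps θ A s T))
      * S.ps θ A s T = S.Xh θ A s T * S.Xh θ A s T * ((1 - θ) ^ 2 / S.ps θ A s T) := by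
    field_simp
  rw [h3]
  have h4 : S.Xh θ A s T * S.Xh θ A s T ≤ δ * S.Xh θ A s T :=
    mul_le_mul_of_nonneg_right (Xh_le_δ hc T) h0.le
  calc S.Xh θ A s T * S.Xh θ A s T * ((1 - θ) ^ 2 / S.ps θ A s T)
      ≤ S.Xh θ A s T * S.Xh θ A s T * (2 * Real.exp (2 * A)) :=
        mul_le_mul_of_nonneg_left h2 (mul_nonneg h0.le h0.le)
    _ ≤ δ * S.Xh θ A s T * (2 * Real.exp (2 * A)) :=
        mul_le_mul_of_nonneg_right h4 (by positivity)
    _ = 2 * Real.exp (2 * A) * (δ * S.Xh θ A s T) := by ring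

theorem star_sub_nt {e : ι} {T : τ} (hT : e ∈ S.ed T) : S.star e ⊆ S.nt s.M T := by
  intro T' hT'
  unfold Sys.nt Sys.Sh
  rw [Finset.mem_union]
  left
  rw [Finset.mem_filter]
  refine ⟨Finset.mem_univ _, ?_⟩
  rw [Finset.not_disjoint_iff]
  exact ⟨e, mem_star.1 hT', hT⟩

theorem ed_inter (hc : S.Ctx J E₀ θ A B δ s) {T T' : τ} (hne : T ≠ T') {e f : ι}
    (he : e ∈ S.ed T) (he' : e ∈ S.ed T') (hf : f ∈ S.ed T) (hf' : f ∈ S.ed T') : f = e := by
  have h := Finset.card_le_one.1 (hc.good.lin T T' hne)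
  exact h f (Finset.mem_inter.2 ⟨hf, hf'⟩) e (Finset.mem_inter.2 ⟨he, he'⟩)

theorem nb_inter (hc : S.Ctx J E₀ θ A B δ s) {T T' : τ} (hne : T ≠ T') {e : ι}
    (he : e ∈ S.ed T) (he' : e ∈ S.ed T') :
    S.nb s T ∩ S.nb s T'
      = S.st e ∪ ((S.nt s.M T ∩ S.nt s.M T') \ S.star e).disjSum (∅ : Finset ι) := by
  ext c
  rw [Finset.mem_inter, Finset.mem_union]
  unfold Sys.nb Sys.st
  rcases c with U | f
  · simp only [Finset.inl_mem_disjSum, Finset.mem_sdiff, Finset.mem_inter]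
    constructor
    · rintro ⟨h1, h2⟩
      by_cases h3 : U ∈ S.star e
      · exact Or.inl h3
      · exact Or.inr ⟨⟨h1, h2⟩, h3⟩
    · rintro (h | h)
      · exact ⟨star_sub_nt he h, star_sub_nt he' h⟩
      · exact h.1
  · simp only [Finset.inr_mem_disjSum, Finset.mem_singleton, Finset.notMem_empty, or_false]
    constructor
    · rintro ⟨h1, h2⟩
      exact ed_inter hc hne he he' h1 h2
    · rintro rfl
      exact ⟨he, he'⟩

theorem st_disj {e : ι} (G : Finset τ) :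
    Disjoint (S.st e) ((G \ S.star e).disjSum (∅ : Finset ι)) := by
  rw [Finset.disjoint_left]
  unfold Sys.st
  rintro (U | f) h1 h2
  · rw [Finset.inl_mem_disjSum] at h1 h2
    exact (Finset.mem_sdiff.1 h2).2 h1
  · rw [Finset.inr_mem_disjSum] at h2
    simp at h2

theorem sum_disj (p : τ ⊕ ι → ℝ) (G : Finset τ) :
    ∑ c ∈ G.disjSum (∅ : Finset ι), p c = ∑ U ∈ G, p (Sum.inl U) := by
  rw [Finset.sum_disjSum]; simp

/-- the danger weight of a hyperedge -/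
theorem nt_weight (hc : S.Ctx J E₀ θ A B δ s) {T : τ} (hT : 0 < S.Xh θ A s T) (G : Finset τ)
    (hG : G ⊆ S.nt s.M T) : θ * ∑ U ∈ G, S.Xh θ A s U ≤ A + 1 := by
  have h0 := hc.θ0
  have h1 : ∑ U ∈ S.Sh T, S.Xh θ A s U ≤ 3 := by
    have h2 : S.Sh T ⊆ (S.ed T).biUnion S.star := by
      intro U hU
      unfold Sys.Sh at hU
      rw [Finset.mem_filter, Finset.not_disjoint_iff] at hU
      obtain ⟨_, e, he, he'⟩ := hU
      exact Finset.mem_biUnion.2 ⟨e, he', mem_star.2 he⟩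
    calc ∑ U ∈ S.Sh T, S.Xh θ A s U
        ≤ ∑ U ∈ (S.ed T).biUnion S.star, S.Xh θ A s U :=
          Finset.sum_le_sum_of_subset_of_nonneg h2 fun U _ _ => Xh_nonneg hc U
      _ ≤ ∑ e ∈ S.ed T, ∑ U ∈ S.star e, S.Xh θ A s U :=
          sum_biUnion_le _ _ _ (fun U => Xh_nonneg hc U)
      _ ≤ ∑ e ∈ S.ed T, (1 : ℝ) := Finset.sum_le_sum fun e _ => W_Xh_le hc e
      _ = 3 := by rw [Finset.sum_const, hc.good.card_ed T]; simp
  have h2 : ∑ U ∈ S.Nb s.M T, S.Xh θ A s U ≤ S.o s T :=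
    Finset.sum_le_sum fun U _ => Xh_le hc U
  have h3 : ∑ U ∈ G, S.Xh θ A s U ≤ 3 + S.o s T := by
    calc ∑ U ∈ G, S.Xh θ A s U ≤ ∑ U ∈ S.Sh T ∪ S.Nb s.M T, S.Xh θ A s U :=
          Finset.sum_le_sum_of_subset_of_nonneg hG fun U _ _ => Xh_nonneg hc U
      _ ≤ ∑ U ∈ S.Sh T, S.Xh θ A s U + ∑ U ∈ S.Nb s.M T, S.Xh θ A s U := by
          rw [← Finset.sum_union_inter]
          exact le_add_of_nonneg_right (Finset.sum_nonneg fun U _ => Xh_nonneg hc U)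
      _ ≤ 3 + S.o s T := add_le_add h1 h2
  have h4 := θo_le hc hT
  have h5 := mul_le_mul_of_nonneg_left h3 h0.le
  have h6 := hc.θ1
  nlinarith

theorem ex_offdiag (hc : S.Ctx J E₀ θ A B δ s) {T T' : τ} (hne : T ≠ T') {e : ι}
    (heE : e ∈ s.E) (he : e ∈ S.ed T) (he' : e ∈ S.ed T') :
    Ex (S.wt θ A s) (fun ω => S.X1 θ A s ω T * S.X1 θ A s ω T')
      ≤ (1 - θ) * (S.Xh θ A s T * S.Xh θ A s T')
        + 2 * Real.exp (2 * (A + 1)) * (s.X T * s.X T'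
          * ∑ U ∈ (S.nt s.M T ∩ S.nt s.M T') \ S.star e, s.X U) := by
  have hX0 := hc.valid.X0
  have hq := q_pos hc
  have hR : 0 ≤ 2 * Real.exp (2 * (A + 1)) * (s.X T * s.X T'
      * ∑ U ∈ (S.nt s.M T ∩ S.nt s.M T') \ S.star e, s.X U) :=
    mul_nonneg (by positivity) (mul_nonneg (mul_nonneg (hX0 T) (hX0 T'))
      (Finset.sum_nonneg fun U _ => hX0 U))
  rw [ex_X1_X1 hc]
  rcases (Xh_nonneg hc T).eq_or_lt with h0 | h0
  · rw [← h0]; simpa using hR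
  rcases (Xh_nonneg hc T').eq_or_lt with h0' | h0'
  · rw [← h0']; simpa using hR
  have hps := ps_pos hc h0
  have hps' := ps_pos hc h0'
  set G : Finset τ := (S.nt s.M T ∩ S.nt s.M T') \ S.star e with hG
  set p := S.pc θ A s with hp
  have h1 : po p (S.nb s T ∪ S.nb s T') * po p (S.nb s T ∩ S.nb s T')
      = S.ps θ A s T * S.ps θ A s T' := po_union_inter p _ _
  have h2 : po p (S.nb s T ∩ S.nb s T') = (1 - θ) * po p (G.disjSum (∅ : Finset ι)) := by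
    rw [nb_inter hc hne he he', ← po_st hc heE]
    unfold po
    exact Finset.prod_union (st_disj _)
  have hG1 : G ⊆ S.nt s.M T := fun U hU =>
    (Finset.mem_inter.1 (Finset.mem_sdiff.1 hU).1).1
  have hov : θ * ∑ U ∈ G, S.Xh θ A s U ≤ A + 1 := nt_weight hc h0 G hG1
  have h3 : ∑ c ∈ G.disjSum (∅ : Finset ι), p c = θ * ∑ U ∈ G, S.Xh θ A s U := by
    rw [sum_disj, Finset.mul_sum]
    rfl
  have h4 : Real.exp (-(2 * ∑ c ∈ G.disjSum (∅ : Finset ι), p c))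
      ≤ po p (G.disjSum (∅ : Finset ι)) := by
    refine exp_le_po (fun c _ => pc_nonneg hc c) fun c hc' => ?_
    rw [Finset.mem_disjSum] at hc'
    rcases hc' with ⟨U, _, rfl⟩ | ⟨f, hf, _⟩
    · exact pc_inl_le hc U
    · simp at hf
  rw [h3] at h4
  set x := 2 * (θ * ∑ U ∈ G, S.Xh θ A s U) with hx
  have hx0 : 0 ≤ x := mul_nonneg (by norm_num)
    (mul_nonneg hc.θ0.le (Finset.sum_nonneg fun U _ => Xh_nonneg hc U))
  have hxm : x ≤ 2 * (A + 1) := by rw [hx]; linarith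
  have hPo : 0 < po p (G.disjSum (∅ : Finset ι)) := lt_of_lt_of_le (Real.exp_pos _) h4
  have h5 : 1 / po p (G.disjSum (∅ : Finset ι)) ≤ 1 + x * Real.exp (2 * (A + 1)) := by
    refine le_trans ?_ (exp_le_one_add hx0 hxm)
    rw [div_le_iff₀ hPo]
    have h6 : Real.exp x * Real.exp (-x) = 1 := by rw [← Real.exp_add]; simp
    calc (1 : ℝ) = Real.exp x * Real.exp (-x) := h6.symm
      _ ≤ Real.exp x * po p (G.disjSum (∅ : Finset ι)) :=
        mul_le_mul_of_nonneg_left h4 (Real.exp_pos _).le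
  have h6 : S.Xh θ A s T * ((1 - θ) / S.ps θ A s T) * (S.Xh θ A s T' * ((1 - θ) / S.ps θ A s T'))
      * po p (S.nb s T ∪ S.nb s T')
      = (1 - θ) * (S.Xh θ A s T * S.Xh θ A s T') * (1 / po p (G.disjSum (∅ : Finset ι))) := by
    have h7 : po p (S.nb s T ∪ S.nb s T')
        = S.ps θ A s T * S.ps θ A s T' / ((1 - θ) * po p (G.disjSum (∅ : Finset ι))) := by
      rw [eq_div_iff (mul_pos hq hPo).ne', ← h2]
      exact h1
    rw [h7]
    field_simp
  rw [h6]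
  have hXX : S.Xh θ A s T * S.Xh θ A s T' ≤ s.X T * s.X T' :=
    mul_le_mul (Xh_le hc T) (Xh_le hc T') h0'.le (hX0 T)
  have hovX : ∑ U ∈ G, S.Xh θ A s U ≤ ∑ U ∈ G, s.X U :=
    Finset.sum_le_sum fun U _ => Xh_le hc U
  have hov0 : 0 ≤ ∑ U ∈ G, S.Xh θ A s U := Finset.sum_nonneg fun U _ => Xh_nonneg hc U
  have h8 : (1 - θ) * (S.Xh θ A s T * S.Xh θ A s T') * x
      ≤ 2 * (s.X T * s.X T' * ∑ U ∈ G, s.X U) := by
    have h9 : (1 - θ) * θ ≤ 1 := by nlinarith [hc.θ0, hc.θ1]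
    have h10 : (S.Xh θ A s T * S.Xh θ A s T') * ∑ U ∈ G, S.Xh θ A s U
        ≤ s.X T * s.X T' * ∑ U ∈ G, s.X U :=
      mul_le_mul hXX hovX hov0 (mul_nonneg (hX0 T) (hX0 T'))
    have h11 : 0 ≤ (S.Xh θ A s T * S.Xh θ A s T') * ∑ U ∈ G, S.Xh θ A s U :=
      mul_nonneg (mul_nonneg h0.le h0'.le) hov0
    calc (1 - θ) * (S.Xh θ A s T * S.Xh θ A s T') * x
        = 2 * (((1 - θ) * θ) * ((S.Xh θ A s T * S.Xh θ A s T') * ∑ U ∈ G, S.Xh θ A s U)) := by
          rw [hx]; ring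
      _ ≤ 2 * (1 * ((S.Xh θ A s T * S.Xh θ A s T') * ∑ U ∈ G, S.Xh θ A s U)) := by
          have := mul_le_mul_of_nonneg_right h9 h11
          linarith
      _ ≤ _ := by linarith
  have h12 : 0 ≤ (1 - θ) * (S.Xh θ A s T * S.Xh θ A s T') :=
    mul_nonneg hq.le (mul_nonneg h0.le h0'.le)
  have hE0 := Real.exp_pos (2 * (A + 1))
  calc (1 - θ) * (S.Xh θ A s T * S.Xh θ A s T') * (1 / po p (G.disjSum (∅ : Finset ι)))
      ≤ (1 - θ) * (S.Xh θ A s T * S.Xh θ A s T') * (1 + x * Real.exp (2 * (A + 1))) :=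
        mul_le_mul_of_nonneg_left h5 h12
    _ = (1 - θ) * (S.Xh θ A s T * S.Xh θ A s T')
        + ((1 - θ) * (S.Xh θ A s T * S.Xh θ A s T') * x) * Real.exp (2 * (A + 1)) := by ring
    _ ≤ (1 - θ) * (S.Xh θ A s T * S.Xh θ A s T')
        + (2 * (s.X T * s.X T' * ∑ U ∈ G, s.X U)) * Real.exp (2 * (A + 1)) := by
        have := mul_le_mul_of_nonneg_right h8 hE0.le
        linarith
    _ = _ := by ring

/-- second moment of the weight at an element -/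
theorem ex_W1_sq (hc : S.Ctx J E₀ θ A B δ s) {e : ι} (heE : e ∈ s.E) :
    Ex (S.wt θ A s) (fun ω => S.W (S.X1 θ A s ω) e * S.W (S.X1 θ A s ω) e)
      ≤ (1 - θ) * (S.W (S.Xh θ A s) e * S.W (S.Xh θ A s) e) + 2 * Real.exp (2 * A) * δ
        + 2 * Real.exp (2 * (A + 1)) * ∑ T ∈ S.star e, ∑ T' ∈ (S.star e).erase T,
          s.X T * s.X T' * ∑ U ∈ (S.nt s.M T ∩ S.nt s.M T') \ S.star e, s.X U := by
  have hq := q_pos hc
  have h1 : Ex (S.wt θ A s) (fun ω => S.W (S.X1 θ A s ω) e * S.W (S.X1 θ A s ω) e)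
      = ∑ T ∈ S.star e, ∑ T' ∈ S.star e,
        Ex (S.wt θ A s) (fun ω => S.X1 θ A s ω T * S.X1 θ A s ω T') := by
    have h2 : (fun ω => S.W (S.X1 θ A s ω) e * S.W (S.X1 θ A s ω) e)
        = fun ω => ∑ T ∈ S.star e, ∑ T' ∈ S.star e, S.X1 θ A s ω T * S.X1 θ A s ω T' := by
      funext ω
      unfold Sys.W
      rw [Finset.sum_mul_sum]
    rw [h2, ex_sum]
    exact Finset.sum_congr rfl fun T _ => ex_sum _ _ _
  have hW : S.W (S.Xh θ A s) e * S.W (S.Xh θ A s) e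
      = ∑ T ∈ S.star e, (S.Xh θ A s T * S.Xh θ A s T
        + ∑ T' ∈ (S.star e).erase T, S.Xh θ A s T * S.Xh θ A s T') := by
    unfold Sys.W
    rw [Finset.sum_mul_sum]
    refine Finset.sum_congr rfl fun T hT => ?_
    rw [Finset.add_sum_erase _ (fun T' => S.Xh θ A s T * S.Xh θ A s T') hT]
  have hWδ : ∑ T ∈ S.star e, 2 * Real.exp (2 * A) * (δ * S.Xh θ A s T)
      ≤ 2 * Real.exp (2 * A) * δ := by
    have h3 : ∑ T ∈ S.star e, 2 * Real.exp (2 * A) * (δ * S.Xh θ A s T)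
        = (2 * Real.exp (2 * A) * δ) * S.W (S.Xh θ A s) e := by
      unfold Sys.W
      rw [Finset.mul_sum]
      exact Finset.sum_congr rfl fun T _ => by ring
    rw [h3]
    have h4 : 0 ≤ 2 * Real.exp (2 * A) * δ := mul_nonneg (by positivity) hc.δ0
    exact mul_le_of_le_one_right h4 (W_Xh_le hc e)
  have hT : ∀ T ∈ S.star e, ∑ T' ∈ S.star e,
        Ex (S.wt θ A s) (fun ω => S.X1 θ A s ω T * S.X1 θ A s ω T')
      ≤ 2 * Real.exp (2 * A) * (δ * S.Xh θ A s T)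
        + ((1 - θ) * (S.Xh θ A s T * S.Xh θ A s T
          + ∑ T' ∈ (S.star e).erase T, S.Xh θ A s T * S.Xh θ A s T')
        + 2 * Real.exp (2 * (A + 1)) * ∑ T' ∈ (S.star e).erase T,
          s.X T * s.X T' * ∑ U ∈ (S.nt s.M T ∩ S.nt s.M T') \ S.star e, s.X U) := by
    intro T hT
    rw [← Finset.add_sum_erase _ _ hT]
    have h5 : ∑ T' ∈ (S.star e).erase T,
        Ex (S.wt θ A s) (fun ω => S.X1 θ A s ω T * S.X1 θ A s ω T')
        ≤ ∑ T' ∈ (S.star e).erase T, ((1 - θ) * (S.Xh θ A s T * S.Xh θ A s T')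
        + 2 * Real.exp (2 * (A + 1)) * (s.X T * s.X T'
          * ∑ U ∈ (S.nt s.M T ∩ S.nt s.M T') \ S.star e, s.X U)) := by
      refine Finset.sum_le_sum fun T' hT' => ?_
      rw [Finset.mem_erase] at hT'
      exact ex_offdiag hc (Ne.symm hT'.1) heE (mem_star.1 hT) (mem_star.1 hT'.2)
    have h5' : ∑ T' ∈ (S.star e).erase T, ((1 - θ) * (S.Xh θ A s T * S.Xh θ A s T')
        + 2 * Real.exp (2 * (A + 1)) * (s.X T * s.X T'
          * ∑ U ∈ (S.nt s.M T ∩ S.nt s.M T') \ S.star e, s.X U))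
        = (1 - θ) * ∑ T' ∈ (S.star e).erase T, S.Xh θ A s T * S.Xh θ A s T'
        + 2 * Real.exp (2 * (A + 1)) * ∑ T' ∈ (S.star e).erase T, s.X T * s.X T'
          * ∑ U ∈ (S.nt s.M T ∩ S.nt s.M T') \ S.star e, s.X U := by
      rw [Finset.sum_add_distrib, Finset.mul_sum, Finset.mul_sum]
    rw [h5'] at h5
    have h6 := ex_diag hc T
    have h7 : 0 ≤ (1 - θ) * (S.Xh θ A s T * S.Xh θ A s T) :=
      mul_nonneg hq.le (mul_nonneg (Xh_nonneg hc T) (Xh_nonneg hc T))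
    linarith
  rw [h1, hW]
  calc ∑ T ∈ S.star e, ∑ T' ∈ S.star e,
        Ex (S.wt θ A s) (fun ω => S.X1 θ A s ω T * S.X1 θ A s ω T')
      ≤ ∑ T ∈ S.star e, (2 * Real.exp (2 * A) * (δ * S.Xh θ A s T)
        + ((1 - θ) * (S.Xh θ A s T * S.Xh θ A s T
          + ∑ T' ∈ (S.star e).erase T, S.Xh θ A s T * S.Xh θ A s T')
        + 2 * Real.exp (2 * (A + 1)) * ∑ T' ∈ (S.star e).erase T,
          s.X T * s.X T' * ∑ U ∈ (S.nt s.M T ∩ S.nt s.M T') \ S.star e, s.X U)) :=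
        Finset.sum_le_sum hT
    _ = ∑ T ∈ S.star e, 2 * Real.exp (2 * A) * (δ * S.Xh θ A s T)
        + ((1 - θ) * ∑ T ∈ S.star e, (S.Xh θ A s T * S.Xh θ A s T
          + ∑ T' ∈ (S.star e).erase T, S.Xh θ A s T * S.Xh θ A s T')
        + 2 * Real.exp (2 * (A + 1)) * ∑ T ∈ S.star e, ∑ T' ∈ (S.star e).erase T,
          s.X T * s.X T' * ∑ U ∈ (S.nt s.M T ∩ S.nt s.M T') \ S.star e, s.X U) := by
        rw [Finset.sum_add_distrib, Finset.sum_add_distrib,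
          Finset.mul_sum (s := S.star e) (a := 1 - θ),
          Finset.mul_sum (s := S.star e) (a := 2 * Real.exp (2 * (A + 1)))]
    _ ≤ _ := by linarith

/-- the mean excess at an element -/
theorem ex_excess (hc : S.Ctx J E₀ θ A B δ s) {η : ℝ} (hη : 0 < η) {e : ι} (heE : e ∈ s.E) :
    Ex (S.wt θ A s) (fun ω => (if off (S.st e) ω then (1 : ℝ) else 0)
        * max (S.W (S.X1 θ A s ω) e - 1) 0)
      ≤ η / 2 + 1 / (2 * η) * (2 * Real.exp (2 * A) * δ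
        + 2 * Real.exp (2 * (A + 1)) * ∑ T ∈ S.star e, ∑ T' ∈ (S.star e).erase T,
          s.X T * s.X T' * ∑ U ∈ (S.nt s.M T ∩ S.nt s.M T') \ S.star e, s.X U) := by
  have hq := q_pos hc
  set h : ℝ := S.W (S.Xh θ A s) e with hh
  have hh1 : h ≤ 1 := W_Xh_le hc e
  have hpt : ∀ ω, (if off (S.st e) ω then (1 : ℝ) else 0) * max (S.W (S.X1 θ A s ω) e - 1) 0
      ≤ (η / 2 + h ^ 2 / (2 * η)) * (if off (S.st e) ω then (1 : ℝ) else 0)
        + (1 / (2 * η) * (S.W (S.X1 θ A s ω) e * S.W (S.X1 θ A s ω) e)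
        - (2 * h / (2 * η)) * S.W (S.X1 θ A s ω) e) := by
    intro ω
    by_cases ho : off (S.st e) ω
    · rw [if_pos ho, one_mul, mul_one]
      refine (max_le_quad (W := S.W (S.X1 θ A s ω) e) hh1 hη).trans (le_of_eq ?_)
      field_simp
      ring
    · have h7 : S.W (S.X1 θ A s ω) e = 0 :=
        W1_eq_zero hc fun h8 => ho (mem_nxt_E.1 h8).2
      rw [if_neg ho, h7]
      simp
  refine (ex_mono (pw_wt hc) hpt).trans ?_
  rw [ex_add, ex_sub, ex_mul_left, ex_mul_left, ex_mul_left, ex_off_st hc heE, ex_W1 hc e, ← hh]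
  have h1 := ex_W1_sq hc heE
  rw [← hh] at h1
  have h2 : 0 < 1 / (2 * η) := by positivity
  have h3 := mul_le_mul_of_nonneg_left h1 h2.le
  have h4 : (η / 2 + h ^ 2 / (2 * η)) * (1 - θ)
      = η / 2 * (1 - θ) + 1 / (2 * η) * ((1 - θ) * (h * h)) := by
    field_simp
  have h5 : 2 * h / (2 * η) * ((1 - θ) * h) = 2 * (1 / (2 * η) * ((1 - θ) * (h * h))) := by
    field_simp
  rw [h4, h5]
  have h6 : η / 2 * (1 - θ) ≤ η / 2 := by
    have : 0 < θ := hc.θ0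
    nlinarith
  have h7 : 1 / (2 * η) * ((1 - θ) * (h * h) + 2 * Real.exp (2 * A) * δ
        + 2 * Real.exp (2 * (A + 1)) * ∑ T ∈ S.star e, ∑ T' ∈ (S.star e).erase T,
          s.X T * s.X T' * ∑ U ∈ (S.nt s.M T ∩ S.nt s.M T') \ S.star e, s.X U)
      = 1 / (2 * η) * ((1 - θ) * (h * h)) + 1 / (2 * η) * (2 * Real.exp (2 * A) * δ
        + 2 * Real.exp (2 * (A + 1)) * ∑ T ∈ S.star e, ∑ T' ∈ (S.star e).erase T,
          s.X T * s.X T' * ∑ U ∈ (S.nt s.M T ∩ S.nt s.M T') \ S.star e, s.X U) := by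
    ring
  rw [h7] at h3
  linarith

theorem ex_Df (hc : S.Ctx J E₀ θ A B δ s) {η c : ℝ} (hη : 0 < η)
    (hov : ∑ e ∈ s.E, ∑ T ∈ S.star e, ∑ T' ∈ (S.star e).erase T,
        s.X T * s.X T' * ∑ U ∈ (S.nt s.M T ∩ S.nt s.M T') \ S.star e, s.X U ≤ c * S.Xi s) :
    Ex (S.wt θ A s) (fun ω => S.Df (S.nxt θ A s ω))
      ≤ (1 - θ) * ∑ e ∈ s.E, (1 - S.W (S.Xh θ A s) e)
        + (3 * η / 2 * s.E.card + 3 / (2 * η) * (2 * Real.exp (2 * A) * δ * s.E.card
          + 2 * Real.exp (2 * (A + 1)) * (c * S.Xi s))) := by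
  refine (ex_mono (pw_wt hc) (Df_nxt hc)).trans ?_
  rw [ex_add, ex_sum, ex_mul_left, ex_sum]
  have h1 : ∑ e ∈ s.E, Ex (S.wt θ A s) (fun ω => (if off (S.st e) ω then (1 : ℝ) else 0)
      - S.W (S.X1 θ A s ω) e) = (1 - θ) * ∑ e ∈ s.E, (1 - S.W (S.Xh θ A s) e) := by
    rw [Finset.mul_sum]
    refine Finset.sum_congr rfl fun e he => ?_
    rw [ex_sub, ex_off_st hc he, ex_W1 hc e]
    ring
  rw [h1]
  have h2 : ∑ e ∈ s.E, Ex (S.wt θ A s) (fun ω => (if off (S.st e) ω then (1 : ℝ) else 0)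
        * max (S.W (S.X1 θ A s ω) e - 1) 0)
      ≤ ∑ e ∈ s.E, (η / 2 + 1 / (2 * η) * (2 * Real.exp (2 * A) * δ
        + 2 * Real.exp (2 * (A + 1)) * ∑ T ∈ S.star e, ∑ T' ∈ (S.star e).erase T,
          s.X T * s.X T' * ∑ U ∈ (S.nt s.M T ∩ S.nt s.M T') \ S.star e, s.X U)) :=
    Finset.sum_le_sum fun e he => ex_excess hc hη he
  have h2' : ∑ e ∈ s.E, (η / 2 + 1 / (2 * η) * (2 * Real.exp (2 * A) * δ
        + 2 * Real.exp (2 * (A + 1)) * ∑ T ∈ S.star e, ∑ T' ∈ (S.star e).erase T,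
          s.X T * s.X T' * ∑ U ∈ (S.nt s.M T ∩ S.nt s.M T') \ S.star e, s.X U))
      = (s.E.card : ℝ) * (η / 2) + 1 / (2 * η) * ((s.E.card : ℝ) * (2 * Real.exp (2 * A) * δ)
        + 2 * Real.exp (2 * (A + 1)) * ∑ e ∈ s.E, ∑ T ∈ S.star e, ∑ T' ∈ (S.star e).erase T,
          s.X T * s.X T' * ∑ U ∈ (S.nt s.M T ∩ S.nt s.M T') \ S.star e, s.X U) := by
    rw [Finset.sum_add_distrib, Finset.sum_const, nsmul_eq_mul,
      ← Finset.mul_sum s.E _ (1 / (2 * η)), Finset.sum_add_distrib, Finset.sum_const,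
      nsmul_eq_mul, ← Finset.mul_sum s.E _ (2 * Real.exp (2 * (A + 1)))]
  rw [h2'] at h2
  have h3 : 0 < 1 / (2 * η) := by positivity
  have h4 := mul_le_mul_of_nonneg_left hov (Real.exp_pos (2 * (A + 1))).le
  have h5 : 1 / (2 * η) * ((s.E.card : ℝ) * (2 * Real.exp (2 * A) * δ)
        + 2 * Real.exp (2 * (A + 1)) * ∑ e ∈ s.E, ∑ T ∈ S.star e, ∑ T' ∈ (S.star e).erase T,
          s.X T * s.X T' * ∑ U ∈ (S.nt s.M T ∩ S.nt s.M T') \ S.star e, s.X U)
      ≤ 1 / (2 * η) * ((s.E.card : ℝ) * (2 * Real.exp (2 * A) * δ)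
        + 2 * Real.exp (2 * (A + 1)) * (c * S.Xi s)) :=
    mul_le_mul_of_nonneg_left (by linarith) h3.le
  have h6 : 3 * η / 2 * s.E.card + 3 / (2 * η) * (2 * Real.exp (2 * A) * δ * s.E.card
          + 2 * Real.exp (2 * (A + 1)) * (c * S.Xi s))
      = 3 * ((s.E.card : ℝ) * (η / 2) + 1 / (2 * η) * ((s.E.card : ℝ) * (2 * Real.exp (2 * A) * δ)
        + 2 * Real.exp (2 * (A + 1)) * (c * S.Xi s))) := by
    field_simp
  rw [h6]
  linarith

/-- alive deficiency after the discards -/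
theorem sum_one_sub_Wh (hc : S.Ctx J E₀ θ A B δ s) :
    ∑ e ∈ s.E, (1 - S.W (S.Xh θ A s) e) ≤ S.Df s + 3 * ∑ T, (s.X T - S.Xh θ A s T) := by
  have h1 : ∑ e ∈ s.E, (1 - S.W (S.Xh θ A s) e)
      = S.Df s + ∑ e ∈ s.E, ∑ T ∈ S.star e, (s.X T - S.Xh θ A s T) := by
    unfold Sys.Df
    rw [← Finset.sum_add_distrib]
    refine Finset.sum_congr rfl fun e _ => ?_
    unfold Sys.W
    rw [Finset.sum_sub_distrib]
    ring
  have h2 : ∑ e ∈ s.E, ∑ T ∈ S.star e, (s.X T - S.Xh θ A s T)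
      ≤ ∑ e, ∑ T ∈ S.star e, (s.X T - S.Xh θ A s T) :=
    Finset.sum_le_sum_of_subset_of_nonneg (Finset.subset_univ _) fun e _ _ =>
      Finset.sum_nonneg fun T _ => sub_nonneg.2 (Xh_le hc T)
  have h3 : ∑ e, ∑ T ∈ S.star e, (s.X T - S.Xh θ A s T)
      = 3 * ∑ T, (s.X T - S.Xh θ A s T) := by
    rw [sum_star, Finset.mul_sum]
    refine Finset.sum_congr rfl fun T _ => ?_
    rw [Finset.sum_const, hc.good.card_ed T]
    simp
  rw [h1]
  linarith

theorem ex_Psi (hc : S.Ctx J E₀ θ A B δ s) :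
    Ex (S.wt θ A s) (fun ω => (S.nxt θ A s ω).Psi)
      ≤ (1 - θ) * ∑ T, S.Xh θ A s T * (s.a T + θ * S.o s T) := by
  have h1 : ∀ ω, (S.nxt θ A s ω).Psi ≤ ∑ T, S.X1 θ A s ω T * (s.a T + θ * S.o s T) := by
    intro ω
    unfold St.Psi
    refine Finset.sum_le_sum fun T _ => ?_
    exact mul_le_mul_of_nonneg_right (X2_le hc ω T)
      (add_nonneg (hc.valid.a0 T) (mul_nonneg hc.θ0.le (hc.o_nonneg T)))
  refine (ex_mono (pw_wt hc) h1).trans (le_of_eq ?_)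
  rw [ex_sum, Finset.mul_sum]
  refine Finset.sum_congr rfl fun T _ => ?_
  rw [ex_mul_right, ex_X1 hc T]
  ring

theorem Xh_a (hc : S.Ctx J E₀ θ A B δ s) (T : τ) :
    S.Xh θ A s T * (s.a T + θ * S.o s T)
      ≤ s.X T * s.a T + θ * (s.X T * S.o s T) - A * (s.X T - S.Xh θ A s T) := by
  have hX := hc.valid.X0 T
  unfold Sys.Xh
  split_ifs with h
  · linarith [mul_comm (s.X T) (θ * S.o s T)]
  · push Not at h
    nlinarith

/-- the total open threat weight is at most `J ^ 2` times the configuration weight -/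
theorem sum_X_o (hc : S.Ctx J E₀ θ A B δ s) : ∑ T, s.X T * S.o s T ≤ (J : ℝ) ^ 2 * S.Th s := by
  have hX := hc.valid.X0
  have hyy : ∀ C, 0 ≤ s.yy C := fun C => hc.valid.yy_nonneg C
  have h1 : ∀ T T', T' ∈ S.Nb s.M T →
      s.X T * s.X T' ≤ ∑ C ∈ S.conf, (if T ∈ C ∧ T' ∈ C then s.yy C else 0) := by
    intro T T' hT'
    unfold Sys.Nb at hT'
    rw [Finset.mem_filter] at hT'
    obtain ⟨_, hne, C, hC, hTC, hT'C, hrest⟩ := hT'
    have h2 : s.X T * s.X T' ≤ s.yy C := by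
      unfold St.yy
      rw [← Finset.mul_prod_erase C s.y hTC,
        ← Finset.mul_prod_erase (C.erase T) s.y (Finset.mem_erase.2 ⟨hne, hT'C⟩)]
      have h3 : ∏ x ∈ (C.erase T).erase T', s.y x = 1 := by
        refine Finset.prod_eq_one fun x hx => ?_
        rw [Finset.mem_erase, Finset.mem_erase] at hx
        rcases hrest x hx.2.2 with h | h | h
        · exact absurd h hx.2.1
        · exact absurd h hx.1
        · exact hc.valid.y_of_mem hc.good h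
      rw [h3, mul_one]
      exact mul_le_mul (Sys.Valid.X_le_y T) (Sys.Valid.X_le_y T') (hX T')
        (hc.valid.y_nonneg T)
    calc s.X T * s.X T' ≤ (if T ∈ C ∧ T' ∈ C then s.yy C else 0) := by
          rw [if_pos ⟨hTC, hT'C⟩]; exact h2
      _ ≤ _ := Finset.single_le_sum
          (f := fun C => if T ∈ C ∧ T' ∈ C then s.yy C else 0)
          (fun C _ => by split_ifs; exacts [hyy C, le_rfl]) hC
  calc ∑ T, s.X T * S.o s T = ∑ T, ∑ T' ∈ S.Nb s.M T, s.X T * s.X T' := by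
        refine Finset.sum_congr rfl fun T _ => ?_
        unfold Sys.o
        rw [Finset.mul_sum]
    _ ≤ ∑ T, ∑ T' ∈ S.Nb s.M T, ∑ C ∈ S.conf, (if T ∈ C ∧ T' ∈ C then s.yy C else 0) :=
        Finset.sum_le_sum fun T _ => Finset.sum_le_sum fun T' hT' => h1 T T' hT'
    _ ≤ ∑ T, ∑ T', ∑ C ∈ S.conf, (if T ∈ C ∧ T' ∈ C then s.yy C else 0) := by
        refine Finset.sum_le_sum fun T _ =>
          Finset.sum_le_sum_of_subset_of_nonneg (Finset.subset_univ _) fun T' _ _ =>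
            Finset.sum_nonneg fun C _ => ?_
        split_ifs
        · exact hyy C
        · exact le_rfl
    _ = ∑ C ∈ S.conf, ∑ T, ∑ T', (if T ∈ C ∧ T' ∈ C then s.yy C else 0) := by
        rw [Finset.sum_comm' (s := univ) (t := fun _ : τ => (univ : Finset τ))
          (t' := univ) (s' := fun _ => univ) (by simp)]
        rw [Finset.sum_comm' (s := univ) (t := fun _ : τ => (univ : Finset τ))
          (t' := univ) (s' := fun _ => univ) (by simp)]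
        rw [show (∑ T, ∑ T', ∑ C ∈ S.conf, (if T ∈ C ∧ T' ∈ C then s.yy C else 0))
          = ∑ T, ∑ C ∈ S.conf, ∑ T', (if T ∈ C ∧ T' ∈ C then s.yy C else 0) from
            Finset.sum_congr rfl fun T _ => Finset.sum_comm]
        exact Finset.sum_comm
    _ = ∑ C ∈ S.conf, (C.card : ℝ) ^ 2 * s.yy C := by
        refine Finset.sum_congr rfl fun C _ => ?_
        have h4 : ∀ T T' : τ, (if T ∈ C ∧ T' ∈ C then s.yy C else 0)
            = (if T ∈ C then (if T' ∈ C then s.yy C else 0) else 0) := by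
          intro T T'
          by_cases h5 : T ∈ C
          · by_cases h6 : T' ∈ C
            · simp [h5, h6]
            · simp [h5, h6]
          · simp [h5]
        simp only [h4]
        have h7 : ∀ T : τ, ∑ T' : τ, (if T ∈ C then (if T' ∈ C then s.yy C else 0) else 0)
            = if T ∈ C then (C.card : ℝ) * s.yy C else 0 := by
          intro T
          by_cases h5 : T ∈ C
          · simp only [if_pos h5]
            rw [← Finset.sum_filter]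
            simp
          · simp [h5]
        rw [Finset.sum_congr rfl fun T _ => h7 T, ← Finset.sum_filter]
        simp
        ring
    _ ≤ ∑ C ∈ S.conf, (J : ℝ) ^ 2 * s.yy C := by
        refine Finset.sum_le_sum fun C hC => mul_le_mul_of_nonneg_right ?_ (hyy C)
        have : (C.card : ℝ) ≤ J := by exact_mod_cast hc.good.conf_card C hC
        exact pow_le_pow_left₀ (Nat.cast_nonneg _) this 2
    _ = (J : ℝ) ^ 2 * S.Th s := by
        unfold Sys.Th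
        rw [Finset.mul_sum]

theorem Psi_nonneg (hc : S.Ctx J E₀ θ A B δ s) : 0 ≤ s.Psi :=
  Finset.sum_nonneg fun T _ => mul_nonneg (hc.valid.X0 T) (hc.valid.a0 T)

theorem Df_nonneg (hc : S.Ctx J E₀ θ A B δ s) : 0 ≤ S.Df s :=
  Finset.sum_nonneg fun e _ => sub_nonneg.2 (hc.valid.W1 e)

theorem Xi_nonneg (hc : S.Ctx J E₀ θ A B δ s) : 0 ≤ S.Xi s :=
  Finset.sum_nonneg fun D _ => hc.valid.yy_nonneg D

theorem Th_nonneg (hc : S.Ctx J E₀ θ A B δ s) : 0 ≤ S.Th s :=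
  Finset.sum_nonneg fun D _ => hc.valid.yy_nonneg D

/-- the discards cancel in the mean of `Df + 3 / A * Psi` -/
theorem main (hc : S.Ctx J E₀ θ A B δ s) {η c c' : ℝ} (hη : 0 < η) (hc0 : 0 ≤ c)
    (hc' : 3 * Real.exp (2 * (A + 1)) * (c + 1) ≤ c')
    (hov : ∑ e ∈ s.E, ∑ T ∈ S.star e, ∑ T' ∈ (S.star e).erase T,
        s.X T * s.X T' * ∑ U ∈ (S.nt s.M T ∩ S.nt s.M T') \ S.star e, s.X U ≤ c * S.Xi s) :
    Ex (S.wt θ A s) (fun ω => S.Df (S.nxt θ A s ω) + 3 / A * (S.nxt θ A s ω).Psi)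
      ≤ (1 - θ) * (S.Df s + 3 / A * s.Psi) + 3 / A * θ * (J : ℝ) ^ 2 * S.Th s
        + 3 * η / 2 * s.E.card + c' / η * (δ * s.E.card + S.Xi s) := by
  have hA : 0 < A := by linarith [hc.A3]
  have hq := q_pos hc
  have hq1 : 1 - θ ≤ 1 := by linarith [hc.θ0]
  rw [ex_add, ex_mul_left]
  set D : ℝ := ∑ T, (s.X T - S.Xh θ A s T) with hD
  have hD0 : 0 ≤ D := Finset.sum_nonneg fun T _ => sub_nonneg.2 (Xh_le hc T)
  have h1 := ex_Df hc hη hov
  have h2 := sum_one_sub_Wh hc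
  have h3 := ex_Psi hc
  have h4 : ∑ T, S.Xh θ A s T * (s.a T + θ * S.o s T)
      ≤ s.Psi + θ * ((J : ℝ) ^ 2 * S.Th s) - A * D := by
    have h5 : ∑ T, S.Xh θ A s T * (s.a T + θ * S.o s T)
        ≤ ∑ T, (s.X T * s.a T + θ * (s.X T * S.o s T) - A * (s.X T - S.Xh θ A s T)) :=
      Finset.sum_le_sum fun T _ => Xh_a hc T
    rw [Finset.sum_sub_distrib, Finset.sum_add_distrib, ← Finset.mul_sum, ← Finset.mul_sum] at h5
    have h6 := mul_le_mul_of_nonneg_left (sum_X_o hc) hc.θ0.le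
    have h7 : s.Psi = ∑ T, s.X T * s.a T := rfl
    rw [h7]
    linarith
  have h8 := mul_le_mul_of_nonneg_left h2 hq.le
  have h9 : 3 / A * Ex (S.wt θ A s) (fun ω => (S.nxt θ A s ω).Psi)
      ≤ (1 - θ) * (3 / A * (s.Psi + θ * ((J : ℝ) ^ 2 * S.Th s)) - 3 * D) := by
    have h10 : (0 : ℝ) < 3 / A := by positivity
    have h11 := mul_le_mul_of_nonneg_left (h3.trans (mul_le_mul_of_nonneg_left h4 hq.le)) h10.le
    refine h11.trans (le_of_eq ?_)
    field_simp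
  have h12 : (1 - θ) * (S.Df s + 3 * D) + (1 - θ) * (3 / A * (s.Psi
      + θ * ((J : ℝ) ^ 2 * S.Th s)) - 3 * D)
      ≤ (1 - θ) * (S.Df s + 3 / A * s.Psi) + 3 / A * θ * (J : ℝ) ^ 2 * S.Th s := by
    have h13 : 0 ≤ 3 / A * (θ * ((J : ℝ) ^ 2 * S.Th s)) := by
      have := Th_nonneg hc
      have := hc.θ0
      positivity
    calc (1 - θ) * (S.Df s + 3 * D) + (1 - θ) * (3 / A * (s.Psi
        + θ * ((J : ℝ) ^ 2 * S.Th s)) - 3 * D)
        = (1 - θ) * (S.Df s + 3 / A * s.Psi)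
          + (1 - θ) * (3 / A * (θ * ((J : ℝ) ^ 2 * S.Th s))) := by ring
      _ ≤ (1 - θ) * (S.Df s + 3 / A * s.Psi)
          + 1 * (3 / A * (θ * ((J : ℝ) ^ 2 * S.Th s))) := by
        have := mul_le_mul_of_nonneg_right hq1 h13
        linarith
      _ = _ := by ring
  have h14 : 3 / (2 * η) * (2 * Real.exp (2 * A) * δ * s.E.card
          + 2 * Real.exp (2 * (A + 1)) * (c * S.Xi s))
      ≤ c' / η * (δ * s.E.card + S.Xi s) := by
    have hX := Xi_nonneg hc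
    have hE : 0 ≤ δ * (s.E.card : ℝ) := mul_nonneg hc.δ0 (Nat.cast_nonneg _)
    have he1 : Real.exp (2 * A) ≤ Real.exp (2 * (A + 1)) := Real.exp_le_exp.2 (by linarith)
    have he2 := Real.exp_pos (2 * A)
    have h15 : 3 * Real.exp (2 * A) * (δ * s.E.card) ≤ c' * (δ * s.E.card) := by
      refine mul_le_mul_of_nonneg_right (le_trans ?_ hc') hE
      nlinarith
    have h16 : 3 * Real.exp (2 * (A + 1)) * c * S.Xi s ≤ c' * S.Xi s := by
      refine mul_le_mul_of_nonneg_right (le_trans ?_ hc') hX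
      nlinarith
    have h17 : 3 / (2 * η) * (2 * Real.exp (2 * A) * δ * s.E.card
          + 2 * Real.exp (2 * (A + 1)) * (c * S.Xi s))
        = (3 * Real.exp (2 * A) * (δ * s.E.card) + 3 * Real.exp (2 * (A + 1)) * c * S.Xi s) / η := by
      field_simp
    rw [h17, div_mul_eq_mul_div]
    refine div_le_div_of_nonneg_right ?_ hη.le
    linarith
  linarith

end

/-- the fourth component of the one-bite lemma -/
theorem comp4 (hOv : OvPairStatement) : Comp 4 := by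
  intro J A hA
  obtain ⟨c, hc1, hov⟩ := hOv J
  refine ⟨3 * Real.exp (2 * (A + 1)) * (c + 1), ?_, ?_⟩
  · have h1 : 1 ≤ Real.exp (2 * (A + 1)) := Real.one_le_exp (by linarith)
    nlinarith
  · intro c' hc' ι τ _ _ _ _ S E₀ θ B δ η s hctx hη
    have h := main hctx hη (by linarith) hc' (hov ι τ S E₀ A B s hctx.good hctx.valid)
    exact h

end F1.C4
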