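import Mathlib
import Pool.Agent.F1.Basic

/-!
# Project F1: the components 5 (configurations) and 3 (flagged configurations) of one bite
-/

set_option autoImplicit false
set_option linter.unusedSectionVars false

namespace F1

open Finset NWC

section

variable {ι τ : Type} [Fintype ι] [Fintype τ] [DecidableEq ι] [DecidableEq τ]
variable {S : Sys ι τ} {J : ℕ} {E₀ : Finset ι} {θ A B δ : ℝ} {s : St ι τ}

/-- the overlap weight of a set of hyperedges -/
noncomputable def ov53 (S : Sys ι τ) (s : St ι τ) (L : Finset τ) : ℝ :=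
  ∑ T ∈ L, ∑ T' ∈ L.erase T, ∑ T'' ∈ S.nt s.M T ∩ S.nt s.M T', s.X T''

/-- the part of the expansion in which the members of `U` survive and the others are chosen -/
noncomputable def tm53 (S : Sys ι τ) (θ A : ℝ) (s : St ι τ) (L U : Finset τ)
    (ω : τ ⊕ ι → Bool) : ℝ :=
  (∏ T ∈ U, S.X1 θ A s ω T) * ∏ T ∈ L \ U, (if ω (Sum.inl T) = true then (1 : ℝ) else 0)

theorem ov53_nonneg (hv : S.Valid E₀ A B s) (L : Finset τ) : 0 ≤ ov53 S s L :=
  Finset.sum_nonneg fun _ _ => Finset.sum_nonneg fun _ _ => Finset.sum_nonneg fun T _ => hv.X0 T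

theorem ov53_mono (hv : S.Valid E₀ A B s) {U L : Finset τ} (h : U ⊆ L) :
    ov53 S s U ≤ ov53 S s L := by
  unfold ov53
  calc ∑ T ∈ U, ∑ T' ∈ U.erase T, ∑ T'' ∈ S.nt s.M T ∩ S.nt s.M T', s.X T''
      ≤ ∑ T ∈ U, ∑ T' ∈ L.erase T, ∑ T'' ∈ S.nt s.M T ∩ S.nt s.M T', s.X T'' :=
        Finset.sum_le_sum fun T _ => Finset.sum_le_sum_of_subset_of_nonneg
          (Finset.erase_subset_erase _ h) fun _ _ _ => Finset.sum_nonneg fun T _ => hv.X0 T
    _ ≤ ∑ T ∈ L, ∑ T' ∈ L.erase T, ∑ T'' ∈ S.nt s.M T ∩ S.nt s.M T', s.X T'' :=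
        Finset.sum_le_sum_of_subset_of_nonneg h fun _ _ _ =>
          Finset.sum_nonneg fun _ _ => Finset.sum_nonneg fun T _ => hv.X0 T

theorem ov53_insert (hv : S.Valid E₀ A B s) {a : τ} {L : Finset τ} (ha : a ∉ L) :
    ov53 S s L + ∑ T ∈ L, ∑ T'' ∈ S.nt s.M a ∩ S.nt s.M T, s.X T'' ≤ ov53 S s (insert a L) := by
  unfold ov53
  rw [Finset.sum_insert ha, Finset.erase_insert ha, add_comm]
  refine add_le_add le_rfl (Finset.sum_le_sum fun T _ => ?_)
  exact Finset.sum_le_sum_of_subset_of_nonneg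
    (Finset.erase_subset_erase _ (Finset.subset_insert _ _))
    fun _ _ _ => Finset.sum_nonneg fun T _ => hv.X0 T

theorem mem_nt_self (hg : S.Good J) (M : Finset τ) (T : τ) : T ∈ S.nt M T := by
  unfold Sys.nt
  refine Finset.mem_union_left _ (mem_Sh.2 ?_)
  rw [Finset.disjoint_self_iff_empty]
  intro h
  have := hg.card_ed T
  rw [h] at this
  simp at this

section Ctx

variable (h : S.Ctx J E₀ θ A B δ s)

include h

/-- `θ` times the overlap weight is bounded, if all weights are positive -/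
theorem theta_ov53_le {C : Finset τ} (hC : C ∈ S.conf) {L : Finset τ} (hLC : L ⊆ C)
    (hpos : ∀ T ∈ L, 0 < S.Xh θ A s T) :
    θ * ov53 S s L ≤ (J : ℝ) ^ 2 * (A + 1) := by
  have hJ : (L.card : ℝ) ≤ J := by
    exact_mod_cast (Finset.card_le_card hLC).trans (h.good.conf_card C hC)
  have hA : 0 ≤ A + 1 := by linarith [h.A3]
  have h1 : ∀ T ∈ L, ∀ T' ∈ L.erase T,
      θ * ∑ T'' ∈ S.nt s.M T ∩ S.nt s.M T', s.X T'' ≤ A + 1 := by
    intro T hT T' _
    have h2 : ∑ T'' ∈ S.nt s.M T ∩ S.nt s.M T', s.X T'' ≤ ∑ T'' ∈ S.nt s.M T, s.X T'' :=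
      Finset.sum_le_sum_of_subset_of_nonneg Finset.inter_subset_left
        fun T'' _ _ => h.valid.X0 T''
    have h3 := h.sum_nt_le (hpos T hT)
    have h4 := mul_le_mul_of_nonneg_left h2 h.θ0.le
    linarith [h.θ1]
  unfold ov53
  rw [Finset.mul_sum]
  have h5 : ∀ T ∈ L, θ * ∑ T' ∈ L.erase T, ∑ T'' ∈ S.nt s.M T ∩ S.nt s.M T', s.X T'' ≤
      (J : ℝ) * (A + 1) := by
    intro T hT
    rw [Finset.mul_sum]
    refine (Finset.sum_le_card_nsmul _ _ _ (h1 T hT)).trans ?_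
    rw [nsmul_eq_mul]
    refine mul_le_mul_of_nonneg_right (le_trans ?_ hJ) hA
    exact_mod_cast Finset.card_le_card (Finset.erase_subset T L)
  refine (Finset.sum_le_card_nsmul _ _ _ h5).trans ?_
  rw [nsmul_eq_mul]
  have h6 : 0 ≤ (J : ℝ) * (A + 1) := mul_nonneg (Nat.cast_nonneg _) hA
  calc (L.card : ℝ) * ((J : ℝ) * (A + 1)) ≤ (J : ℝ) * ((J : ℝ) * (A + 1)) :=
        mul_le_mul_of_nonneg_right hJ h6
    _ = (J : ℝ) ^ 2 * (A + 1) := by ring

/-- all members of `U` survive: the probability is at most the product of the survival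
probabilities, up to the overlaps -/
theorem po_biUnion_le (U : Finset τ)
    (hdisj : ∀ T ∈ U, ∀ T' ∈ U, T ≠ T' → Disjoint (S.ed T) (S.ed T')) :
    po (S.pc θ A s) (U.biUnion (S.nb s)) ≤
      (∏ T ∈ U, S.ps θ A s T) * Real.exp (2 * (θ * ov53 S s U)) := by
  induction U using Finset.induction_on with
  | empty => simp [po, ov53]
  | insert a U ha ih =>
    have ih' := ih fun T hT T' hT' => hdisj T (Finset.mem_insert_of_mem hT) T'
      (Finset.mem_insert_of_mem hT')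
    rw [Finset.biUnion_insert, Finset.prod_insert ha]
    have hG : S.nb s a ∩ U.biUnion (S.nb s) =
        (U.biUnion (fun T => S.nt s.M a ∩ S.nt s.M T)).disjSum (∅ : Finset ι) := by
      ext c
      rcases c with T' | e
      · simp only [Sys.nb, Finset.mem_inter, Finset.mem_biUnion, Finset.inl_mem_disjSum]
        constructor
        · rintro ⟨h1, T, h2, h3⟩
          exact ⟨T, h2, h1, h3⟩
        · rintro ⟨T, h2, h1, h3⟩
          exact ⟨h1, T, h2, h3⟩
      · simp only [Sys.nb, Finset.mem_inter, Finset.mem_biUnion, Finset.inr_mem_disjSum,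
          Finset.notMem_empty, iff_false, not_and, not_exists]
        intro h1 T h2 h3
        have hne : a ≠ T := by rintro rfl; exact ha h2
        exact Finset.disjoint_left.1 (hdisj a (Finset.mem_insert_self _ _) T
          (Finset.mem_insert_of_mem h2) hne) h1 h3
    have hsum : ∑ c ∈ S.nb s a ∩ U.biUnion (S.nb s), S.pc θ A s c ≤
        θ * ∑ T ∈ U, ∑ T'' ∈ S.nt s.M a ∩ S.nt s.M T, s.X T'' := by
      rw [hG, Finset.sum_disjSum, Finset.sum_empty, add_zero]
      have e1 : ∀ T'' ∈ U.biUnion (fun T => S.nt s.M a ∩ S.nt s.M T),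
          S.pc θ A s (Sum.inl T'') ≤ θ * s.X T'' := fun T'' _ =>
        mul_le_mul_of_nonneg_left (h.Xh_le_X T'') h.θ0.le
      refine (Finset.sum_le_sum e1).trans ?_
      rw [← Finset.mul_sum]
      exact mul_le_mul_of_nonneg_left (sum_biUnion_le s.X h.valid.X0 U _) h.θ0.le
    have hlow : Real.exp (-(2 * (θ * ∑ T ∈ U, ∑ T'' ∈ S.nt s.M a ∩ S.nt s.M T, s.X T''))) ≤
        po (S.pc θ A s) (S.nb s a ∩ U.biUnion (S.nb s)) := by
      refine le_trans ?_ (exp_le_po (fun c _ => h.pc_nonneg c) ?_)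
      · rw [Real.exp_le_exp]
        linarith
      · intro c hc
        rw [hG] at hc
        rcases c with T' | e
        · exact h.pc_inl_le_half T'
        · rw [Finset.inr_mem_disjSum] at hc
          exact absurd hc (Finset.notMem_empty _)
    have hui := po_union_inter (S.pc θ A s) (S.nb s a) (U.biUnion (S.nb s))
    set x := θ * ∑ T ∈ U, ∑ T'' ∈ S.nt s.M a ∩ S.nt s.M T, s.X T'' with hx
    have hpo0 := po_nonneg h.pc_le_one (S.nb s a ∪ U.biUnion (S.nb s))
    have h1 : po (S.pc θ A s) (S.nb s a ∪ U.biUnion (S.nb s)) * Real.exp (-(2 * x)) ≤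
        S.ps θ A s a * ((∏ T ∈ U, S.ps θ A s T) * Real.exp (2 * (θ * ov53 S s U))) := by
      refine (mul_le_mul_of_nonneg_left hlow hpo0).trans ?_
      rw [hui]
      exact mul_le_mul_of_nonneg_left ih' (h.ps_nonneg a)
    have h2 : po (S.pc θ A s) (S.nb s a ∪ U.biUnion (S.nb s)) ≤
        S.ps θ A s a * ((∏ T ∈ U, S.ps θ A s T) * Real.exp (2 * (θ * ov53 S s U))) *
          Real.exp (2 * x) := by
      have h3 := mul_le_mul_of_nonneg_right h1 (Real.exp_pos (2 * x)).le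
      have h4 : Real.exp (-(2 * x)) * Real.exp (2 * x) = 1 := by
        rw [← Real.exp_add]; simp
      rwa [mul_assoc, h4, mul_one] at h3
    refine h2.trans ?_
    have h5 : 0 ≤ S.ps θ A s a * ∏ T ∈ U, S.ps θ A s T :=
      mul_nonneg (h.ps_nonneg a) (Finset.prod_nonneg fun T _ => h.ps_nonneg T)
    have h6 : Real.exp (2 * (θ * ov53 S s U)) * Real.exp (2 * x) ≤
        Real.exp (2 * (θ * ov53 S s (insert a U))) := by
      rw [← Real.exp_add, Real.exp_le_exp]
      have h7 := mul_le_mul_of_nonneg_left (ov53_insert h.valid ha) h.θ0.le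
      rw [mul_add, ← hx] at h7
      linarith
    calc S.ps θ A s a * ((∏ T ∈ U, S.ps θ A s T) * Real.exp (2 * (θ * ov53 S s U))) *
          Real.exp (2 * x)
        = (S.ps θ A s a * ∏ T ∈ U, S.ps θ A s T) *
          (Real.exp (2 * (θ * ov53 S s U)) * Real.exp (2 * x)) := by ring
      _ ≤ (S.ps θ A s a * ∏ T ∈ U, S.ps θ A s T) *
          Real.exp (2 * (θ * ov53 S s (insert a U))) := mul_le_mul_of_nonneg_left h6 h5

omit h in
theorem tm53_nonneg (h : S.Ctx J E₀ θ A B δ s) (L U : Finset τ) (ω : τ ⊕ ι → Bool) :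
    0 ≤ tm53 S θ A s L U ω := by
  unfold tm53
  refine mul_nonneg (Finset.prod_nonneg fun T _ => h.X1_nonneg ω T)
    (Finset.prod_nonneg fun T _ => ?_)
  split_ifs
  · exact zero_le_one
  · exact le_rfl

/-- the expansion -/
theorem yy_nxt_le (ω : τ ⊕ ι → Bool) (C : Finset τ) :
    (S.nxt θ A s ω).yy C ≤ ∑ U ∈ (C \ s.M).powerset, tm53 S θ A s (C \ s.M) U ω := by
  have hX2 : ∀ T, 0 ≤ S.X2 θ A s ω T := fun T => h.X2_nonneg ω T
  have hy0 : ∀ T, 0 ≤ (S.nxt θ A s ω).y T := by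
    intro T
    unfold St.y
    have : (S.nxt θ A s ω).X T = S.X2 θ A s ω T := rfl
    rw [this]
    have := hX2 T
    split_ifs <;> linarith
  unfold St.yy
  rw [← Finset.prod_sdiff (Finset.inter_subset_left (s₁ := C) (s₂ := s.M)),
    Finset.sdiff_inter_self_left]
  have h1 : ∏ T ∈ C ∩ s.M, (S.nxt θ A s ω).y T ≤ 1 := by
    refine Finset.prod_le_one (fun T _ => hy0 T) fun T hT => ?_
    have hM := (Finset.mem_inter.1 hT).2
    have h2 : S.X2 θ A s ω T = 0 := by
      refine le_antisymm ?_ (hX2 T)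
      refine (h.X2_le_X1 ω T).trans ((h.X1_le' ω T).trans ?_)
      have h3 : S.Xh θ A s T = 0 := by
        refine le_antisymm ?_ (h.Xh_nonneg T)
        rw [← h.valid.X_of_mem_M h.good hM]
        exact h.Xh_le_X T
      rw [h3, mul_zero]
    unfold St.y
    have h4 : (S.nxt θ A s ω).X T = S.X2 θ A s ω T := rfl
    rw [h4, h2]
    split_ifs <;> norm_num
  have h5 : ∏ T ∈ C \ s.M, (S.nxt θ A s ω).y T ≤
      ∏ T ∈ C \ s.M, (S.X1 θ A s ω T + (if ω (Sum.inl T) = true then (1 : ℝ) else 0)) := by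
    refine Finset.prod_le_prod (fun T _ => hy0 T) fun T hT => ?_
    have hM := (Finset.mem_sdiff.1 hT).2
    unfold St.y
    have h4 : (S.nxt θ A s ω).X T = S.X2 θ A s ω T := rfl
    rw [h4]
    refine add_le_add (h.X2_le_X1 ω T) (le_of_eq ?_)
    have h6 : T ∈ (S.nxt θ A s ω).M ↔ ω (Sum.inl T) = true := by
      show T ∈ s.M ∪ newM ω ↔ _
      rw [Finset.mem_union]
      simp [newM, hM]
    by_cases h7 : ω (Sum.inl T) = true
    · rw [if_pos h7, if_pos (h6.2 h7)]
    · rw [if_neg h7, if_neg (fun h8 => h7 (h6.1 h8))]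
  have h8 : 0 ≤ ∏ T ∈ C \ s.M, (S.nxt θ A s ω).y T := Finset.prod_nonneg fun T _ => hy0 T
  calc (∏ T ∈ C \ s.M, (S.nxt θ A s ω).y T) * ∏ T ∈ C ∩ s.M, (S.nxt θ A s ω).y T
      ≤ ∏ T ∈ C \ s.M, (S.nxt θ A s ω).y T := mul_le_of_le_one_right h8 h1
    _ ≤ _ := h5
    _ = _ := by rw [Finset.prod_add]; rfl

/-- the expectation of one term of the expansion, all weights positive -/
theorem ex_tm53_pos {C : Finset τ} (hC : C ∈ S.conf) {L U : Finset τ} (hLC : L ⊆ C)
    (hUL : U ⊆ L) (hpos : ∀ T ∈ L, 0 < S.Xh θ A s T) :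
    Ex (S.wt θ A s) (tm53 S θ A s L U) ≤
      (1 - θ) ^ U.card * θ ^ (L \ U).card *
        ((∏ T ∈ L, S.Xh θ A s T) * Real.exp (2 * (θ * ov53 S s L))) := by
  classical
  set H : Finset (τ ⊕ ι) := (L \ U).disjSum (∅ : Finset ι) with hH
  set G : Finset (τ ⊕ ι) := U.biUnion (S.nb s) with hG
  set a : τ → ℝ := fun T => S.Xh θ A s T * ((1 - θ) / S.ps θ A s T) with ha
  have ha0 : 0 ≤ ∏ T ∈ U, a T := Finset.prod_nonneg fun T _ =>
    mul_nonneg (h.Xh_nonneg T) (div_nonneg h.q_pos.le (h.ps_nonneg T))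
  have htm : tm53 S θ A s L U = fun ω => (∏ T ∈ U, a T) *
      ((if off G ω then (1 : ℝ) else 0) * (if on H ω then (1 : ℝ) else 0)) := by
    funext ω
    unfold tm53
    have e1 : ∏ T ∈ U, S.X1 θ A s ω T = (∏ T ∈ U, a T) * (if off G ω then (1 : ℝ) else 0) := by
      unfold Sys.X1
      rw [Finset.prod_ite_zero]
      have e2 : (∀ T ∈ U, off (S.nb s T) ω) ↔ off G ω := by
        rw [hG]
        unfold off
        constructor
        · intro h1 c hc
          obtain ⟨T, hT, hc'⟩ := Finset.mem_biUnion.1 hc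
          exact h1 T hT c hc'
        · intro h1 T hT c hc
          exact h1 c (Finset.mem_biUnion.2 ⟨T, hT, hc⟩)
      by_cases h3 : off G ω
      · rw [if_pos h3, if_pos (e2.2 h3), mul_one]
      · rw [if_neg h3, if_neg (fun h4 => h3 (e2.1 h4)), mul_zero]
    have e3 : ∏ T ∈ L \ U, (if ω (Sum.inl T) = true then (1 : ℝ) else 0) =
        if on H ω then (1 : ℝ) else 0 := by
      rw [Finset.prod_ite_zero, Finset.prod_const_one]
      have e4 : (∀ T ∈ L \ U, ω (Sum.inl T) = true) ↔ on H ω := by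
        rw [hH]
        unfold on
        constructor
        · intro h1 c hc
          rcases c with T | e
          · exact h1 T (Finset.inl_mem_disjSum.1 hc)
          · exact absurd (Finset.inr_mem_disjSum.1 hc) (Finset.notMem_empty _)
        · intro h1 T hT
          exact h1 _ (Finset.inl_mem_disjSum.2 hT)
      by_cases h3 : on H ω
      · rw [if_pos h3, if_pos (e4.2 h3)]
      · rw [if_neg h3, if_neg (fun h4 => h3 (e4.1 h4))]
    rw [e1, e3, mul_assoc]
  have hHp : ∏ c ∈ H, S.pc θ A s c = θ ^ (L \ U).card * ∏ T ∈ L \ U, S.Xh θ A s T := by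
    rw [hH, Finset.prod_disjSum, Finset.prod_empty, mul_one]
    have : ∀ T ∈ L \ U, S.pc θ A s (Sum.inl T) = θ * S.Xh θ A s T := fun T _ => rfl
    rw [Finset.prod_congr rfl this, Finset.prod_mul_distrib, Finset.prod_const]
  have hHp0 : 0 ≤ ∏ c ∈ H, S.pc θ A s c := Finset.prod_nonneg fun c _ => h.pc_nonneg c
  have hEx : Ex (S.wt θ A s) (tm53 S θ A s L U) ≤
      (∏ T ∈ U, a T) * (po (S.pc θ A s) G * ∏ c ∈ H, S.pc θ A s c) := by
    rw [htm, ex_mul_left]
    refine mul_le_mul_of_nonneg_left ?_ ha0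
    by_cases hd : Disjoint G H
    · unfold Sys.wt
      rw [ex_off_on h.pc_nonneg h.pc_le_one hd]
    · have hz : (fun ω : τ ⊕ ι → Bool => (if off G ω then (1 : ℝ) else 0) *
          (if on H ω then (1 : ℝ) else 0)) = fun _ => 0 := by
        funext ω
        obtain ⟨c, hc1, hc2⟩ := Finset.not_disjoint_iff.1 hd
        by_cases h3 : off G ω
        · have h4 : ¬ on H ω := by
            intro h5
            have h6 := h3 c hc1
            rw [h5 c hc2] at h6
            exact absurd h6 (by simp)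
          rw [if_neg h4, mul_zero]
        · rw [if_neg h3, zero_mul]
      rw [hz, ex_const h.pw_wt]
      exact mul_nonneg (po_nonneg h.pc_le_one _) hHp0
  refine hEx.trans ?_
  have hdisj : ∀ T ∈ U, ∀ T' ∈ U, T ≠ T' → Disjoint (S.ed T) (S.ed T') :=
    fun T hT T' hT' hne => h.good.conf_disj C hC T (hLC (hUL hT)) T' (hLC (hUL hT')) hne
  have hpo := po_biUnion_le h U hdisj
  have haps : (∏ T ∈ U, a T) * ∏ T ∈ U, S.ps θ A s T =
      (1 - θ) ^ U.card * ∏ T ∈ U, S.Xh θ A s T := by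
    rw [← Finset.prod_mul_distrib, ← Finset.prod_const, ← Finset.prod_mul_distrib]
    refine Finset.prod_congr rfl fun T hT => ?_
    have := (h.ps_pos (hpos T (hUL hT))).ne'
    rw [ha]
    field_simp
  have hexp : Real.exp (2 * (θ * ov53 S s U)) ≤ Real.exp (2 * (θ * ov53 S s L)) := by
    rw [Real.exp_le_exp]
    have := mul_le_mul_of_nonneg_left (ov53_mono h.valid hUL) h.θ0.le
    linarith
  have hsplit : (∏ T ∈ L \ U, S.Xh θ A s T) * ∏ T ∈ U, S.Xh θ A s T =
      ∏ T ∈ L, S.Xh θ A s T := Finset.prod_sdiff hUL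
  have hXL : 0 ≤ ∏ T ∈ L, S.Xh θ A s T := Finset.prod_nonneg fun T _ => h.Xh_nonneg T
  calc (∏ T ∈ U, a T) * (po (S.pc θ A s) G * ∏ c ∈ H, S.pc θ A s c)
      ≤ (∏ T ∈ U, a T) * (((∏ T ∈ U, S.ps θ A s T) * Real.exp (2 * (θ * ov53 S s U))) *
          ∏ c ∈ H, S.pc θ A s c) :=
        mul_le_mul_of_nonneg_left (mul_le_mul_of_nonneg_right hpo hHp0) ha0
    _ = ((∏ T ∈ U, a T) * ∏ T ∈ U, S.ps θ A s T) * (∏ c ∈ H, S.pc θ A s c) *
          Real.exp (2 * (θ * ov53 S s U)) := by ring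
    _ = (1 - θ) ^ U.card * θ ^ (L \ U).card *
          ((∏ T ∈ L, S.Xh θ A s T) * Real.exp (2 * (θ * ov53 S s U))) := by
        rw [haps, hHp, ← hsplit]; ring
    _ ≤ _ := by
        refine mul_le_mul_of_nonneg_left (mul_le_mul_of_nonneg_left hexp hXL) ?_
        exact mul_nonneg (pow_nonneg h.q_pos.le _) (pow_nonneg h.θ0.le _)

/-- the expectation of one term of the expansion -/
theorem ex_tm53 {C : Finset τ} (hC : C ∈ S.conf) {U : Finset τ} (hUL : U ⊆ C \ s.M) :
    Ex (S.wt θ A s) (tm53 S θ A s (C \ s.M) U) ≤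
      (1 - θ) ^ U.card * θ ^ ((C \ s.M) \ U).card *
        (s.yy C + 2 * Real.exp (2 * ((J : ℝ) ^ 2 * (A + 1))) * (s.yy C * ov53 S s (C \ s.M))) := by
  set L := C \ s.M with hL
  have hLC : L ⊆ C := Finset.sdiff_subset
  have hyy := h.valid.yy_eq h.good C
  have hyy0 : 0 ≤ s.yy C := h.valid.yy_nonneg C
  have hov0 : 0 ≤ ov53 S s L := ov53_nonneg h.valid L
  have hqθ : 0 ≤ (1 - θ) ^ U.card * θ ^ (L \ U).card :=
    mul_nonneg (pow_nonneg h.q_pos.le _) (pow_nonneg h.θ0.le _)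
  by_cases hpos : ∀ T ∈ L, 0 < S.Xh θ A s T
  · refine (ex_tm53_pos h hC hLC hUL hpos).trans (mul_le_mul_of_nonneg_left ?_ hqθ)
    have h1 : ∏ T ∈ L, S.Xh θ A s T ≤ s.yy C := by
      rw [hyy]
      exact Finset.prod_le_prod (fun T _ => h.Xh_nonneg T) fun T _ => h.Xh_le_X T
    set x := 2 * (θ * ov53 S s L) with hx
    have hx0 : 0 ≤ x := by
      rw [hx]
      exact mul_nonneg (by norm_num) (mul_nonneg h.θ0.le hov0)
    have hx1 : x ≤ 2 * ((J : ℝ) ^ 2 * (A + 1)) := by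
      rw [hx]
      exact mul_le_mul_of_nonneg_left (theta_ov53_le h hC hLC hpos) (by norm_num)
    have hx2 : x ≤ 2 * ov53 S s L := by
      rw [hx]
      have := mul_le_mul_of_nonneg_right (by linarith [h.θ1] : θ ≤ 1) hov0
      linarith
    have h2 : Real.exp x ≤ 1 + x * Real.exp x := by
      have h3 := Real.add_one_le_exp (-x)
      have h4 : Real.exp (-x) * Real.exp x = 1 := by rw [← Real.exp_add]; simp
      nlinarith [Real.exp_pos x]
    have h5 : x * Real.exp x ≤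
        2 * ov53 S s L * Real.exp (2 * ((J : ℝ) ^ 2 * (A + 1))) :=
      mul_le_mul hx2 (Real.exp_le_exp.2 hx1) (Real.exp_pos _).le
        (mul_nonneg (by norm_num) hov0)
    calc (∏ T ∈ L, S.Xh θ A s T) * Real.exp x
        ≤ s.yy C * (1 + 2 * ov53 S s L * Real.exp (2 * ((J : ℝ) ^ 2 * (A + 1)))) :=
          mul_le_mul h1 (h2.trans (by linarith)) (Real.exp_pos _).le hyy0
      _ = _ := by ring
  · push Not at hpos
    obtain ⟨T, hT, hT0⟩ := hpos
    have hXz : S.Xh θ A s T = 0 := le_antisymm hT0 (h.Xh_nonneg T)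
    have h1 : Ex (S.wt θ A s) (tm53 S θ A s L U) ≤ Ex (S.wt θ A s) (fun _ => 0) := by
      refine ex_mono_pos h.pw_wt fun ω hω => ?_
      unfold tm53
      by_cases hTU : T ∈ U
      · have : ∏ T ∈ U, S.X1 θ A s ω T = 0 := by
          refine Finset.prod_eq_zero hTU ?_
          refine le_antisymm ((h.X1_le' ω T).trans ?_) (h.X1_nonneg ω T)
          rw [hXz, mul_zero]
        rw [this, zero_mul]
      · have : ∏ T ∈ L \ U, (if ω (Sum.inl T) = true then (1 : ℝ) else 0) = 0 := by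
          refine Finset.prod_eq_zero (Finset.mem_sdiff.2 ⟨hT, hTU⟩) ?_
          rw [if_neg]
          intro h2
          have h3 : T ∈ newM ω := by simp [newM, h2]
          have h4 := h.Xh_pos_of_new hω h3
          rw [hXz] at h4
          exact lt_irrefl _ h4
        rw [this, mul_zero]
    rw [ex_const h.pw_wt] at h1
    refine h1.trans (mul_nonneg hqθ ?_)
    positivity

end Ctx

theorem sum_powerset_qθ (L : Finset τ) (θ : ℝ) :
    ∑ U ∈ L.powerset, (1 - θ) ^ U.card * θ ^ (L \ U).card = 1 := by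
  have h1 := Finset.sum_pow_mul_eq_add_pow (1 - θ) θ L
  have h2 : (1 - θ + θ) ^ L.card = 1 := by
    rw [show (1 : ℝ) - θ + θ = 1 by ring, one_pow]
  rw [h2] at h1
  refine Eq.trans (Finset.sum_congr rfl fun U hU => ?_) h1
  rw [Finset.card_sdiff_of_subset (Finset.mem_powerset.1 hU)]

end

/-- component 5 -/
theorem comp5 (hO : OvConfStatement) : Comp 5 := by
  intro J A hA
  obtain ⟨c₁, hc₁, hov⟩ := hO J
  set K : ℝ := 2 * Real.exp (2 * ((J : ℝ) ^ 2 * (A + 1))) with hK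
  have hK0 : 0 ≤ K := by positivity
  refine ⟨max 1 (K * c₁), le_max_left _ _, ?_⟩
  intro c' hc' ι τ _ _ _ _ S E₀ θ B δ η s h hη
  have hTh : 0 ≤ S.Th s := Finset.sum_nonneg fun C _ => h.valid.yy_nonneg C
  have hXi : 0 ≤ S.Xi s := Finset.sum_nonneg fun C _ => h.valid.yy_nonneg C
  have hov' := hov ι τ S E₀ A B δ s h.good h.valid h.X_le
  show Ex (S.wt θ A s) (fun ω => S.Th (S.nxt θ A s ω)) ≤ S.Th s + c' * (δ * S.Th s + S.Xi s)
  have h1 : Ex (S.wt θ A s) (fun ω => S.Th (S.nxt θ A s ω)) ≤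
      ∑ C ∈ S.conf, Ex (S.wt θ A s)
        (fun ω => ∑ U ∈ (C \ s.M).powerset, tm53 S θ A s (C \ s.M) U ω) := by
    rw [← ex_sum]
    refine ex_mono_pos h.pw_wt fun ω hω => ?_
    exact Finset.sum_le_sum fun C _ => yy_nxt_le h ω C
  refine h1.trans ?_
  have h2 : ∀ C ∈ S.conf, Ex (S.wt θ A s)
      (fun ω => ∑ U ∈ (C \ s.M).powerset, tm53 S θ A s (C \ s.M) U ω) ≤
        s.yy C + K * (s.yy C * ov53 S s (C \ s.M)) := by
    intro C hC
    rw [ex_sum]
    refine (Finset.sum_le_sum fun U hU => ex_tm53 h hC (Finset.mem_powerset.1 hU)).trans ?_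
    rw [← Finset.sum_mul, sum_powerset_qθ, one_mul]
  refine (Finset.sum_le_sum h2).trans ?_
  rw [Finset.sum_add_distrib, ← Finset.mul_sum]
  have h3 : K * ∑ C ∈ S.conf, s.yy C * ov53 S s (C \ s.M) ≤ K * (c₁ * (δ * S.Th s + S.Xi s)) :=
    mul_le_mul_of_nonneg_left hov' hK0
  have h4 : 0 ≤ δ * S.Th s + S.Xi s := add_nonneg (mul_nonneg h.δ0 hTh) hXi
  have h5 : K * (c₁ * (δ * S.Th s + S.Xi s)) ≤ c' * (δ * S.Th s + S.Xi s) := by
    rw [← mul_assoc]
    exact mul_le_mul_of_nonneg_right ((le_max_right _ _).trans hc') h4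
  have h6 : S.Th s = ∑ C ∈ S.conf, s.yy C := rfl
  rw [← h6]
  linarith

/-- component 3 -/
theorem comp3 (hO : OvConfStatement) : Comp 3 := by
  intro J A hA
  obtain ⟨c₁, hc₁, hov⟩ := hO J
  set K : ℝ := 2 * Real.exp (2 * ((J : ℝ) ^ 2 * (A + 1))) with hK
  have hK0 : 0 ≤ K := by positivity
  refine ⟨max 1 (K * c₁ + 2 ^ J * (K * c₁)), le_max_left _ _, ?_⟩
  intro c' hc' ι τ _ _ _ _ S E₀ θ B δ η s h hη
  have hTh : 0 ≤ S.Th s := Finset.sum_nonneg fun C _ => h.valid.yy_nonneg C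
  have hXi : 0 ≤ S.Xi s := Finset.sum_nonneg fun C _ => h.valid.yy_nonneg C
  have hov' := hov ι τ S E₀ A B δ s h.good h.valid h.X_le
  show Ex (S.wt θ A s) (fun ω => (S.nxt θ A s ω).Rep) ≤
    s.Rep + 2 ^ J * θ ^ 2 * S.Th s + c' * (δ * S.Th s + S.Xi s)
  set Φ : ℝ := δ * S.Th s + S.Xi s with hΦ
  have hΦ0 : 0 ≤ Φ := add_nonneg (mul_nonneg h.δ0 hTh) hXi
  -- the pointwise bound
  have hpt : ∀ ω, 0 < S.wt θ A s ω → (S.nxt θ A s ω).Rep ≤
      (∑ C ∈ s.F, ∑ U ∈ (C \ s.M).powerset, tm53 S θ A s (C \ s.M) U ω) +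
      ∑ C ∈ S.conf, ∑ U ∈ (C \ s.M).powerset.filter (fun U => 2 ≤ ((C \ s.M) \ U).card),
        tm53 S θ A s (C \ s.M) U ω := by
    intro ω hω
    have hyy0 : ∀ C : Finset τ, 0 ≤ (S.nxt θ A s ω).yy C := by
      intro C
      refine Finset.prod_nonneg fun T _ => ?_
      unfold St.y
      have h4 : (S.nxt θ A s ω).X T = S.X2 θ A s ω T := rfl
      rw [h4]
      have := h.X2_nonneg ω T
      split_ifs <;> linarith
    have h1 : (S.nxt θ A s ω).Rep ≤ ∑ C ∈ s.F, (S.nxt θ A s ω).yy C +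
        ∑ C ∈ S.conf.filter (fun C => 2 ≤ (C ∩ newM ω).card), (S.nxt θ A s ω).yy C := by
      show ∑ C ∈ s.F ∪ S.conf.filter (fun C => 2 ≤ (C ∩ newM ω).card),
        (S.nxt θ A s ω).yy C ≤ _
      rw [← Finset.sum_union_inter]
      have : 0 ≤ ∑ C ∈ s.F ∩ S.conf.filter (fun C => 2 ≤ (C ∩ newM ω).card),
          (S.nxt θ A s ω).yy C := Finset.sum_nonneg fun C _ => hyy0 C
      linarith
    refine h1.trans (add_le_add (Finset.sum_le_sum fun C _ => yy_nxt_le h ω C) ?_)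
    rw [Finset.sum_filter]
    refine Finset.sum_le_sum fun C hC => ?_
    split_ifs with h2
    · refine (yy_nxt_le h ω C).trans ?_
      refine le_of_eq (Finset.sum_subset (Finset.filter_subset _ _) fun U hU hnU => ?_).symm
      -- a term with few chosen members vanishes
      have hU' := Finset.mem_powerset.1 hU
      have h3 : ¬ 2 ≤ ((C \ s.M) \ U).card := fun h4 => hnU (Finset.mem_filter.2 ⟨hU, h4⟩)
      by_contra hne
      refine h3 (h2.trans (Finset.card_le_card ?_))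
      intro T hT
      obtain ⟨hTC, hTn⟩ := Finset.mem_inter.1 hT
      have hTM := h.new_notMem hω hTn
      refine Finset.mem_sdiff.2 ⟨Finset.mem_sdiff.2 ⟨hTC, hTM⟩, fun hTU => ?_⟩
      -- a surviving member is not chosen
      have h5 : ∏ T ∈ U, S.X1 θ A s ω T ≠ 0 := by
        intro h6
        apply hne
        unfold tm53
        rw [h6, zero_mul]
      have h6 := (Finset.prod_ne_zero_iff.1 h5) T hTU
      have h7 := h.X1_pos (lt_of_le_of_ne (h.X1_nonneg ω T) (Ne.symm h6))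
      have h8 : ω (Sum.inl T) = false :=
        h7.1 _ (Finset.inl_mem_disjSum.2 (mem_nt_self h.good s.M T))
      have h9 : ω (Sum.inl T) = true := by simpa [newM] using hTn
      rw [h8] at h9
      exact absurd h9 (by simp)
    · exact Finset.sum_nonneg fun U _ => tm53_nonneg h _ U ω
  refine (ex_mono_pos h.pw_wt hpt).trans ?_
  rw [ex_add]
  -- the old flags
  have hA1 : Ex (S.wt θ A s) (fun ω => ∑ C ∈ s.F, ∑ U ∈ (C \ s.M).powerset,
      tm53 S θ A s (C \ s.M) U ω) ≤ s.Rep + K * c₁ * Φ := by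
    rw [ex_sum]
    have h2 : ∀ C ∈ s.F, Ex (S.wt θ A s)
        (fun ω => ∑ U ∈ (C \ s.M).powerset, tm53 S θ A s (C \ s.M) U ω) ≤
          s.yy C + K * (s.yy C * ov53 S s (C \ s.M)) := by
      intro C hC
      rw [ex_sum]
      refine (Finset.sum_le_sum fun U hU => ex_tm53 h (h.valid.FC hC)
        (Finset.mem_powerset.1 hU)).trans ?_
      rw [← Finset.sum_mul, sum_powerset_qθ, one_mul]
    refine (Finset.sum_le_sum h2).trans ?_
    rw [Finset.sum_add_distrib, ← Finset.mul_sum]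
    have h3 : ∑ C ∈ s.F, s.yy C * ov53 S s (C \ s.M) ≤
        ∑ C ∈ S.conf, s.yy C * ov53 S s (C \ s.M) :=
      Finset.sum_le_sum_of_subset_of_nonneg h.valid.FC fun C _ _ =>
        mul_nonneg (h.valid.yy_nonneg C) (ov53_nonneg h.valid _)
    have h4 := mul_le_mul_of_nonneg_left (h3.trans hov') hK0
    have h6 : s.Rep = ∑ C ∈ s.F, s.yy C := rfl
    rw [← h6]
    linarith
  -- the new flags
  have hA2 : Ex (S.wt θ A s) (fun ω => ∑ C ∈ S.conf,
      ∑ U ∈ (C \ s.M).powerset.filter (fun U => 2 ≤ ((C \ s.M) \ U).card),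
        tm53 S θ A s (C \ s.M) U ω) ≤ 2 ^ J * θ ^ 2 * S.Th s + 2 ^ J * (K * c₁) * Φ := by
    rw [ex_sum]
    have h2 : ∀ C ∈ S.conf, Ex (S.wt θ A s)
        (fun ω => ∑ U ∈ (C \ s.M).powerset.filter (fun U => 2 ≤ ((C \ s.M) \ U).card),
          tm53 S θ A s (C \ s.M) U ω) ≤
          2 ^ J * θ ^ 2 * (s.yy C + K * (s.yy C * ov53 S s (C \ s.M))) := by
      intro C hC
      rw [ex_sum]
      have hz0 : 0 ≤ s.yy C + K * (s.yy C * ov53 S s (C \ s.M)) := by
        have h5 := h.valid.yy_nonneg C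
        have h6 := ov53_nonneg h.valid (C \ s.M)
        positivity
      have h3 : ∀ U ∈ (C \ s.M).powerset.filter (fun U => 2 ≤ ((C \ s.M) \ U).card),
          Ex (S.wt θ A s) (fun ω => tm53 S θ A s (C \ s.M) U ω) ≤
            θ ^ 2 * (s.yy C + K * (s.yy C * ov53 S s (C \ s.M))) := by
        intro U hU
        obtain ⟨hU1, hU2⟩ := Finset.mem_filter.1 hU
        refine (ex_tm53 h hC (Finset.mem_powerset.1 hU1)).trans ?_
        refine mul_le_mul_of_nonneg_right ?_ hz0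
        have h7 : (1 - θ) ^ U.card ≤ 1 := pow_le_one₀ h.q_pos.le (by linarith [h.θ0])
        have h8 : θ ^ ((C \ s.M) \ U).card ≤ θ ^ 2 :=
          pow_le_pow_of_le_one h.θ0.le (by linarith [h.θ1]) hU2
        calc (1 - θ) ^ U.card * θ ^ ((C \ s.M) \ U).card ≤ 1 * θ ^ 2 :=
              mul_le_mul h7 h8 (pow_nonneg h.θ0.le _) zero_le_one
          _ = θ ^ 2 := one_mul _
      refine (Finset.sum_le_card_nsmul _ _ _ h3).trans ?_
      rw [nsmul_eq_mul]
      have h9 : ((C \ s.M).powerset.filter (fun U => 2 ≤ ((C \ s.M) \ U).card)).card ≤ 2 ^ J := by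
        refine (Finset.card_le_card (Finset.filter_subset _ _)).trans ?_
        rw [Finset.card_powerset]
        exact Nat.pow_le_pow_right (by norm_num)
          ((Finset.card_le_card Finset.sdiff_subset).trans (h.good.conf_card C hC))
      have h9' : (((C \ s.M).powerset.filter (fun U => 2 ≤ ((C \ s.M) \ U).card)).card : ℝ) ≤
          2 ^ J := by exact_mod_cast h9
      have h11 := mul_le_mul_of_nonneg_right h9' (mul_nonneg (sq_nonneg θ) hz0)
      linarith
    refine (Finset.sum_le_sum h2).trans ?_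
    rw [← Finset.mul_sum, Finset.sum_add_distrib, ← Finset.mul_sum]
    have h6 : S.Th s = ∑ C ∈ S.conf, s.yy C := rfl
    rw [← h6]
    have h4 : K * ∑ C ∈ S.conf, s.yy C * ov53 S s (C \ s.M) ≤ K * (c₁ * Φ) :=
      mul_le_mul_of_nonneg_left hov' hK0
    have hθ2 : θ ^ 2 ≤ 1 := pow_le_one₀ h.θ0.le (by linarith [h.θ1])
    have h20 : (0 : ℝ) ≤ 2 ^ J := by positivity
    have hKc : 0 ≤ K * (c₁ * Φ) := by
      have : 0 ≤ c₁ := by linarith
      positivity
    have h10 : 2 ^ J * θ ^ 2 * (K * ∑ C ∈ S.conf, s.yy C * ov53 S s (C \ s.M)) ≤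
        2 ^ J * (K * (c₁ * Φ)) := by
      calc 2 ^ J * θ ^ 2 * (K * ∑ C ∈ S.conf, s.yy C * ov53 S s (C \ s.M))
          ≤ 2 ^ J * θ ^ 2 * (K * (c₁ * Φ)) := mul_le_mul_of_nonneg_left h4 (by positivity)
        _ ≤ 2 ^ J * 1 * (K * (c₁ * Φ)) :=
            mul_le_mul_of_nonneg_right (mul_le_mul_of_nonneg_left hθ2 h20) hKc
        _ = _ := by ring
    calc 2 ^ J * θ ^ 2 * (S.Th s + K * ∑ C ∈ S.conf, s.yy C * ov53 S s (C \ s.M))
        = 2 ^ J * θ ^ 2 * S.Th s +
          2 ^ J * θ ^ 2 * (K * ∑ C ∈ S.conf, s.yy C * ov53 S s (C \ s.M)) := by ring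
      _ ≤ 2 ^ J * θ ^ 2 * S.Th s + 2 ^ J * (K * (c₁ * Φ)) := by linarith
      _ = _ := by ring
  have hc2 : (K * c₁ + 2 ^ J * (K * c₁)) * Φ ≤ c' * Φ :=
    mul_le_mul_of_nonneg_right ((le_max_right _ _).trans hc') hΦ0
  linarith

end F1
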