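import Mathlib
import Pool.Agent.F1.Statements

/-!
# Project F1, row F6: the component `Xi` of the one-bite lemma (core)
-/

set_option autoImplicit false
set_option linter.unusedSectionVars false

namespace F1.Comp6

open Finset NWC

variable {ι τ : Type} [Fintype ι] [Fintype τ] [DecidableEq ι] [DecidableEq τ]

theorem y_nonneg {s : St ι τ} (hX : ∀ T, 0 ≤ s.X T) (T : τ) : 0 ≤ s.y T := by
  unfold St.y
  have := hX T
  split_ifs <;> linarith

theorem X_le_y (s : St ι τ) (T : τ) : s.X T ≤ s.y T := by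
  unfold St.y
  split_ifs <;> linarith

/-- the product over a set of indicators of coins, shifted -/
theorem ex_shift {p : τ ⊕ ι → ℝ} (h0 : ∀ c, 0 ≤ p c) (h1 : ∀ c, p c ≤ 1) (D : Finset τ)
    (u : τ → ℝ) :
    Ex (cw p) (fun ω => ∏ T ∈ D, (u T + if ω (Sum.inl T) = true then 1 else 0))
      = ∏ T ∈ D, (u T + p (Sum.inl T)) := by
  have key := ex_prod (fun c => pw_coin (h0 c) (h1 c)) (D.map ⟨Sum.inl, Sum.inl_injective⟩)
    (fun c b => (Sum.elim u (fun _ => 0) c : ℝ) + if b = true then (1 : ℝ) else 0)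
  simp only [Finset.prod_map, Function.Embedding.coeFn_mk, Sum.elim_inl] at key
  unfold cw
  rw [key]
  refine Finset.prod_congr rfl fun T _ => ?_
  simp only [Ex, coinW, Fintype.sum_bool]
  simp
  ring

/-- the weights after a bite are at most a constant times the weights before -/
theorem X2_le {S : Sys ι τ} {θ A : ℝ} {s : St ι τ} (hθ0 : 0 < θ) (hθ1 : θ ≤ 1 / 4)
    (ha : ∀ T, 0 ≤ s.a T)
    (hXh0 : ∀ T, 0 ≤ S.Xh θ A s T) (hXhX : ∀ T, S.Xh θ A s T ≤ s.X T)
    (hps : ∀ T, 0 < S.Xh θ A s T →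
      (1 - θ) ^ 3 * Real.exp (-(2 * θ * S.o s T)) ≤ S.ps θ A s T)
    (ω : τ ⊕ ι → Bool) (T : τ) :
    0 ≤ S.X2 θ A s ω T ∧ S.X2 θ A s ω T ≤ 2 * Real.exp (2 * A) * s.X T := by
  have hX : 0 ≤ s.X T := le_trans (hXh0 T) (hXhX T)
  have hq : 0 < 1 - θ := by linarith
  have hE : 0 < Real.exp (2 * A) := Real.exp_pos _
  -- the factor
  have hX1 : 0 ≤ S.X1 θ A s ω T ∧ S.X1 θ A s ω T ≤ 2 * Real.exp (2 * A) * s.X T := by
    unfold Sys.X1
    split_ifs with hoff
    · rcases (hXh0 T).eq_or_lt with h | h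
      · rw [← h]
        constructor
        · simp
        · rw [zero_mul]; positivity
      · have hle : s.a T + θ * S.o s T ≤ A := by
          by_contra hcon
          unfold Sys.Xh at h
          rw [if_neg hcon] at h
          exact lt_irrefl _ h
        have h1 := hps T h
        have h2 : Real.exp (-(2 * A)) ≤ Real.exp (-(2 * θ * S.o s T)) := by
          apply Real.exp_le_exp.2
          have := ha T
          nlinarith
        have h3 : (1 - θ) ^ 3 * Real.exp (-(2 * A)) ≤ S.ps θ A s T :=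
          le_trans (mul_le_mul_of_nonneg_left h2 (by positivity)) h1
        have hpos : 0 < S.ps θ A s T := lt_of_lt_of_le (by positivity) h3
        constructor
        · exact mul_nonneg h.le (div_nonneg hq.le hpos.le)
        · have h4 : (1 - θ) / S.ps θ A s T ≤ 2 * Real.exp (2 * A) := by
            rw [div_le_iff₀ hpos]
            have h5 : 1 - θ ≤ 2 * Real.exp (2 * A) * ((1 - θ) ^ 3 * Real.exp (-(2 * A))) := by
              have h6 : Real.exp (2 * A) * Real.exp (-(2 * A)) = 1 := by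
                rw [← Real.exp_add]; simp
              have h7 : 2 * Real.exp (2 * A) * ((1 - θ) ^ 3 * Real.exp (-(2 * A)))
                  = 2 * (1 - θ) ^ 3 * (Real.exp (2 * A) * Real.exp (-(2 * A))) := by ring
              rw [h7, h6, mul_one]
              nlinarith [mul_nonneg hq.le (mul_nonneg hq.le hθ0.le), mul_pos hq hq, sq_nonneg θ]
            exact le_trans h5 (mul_le_mul_of_nonneg_left h3 (by positivity))
          calc S.Xh θ A s T * ((1 - θ) / S.ps θ A s T)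
              ≤ S.Xh θ A s T * (2 * Real.exp (2 * A)) := mul_le_mul_of_nonneg_left h4 h.le
            _ ≤ s.X T * (2 * Real.exp (2 * A)) :=
                mul_le_mul_of_nonneg_right (hXhX T) (by positivity)
            _ = 2 * Real.exp (2 * A) * s.X T := by ring
    · exact ⟨le_refl 0, by positivity⟩
  have hP0 : 0 ≤ ∏ e ∈ S.ed T, (1 / max 1 (S.W (S.X1 θ A s ω) e)) :=
    Finset.prod_nonneg fun e _ => by positivity
  have hP1 : ∏ e ∈ S.ed T, (1 / max 1 (S.W (S.X1 θ A s ω) e)) ≤ 1 :=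
    Finset.prod_le_one (fun e _ => by positivity) fun e _ => by
      rw [div_le_one (by positivity)]
      exact le_max_left _ _
  unfold Sys.X2
  exact ⟨mul_nonneg hX1.1 hP0, le_trans (mul_le_of_le_one_right hX1.1 hP1) hX1.2⟩

theorem y_nxt_le {S : Sys ι τ} {θ A : ℝ} {s : St ι τ} {K : ℝ} (hK : 1 ≤ K) {ω : τ ⊕ ι → Bool}
    {T : τ} (hX2 : S.X2 θ A s ω T ≤ K * s.X T) :
    (S.nxt θ A s ω).y T ≤ K * s.y T + if ω (Sum.inl T) = true then 1 else 0 := by
  unfold St.y
  have e1 : (S.nxt θ A s ω).X T = S.X2 θ A s ω T := rfl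
  have e2 : (S.nxt θ A s ω).M = s.M ∪ newM ω := rfl
  rw [e1, e2]
  by_cases h1 : T ∈ s.M
  · rw [if_pos (Finset.mem_union_left _ h1), if_pos h1]
    split_ifs <;> nlinarith
  · by_cases h2 : ω (Sum.inl T) = true
    · have h3 : T ∈ s.M ∪ newM ω := by
        refine Finset.mem_union_right _ ?_
        unfold newM
        rw [Finset.mem_filter]
        exact ⟨Finset.mem_univ _, h2⟩
      rw [if_pos h3, if_neg h1, if_pos h2]
      linarith
    · have h3 : T ∉ s.M ∪ newM ω := by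
        unfold newM
        rw [Finset.mem_union, Finset.mem_filter]
        rintro (h | h)
        · exact h1 h
        · exact h2 h.2
      rw [if_neg h3, if_neg h1, if_neg h2]
      linarith

theorem comp6_core {S : Sys ι τ} {J : ℕ} {θ A : ℝ} {s : St ι τ}
    (hθ0 : 0 < θ) (hθ1 : θ ≤ 1 / 4) (hA : 0 ≤ A)
    (hbad : ∀ D ∈ S.bad, D.card ≤ 3 * J)
    (ha : ∀ T, 0 ≤ s.a T)
    (hXh0 : ∀ T, 0 ≤ S.Xh θ A s T) (hXhX : ∀ T, S.Xh θ A s T ≤ s.X T)
    (hp0 : ∀ c, 0 ≤ S.pc θ A s c) (hp1 : ∀ c, S.pc θ A s c ≤ 1)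
    (hps : ∀ T, 0 < S.Xh θ A s T →
      (1 - θ) ^ 3 * Real.exp (-(2 * θ * S.o s T)) ≤ S.ps θ A s T) :
    Ex (S.wt θ A s) (fun ω => S.Xi (S.nxt θ A s ω))
      ≤ (2 * Real.exp (2 * A) + 1) ^ (3 * J) * S.Xi s := by
  set K : ℝ := 2 * Real.exp (2 * A) with hKdef
  have hK1 : 1 ≤ K := by
    have : 1 ≤ Real.exp (2 * A) := Real.one_le_exp (by linarith)
    linarith
  have hX0 : ∀ T, 0 ≤ s.X T := fun T => le_trans (hXh0 T) (hXhX T)
  have hy0 : ∀ T, 0 ≤ s.y T := fun T => y_nonneg hX0 T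
  have hPW : PW (S.wt θ A s) := pw_cw hp0 hp1
  unfold Sys.Xi
  rw [ex_sum, Finset.mul_sum]
  refine Finset.sum_le_sum fun D hD => ?_
  have h1 : Ex (S.wt θ A s) (fun ω => (S.nxt θ A s ω).yy D)
      ≤ Ex (S.wt θ A s)
        (fun ω => ∏ T ∈ D, (K * s.y T + if ω (Sum.inl T) = true then 1 else 0)) := by
    refine ex_mono hPW fun ω => ?_
    unfold St.yy
    refine Finset.prod_le_prod (fun T _ => ?_) fun T _ => ?_
    · exact y_nonneg (s := S.nxt θ A s ω)
        (fun T => (X2_le hθ0 hθ1 ha hXh0 hXhX hps ω T).1) T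
    · exact y_nxt_le hK1 (X2_le hθ0 hθ1 ha hXh0 hXhX hps ω T).2
  refine le_trans h1 ?_
  have h2 : Ex (S.wt θ A s)
        (fun ω => ∏ T ∈ D, (K * s.y T + if ω (Sum.inl T) = true then 1 else 0))
      = ∏ T ∈ D, (K * s.y T + S.pc θ A s (Sum.inl T)) := ex_shift hp0 hp1 D _
  rw [h2]
  have h3 : ∏ T ∈ D, (K * s.y T + S.pc θ A s (Sum.inl T)) ≤ ∏ T ∈ D, ((K + 1) * s.y T) := by
    refine Finset.prod_le_prod (fun T _ => ?_) fun T _ => ?_
    · exact add_nonneg (mul_nonneg (by linarith) (hy0 T)) (hp0 _)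
    · have h4 : S.pc θ A s (Sum.inl T) = θ * S.Xh θ A s T := rfl
      rw [h4]
      have h5 : θ * S.Xh θ A s T ≤ 1 * s.y T :=
        mul_le_mul (by linarith) (le_trans (hXhX T) (X_le_y s T)) (hXh0 T) zero_le_one
      linarith
  refine le_trans h3 ?_
  rw [Finset.prod_mul_distrib, Finset.prod_const]
  unfold St.yy
  refine mul_le_mul_of_nonneg_right ?_ (Finset.prod_nonneg fun T _ => hy0 T)
  exact pow_le_pow_right₀ (by linarith) (hbad D hD)

end F1.Comp6
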