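import Mathlib
import Pool.Agent.F1.Basic
import Pool.Agent.F1.Comp6Core

/-!
# Project F1, row F6: the component `Xi` of the one-bite lemma
-/

set_option autoImplicit false
set_option linter.unusedSectionVars false

namespace F1.Comp6

open Finset NWC

theorem comp6 : Comp 6 := by
  intro J A hA
  have hA0 : 0 ≤ A := by linarith
  have hK1 : 1 ≤ 2 * Real.exp (2 * A) + 1 := by
    have := Real.exp_pos (2 * A)
    linarith
  refine ⟨(2 * Real.exp (2 * A) + 1) ^ (3 * J), one_le_pow₀ hK1, ?_⟩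
  intro c' hc' ι τ _ _ _ _ S E₀ θ B δ η s h hη
  have hcore := comp6_core (S := S) (J := J) (θ := θ) (A := A) (s := s) h.θ0 h.θ1 hA0
    h.good.bad_card h.valid.a0 h.Xh_nonneg h.Xh_le_X h.pc_nonneg h.pc_le_one
    (fun T hT => by
      have := h.ps_ge hT
      rwa [← mul_assoc] at this)
  have hXi : 0 ≤ S.Xi s := Finset.sum_nonneg fun D _ => h.valid.yy_nonneg D
  have e1 : (fun ω => S.vec E₀ A (S.nxt θ A s ω) 6) = fun ω => S.Xi (S.nxt θ A s ω) := rfl
  have e2 : stp J c' θ A η δ (S.vec E₀ A s) 6 = c' * S.Xi s := rfl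
  rw [e1, e2]
  exact le_trans hcore (mul_le_mul_of_nonneg_right hc' hXi)

end F1.Comp6
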