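import Pool.Agent.F1.Statements

/-!
# Project F1, module F9: counting configurations and bad structures
-/

set_option autoImplicit false
set_option linter.unusedSectionVars false

namespace F1.Count

open Finset NWC F1

/-- a set with at most `v` elements is in the range of a map from `Fin v` -/
theorem exists_fun {V : Type} [Nonempty V] (U : Finset V) (v : ℕ)
    (h : U.card ≤ v) : ∃ f : Fin v → V, ∀ x ∈ U, ∃ i, f i = x := by
  classical
  obtain ⟨x0⟩ := (inferInstance : Nonempty V)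
  refine ⟨fun i => U.toList.getD i x0, fun x hx => ?_⟩
  have hx' : x ∈ U.toList := Finset.mem_toList.2 hx
  obtain ⟨i, hi, hix⟩ := List.mem_iff_getElem.1 hx'
  have hlen : U.toList.length = U.card := Finset.length_toList U
  refine ⟨⟨i, by omega⟩, ?_⟩
  have h2 : U.toList.getD i x0 = U.toList[i] := by
    rw [List.getD_eq_getElem _ _ hi]
  exact h2.trans hix

/-- counting sets of triples by the number of their vertices -/
theorem card_le {V : Type} [Fintype V] [DecidableEq V] (hV : 1 ≤ Fintype.card V)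
    (F : Finset (Finset (Tri V))) (v : ℕ) (h : ∀ D ∈ F, (vs D).card ≤ v) :
    F.card ≤ Fintype.card V ^ v * 2 ^ (2 ^ v) := by
  classical
  have : Nonempty V := Fintype.card_pos_iff.1 (by omega)
  have hex : ∀ D : Finset (Tri V), ∃ f : Fin v → V, (vs D).card ≤ v →
      ∀ x ∈ vs D, ∃ i, f i = x := by
    intro D
    by_cases hD : (vs D).card ≤ v
    · obtain ⟨f, hf⟩ := exists_fun (vs D) v hD
      exact ⟨f, fun _ => hf⟩
    · obtain ⟨x0⟩ := (inferInstance : Nonempty V)
      exact ⟨fun _ => x0, fun h => absurd h hD⟩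
  choose f hf using hex
  have hcard : (univ : Finset ((Fin v → V) × Finset (Finset (Fin v)))).card
      = Fintype.card V ^ v * 2 ^ (2 ^ v) := by
    rw [Finset.card_univ, Fintype.card_prod, Fintype.card_fun, Fintype.card_finset,
      Fintype.card_finset, Fintype.card_fin]
  rw [← hcard]
  refine Finset.card_le_card_of_injOn
    (fun D => (f D, univ.filter (fun s : Finset (Fin v) => ∃ T ∈ D, s.image (f D) = T.1)))
    (fun _ _ => Finset.mem_coe.2 (Finset.mem_univ _)) ?_
  have key : ∀ D₁ ∈ F, ∀ D₂ ∈ F, f D₁ = f D₂ →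
      univ.filter (fun s : Finset (Fin v) => ∃ T ∈ D₁, s.image (f D₁) = T.1)
        = univ.filter (fun s : Finset (Fin v) => ∃ T ∈ D₂, s.image (f D₂) = T.1) →
      D₁ ⊆ D₂ := by
    intro D₁ h1 D₂ h2 hfe hse T hT
    have hr : ∀ x ∈ T.1, ∃ i, f D₁ i = x := by
      intro x hx
      exact hf D₁ (h D₁ h1) x (Finset.mem_biUnion.2 ⟨T, hT, hx⟩)
    have himg : (univ.filter (fun i => f D₁ i ∈ T.1)).image (f D₁) = T.1 := by
      ext x
      constructor
      · intro hx
        obtain ⟨i, hi, hix⟩ := Finset.mem_image.1 hx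
        rw [← hix]
        exact (Finset.mem_filter.1 hi).2
      · intro hx
        obtain ⟨i, hi⟩ := hr x hx
        refine Finset.mem_image.2 ⟨i, Finset.mem_filter.2 ⟨Finset.mem_univ _, ?_⟩, hi⟩
        rw [hi]; exact hx
    have hmem : (univ.filter (fun i => f D₁ i ∈ T.1)) ∈
        univ.filter (fun s : Finset (Fin v) => ∃ T ∈ D₁, s.image (f D₁) = T.1) :=
      Finset.mem_filter.2 ⟨Finset.mem_univ _, T, hT, himg⟩
    rw [hse] at hmem
    obtain ⟨T', hT', hT'e⟩ := (Finset.mem_filter.1 hmem).2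
    rw [← hfe, himg] at hT'e
    have : T = T' := Subtype.ext hT'e
    rw [this]; exact hT'
  intro D₁ h1 D₂ h2 he
  have h1' := Finset.mem_coe.1 h1
  have h2' := Finset.mem_coe.1 h2
  have he1 := congrArg Prod.fst he
  have he2 := congrArg Prod.snd he
  exact Finset.Subset.antisymm (key D₁ h1' D₂ h2' he1 he2)
    (key D₂ h2' D₁ h1' he1.symm he2.symm)

/-- the weight of a family of sets of triples with `|vs D| ≤ |D| + a` -/
theorem sum_le {V : Type} [Fintype V] [DecidableEq V] (hV : 1 ≤ Fintype.card V)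
    (w : Tri V → ℝ) (K : ℝ) (hK : 0 < K) (h0 : ∀ T, 0 ≤ w T)
    (h1 : ∀ T, w T ≤ K / Fintype.card V) (a L : ℕ) (F : Finset (Finset (Tri V)))
    (hL : ∀ D ∈ F, D.card ≤ L) (hv : ∀ D ∈ F, (vs D).card ≤ D.card + a) :
    ∑ D ∈ F, ∏ T ∈ D, w T ≤
      (∑ j ∈ range (L + 1), 2 ^ (2 ^ (j + a)) * K ^ j) * (Fintype.card V : ℝ) ^ a := by
  classical
  have hn : (0 : ℝ) < (Fintype.card V : ℝ) := by
    have : 0 < Fintype.card V := hV
    exact_mod_cast this
  have hb : ∀ D : Finset (Tri V), ∏ T ∈ D, w T ≤ (K / Fintype.card V) ^ D.card := by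
    intro D
    calc ∏ T ∈ D, w T ≤ ∏ T ∈ D, (K / Fintype.card V : ℝ) :=
          Finset.prod_le_prod (fun T _ => h0 T) (fun T _ => h1 T)
      _ = (K / Fintype.card V) ^ D.card := by rw [Finset.prod_const]
  have hfib : ∑ D ∈ F, ∏ T ∈ D, w T
      = ∑ j ∈ range (L + 1), ∑ D ∈ F.filter (fun D => D.card = j), ∏ T ∈ D, w T := by
    rw [← Finset.sum_fiberwise_of_maps_to (s := F) (t := range (L + 1)) (g := fun D => D.card)]
    intro D hD
    exact Finset.mem_range.2 (Nat.lt_succ_of_le (hL D hD))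
  rw [hfib, Finset.sum_mul]
  refine Finset.sum_le_sum fun j _ => ?_
  have hc : ((F.filter (fun D => D.card = j)).card : ℝ) ≤
      (Fintype.card V : ℝ) ^ (j + a) * 2 ^ (2 ^ (j + a)) := by
    have h2 := card_le hV (F.filter (fun D => D.card = j)) (j + a) (by
      intro D hD
      obtain ⟨hD1, hD2⟩ := Finset.mem_filter.1 hD
      have h3 := hv D hD1
      omega)
    exact_mod_cast h2
  calc ∑ D ∈ F.filter (fun D => D.card = j), ∏ T ∈ D, w T
      ≤ ∑ D ∈ F.filter (fun D => D.card = j), (K / Fintype.card V : ℝ) ^ j := by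
        refine Finset.sum_le_sum fun D hD => ?_
        have h2 := hb D
        rw [(Finset.mem_filter.1 hD).2] at h2
        exact h2
    _ = ((F.filter (fun D => D.card = j)).card : ℝ) * (K / Fintype.card V : ℝ) ^ j := by
        rw [Finset.sum_const, nsmul_eq_mul]
    _ ≤ ((Fintype.card V : ℝ) ^ (j + a) * 2 ^ (2 ^ (j + a))) * (K / Fintype.card V : ℝ) ^ j :=
        mul_le_mul_of_nonneg_right hc (pow_nonneg (div_nonneg hK.le hn.le) _)
    _ = 2 ^ (2 ^ (j + a)) * K ^ j * (Fintype.card V : ℝ) ^ a := by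
        rw [div_pow, pow_add]
        field_simp

/-- `CountStatement` -/
theorem count : CountStatement := by
  intro J K hK
  have hS : ∀ a L : ℕ, 0 ≤ ∑ j ∈ range (L + 1), (2 : ℝ) ^ (2 ^ (j + a)) * K ^ j := fun a L =>
    Finset.sum_nonneg fun j _ => mul_nonneg (by positivity) (pow_nonneg hK.le _)
  refine ⟨(∑ j ∈ range (J + 1), (2 : ℝ) ^ (2 ^ (j + 2)) * K ^ j)
      + (∑ j ∈ range (3 * J + 1), (2 : ℝ) ^ (2 ^ (j + 1)) * K ^ j) + 1,
    by linarith [hS 2 J, hS 1 (3 * J)], ?_⟩
  intro V _ _ w hV h0 h1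
  have hn : (0 : ℝ) ≤ (Fintype.card V : ℝ) := Nat.cast_nonneg _
  constructor
  · refine (sum_le hV w K hK h0 h1 2 J _ ?_ ?_).trans ?_
    · intro C hC
      exact (Finset.mem_filter.1 hC).2.2.1
    · intro C hC
      exact (Finset.mem_filter.1 hC).2.2.2.2.1.le
    · exact mul_le_mul_of_nonneg_right (by linarith [hS 1 (3 * J)]) (pow_nonneg hn _)
  · refine (sum_le hV w K hK h0 h1 1 (3 * J) _ ?_ ?_).trans ?_
    · intro D hD
      exact (Finset.mem_filter.1 hD).2.2.1
    · intro D hD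
      exact (Finset.mem_filter.1 hD).2.2.2
    · rw [pow_one]
      exact mul_le_mul_of_nonneg_right (by linarith [hS 2 J]) hn

end F1.Count
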