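import Pool.Agent.F1.Statements
import Pool.Agent.NW.Bounded
import Pool.Agent.H56.NW.Weighted

/-!
# F10: exact fractional triangle decompositions with weights `O(1/n)`

Average of the fractional decompositions (weighted fractional Nash-Williams theorem) of the
pull-backs along all good maps `ψ : Fin m → V`, with the demands
`(1 - 1/m) * (average probability of goodness)⁻¹` on the edges, so that the sums are exact.
-/

set_option autoImplicit false
set_option linter.unusedSectionVars false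

namespace F1.Exact

open Finset NWC NW

/-! ## Weighted fractional decompositions as symmetric functions of ordered triples -/

theorem frac_ord {m : ℕ} (g : Fin m → Fin m → ℚ) (g0 : ∀ x y, 0 ≤ g x y)
    (g1 : ∀ x y, g x y ≤ 1) (gs : ∀ x y, g x y = g y x) (gd : ∀ x, g x x = 0)
    (deg : ∀ x, 4 * ∑ y, (1 - g x y) ≤ (m : ℚ)) :
    ∃ D : Fin m → Fin m → Fin m → ℝ, (∀ i j k, 0 ≤ D i j k) ∧ (∀ i j k, D i j k ≤ 1) ∧
      (∀ i j k, D i j k = D j i k) ∧ (∀ i j k, D i j k = D i k j) ∧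
      (∀ i j k, D i j k ≠ 0 → g i j ≠ 0 ∧ g j k ≠ 0 ∧ g i k ≠ 0) ∧
      ∀ i j, i ≠ j → ∑ k, D i j k = (g i j : ℝ) := by
  classical
  obtain ⟨w, w0, ws, w1⟩ := H56NW.frac_nash_williams_weighted g g0 g1 gs (by simpa using deg)
  set d : Fin m → Fin m → Fin m → ℚ := fun i j k =>
    w (i, j, k) + w (i, k, j) + w (j, i, k) + w (j, k, i) + w (k, i, j) + w (k, j, i) with hd
  have d0 : ∀ i j k, 0 ≤ d i j k := by
    intro i j k
    simp only [hd]
    have h1 := w0 (i, j, k)
    have h2 := w0 (i, k, j)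
    have h3 := w0 (j, i, k)
    have h4 := w0 (j, k, i)
    have h5 := w0 (k, i, j)
    have h6 := w0 (k, j, i)
    linarith
  have hsupp : ∀ i j k, d i j k ≠ 0 → g i j ≠ 0 ∧ g j k ≠ 0 ∧ g i k ≠ 0 := by
    intro i j k h
    by_contra hcon
    refine h ?_
    have z : ∀ a b c, (g a b ≠ 0 ∧ g b c ≠ 0 ∧ g a c ≠ 0 → g i j ≠ 0 ∧ g j k ≠ 0 ∧ g i k ≠ 0) →
        w (a, b, c) = 0 := by
      intro a b c himp
      by_contra h0
      exact hcon (himp (ws (a, b, c) h0))
    simp only [hd]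
    rw [z i j k (fun h => h), z i k j (fun h => ⟨h.2.2, by rw [gs j k]; exact h.2.1, h.1⟩),
      z j i k (fun h => ⟨by rw [gs i j]; exact h.1, h.2.2, h.2.1⟩),
      z j k i (fun h => ⟨by rw [gs i j]; exact h.2.2, h.1, by rw [gs i k]; exact h.2.1⟩),
      z k i j (fun h => ⟨h.2.1, by rw [gs j k]; exact h.2.2, by rw [gs i k]; exact h.1⟩),
      z k j i (fun h => ⟨by rw [gs i j]; exact h.2.1, by rw [gs j k]; exact h.1,
        by rw [gs i k]; exact h.2.2⟩)]
    norm_num
  have hsum : ∀ i j, i ≠ j → ∑ k, d i j k = g i j := by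
    intro i j hij
    rw [← w1 (i, j)]
    simp only [hd, H56NW.tv, mul_add, Finset.sum_add_distrib]
    have e1 : ∑ t : Fin m × Fin m × Fin m, w t * (if (i, j) = (t.1, t.2.1) then (1 : ℚ) else 0)
        = ∑ k, w (i, j, k) := by
      rw [Fintype.sum_prod_type, Finset.sum_eq_single i]
      · rw [Fintype.sum_prod_type, Finset.sum_eq_single j]
        · simp
        · intro b _ hb
          simp [hb.symm]
        · simp
      · intro b _ hb
        simp [hb.symm]
      · simp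
    have e2 : ∑ t : Fin m × Fin m × Fin m, w t * (if (i, j) = (t.2.1, t.1) then (1 : ℚ) else 0)
        = ∑ k, w (j, i, k) := by
      rw [Fintype.sum_prod_type, Finset.sum_eq_single j]
      · rw [Fintype.sum_prod_type, Finset.sum_eq_single i]
        · simp
        · intro b _ hb
          simp [hb.symm]
        · simp
      · intro b _ hb
        simp [hb.symm]
      · simp
    have e3 : ∑ t : Fin m × Fin m × Fin m, w t * (if (i, j) = (t.2.1, t.2.2) then (1 : ℚ) else 0)
        = ∑ k, w (k, i, j) := by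
      rw [Fintype.sum_prod_type]
      refine Finset.sum_congr rfl fun k _ => ?_
      rw [Fintype.sum_prod_type, Finset.sum_eq_single i]
      · rw [Finset.sum_eq_single j]
        · simp
        · intro b _ hb
          simp [hb.symm]
        · simp
      · intro b _ hb
        simp [hb.symm]
      · simp
    have e4 : ∑ t : Fin m × Fin m × Fin m, w t * (if (i, j) = (t.2.2, t.2.1) then (1 : ℚ) else 0)
        = ∑ k, w (k, j, i) := by
      rw [Fintype.sum_prod_type]
      refine Finset.sum_congr rfl fun k _ => ?_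
      rw [Fintype.sum_prod_type, Finset.sum_eq_single j]
      · rw [Finset.sum_eq_single i]
        · simp
        · intro b _ hb
          simp [hb.symm]
        · simp
      · intro b _ hb
        simp [hb.symm]
      · simp
    have e5 : ∑ t : Fin m × Fin m × Fin m, w t * (if (i, j) = (t.1, t.2.2) then (1 : ℚ) else 0)
        = ∑ k, w (i, k, j) := by
      rw [Fintype.sum_prod_type, Finset.sum_eq_single i]
      · rw [Fintype.sum_prod_type]
        refine Finset.sum_congr rfl fun k _ => ?_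
        rw [Finset.sum_eq_single j]
        · simp
        · intro b _ hb
          simp [hb.symm]
        · simp
      · intro b _ hb
        simp [hb.symm]
      · simp
    have e6 : ∑ t : Fin m × Fin m × Fin m, w t * (if (i, j) = (t.2.2, t.1) then (1 : ℚ) else 0)
        = ∑ k, w (j, k, i) := by
      rw [Fintype.sum_prod_type, Finset.sum_eq_single j]
      · rw [Fintype.sum_prod_type]
        refine Finset.sum_congr rfl fun k _ => ?_
        rw [Finset.sum_eq_single i]
        · simp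
        · intro b _ hb
          simp [hb.symm]
        · simp
      · intro b _ hb
        simp [hb.symm]
      · simp
    rw [e1, e2, e3, e4, e5, e6]
    ring
  have hdiag : ∀ i k, d i i k = 0 := by
    intro i k
    by_contra h
    exact (hsupp i i k h).1 (gd i)
  have hle : ∀ i j k, d i j k ≤ 1 := by
    intro i j k
    by_cases hij : i = j
    · subst hij
      rw [hdiag]
      norm_num
    · refine le_trans ?_ (g1 i j)
      rw [← hsum i j hij]
      exact Finset.single_le_sum (f := fun k => d i j k) (fun k _ => d0 i j k) (Finset.mem_univ k)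
  refine ⟨fun i j k => (d i j k : ℝ), ?_, ?_, ?_, ?_, ?_, ?_⟩
  · intro i j k
    have h : (0 : ℝ) ≤ ((d i j k : ℚ) : ℝ) := by exact_mod_cast d0 i j k
    exact h
  · intro i j k
    have h : ((d i j k : ℚ) : ℝ) ≤ 1 := by exact_mod_cast hle i j k
    exact h
  · intro i j k
    have : d i j k = d j i k := by simp only [hd]; ring
    simp only [this]
  · intro i j k
    have : d i j k = d i k j := by simp only [hd]; ring
    simp only [this]
  · intro i j k h
    refine hsupp i j k ?_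
    intro h0
    apply h
    simp only [h0, Rat.cast_zero]
  · intro i j hij
    rw [← hsum i j hij]
    push_cast
    rfl

/-! ## Good maps -/

section Avg

variable {V : Type} [Fintype V] [DecidableEq V] {m : ℕ}

/-- the pulled back graph has minimum degree at least `3m/4 + 1` -/
def GM (E : Finset (Sym2 V)) (ψ : Fin m → V) : Prop :=
  ∀ k, 3 * m + 4 ≤ 4 * (univ.filter (fun l => s(ψ k, ψ l) ∈ E)).card

theorem pr_bad_le' [Nonempty V] (E : Finset (Sym2 V)) (ε : ℝ) (hε : 0 < ε)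
    (hε1 : ε ≤ 1) (hdeg : ∀ v, (3 / 4 + ε) * (Fintype.card V : ℝ) ≤ (deg E v : ℝ))
    (hm : 13 ≤ ε * (m : ℝ)) (i j : Fin m) (x y : V) :
    Pr (prodW (pp i j x y)) (fun ψ => ¬ GM E ψ)
      ≤ (m : ℝ) * Real.exp (-(ε ^ 2 * (m : ℝ) / 8)) := by
  classical
  have hpw := pw_pp i j x y
  have hm0 : (0 : ℝ) < m := by
    by_contra h
    have : ε * (m : ℝ) ≤ 0 := mul_nonpos_of_nonneg_of_nonpos hε.le (not_lt.1 h)
    linarith
  have hn : (0 : ℝ) < (Fintype.card V : ℝ) := by exact_mod_cast Fintype.card_pos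
  set S : Fin m → Finset (Fin m) := fun k => univ.filter (fun l => l ≠ i ∧ l ≠ j ∧ l ≠ k) with hS
  have hScard : ∀ k, (m : ℝ) - 3 ≤ ((S k).card : ℝ) := by
    intro k
    have h1 : (univ : Finset (Fin m)).card ≤ (S k).card + 3 := by
      have h2 : (univ : Finset (Fin m)) ⊆ S k ∪ {i, j, k} := by
        intro l _
        simp only [hS, Finset.mem_union, Finset.mem_filter, Finset.mem_univ, true_and,
          Finset.mem_insert, Finset.mem_singleton]
        tauto
      refine (Finset.card_le_card h2).trans ((Finset.card_union_le _ _).trans ?_)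
      exact Nat.add_le_add_left Finset.card_le_three _
    rw [Finset.card_univ, Fintype.card_fin] at h1
    have h3 : (m : ℝ) ≤ ((S k).card : ℝ) + 3 := by exact_mod_cast h1
    linarith
  have hScard' : ∀ k, ((S k).card : ℝ) ≤ (m : ℝ) := by
    intro k
    have h1 := Finset.card_le_univ (S k)
    rw [Fintype.card_fin] at h1
    exact_mod_cast h1
  set F : Fin m → V → (Fin m → V) → Prop := fun k a ψ =>
    ∑ l ∈ S k, (if s(a, ψ l) ∈ E then (1 : ℝ) else 0) < 3 / 4 * (m : ℝ) + 1 with hF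
  have hFk : ∀ k a, Pr (prodW (pp i j x y)) (F k a) ≤ Real.exp (-(ε ^ 2 * (m : ℝ) / 8)) := by
    intro k a
    have h1 := hoeffding_lower hpw (S k) (fun _ v => if s(a, v) ∈ E then (1 : ℝ) else 0)
      (fun _ v => by split_ifs <;> norm_num) (fun _ v => by split_ifs <;> norm_num)
      (m : ℝ) hm0 (hScard' k) (ε * m / 2) (by positivity)
    have h2 : -((ε * (m : ℝ) / 2) ^ 2 / (2 * (m : ℝ))) = -(ε ^ 2 * (m : ℝ) / 8) := by
      field_simp
      ring
    rw [h2] at h1
    refine le_trans (pr_mono (pw_prod hpw) ?_) h1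
    intro ψ hψ
    have h3 : ∑ l ∈ S k, Ex (pp i j x y l) (fun v => if s(a, v) ∈ E then (1 : ℝ) else 0)
        = ((S k).card : ℝ) * ((deg E a : ℝ) / (Fintype.card V : ℝ)) := by
      rw [← nsmul_eq_mul, ← Finset.sum_const]
      refine Finset.sum_congr rfl fun l hl => ?_
      have hl' := (Finset.mem_filter.1 hl).2
      unfold Ex pp
      rw [if_neg hl'.1, if_neg hl'.2.1]
      simp only [unifW, mul_ite, mul_one, mul_zero]
      rw [← Finset.sum_filter, Finset.sum_const, nsmul_eq_mul]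
      unfold deg nbr
      ring
    rw [h3]
    have h4 : 3 / 4 + ε ≤ (deg E a : ℝ) / (Fintype.card V : ℝ) := by
      rw [le_div_iff₀ hn]
      exact hdeg a
    have hm3 : 0 ≤ (m : ℝ) - 3 := by
      have : (13 : ℝ) ≤ m := by nlinarith
      linarith
    have h5 : ((m : ℝ) - 3) * (3 / 4 + ε)
        ≤ ((S k).card : ℝ) * ((deg E a : ℝ) / (Fintype.card V : ℝ)) :=
      mul_le_mul (hScard k) h4 (by linarith) (by positivity)
    have h6 : F k a ψ := hψ
    simp only [hF] at h6
    have h7 : 3 / 4 * (m : ℝ) + 1 ≤ ((m : ℝ) - 3) * (3 / 4 + ε) - ε * m / 2 := by nlinarith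
    linarith
  have hmain : ∀ k, Pr (prodW (pp i j x y)) (fun ψ => F k (ψ k) ψ)
      ≤ Real.exp (-(ε ^ 2 * (m : ℝ) / 8)) := by
    intro k
    refine NWC.pr_cond_le hpw k (fun a ψ => F k a ψ) ?_ _ (hFk k)
    intro a ψ b
    simp only [hF]
    have : ∑ l ∈ S k, (if s(a, Function.update ψ k b l) ∈ E then (1 : ℝ) else 0)
        = ∑ l ∈ S k, (if s(a, ψ l) ∈ E then (1 : ℝ) else 0) := by
      refine Finset.sum_congr rfl fun l hl => ?_
      rw [Function.update_of_ne (Finset.mem_filter.1 hl).2.2.2]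
    rw [this]
  have h8 : Pr (prodW (pp i j x y)) (fun ψ => ¬ GM E ψ)
      ≤ Pr (prodW (pp i j x y)) (fun ψ => ∃ k, F k (ψ k) ψ) := by
    refine pr_mono (pw_prod hpw) ?_
    intro ψ hψ
    unfold GM at hψ
    push Not at hψ
    obtain ⟨k, hk⟩ := hψ
    refine ⟨k, ?_⟩
    simp only [hF]
    have h9 : ∑ l ∈ S k, (if s(ψ k, ψ l) ∈ E then (1 : ℝ) else 0)
        ≤ ((univ.filter (fun l => s(ψ k, ψ l) ∈ E)).card : ℝ) := by
      rw [← Finset.sum_filter, Finset.sum_const, nsmul_eq_mul, mul_one]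
      exact_mod_cast Finset.card_le_card (Finset.filter_subset_filter _ (Finset.subset_univ _))
    have h10 : (4 : ℝ) * ((univ.filter (fun l => s(ψ k, ψ l) ∈ E)).card : ℝ)
        < 3 * (m : ℝ) + 4 := by
      exact_mod_cast hk
    linarith
  refine h8.trans ((pr_exists_le' (pw_prod hpw) _).trans ?_)
  refine (Finset.sum_le_sum fun k _ => hmain k).trans (le_of_eq ?_)
  rw [Finset.sum_const, Finset.card_univ, Fintype.card_fin, nsmul_eq_mul]

/-- a constant `m` for which the failure probability is at most `1/m` -/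
theorem exists_m' (ε : ℝ) (hε : 0 < ε) : ∃ m : ℕ, 2 ≤ m ∧ 13 ≤ ε * (m : ℝ) ∧
    (m : ℝ) * Real.exp (-(ε ^ 2 * (m : ℝ) / 8)) ≤ 1 / (m : ℝ) := by
  obtain ⟨m, hm⟩ := exists_nat_ge (2 + 13 / ε + 3072 / ε ^ 6)
  have h1 : 0 < 13 / ε := by positivity
  have h2 : 0 < 3072 / ε ^ 6 := by positivity
  have hm2 : (2 : ℝ) ≤ m := by linarith
  refine ⟨m, by exact_mod_cast hm2, ?_, ?_⟩
  · have h3 : 13 / ε ≤ (m : ℝ) := by linarith
    rw [div_le_iff₀ hε] at h3
    linarith
  · have h3 : 3072 / ε ^ 6 ≤ (m : ℝ) := by linarith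
    rw [div_le_iff₀ (by positivity)] at h3
    set t : ℝ := ε ^ 2 * (m : ℝ) / 8 with ht
    have ht0 : 0 < t := by positivity
    have h4 := Real.pow_div_factorial_le_exp t ht0.le 3
    have h5 : t ^ 3 / 6 ≤ Real.exp t := by
      have : ((Nat.factorial 3 : ℕ) : ℝ) = 6 := by norm_num [Nat.factorial]
      rw [this] at h4
      exact h4
    rw [Real.exp_neg, ← div_eq_mul_inv, div_le_iff₀ (Real.exp_pos _), div_mul_eq_mul_div, one_mul,
      le_div_iff₀ (by linarith)]
    refine le_trans ?_ h5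
    rw [ht]
    have h7 : (ε ^ 2 * (m : ℝ) / 8) ^ 3 / 6 = (m : ℝ) * (m : ℝ) * ((m : ℝ) * ε ^ 6) / 3072 := by
      ring
    rw [h7, le_div_iff₀ (by norm_num)]
    exact mul_le_mul_of_nonneg_left h3 (by positivity)

/-! ## Counting good maps -/

open Classical in
/-- good maps with two prescribed values -/
noncomputable def gm (E : Finset (Sym2 V)) (m : ℕ) (i j : Fin m) (x y : V) : Finset (Fin m → V) :=
  univ.filter (fun ψ => GM E ψ ∧ ψ i = x ∧ ψ j = y)

/-- all ordered pairs of distinct positions -/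
def od (m : ℕ) : Finset (Fin m × Fin m) := univ.filter (fun q => q.1 ≠ q.2)

/-- number of good maps with two prescribed values, over all pairs of positions -/
noncomputable def cnt (E : Finset (Sym2 V)) (m : ℕ) (x y : V) : ℕ :=
  ∑ q ∈ od m, (gm E m q.1 q.2 x y).card

theorem cnt_comm (E : Finset (Sym2 V)) (x y : V) : cnt E m x y = cnt E m y x := by
  unfold cnt
  refine Finset.sum_bij (fun q _ => (q.2, q.1)) ?_ ?_ ?_ ?_
  · intro q hq
    unfold od at hq ⊢
    rw [Finset.mem_filter] at hq ⊢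
    exact ⟨Finset.mem_univ _, fun h => hq.2 h.symm⟩
  · rintro ⟨a, b⟩ _ ⟨c, d⟩ _ h
    simp only [Prod.mk.injEq] at h
    simp [h.1, h.2]
  · rintro ⟨a, b⟩ hq
    refine ⟨(b, a), ?_, rfl⟩
    unfold od at hq ⊢
    rw [Finset.mem_filter] at hq ⊢
    exact ⟨Finset.mem_univ _, fun h => hq.2 h.symm⟩
  · rintro ⟨a, b⟩ _
    unfold gm
    congr 1
    ext ψ
    simp only [Finset.mem_filter, Finset.mem_univ, true_and]
    tauto

theorem pr_good_eq (E : Finset (Sym2 V)) (i j : Fin m) (hij : i ≠ j) (x y : V) :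
    Pr (prodW (pp i j x y)) (fun ψ => GM E ψ)
      = ((gm E m i j x y).card : ℝ) * (1 / (Fintype.card V : ℝ)) ^ (m - 2) := by
  classical
  unfold Pr gm
  rw [← nsmul_eq_mul, ← Finset.sum_const, Finset.sum_filter]
  refine Finset.sum_congr rfl fun ψ _ => ?_
  rw [prodW_pp i j hij]
  by_cases h1 : GM E ψ <;> by_cases h2 : ψ i = x ∧ ψ j = y <;> simp [h1, h2]

/-- number of all maps with two prescribed values, over all pairs of positions -/
def tot (m n : ℕ) : ℕ := m * (m - 1) * n ^ (m - 2)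

theorem tot_mul [Nonempty V] (hm : 2 ≤ m) :
    (tot m (Fintype.card V) : ℝ) * (1 / (Fintype.card V : ℝ)) ^ (m - 2)
      = (m : ℝ) * ((m : ℝ) - 1) := by
  have hn : (Fintype.card V : ℝ) ≠ 0 := by exact_mod_cast Fintype.card_ne_zero
  unfold tot
  rw [Nat.cast_mul, Nat.cast_mul, Nat.cast_sub (by omega), Nat.cast_pow, Nat.cast_one, one_div,
    inv_pow, mul_assoc, mul_inv_cancel₀ (pow_ne_zero _ hn), mul_one]

theorem card_od (hm : 2 ≤ m) : (((od m).card : ℕ) : ℝ) = (m : ℝ) * ((m : ℝ) - 1) := card_offdiag hm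

theorem cnt_mul (E : Finset (Sym2 V)) (x y : V) :
    (cnt E m x y : ℝ) * (1 / (Fintype.card V : ℝ)) ^ (m - 2)
      = ∑ q ∈ od m, Pr (prodW (pp q.1 q.2 x y)) (fun ψ => GM E ψ) := by
  unfold cnt
  rw [Nat.cast_sum, Finset.sum_mul]
  refine Finset.sum_congr rfl fun q hq => ?_
  rw [pr_good_eq E q.1 q.2 (Finset.mem_filter.1 hq).2]

theorem cnt_le [Nonempty V] (hm : 2 ≤ m) (E : Finset (Sym2 V)) (x y : V) :
    cnt E m x y ≤ tot m (Fintype.card V) := by
  have hn : (0 : ℝ) < (Fintype.card V : ℝ) := by exact_mod_cast Fintype.card_pos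
  have h1 : (cnt E m x y : ℝ) * (1 / (Fintype.card V : ℝ)) ^ (m - 2)
      ≤ (tot m (Fintype.card V) : ℝ) * (1 / (Fintype.card V : ℝ)) ^ (m - 2) := by
    rw [cnt_mul, tot_mul hm, ← card_od hm, ← nsmul_one]
    exact Finset.sum_le_card_nsmul _ _ _ fun q _ => pr_le_one (pw_prod (pw_pp q.1 q.2 x y)) _
  have h2 := le_of_mul_le_mul_right h1 (by positivity)
  exact_mod_cast h2

theorem le_cnt [Nonempty V] (hm : 2 ≤ m) (E : Finset (Sym2 V)) (ε : ℝ) (hε : 0 < ε)
    (hε1 : ε ≤ 1) (hdeg : ∀ v, (3 / 4 + ε) * (Fintype.card V : ℝ) ≤ (deg E v : ℝ))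
    (hm13 : 13 ≤ ε * (m : ℝ))
    (hmm : (m : ℝ) * Real.exp (-(ε ^ 2 * (m : ℝ) / 8)) ≤ 1 / (m : ℝ)) (x y : V) :
    (m - 1) * tot m (Fintype.card V) ≤ m * cnt E m x y := by
  have hn : (0 : ℝ) < (Fintype.card V : ℝ) := by exact_mod_cast Fintype.card_pos
  have hm' : (2 : ℝ) ≤ m := by exact_mod_cast hm
  have h1 : (1 - 1 / (m : ℝ)) * ((tot m (Fintype.card V) : ℝ)
      * (1 / (Fintype.card V : ℝ)) ^ (m - 2))
      ≤ (cnt E m x y : ℝ) * (1 / (Fintype.card V : ℝ)) ^ (m - 2) := by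
    rw [cnt_mul, tot_mul hm, ← card_od hm, mul_comm, ← nsmul_eq_mul]
    refine Finset.card_nsmul_le_sum _ _ _ fun q _ => ?_
    have h2 := pr_bad_le' E ε hε hε1 hdeg hm13 q.1 q.2 x y
    rw [pr_not (pw_prod (pw_pp q.1 q.2 x y))] at h2
    linarith
  rw [← mul_assoc] at h1
  have h2 := le_of_mul_le_mul_right h1 (by positivity)
  have h3 : ((m : ℝ) - 1) * (tot m (Fintype.card V) : ℝ) ≤ (m : ℝ) * (cnt E m x y : ℝ) := by
    have h4 : ((m : ℝ) - 1) * (tot m (Fintype.card V) : ℝ)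
        = (m : ℝ) * ((1 - 1 / (m : ℝ)) * (tot m (Fintype.card V) : ℝ)) := by
      field_simp
    rw [h4]
    exact mul_le_mul_of_nonneg_left h2 (by linarith)
  have h5 : (((m - 1 : ℕ) : ℝ)) = (m : ℝ) - 1 := by
    rw [Nat.cast_sub (by omega), Nat.cast_one]
  have h6 : (((m - 1) * tot m (Fintype.card V) : ℕ) : ℝ) ≤ ((m * cnt E m x y : ℕ) : ℝ) := by
    rw [Nat.cast_mul, Nat.cast_mul, h5]
    exact h3
  exact_mod_cast h6

/-- the demand of the pulled back graph -/
noncomputable def dem (E : Finset (Sym2 V)) (m : ℕ) (x y : V) : ℚ :=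
  if s(x, y) ∈ E then (1 - 1 / (m : ℚ)) * (tot m (Fintype.card V) : ℚ) / (cnt E m x y : ℚ) else 0

theorem dem_comm (E : Finset (Sym2 V)) (x y : V) : dem E m x y = dem E m y x := by
  unfold dem
  rw [cnt_comm E x y, Sym2.eq_swap]

theorem tot_pos [Nonempty V] (hm : 2 ≤ m) : 0 < tot m (Fintype.card V) := by
  unfold tot
  have := Fintype.card_pos (α := V)
  have : 0 < m - 1 := by omega
  positivity

theorem dem_bounds [Nonempty V] (hm : 2 ≤ m) (E : Finset (Sym2 V)) (x y : V)
    (hc : (m - 1) * tot m (Fintype.card V) ≤ m * cnt E m x y) (hxy : s(x, y) ∈ E) :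
    1 - 1 / (m : ℚ) ≤ dem E m x y ∧ dem E m x y ≤ 1 ∧ 0 < cnt E m x y := by
  have hm' : (2 : ℚ) ≤ m := by exact_mod_cast hm
  have hm0 : (0 : ℚ) < m := by linarith
  have ht := tot_pos (V := V) hm
  have ht' : (0 : ℚ) < tot m (Fintype.card V) := by exact_mod_cast ht
  have hc0 : 0 < cnt E m x y := by
    have h1 : 0 < (m - 1) * tot m (Fintype.card V) := Nat.mul_pos (by omega) ht
    have h2 : 0 < m * cnt E m x y := lt_of_lt_of_le h1 hc
    exact Nat.pos_of_mul_pos_left h2
  have hc0' : (0 : ℚ) < cnt E m x y := by exact_mod_cast hc0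
  have hu : (cnt E m x y : ℚ) ≤ tot m (Fintype.card V) := by exact_mod_cast cnt_le hm E x y
  have hl : ((m : ℚ) - 1) * tot m (Fintype.card V) ≤ m * cnt E m x y := by
    have h5 : (((m - 1 : ℕ) : ℚ)) = (m : ℚ) - 1 := by
      rw [Nat.cast_sub (by omega), Nat.cast_one]
    rw [← h5]
    exact_mod_cast hc
  have hq : 0 ≤ 1 - 1 / (m : ℚ) := by
    rw [sub_nonneg, div_le_one hm0]
    linarith
  unfold dem
  rw [if_pos hxy]
  refine ⟨?_, ?_, hc0⟩
  · rw [le_div_iff₀ hc0']
    exact mul_le_mul_of_nonneg_left hu hq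
  · rw [div_le_one hc0']
    have h4 : (1 - 1 / (m : ℚ)) * (tot m (Fintype.card V) : ℚ)
        = (((m : ℚ) - 1) * tot m (Fintype.card V)) / m := by
      field_simp
    rw [h4, div_le_iff₀ hm0]
    linarith

theorem dem_nonneg (hm : 2 ≤ m) (E : Finset (Sym2 V)) (x y : V) : 0 ≤ dem E m x y := by
  have hm' : (2 : ℚ) ≤ m := by exact_mod_cast hm
  have hq : 0 ≤ 1 - 1 / (m : ℚ) := by
    rw [sub_nonneg, div_le_one (by linarith)]
    linarith
  unfold dem
  split_ifs
  · positivity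
  · exact le_rfl

/-- the fractional decomposition of the pull-back along a good map -/
theorem exists_D [Nonempty V] (hm : 2 ≤ m) (E : Finset (Sym2 V)) (hE : NL E)
    (hc : ∀ x y, (m - 1) * tot m (Fintype.card V) ≤ m * cnt E m x y) (ψ : Fin m → V)
    (hψ : GM E ψ) :
    ∃ D : Fin m → Fin m → Fin m → ℝ, (∀ i j k, 0 ≤ D i j k) ∧ (∀ i j k, D i j k ≤ 1) ∧
      (∀ i j k, D i j k = D j i k) ∧ (∀ i j k, D i j k = D i k j) ∧
      (∀ i j k, D i j k ≠ 0 → s(ψ i, ψ j) ∈ E ∧ s(ψ j, ψ k) ∈ E ∧ s(ψ i, ψ k) ∈ E) ∧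
      ∀ i j, i ≠ j → ∑ k, D i j k = (dem E m (ψ i) (ψ j) : ℝ) := by
  have hm' : (2 : ℚ) ≤ m := by exact_mod_cast hm
  have hm0 : (0 : ℚ) < m := by linarith
  have hdd : ∀ x, dem E m x x = 0 := by
    intro x
    unfold dem
    rw [if_neg (fun h => hE _ h (by simp))]
  have hle1 : ∀ i j : Fin m, dem E m (ψ i) (ψ j) ≤ 1 := by
    intro i j
    by_cases h : s(ψ i, ψ j) ∈ E
    · exact (dem_bounds hm E _ _ (hc _ _) h).2.1
    · unfold dem
      rw [if_neg h]
      norm_num
  have hsum : ∀ i : Fin m, 4 * ∑ j : Fin m, (1 - dem E m (ψ i) (ψ j)) ≤ (m : ℚ) := by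
    intro i
    have h1 : ∀ j : Fin m, 1 - dem E m (ψ i) (ψ j)
        ≤ 1 / (m : ℚ) + (1 - if s(ψ i, ψ j) ∈ E then (1 : ℚ) else 0) := by
      intro j
      by_cases h : s(ψ i, ψ j) ∈ E
      · have := (dem_bounds hm E _ _ (hc _ _) h).1
        rw [if_pos h]
        linarith
      · rw [if_neg h]
        unfold dem
        rw [if_neg h]
        have : 0 ≤ 1 / (m : ℚ) := by positivity
        linarith
    have h2 : ∑ j : Fin m, (1 - dem E m (ψ i) (ψ j))
        ≤ 1 + (m - ((univ.filter (fun l => s(ψ i, ψ l) ∈ E)).card : ℚ)) := by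
      refine (Finset.sum_le_sum fun j _ => h1 j).trans (le_of_eq ?_)
      rw [Finset.sum_add_distrib, Finset.sum_sub_distrib, ← Finset.sum_filter]
      simp only [Finset.sum_const, Finset.card_univ, Fintype.card_fin, nsmul_eq_mul, mul_one]
      rw [mul_one_div_cancel hm0.ne']
    have h3 := hψ i
    have h4 : 3 * (m : ℚ) + 4 ≤ 4 * ((univ.filter (fun l => s(ψ i, ψ l) ∈ E)).card : ℚ) := by
      exact_mod_cast h3
    linarith
  obtain ⟨D, h1, h2, h3, h4, h5, h6⟩ := frac_ord (m := m) (fun i j => dem E m (ψ i) (ψ j))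
    (fun i j => dem_nonneg hm E _ _) hle1 (fun i j => dem_comm E _ _)
    (fun i => hdd _) hsum
  refine ⟨D, h1, h2, h3, h4, fun i j k h => ?_, h6⟩
  have h7 : ∀ x y, dem E m x y ≠ 0 → s(x, y) ∈ E := by
    intro x y h
    by_contra h'
    exact h (by unfold dem; rw [if_neg h'])
  obtain ⟨a, b, c⟩ := h5 i j k h
  exact ⟨h7 _ _ a, h7 _ _ b, h7 _ _ c⟩

/-! ## The average -/

theorem exact_ord (E : Finset (Sym2 V)) (hE : NL E) [Nonempty V] (ε : ℝ) (hε : 0 < ε)
    (hε1 : ε ≤ 1) (hdeg : ∀ v, (3 / 4 + ε) * (Fintype.card V : ℝ) ≤ (deg E v : ℝ))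
    (hm : 2 ≤ m) (hm13 : 13 ≤ ε * (m : ℝ))
    (hmm : (m : ℝ) * Real.exp (-(ε ^ 2 * (m : ℝ) / 8)) ≤ 1 / (m : ℝ)) :
    ∃ W : V → V → V → ℝ, (∀ x y z, 0 ≤ W x y z) ∧
      (∀ x y z, W x y z ≤ 2 * (m : ℝ) / (Fintype.card V : ℝ)) ∧
      (∀ x y z, W x y z = W y x z) ∧ (∀ x y z, W x y z = W x z y) ∧
      (∀ x y z, W x y z ≠ 0 → s(x, y) ∈ E ∧ s(y, z) ∈ E ∧ s(x, z) ∈ E) ∧
      ∀ x y, s(x, y) ∈ E → ∑ z, W x y z = 1 := by
  classical
  have hm' : (2 : ℝ) ≤ m := by exact_mod_cast hm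
  have hn : (0 : ℝ) < (Fintype.card V : ℝ) := by exact_mod_cast Fintype.card_pos
  have hc : ∀ x y : V, (m - 1) * tot m (Fintype.card V) ≤ m * cnt E m x y :=
    le_cnt hm E ε hε hε1 hdeg hm13 hmm
  have hex : ∀ ψ : Fin m → V, ∃ D : Fin m → Fin m → Fin m → ℝ,
      (∀ i j k, 0 ≤ D i j k) ∧ (∀ i j k, D i j k ≤ 1) ∧
      (∀ i j k, D i j k = D j i k) ∧ (∀ i j k, D i j k = D i k j) ∧
      (∀ i j k, D i j k ≠ 0 → s(ψ i, ψ j) ∈ E ∧ s(ψ j, ψ k) ∈ E ∧ s(ψ i, ψ k) ∈ E) ∧
      (∀ i j, i ≠ j → ∑ k, D i j k = if GM E ψ then (dem E m (ψ i) (ψ j) : ℝ) else 0) := by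
    intro ψ
    by_cases h : GM E ψ
    · obtain ⟨D, h1, h2, h3, h4, h5, h6⟩ := exists_D hm E hE hc ψ h
      exact ⟨D, h1, h2, h3, h4, h5, fun i j hij => by rw [h6 i j hij, if_pos h]⟩
    · refine ⟨fun _ _ _ => 0, fun _ _ _ => le_rfl, fun _ _ _ => zero_le_one,
        fun _ _ _ => rfl, fun _ _ _ => rfl, fun _ _ _ h' => absurd rfl h', fun i j _ => ?_⟩
      rw [if_neg h]
      simp
  choose D D0 D1 s12 s23 Ds De using hex
  have hdiag : ∀ (v : V), s(v, v) ∉ E := fun v h => hE _ h (by simp)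
  have hD0 : ∀ ψ i k, D ψ i i k = 0 := by
    intro ψ i k
    by_contra h
    exact hdiag _ (Ds ψ i i k h).1
  have hD1 : ∀ ψ i j, D ψ i j i = 0 := by
    intro ψ i k
    by_contra h
    exact hdiag _ (Ds ψ i k i h).2.2
  have hD2 : ∀ ψ i j, D ψ i j j = 0 := by
    intro ψ i k
    by_contra h
    exact hdiag _ (Ds ψ i k k h).2.1
  have hq : (1 : ℝ) / 2 ≤ 1 - 1 / (m : ℝ) := by
    have : 1 / (m : ℝ) ≤ 1 / 2 := one_div_le_one_div_of_le (by norm_num) hm'
    linarith
  have hq0 : (0 : ℝ) < 1 - 1 / (m : ℝ) := by linarith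
  refine ⟨fun x y z => avgW D x y z / (1 - 1 / (m : ℝ)),
    fun x y z => div_nonneg (avgW_nonneg hm D D0 x y z) hq0.le, ?_, ?_, ?_, ?_, ?_⟩
  · intro x y z
    have h1 := avgW_le hm D hD0 hD1 hD2 D1 x y z
    show avgW D x y z / (1 - 1 / (m : ℝ)) ≤ _
    rw [div_le_iff₀ hq0]
    refine h1.trans ?_
    have h2 : 0 ≤ (m : ℝ) / (Fintype.card V : ℝ) := by positivity
    have h3 : 2 * (m : ℝ) / (Fintype.card V : ℝ) * (1 - 1 / (m : ℝ))
        = (m : ℝ) / (Fintype.card V : ℝ) * (2 * (1 - 1 / (m : ℝ))) := by ring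
    rw [h3]
    exact le_mul_of_one_le_right h2 (by linarith)
  · intro x y z
    show avgW D x y z / _ = avgW D y x z / _
    rw [avgW_symm12 D s12]
  · intro x y z
    show avgW D x y z / _ = avgW D x z y / _
    rw [avgW_symm23 D s23]
  · intro x y z h
    have h1 : avgW D x y z ≠ 0 := by
      intro h0
      apply h
      show avgW D x y z / _ = 0
      rw [h0, zero_div]
    obtain ⟨ψ, i, j, k, rfl, rfl, rfl, h2⟩ := avgW_supp D x y z h1
    exact Ds ψ i j k h2
  · intro x y hxy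
    show ∑ z, avgW D x y z / _ = 1
    rw [← Finset.sum_div, div_eq_one_iff_eq hq0.ne', sum_avgW D hD0]
    have hpos : 0 < (m : ℝ) * ((m : ℝ) - 1) := mul_pos (by linarith) (by linarith)
    rw [div_eq_iff hpos.ne']
    have h1 : ∀ q ∈ od m, Ex (prodW (pp q.1 q.2 x y)) (fun ψ => ∑ k, D ψ q.1 q.2 k)
        = Pr (prodW (pp q.1 q.2 x y)) (fun ψ => GM E ψ) * (dem E m x y : ℝ) := by
      rintro ⟨i, j⟩ hq
      have hij : i ≠ j := (Finset.mem_filter.1 hq).2
      simp only
      rw [pr_eq_ex, ← ex_mul_right]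
      unfold Ex
      refine Finset.sum_congr rfl fun ψ _ => ?_
      show prodW (pp i j x y) ψ * (∑ k, D ψ i j k)
        = prodW (pp i j x y) ψ * ((if GM E ψ then (1 : ℝ) else 0) * (dem E m x y : ℝ))
      rw [De ψ i j hij, prodW_pp i j hij]
      by_cases h3 : ψ i = x ∧ ψ j = y
      · rw [if_pos h3, h3.1, h3.2]
        congr 1
        by_cases h4 : GM E ψ
        · rw [if_pos h4, if_pos h4, one_mul]
        · rw [if_neg h4, if_neg h4, zero_mul]
      · rw [if_neg h3, zero_mul, zero_mul]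
    have h2 : ∑ q ∈ od m, Ex (prodW (pp q.1 q.2 x y)) (fun ψ => ∑ k, D ψ q.1 q.2 k)
        = (1 - 1 / (m : ℝ)) * ((m : ℝ) * ((m : ℝ) - 1)) := by
      rw [Finset.sum_congr rfl h1, ← Finset.sum_mul, ← cnt_mul]
      have h3 := (dem_bounds hm E x y (hc x y) hxy).2.2
      have h3' : (cnt E m x y : ℝ) ≠ 0 := by exact_mod_cast h3.ne'
      unfold dem
      rw [if_pos hxy]
      push_cast
      rw [← tot_mul (V := V) hm]
      field_simp
    exact h2

/-- the weight of an unordered triple -/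
theorem exists_tri (W : V → V → V → ℝ) (s12 : ∀ x y z, W x y z = W y x z)
    (s23 : ∀ x y z, W x y z = W x z y) :
    ∃ w : Tri V → ℝ, (∀ T : Tri V, ∃ x y z, x ≠ y ∧ x ≠ z ∧ y ≠ z ∧ T.1 = {x, y, z} ∧
        w T = W x y z) ∧
      ∀ (T : Tri V) (x y z : V), x ≠ y → x ≠ z → y ≠ z → T.1 = {x, y, z} → w T = W x y z := by
  have hex : ∀ T : Tri V, ∃ x y z, x ≠ y ∧ x ≠ z ∧ y ≠ z ∧ T.1 = {x, y, z} := by
    intro T
    obtain ⟨x, y, z, h1, h2, h3, h4⟩ := Finset.card_eq_three.1 T.2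
    exact ⟨x, y, z, h1, h2, h3, h4⟩
  choose a b c hab hac hbc habc using hex
  refine ⟨fun T => W (a T) (b T) (c T), fun T => ⟨a T, b T, c T, hab T, hac T, hbc T, habc T,
    rfl⟩, ?_⟩
  intro T x y z hxy hxz hyz hT
  have h0 := habc T
  have h1 := hab T
  have h2 := hac T
  have h3 := hbc T
  show W (a T) (b T) (c T) = W x y z
  revert h0 h1 h2 h3
  generalize a T = p
  generalize b T = q
  generalize c T = r
  intro h0 h1 h2 h3
  have hx : x ∈ ({p, q, r} : Finset V) := by rw [← h0, hT]; simp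
  have hy : y ∈ ({p, q, r} : Finset V) := by rw [← h0, hT]; simp
  have hz : z ∈ ({p, q, r} : Finset V) := by rw [← h0, hT]; simp
  simp only [Finset.mem_insert, Finset.mem_singleton] at hx hy hz
  rcases hx with rfl | rfl | rfl <;> rcases hy with rfl | rfl | rfl <;>
    rcases hz with rfl | rfl | rfl <;>
    first
    | rfl
    | exact absurd rfl hxy
    | exact absurd rfl hxz
    | exact absurd rfl hyz
    | exact s12 _ _ _
    | exact s23 _ _ _
    | exact (s12 _ _ _).trans (s23 _ _ _)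
    | exact (s23 _ _ _).trans (s12 _ _ _)
    | exact ((s12 _ _ _).trans (s23 _ _ _)).trans (s12 _ _ _)

end Avg

/-- **F10**: exact fractional triangle decompositions with weights `O(1/n)`. -/
theorem exact : ExactStatement := by
  intro ε hε
  obtain ⟨m, hm, hm13, hmm⟩ := exists_m' ε hε
  have hm' : (2 : ℝ) ≤ m := by exact_mod_cast hm
  refine ⟨2 * (m : ℝ), by linarith, 1, ?_⟩
  intro V _ _ E hE hn1 hdeg
  classical
  have hne : Nonempty V := Fintype.card_pos_iff.1 (by omega)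
  have hn : (0 : ℝ) < (Fintype.card V : ℝ) := by exact_mod_cast Fintype.card_pos
  have hε1 : ε ≤ 1 := by
    obtain ⟨v⟩ := hne
    have h1 := hdeg v
    have h2 : (deg E v : ℝ) ≤ (Fintype.card V : ℝ) := by
      exact_mod_cast Finset.card_le_univ (nbr E v)
    by_contra h3
    push Not at h3
    nlinarith
  obtain ⟨W, W0, W1, s12, s23, Ws, We⟩ := exact_ord (m := m) E hE ε hε hε1 hdeg hm hm13 hmm
  obtain ⟨w, h1, h2⟩ := exists_tri W s12 s23
  have hdiag : ∀ (v : V), s(v, v) ∉ E := fun v h => hE _ h (by simp)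
  refine ⟨w, ?_, ?_, ?_, ?_⟩
  · intro T
    obtain ⟨x, y, z, -, -, -, -, h⟩ := h1 T
    rw [h]
    exact W0 x y z
  · intro T
    obtain ⟨x, y, z, -, -, -, -, h⟩ := h1 T
    rw [h]
    exact W1 x y z
  · intro T hT
    obtain ⟨x, y, z, hxy, hxz, hyz, h, h'⟩ := h1 T
    rw [h'] at hT
    obtain ⟨a, b, c⟩ := Ws x y z hT.ne'
    rw [h, edg_triple hxy hyz hxz]
    intro e he
    rcases mem_tri.1 he with rfl | rfl | rfl
    · exact a
    · exact b
    · exact c
  · intro e he
    induction e using Sym2.ind with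
    | _ x y =>
      have hxy : x ≠ y := by
        rintro rfl
        exact hdiag x he
      rw [← We x y he]
      have hz : ∑ z, W x y z = ∑ z ∈ univ.filter (fun z => z ≠ x ∧ z ≠ y), W x y z := by
        rw [Finset.sum_filter]
        refine Finset.sum_congr rfl fun z _ => ?_
        by_cases h : z ≠ x ∧ z ≠ y
        · rw [if_pos h]
        · rw [if_neg h]
          by_contra h0
          obtain ⟨-, b, c⟩ := Ws x y z h0
          rcases not_and_or.1 h with h3 | h3
          · push Not at h3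
            rw [h3] at c
            exact hdiag _ c
          · push Not at h3
            rw [h3] at b
            exact hdiag _ b
      rw [hz]
      symm
      refine Finset.sum_bij (fun z hz => (⟨{x, y, z}, Finset.card_eq_three.2 ⟨x, y, z, hxy,
        (Finset.mem_filter.1 hz).2.1.symm, (Finset.mem_filter.1 hz).2.2.symm, rfl⟩⟩ : Tri V))
        ?_ ?_ ?_ ?_
      · intro z hz
        rw [Finset.mem_filter]
        refine ⟨Finset.mem_univ _, ?_⟩
        rw [mk_mem_edg]
        exact ⟨by simp, by simp, hxy⟩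
      · intro z hz z' hz' h
        have h3 := congrArg Subtype.val h
        simp only at h3
        have h4 : z ∈ ({x, y, z'} : Finset V) := by rw [← h3]; simp
        simp only [Finset.mem_insert, Finset.mem_singleton] at h4
        have h5 := (Finset.mem_filter.1 hz).2
        rcases h4 with h4 | h4 | h4
        · exact absurd h4 h5.1
        · exact absurd h4 h5.2
        · exact h4
      · intro T hT
        have h3 := (Finset.mem_filter.1 hT).2
        rw [mk_mem_edg] at h3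
        obtain ⟨hx, hy, -⟩ := h3
        have h4 : ((T.1.erase x).erase y).card = 1 := by
          rw [Finset.card_erase_of_mem (Finset.mem_erase.2 ⟨hxy.symm, hy⟩),
            Finset.card_erase_of_mem hx, T.2]
        obtain ⟨z, hz⟩ := Finset.card_eq_one.1 h4
        have h5 : z ∈ (T.1.erase x).erase y := by rw [hz]; simp
        have h6 : z ≠ y := Finset.ne_of_mem_erase h5
        have h7 : z ≠ x := Finset.ne_of_mem_erase (Finset.mem_of_mem_erase h5)
        refine ⟨z, Finset.mem_filter.2 ⟨Finset.mem_univ _, h7, h6⟩, ?_⟩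
        apply Subtype.ext
        show ({x, y, z} : Finset V) = T.1
        rw [← Finset.insert_erase hx, ← Finset.insert_erase (Finset.mem_erase.2 ⟨hxy.symm, hy⟩),
          hz]
      · intro z hz
        have h3 := (Finset.mem_filter.1 hz).2
        exact (h2 _ x y z hxy h3.1.symm h3.2.symm rfl).symm

end F1.Exact
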