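import Pool.Agent.F1.Statements

/-!
# Project F1: the final assembly

`F1.approxGirth`: the modules give `ApproxGirthStatement` (universal vertices);
`F1.ApproxGirthStatement.simpleGraph`: the form for simple graphs.
-/

set_option autoImplicit false
set_option linter.unusedSectionVars false

namespace F1

open Finset NWC

namespace FG

section Uni

variable {V : Type} [Fintype V] [DecidableEq V]

/-- `k` universal vertices added to the graph `E` -/
def uni (E : Finset (Sym2 V)) (k : ℕ) : Finset (Sym2 (V ⊕ Fin k)) :=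
  univ.filter (fun e => ¬ e.IsDiag ∧
    ((∃ x : Fin k, (Sum.inr x : V ⊕ Fin k) ∈ e) ∨ ∃ f ∈ E, e = f.map Sum.inl))

theorem nl_uni (E : Finset (Sym2 V)) (k : ℕ) : NW.NL (uni E k) :=
  fun _ he => (mem_filter.1 he).2.1

theorem inl_inl_mem {E : Finset (Sym2 V)} (hE : NW.NL E) {k : ℕ} {a b : V} :
    s((Sum.inl a : V ⊕ Fin k), Sum.inl b) ∈ uni E k ↔ s(a, b) ∈ E := by
  unfold uni
  rw [mem_filter]
  constructor
  · rintro ⟨_, _, h | ⟨f, hf, h⟩⟩
    · obtain ⟨x, hx⟩ := h
      simp at hx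
    · have h2 : (s(a, b) : Sym2 V).map (Sum.inl : V → V ⊕ Fin k) = f.map Sum.inl := by
        rw [← h]; rfl
      have h3 := Sym2.map.injective Sum.inl_injective h2
      rwa [h3]
  · intro h
    refine ⟨mem_univ _, ?_, Or.inr ⟨s(a, b), h, rfl⟩⟩
    have h1 := hE _ h
    simpa using h1

theorem inr_mem (E : Finset (Sym2 V)) {k : ℕ} {u : V ⊕ Fin k} {x : Fin k} (h : u ≠ Sum.inr x) :
    s(u, Sum.inr x) ∈ uni E k := by
  unfold uni
  rw [mem_filter]
  exact ⟨mem_univ _, by simpa using h, Or.inl ⟨x, by simp⟩⟩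

theorem deg_inl {E : Finset (Sym2 V)} (hE : NW.NL E) (k : ℕ) (v : V) :
    NW.deg E v + k ≤ NW.deg (uni E k) (Sum.inl v) := by
  have h : (NW.nbr E v).disjSum (univ : Finset (Fin k)) ⊆ NW.nbr (uni E k) (Sum.inl v) := by
    intro u hu
    rw [NW.mem_nbr]
    rcases u with u | x
    · rw [inl_inl_mem hE]
      simpa using hu
    · exact inr_mem E (by simp)
  have h2 := card_le_card h
  rw [card_disjSum, card_univ, Fintype.card_fin] at h2
  exact h2

theorem deg_inr (E : Finset (Sym2 V)) {k : ℕ} (x : Fin k) :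
    Fintype.card V + k - 1 ≤ NW.deg (uni E k) (Sum.inr x) := by
  have h : (univ : Finset (V ⊕ Fin k)).erase (Sum.inr x) ⊆ NW.nbr (uni E k) (Sum.inr x) := by
    intro u hu
    rw [NW.mem_nbr, Sym2.eq_swap]
    exact inr_mem E (mem_erase.1 hu).1
  have h2 := card_le_card h
  rw [card_erase_of_mem (mem_univ _), card_univ, Fintype.card_sum, Fintype.card_fin] at h2
  exact h2

/-- the triangles of `M` inside `V` -/
def down {k : ℕ} (M : Finset (Tri (V ⊕ Fin k))) : Finset (Finset V) :=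
  univ.filter (fun t => ∃ T ∈ M, T.1 = t.map Function.Embedding.inl)

theorem mem_down {k : ℕ} {M : Finset (Tri (V ⊕ Fin k))} {t : Finset V} :
    t ∈ down M ↔ ∃ T ∈ M, T.1 = t.map Function.Embedding.inl := by
  simp [down]

theorem mk_mem_edg_map {k : ℕ} {t : Finset V} {a b : V} :
    s((Sum.inl a : V ⊕ Fin k), Sum.inl b) ∈ NW.edg (t.map Function.Embedding.inl) ↔
      s(a, b) ∈ NW.edg t := by
  rw [NW.mk_mem_edg, NW.mk_mem_edg]
  simp

theorem pack_down {E : Finset (Sym2 V)} (hE : NW.NL E) {k : ℕ} {M : Finset (Tri (V ⊕ Fin k))}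
    (h1 : ∀ T ∈ M, NW.edg T.1 ⊆ uni E k)
    (h2 : ∀ T ∈ M, ∀ T' ∈ M, T ≠ T' → Disjoint (NW.edg T.1) (NW.edg T'.1)) :
    NW.IsPack (down M) E := by
  refine ⟨?_, ?_⟩
  · intro t ht
    obtain ⟨T, hT, hTt⟩ := mem_down.1 ht
    refine ⟨?_, ?_⟩
    · have := T.2
      rw [hTt, card_map] at this
      exact this
    · intro e he
      induction e using Sym2.ind with
      | _ a b =>
        rw [← inl_inl_mem hE (k := k)]
        apply h1 T hT
        rw [hTt]
        exact mk_mem_edg_map.2 he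
  · intro t ht t' ht' hne
    obtain ⟨T, hT, hTt⟩ := mem_down.1 ht
    obtain ⟨T', hT', hTt'⟩ := mem_down.1 ht'
    have hTT : T ≠ T' := by
      rintro rfl
      exact hne (map_injective _ (hTt.symm.trans hTt'))
    rw [disjoint_left]
    intro e he he'
    induction e using Sym2.ind with
    | _ a b =>
      have m1 : s((Sum.inl a : V ⊕ Fin k), Sum.inl b) ∈ NW.edg T.1 := by
        rw [hTt]; exact mk_mem_edg_map.2 he
      have m2 : s((Sum.inl a : V ⊕ Fin k), Sum.inl b) ∈ NW.edg T'.1 := by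
        rw [hTt']; exact mk_mem_edg_map.2 he'
      exact disjoint_left.1 (h2 T hT T' hT' hTT) m1 m2

theorem card_down_le {k : ℕ} (M : Finset (Tri (V ⊕ Fin k))) (U : Finset V) :
    ((down M).filter (fun t => t ⊆ U)).card
      ≤ (M.filter (fun T => T.1 ⊆ U.map Function.Embedding.inl)).card := by
  classical
  have h : ∀ t ∈ (down M).filter (fun t => t ⊆ U), ∃ T ∈ M.filter
      (fun T => T.1 ⊆ U.map Function.Embedding.inl), T.1 = t.map Function.Embedding.inl := by
    intro t ht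
    rw [mem_filter] at ht
    obtain ⟨T, hT, hTt⟩ := mem_down.1 ht.1
    refine ⟨T, mem_filter.2 ⟨hT, ?_⟩, hTt⟩
    rw [hTt]
    exact map_subset_map.2 ht.2
  rcases ((down M).filter (fun t => t ⊆ U)).eq_empty_or_nonempty with h0 | ⟨t0, ht0⟩
  · rw [h0]; simp
  haveI : Nonempty (Tri (V ⊕ Fin k)) := ⟨(h t0 ht0).choose⟩
  choose! f hf1 hf2 using h
  refine card_le_card_of_injOn f hf1 ?_
  intro t ht t' ht' htt
  have h3 := hf2 t ht
  have h4 := hf2 t' ht'
  rw [htt] at h3
  exact map_injective _ (h3.symm.trans h4)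

/-- edges of `E` that are covered by a triangle with a new vertex -/
theorem card_new_le {E : Finset (Sym2 V)} {k : ℕ} {M : Finset (Tri (V ⊕ Fin k))}
    (h2 : ∀ T ∈ M, ∀ T' ∈ M, T ≠ T' → Disjoint (NW.edg T.1) (NW.edg T'.1)) :
    (E.filter (fun e => ∃ T ∈ M, e.map Sum.inl ∈ NW.edg T.1 ∧ ∃ x : Fin k, Sum.inr x ∈ T.1)).card
      ≤ Fintype.card V * k := by
  classical
  have key : ∀ e ∈ E.filter (fun e => ∃ T ∈ M, e.map Sum.inl ∈ NW.edg T.1 ∧
      ∃ x : Fin k, Sum.inr x ∈ T.1), ∃ p : V × Fin k, ∃ T ∈ M, ∃ b : V, e = s(p.1, b) ∧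
        T.1 = {Sum.inl p.1, Sum.inl b, Sum.inr p.2} ∧ p.1 ≠ b := by
    intro e he
    rw [mem_filter] at he
    obtain ⟨_, T, hT, heT, x, hx⟩ := he
    induction e using Sym2.ind with
    | _ a b =>
      have heT' : s((Sum.inl a : V ⊕ Fin k), Sum.inl b) ∈ NW.edg T.1 := heT
      rw [NW.mk_mem_edg] at heT'
      obtain ⟨ha, hb, hab⟩ := heT'
      have hab' : a ≠ b := fun h => hab (by rw [h])
      refine ⟨(a, x), T, hT, b, rfl, ?_, hab'⟩
      symm
      apply eq_of_subset_of_card_le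
      · intro y hy
        simp only [mem_insert, mem_singleton] at hy
        rcases hy with rfl | rfl | rfl
        · exact ha
        · exact hb
        · exact hx
      · rw [T.2]
        have : ({Sum.inl a, Sum.inl b, Sum.inr x} : Finset (V ⊕ Fin k)).card = 3 := by
          rw [card_eq_three]
          exact ⟨Sum.inl a, Sum.inl b, Sum.inr x, hab, by simp, by simp, rfl⟩
        rw [this]
  rcases (E.filter (fun e => ∃ T ∈ M, e.map Sum.inl ∈ NW.edg T.1 ∧
      ∃ x : Fin k, Sum.inr x ∈ T.1)).eq_empty_or_nonempty with h0 | ⟨e0, he0⟩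
  · rw [h0]; simp
  haveI : Nonempty (V × Fin k) := ⟨(key e0 he0).choose⟩
  choose! f hf using key
  have hcard : (univ : Finset (V × Fin k)).card = Fintype.card V * k := by
    rw [card_univ, Fintype.card_prod, Fintype.card_fin]
  rw [← hcard]
  refine card_le_card_of_injOn f (fun _ _ => mem_univ _) ?_
  intro e he e' he' hee
  obtain ⟨T, hT, b, rfl1, hTe, hne⟩ := hf e he
  obtain ⟨T', hT', b', rfl2, hTe', hne'⟩ := hf e' he'
  rw [hee] at rfl1 hTe hne
  have hTT : T = T' := by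
    by_contra h
    have m1 : s((Sum.inl (f e').1 : V ⊕ Fin k), Sum.inr (f e').2) ∈ NW.edg T.1 := by
      rw [NW.mk_mem_edg, hTe]; simp
    have m2 : s((Sum.inl (f e').1 : V ⊕ Fin k), Sum.inr (f e').2) ∈ NW.edg T'.1 := by
      rw [NW.mk_mem_edg, hTe']; simp
    exact disjoint_left.1 (h2 T hT T' hT' h) m1 m2
  have hb : (Sum.inl b : V ⊕ Fin k) ∈ T'.1 := by
    rw [← hTT, hTe]; simp
  rw [hTe'] at hb
  simp only [mem_insert, mem_singleton, Sum.inl.injEq, reduceCtorEq, or_false] at hb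
  rcases hb with hb | hb
  · exact absurd hb.symm hne
  · refine rfl1.trans ?_
    rw [hb]
    exact rfl2.symm

theorem leftover_le {E : Finset (Sym2 V)} (hE : NW.NL E) {k : ℕ}
    {M : Finset (Tri (V ⊕ Fin k))} {J : ℕ}
    (h2 : ∀ T ∈ M, ∀ T' ∈ M, T ≠ T' → Disjoint (NW.edg T.1) (NW.edg T'.1)) :
    (E \ (down M).biUnion NW.edg).card
      ≤ (uni E k \ (triSys (V ⊕ Fin k) J).cov M).card + Fintype.card V * k := by
  classical
  have hsub : E \ (down M).biUnion NW.edg ⊆
      (E.filter (fun e => e.map Sum.inl ∈ uni E k \ (triSys (V ⊕ Fin k) J).cov M)) ∪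
      (E.filter (fun e => ∃ T ∈ M, e.map Sum.inl ∈ NW.edg T.1 ∧
        ∃ x : Fin k, Sum.inr x ∈ T.1)) := by
    intro e he
    rw [mem_sdiff] at he
    rw [mem_union, mem_filter, mem_filter]
    by_cases hc : e.map Sum.inl ∈ (triSys (V ⊕ Fin k) J).cov M
    · right
      refine ⟨he.1, ?_⟩
      unfold Sys.cov at hc
      rw [mem_biUnion] at hc
      obtain ⟨T, hT, heT⟩ := hc
      have heT' : e.map Sum.inl ∈ NW.edg T.1 := heT
      refine ⟨T, hT, heT', ?_⟩
      by_contra hno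
      push Not at hno
      apply he.2
      rw [mem_biUnion]
      -- T is inside V
      have hT' : T.1 = (univ.filter (fun v : V => Sum.inl v ∈ T.1)).map
          Function.Embedding.inl := by
        ext y
        rw [mem_map]
        constructor
        · intro hy
          rcases y with v | x
          · exact ⟨v, by simpa using hy, rfl⟩
          · exact absurd hy (hno x)
        · rintro ⟨v, hv, rfl⟩
          simpa using hv
      refine ⟨univ.filter (fun v : V => Sum.inl v ∈ T.1), mem_down.2 ⟨T, hT, hT'⟩, ?_⟩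
      induction e using Sym2.ind with
      | _ a b =>
        rw [← mk_mem_edg_map (k := k), ← hT']
        exact heT'
    · left
      refine ⟨he.1, ?_⟩
      rw [mem_sdiff]
      refine ⟨?_, hc⟩
      obtain ⟨h1, _⟩ := he
      induction e using Sym2.ind with
      | _ a b => exact (inl_inl_mem hE).2 h1
  refine (card_le_card hsub).trans ((card_union_le _ _).trans (add_le_add ?_ (card_new_le h2)))
  refine card_le_card_of_injOn (fun e => e.map Sum.inl) ?_ ?_
  · intro e he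
    exact (mem_filter.1 he).2
  · intro e _ e' _ h
    exact Sym2.map.injective Sum.inl_injective h

end Uni

end FG

open FG

/-- the final assembly: universal vertices -/
theorem approxGirth (hM : MatchStatement) (hG : GoodStatement) (hC : CountStatement)
    (hGi : GirthStatement) (hE : ExactStatement) : ApproxGirthStatement := by
  intro g γ hγ
  set γ' : ℝ := min γ 1 with hγ'
  have hγ0 : 0 < γ' := lt_min hγ one_pos
  have hγ1 : γ' ≤ 1 := min_le_right _ _
  have hγγ : γ' ≤ γ := min_le_left _ _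
  set κ : ℝ := γ' / 2 with hκ
  have hκ0 : 0 < κ := by positivity
  have hκ1 : κ ≤ 1 / 2 := by rw [hκ]; linarith
  obtain ⟨K, hK, n₁, hEx⟩ := hE (κ / 16) (by positivity)
  obtain ⟨K', hK', hCt⟩ := hC (g + 1) K hK
  obtain ⟨ε₀, hε₀, hMt⟩ := hM (g + 1) K' (γ' / 8) hK' (by positivity)
  refine ⟨κ / 16, by positivity, n₁ + ⌈4 / κ⌉₊ + 16 + ⌈K / ε₀⌉₊ + ⌈K' / ε₀⌉₊, ?_⟩
  intro V _ _ E hNL hn hdeg
  set n : ℕ := Fintype.card V with hnV
  set k : ℕ := ⌊κ * n⌋₊ with hk
  have hn1 : n₁ ≤ n := by omega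
  have hn2 : 4 / κ ≤ n := by
    have h1 : (⌈4 / κ⌉₊ : ℝ) ≤ n := by exact_mod_cast (by omega : ⌈4 / κ⌉₊ ≤ n)
    exact (Nat.le_ceil _).trans h1
  have hn3 : (16 : ℝ) ≤ n := by exact_mod_cast (by omega : 16 ≤ n)
  have hn4 : K / ε₀ ≤ n := by
    have h1 : (⌈K / ε₀⌉₊ : ℝ) ≤ n := by exact_mod_cast (by omega : ⌈K / ε₀⌉₊ ≤ n)
    exact (Nat.le_ceil _).trans h1
  have hn5 : K' / ε₀ ≤ n := by
    have h1 : (⌈K' / ε₀⌉₊ : ℝ) ≤ n := by exact_mod_cast (by omega : ⌈K' / ε₀⌉₊ ≤ n)
    exact (Nat.le_ceil _).trans h1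
  have hk1 : (k : ℝ) ≤ κ * n := Nat.floor_le (by positivity)
  have hk2 : κ * n - 1 < k := Nat.sub_one_lt_floor _
  have h4κ : 4 ≤ κ * n := by
    rw [div_le_iff₀ hκ0] at hn2
    linarith
  have hcard : Fintype.card (V ⊕ Fin k) = n + k := by
    rw [Fintype.card_sum, Fintype.card_fin]
  have hcardR : ((Fintype.card (V ⊕ Fin k) : ℕ) : ℝ) = (n : ℝ) + k := by
    rw [hcard]; push_cast; ring
  have hk0 : (0 : ℝ) ≤ k := Nat.cast_nonneg _
  have hdeg' : ∀ v, (3 / 4 + κ / 16) * ((Fintype.card (V ⊕ Fin k) : ℕ) : ℝ)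
      ≤ (NW.deg (uni E k) v : ℝ) := by
    intro v
    rw [hcardR]
    rcases v with v | x
    · have h1 : ((NW.deg E v : ℕ) : ℝ) + k ≤ (NW.deg (uni E k) (Sum.inl v) : ℝ) := by
        exact_mod_cast deg_inl hNL k v
      have h2 := hdeg v
      refine le_trans ?_ h1
      nlinarith [mul_nonneg hκ0.le hk0, mul_le_mul_of_nonneg_left hk1 hκ0.le,
        mul_le_mul_of_nonneg_right hκ1 (by positivity : (0 : ℝ) ≤ κ * n)]
    · have h1 := deg_inr E x
      have h1' : (n : ℝ) + k - 1 ≤ (NW.deg (uni E k) (Sum.inr x) : ℝ) := by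
        have h2 : n + k ≤ NW.deg (uni E k) (Sum.inr x) + 1 := by omega
        have h3 : ((n + k : ℕ) : ℝ) ≤ ((NW.deg (uni E k) (Sum.inr x) + 1 : ℕ) : ℝ) := by
          exact_mod_cast h2
        push_cast at h3
        linarith
      refine le_trans ?_ h1'
      nlinarith [mul_le_mul_of_nonneg_right hκ1 (by positivity : (0 : ℝ) ≤ (n : ℝ) + k)]
  obtain ⟨w, hw0, hwK, hwE, hw1⟩ := hEx (V ⊕ Fin k) (uni E k) (nl_uni E k)
    (by rw [hcard]; omega) hdeg'
  have hNpos : (0 : ℝ) < (n : ℝ) + k := by linarith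
  obtain ⟨hc1, hc2⟩ := hCt (V ⊕ Fin k) w (by rw [hcard]; omega) hw0 hwK
  rw [hcardR] at hc1 hc2
  have hW : ∀ e ∈ uni E k, (triSys (V ⊕ Fin k) (g + 1)).W w e = 1 := fun e he => hw1 e he
  obtain ⟨M, hM1, hM2, hM3, hM4⟩ := hMt (Sym2 (V ⊕ Fin k)) (Tri (V ⊕ Fin k))
    (triSys (V ⊕ Fin k) (g + 1)) (hG (V ⊕ Fin k) (g + 1) (by omega)) (uni E k) w
    (((n : ℝ) + k) ^ 2)
    (by
      have h1 : (uni E k).card ≤ (Fintype.card (V ⊕ Fin k)) ^ 2 := by
        refine (card_le_univ _).trans ?_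
        rw [Sym2.card]
        have h2 : (Fintype.card (V ⊕ Fin k) + 1).choose 2 ≤ (Fintype.card (V ⊕ Fin k)) ^ 2 := by
          set m := Fintype.card (V ⊕ Fin k)
          rw [Nat.choose_two_right]
          have : (m + 1) * (m + 1 - 1) ≤ 2 * m ^ 2 ∨ m = 0 := by
            rcases Nat.eq_zero_or_pos m with h | h
            · exact Or.inr h
            · left
              simp only [Nat.add_sub_cancel]
              nlinarith
          rcases this with h | h
          · omega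
          · simp [h]
        exact h2
      have h3 : ((uni E k).card : ℝ) ≤ ((Fintype.card (V ⊕ Fin k) : ℕ) : ℝ) ^ 2 := by
        exact_mod_cast h1
      rwa [hcardR] at h3)
    hw0
    (by
      intro T
      refine (hwK T).trans ?_
      rw [hcardR, div_le_iff₀ hNpos]
      rw [div_le_iff₀ hε₀] at hn4
      nlinarith)
    hwE
    (by
      intro e
      by_cases he : e ∈ uni E k
      · exact (hW e he).le
      · have : (triSys (V ⊕ Fin k) (g + 1)).W w e = 0 := by
          unfold Sys.W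
          refine sum_eq_zero fun T hT => ?_
          rcases (hw0 T).eq_or_lt with h | h
          · exact h.symm
          · exact absurd (hwE T h (mem_filter.1 hT).2) he
        rw [this]
        exact zero_le_one)
    hc1
    (by
      refine hc2.trans ?_
      rw [div_le_iff₀ hε₀] at hn5
      have h8 : K' ≤ ε₀ * ((n : ℝ) + k) := by nlinarith [mul_nonneg hε₀.le hk0]
      calc K' * ((n : ℝ) + k) ≤ ε₀ * ((n : ℝ) + k) * ((n : ℝ) + k) :=
            mul_le_mul_of_nonneg_right h8 hNpos.le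
        _ = ε₀ * ((n : ℝ) + k) ^ 2 := by ring)
  have hzero : ∑ e ∈ uni E k, (1 - (triSys (V ⊕ Fin k) (g + 1)).W w e) = 0 :=
    sum_eq_zero fun e he => by rw [hW e he, sub_self]
  rw [hzero, zero_add] at hM4
  have hM1' : ∀ T ∈ M, NW.edg T.1 ⊆ uni E k := hM1
  have hM2' : ∀ T ∈ M, ∀ T' ∈ M, T ≠ T' → Disjoint (NW.edg T.1) (NW.edg T'.1) := hM2
  refine ⟨down M, pack_down hNL hM1' hM2', ?_, ?_⟩
  · intro U hU1 hU2
    have h1 := hGi (V ⊕ Fin k) (g + 1) M hM2' hM3 (U.map Function.Embedding.inl)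
      (by rwa [card_map]) (by rw [card_map]; omega)
    rw [card_map] at h1
    have h2 := card_down_le M U
    omega
  · have h1 := leftover_le hNL (J := g + 1) hM2'
    have h2 : ((E \ (down M).biUnion NW.edg).card : ℝ) ≤
        ((uni E k \ (triSys (V ⊕ Fin k) (g + 1)).cov M).card : ℝ) + (n : ℝ) * k := by
      exact_mod_cast h1
    have h3 : (k : ℝ) ≤ n := by nlinarith
    have h4 : ((n : ℝ) + k) ^ 2 ≤ 4 * (n : ℝ) ^ 2 := by nlinarith
    have h5 : (n : ℝ) * k ≤ γ' / 2 * (n : ℝ) ^ 2 := by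
      have : (n : ℝ) * k ≤ n * (κ * n) := mul_le_mul_of_nonneg_left hk1 (by positivity)
      calc (n : ℝ) * k ≤ n * (κ * n) := this
        _ = γ' / 2 * (n : ℝ) ^ 2 := by rw [hκ]; ring
    have h6 : γ' / 8 * ((n : ℝ) + k) ^ 2 ≤ γ' / 2 * (n : ℝ) ^ 2 := by
      calc γ' / 8 * ((n : ℝ) + k) ^ 2 ≤ γ' / 8 * (4 * (n : ℝ) ^ 2) :=
            mul_le_mul_of_nonneg_left h4 (by positivity)
        _ = γ' / 2 * (n : ℝ) ^ 2 := by ring
    have h7 : γ' * (n : ℝ) ^ 2 ≤ γ * (n : ℝ) ^ 2 :=
      mul_le_mul_of_nonneg_right hγγ (by positivity)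
    linarith

theorem card_edg {V : Type} [DecidableEq V] {t : Finset V} (ht : t.card = 3) :
    (NW.edg t).card = 3 := by
  obtain ⟨a, b, c, hab, hac, hbc, rfl⟩ := card_eq_three.1 ht
  rw [NW.edg_triple hab hbc hac]
  exact NW.card_tri hab hbc hac

theorem card_sym2_le (V : Type) [Fintype V] [DecidableEq V] (E : Finset (Sym2 V)) :
    (E.card : ℝ) ≤ (Fintype.card V : ℝ) ^ 2 := by
  have h1 : E.card ≤ (Fintype.card V) ^ 2 := by
    refine (card_le_univ _).trans ?_
    rw [Sym2.card]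
    set m := Fintype.card V
    rw [Nat.choose_two_right]
    have : (m + 1) * (m + 1 - 1) ≤ 2 * m ^ 2 ∨ m = 0 := by
      rcases Nat.eq_zero_or_pos m with h | h
      · exact Or.inr h
      · left
        simp only [Nat.add_sub_cancel]
        nlinarith
    rcases this with h | h
    · omega
    · simp [h]
  exact_mod_cast h1

/-- high girth packings in arbitrary hosts -/
theorem hostGirth (hM : MatchStatement) (hG : GoodStatement) (hC : CountStatement)
    (hGi : GirthStatement) (hB : BoundedStatement) : HostStatement := by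
  intro g γ hγ
  obtain ⟨K, hK, n₁, hBd⟩ := hB (γ / 2) (by positivity)
  obtain ⟨K', hK', hCt⟩ := hC (g + 1) K hK
  obtain ⟨ε₀, hε₀, hMt⟩ := hM (g + 1) K' γ hK' hγ
  refine ⟨n₁ + 1 + ⌈K / ε₀⌉₊ + ⌈K' / ε₀⌉₊, ?_⟩
  intro V _ _ E hNL hn w hw0 hwE hw1
  set n : ℕ := Fintype.card V with hnV
  have hn1 : n₁ ≤ n := by omega
  have hn3 : (1 : ℝ) ≤ n := by exact_mod_cast (by omega : 1 ≤ n)
  have hn4 : K / ε₀ ≤ n := by
    have h1 : (⌈K / ε₀⌉₊ : ℝ) ≤ n := by exact_mod_cast (by omega : ⌈K / ε₀⌉₊ ≤ n)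
    exact (Nat.le_ceil _).trans h1
  have hn5 : K' / ε₀ ≤ n := by
    have h1 : (⌈K' / ε₀⌉₊ : ℝ) ≤ n := by exact_mod_cast (by omega : ⌈K' / ε₀⌉₊ ≤ n)
    exact (Nat.le_ceil _).trans h1
  have hnpos : (0 : ℝ) < n := by linarith
  obtain ⟨w', hw0', hwK', hwE', hw1', hsum⟩ := hBd V E hNL hn1 w hw0 hwE hw1
  obtain ⟨hc1, hc2⟩ := hCt V w' (by omega) hw0' hwK'
  obtain ⟨M, hM1, hM2, hM3, hM4⟩ := hMt (Sym2 V) (Tri V) (triSys V (g + 1))
    (hG V (g + 1) (by omega)) E w' ((n : ℝ) ^ 2) (card_sym2_le V E) hw0'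
    (by
      intro T
      refine (hwK' T).trans ?_
      rw [div_le_iff₀ hnpos]
      rw [div_le_iff₀ hε₀] at hn4
      linarith)
    hwE' hw1' hc1
    (by
      refine hc2.trans ?_
      rw [div_le_iff₀ hε₀] at hn5
      calc K' * (n : ℝ) ≤ (n : ℝ) * ε₀ * n := mul_le_mul_of_nonneg_right hn5 hnpos.le
        _ = ε₀ * (n : ℝ) ^ 2 := by ring)
  have hM1' : ∀ T ∈ M, NW.edg T.1 ⊆ E := hM1
  have hM2' : ∀ T ∈ M, ∀ T' ∈ M, T ≠ T' → Disjoint (NW.edg T.1) (NW.edg T'.1) := hM2
  have hcov : (triSys V (g + 1)).cov M = M.biUnion (fun T => NW.edg T.1) := rfl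
  have hcovE : (triSys V (g + 1)).cov M ⊆ E := by
    rw [hcov]
    exact biUnion_subset.2 hM1'
  have hcovc : ((triSys V (g + 1)).cov M).card = 3 * M.card := by
    rw [hcov, card_biUnion hM2', sum_congr rfl (fun T _ => card_edg T.2), sum_const,
      smul_eq_mul, mul_comm]
  refine ⟨M.image Subtype.val, ⟨?_, ?_⟩, ?_, ?_⟩
  · intro t ht
    obtain ⟨T, hT, rfl⟩ := mem_image.1 ht
    exact ⟨T.2, hM1' T hT⟩
  · intro t ht t' ht' hne
    obtain ⟨T, hT, rfl⟩ := mem_image.1 ht
    obtain ⟨T', hT', rfl⟩ := mem_image.1 ht'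
    exact hM2' T hT T' hT' (fun h => hne (by rw [h]))
  · intro U hU1 hU2
    have h1 := hGi V (g + 1) M hM2' hM3 U hU1 (by omega)
    have h2 : ((M.image Subtype.val).filter (fun t => t ⊆ U)).card
        ≤ (M.filter (fun T => T.1 ⊆ U)).card := by
      have : (M.image Subtype.val).filter (fun t => t ⊆ U)
          ⊆ (M.filter (fun T => T.1 ⊆ U)).image Subtype.val := by
        intro t ht
        rw [mem_filter, mem_image] at ht
        obtain ⟨⟨T, hT, rfl⟩, hTU⟩ := ht
        exact mem_image.2 ⟨T, mem_filter.2 ⟨hT, hTU⟩, rfl⟩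
      exact (card_le_card this).trans card_image_le
    omega
  · have hcM : (M.image Subtype.val).card = M.card :=
      card_image_of_injective _ Subtype.val_injective
    rw [hcM]
    have hW : ∑ e ∈ E, (triSys V (g + 1)).W w' e = 3 * ∑ T, w' T := by
      have h1 : ∀ e, (triSys V (g + 1)).W w' e = ∑ T, if e ∈ NW.edg T.1 then w' T else 0 := by
        intro e
        unfold Sys.W Sys.star
        rw [sum_filter]
        rfl
      rw [sum_congr rfl (fun e _ => h1 e), sum_comm, mul_sum]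
      refine sum_congr rfl fun T _ => ?_
      rcases (hw0' T).eq_or_lt with h | h
      · rw [← h]; simp
      · rw [← sum_filter, sum_const, nsmul_eq_mul]
        have h2 : E.filter (fun e => e ∈ NW.edg T.1) = NW.edg T.1 := by
          ext e
          rw [mem_filter]
          exact ⟨fun h3 => h3.2, fun h3 => ⟨hwE' T h h3, h3⟩⟩
        rw [h2, card_edg T.2]
        norm_num
    have h1 : ((E \ (triSys V (g + 1)).cov M).card : ℝ) = (E.card : ℝ) - 3 * (M.card : ℝ) := by
      rw [card_sdiff_of_subset hcovE, Nat.cast_sub (card_le_card hcovE), hcovc]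
      push_cast
      ring
    have h2 : ∑ e ∈ E, (1 - (triSys V (g + 1)).W w' e) = (E.card : ℝ) - 3 * ∑ T, w' T := by
      rw [sum_sub_distrib, hW, sum_const, nsmul_eq_mul, mul_one]
    rw [h1, h2] at hM4
    have h3 : (0 : ℝ) ≤ γ * (n : ℝ) ^ 2 := by positivity
    linarith

/-- the form for simple graphs on `Fin n`: `w` is a fractional triangle packing of `G`, `T` a
set of edge-disjoint triangles of girth at least `g` -/
theorem HostStatement.simpleGraph (h : HostStatement) (g : ℕ) (γ : ℝ) (hγ : 0 < γ) :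
    ∃ n₀ : ℕ, ∀ n : ℕ, n₀ ≤ n → ∀ (G : SimpleGraph (Fin n)) [DecidableRel G.Adj],
      ∃ T : Finset (Finset (Fin n)),
        (∀ t ∈ T, G.IsNClique 3 t) ∧
        (∀ u v, G.Adj u v → ∀ t ∈ T, ∀ t' ∈ T, u ∈ t → v ∈ t → u ∈ t' → v ∈ t' → t = t') ∧
        (∀ S : Finset (Fin n), 4 ≤ S.card → S.card < g →
          (T.filter (fun t => t ⊆ S)).card + 2 < S.card) ∧
        ∀ w : Finset (Fin n) → ℝ, (∀ t, 0 ≤ w t) →
          (∀ u v, G.Adj u v →
            ∑ t ∈ (G.cliqueFinset 3).filter (fun t => u ∈ t ∧ v ∈ t), w t ≤ 1) →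
          ∑ t ∈ G.cliqueFinset 3, w t ≤ (T.card : ℝ) + γ * (n : ℝ) ^ 2 := by
  classical
  obtain ⟨n₀, h1⟩ := h g γ hγ
  refine ⟨n₀, fun n hn G _ => ?_⟩
  -- a largest packing of high girth
  let P : Finset (Finset (Fin n)) → Prop := fun T =>
    NW.IsPack T G.edgeFinset ∧ ∀ S : Finset (Fin n), 4 ≤ S.card → S.card < g →
      (T.filter (fun t => t ⊆ S)).card + 2 < S.card
  have hP0 : P ∅ := ⟨⟨by simp, by simp⟩, fun S hS _ => by simp; omega⟩
  obtain ⟨T, hT, hmax⟩ := exists_max_image (univ.filter P) card ⟨∅, by simpa using hP0⟩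
  rw [mem_filter] at hT
  obtain ⟨-, hTp, hTg⟩ := hT
  refine ⟨T, ?_, ?_, hTg, ?_⟩
  · intro t ht
    obtain ⟨hc, hs⟩ := hTp.1 t ht
    refine ⟨?_, hc⟩
    intro a ha b hb hab
    have : s(a, b) ∈ G.edgeFinset := hs (NW.mk_mem_edg.2 ⟨ha, hb, hab⟩)
    simpa using this
  · intro u v huv t ht t' ht' hu hv hu' hv'
    by_contra hne
    exact disjoint_left.1 (hTp.2 t ht t' ht' hne)
      (NW.mk_mem_edg.2 ⟨hu, hv, huv.ne⟩) (NW.mk_mem_edg.2 ⟨hu', hv', huv.ne⟩)
  · intro w hw0 hw1
    let f : Finset (Fin n) → ℝ := fun t => if G.IsNClique 3 t then w t else 0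
    have hf0 : ∀ t, 0 ≤ f t := fun t => by
      show 0 ≤ (if G.IsNClique 3 t then w t else 0)
      split_ifs
      · exact hw0 t
      · exact le_rfl
    have hsub : ∀ F : Finset (Fin n) → ℝ, ∑ S : Tri (Fin n), F S.1
        = ∑ t ∈ univ.filter (fun t : Finset (Fin n) => t.card = 3), F t := fun F =>
      (sum_subtype (univ.filter (fun t : Finset (Fin n) => t.card = 3))
        (fun t => by simp) F).symm
    have hcl : ∀ (Q : Finset (Fin n) → Prop) [DecidablePred Q],
        ∑ t ∈ univ.filter (fun t : Finset (Fin n) => t.card = 3), (if Q t then f t else 0)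
          = ∑ t ∈ (G.cliqueFinset 3).filter Q, w t := by
      intro Q _
      have e1 : ∀ t, (if Q t then f t else 0) = if (G.IsNClique 3 t ∧ Q t) then w t else 0 := by
        intro t
        show (if Q t then (if G.IsNClique 3 t then w t else 0) else 0) = _
        by_cases h2 : Q t <;> by_cases h3 : G.IsNClique 3 t <;> simp [h2, h3]
      rw [sum_congr rfl (fun t _ => e1 t), ← sum_filter, filter_filter]
      refine sum_congr ?_ (fun _ _ => rfl)
      ext t
      rw [mem_filter, mem_filter, SimpleGraph.mem_cliqueFinset_iff]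
      constructor
      · rintro ⟨_, _, h3⟩; exact h3
      · intro h3; exact ⟨mem_univ _, h3.1.2, h3⟩
    obtain ⟨T', hT'1, hT'2, hT'3⟩ := h1 (Fin n) G.edgeFinset
      (fun e he => by
        rw [SimpleGraph.mem_edgeFinset] at he
        exact G.not_isDiag_of_mem_edgeSet he)
      (by rwa [Fintype.card_fin]) (fun S => f S.1) (fun S => hf0 S.1)
      (by
        intro S hS e he
        have hq : G.IsNClique 3 S.1 := by
          by_contra h3
          have : f S.1 = 0 := if_neg h3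
          rw [this] at hS
          exact lt_irrefl _ hS
        induction e using Sym2.ind with
        | _ a b =>
          rw [NW.mk_mem_edg] at he
          rw [SimpleGraph.mem_edgeFinset, SimpleGraph.mem_edgeSet]
          exact hq.1 he.1 he.2.1 he.2.2)
      (by
        intro e
        induction e using Sym2.ind with
        | _ a b =>
          rw [sum_filter, hsub (fun t => if s(a, b) ∈ NW.edg t then f t else 0),
            hcl (fun t => s(a, b) ∈ NW.edg t)]
          by_cases hab : G.Adj a b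
          · refine le_trans (le_of_eq ?_) (hw1 a b hab)
            refine sum_congr ?_ (fun _ _ => rfl)
            ext t
            rw [mem_filter, mem_filter, NW.mk_mem_edg]
            exact ⟨fun h3 => ⟨h3.1, h3.2.1, h3.2.2.1⟩,
              fun h3 => ⟨h3.1, h3.2.1, h3.2.2, hab.ne⟩⟩
          · rw [sum_eq_zero]
            · exact zero_le_one
            · intro t ht
              rw [mem_filter, SimpleGraph.mem_cliqueFinset_iff, NW.mk_mem_edg] at ht
              exact absurd (ht.1.1 ht.2.1 ht.2.2.1 ht.2.2.2) hab)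
    rw [Fintype.card_fin] at hT'3
    have h4 : ∑ S : Tri (Fin n), f S.1 = ∑ t ∈ G.cliqueFinset 3, w t := by
      rw [hsub f]
      have := hcl (fun _ => True)
      simpa using this
    rw [h4] at hT'3
    have h5 : T'.card ≤ T.card :=
      hmax T' (by rw [mem_filter]; exact ⟨mem_univ _, hT'1, hT'2⟩)
    have h6 : (T'.card : ℝ) ≤ T.card := by exact_mod_cast h5
    linarith

/-- the form for simple graphs on `Fin n`: `𝒯` is a set of triangles of `G`, two different
members share no edge, `k` vertices (`4 ≤ k < g`) contain at most `k - 3` of them, and all but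
`γ n²` edges of `G` lie in a member of `𝒯` -/
theorem ApproxGirthStatement.simpleGraph (h : ApproxGirthStatement) (g : ℕ) (γ : ℝ)
    (hγ : 0 < γ) :
    ∃ η : ℝ, 0 < η ∧ ∃ n₀ : ℕ, ∀ n : ℕ, n₀ ≤ n →
      ∀ (G : SimpleGraph (Fin n)) [DecidableRel G.Adj],
      (∀ v, (3 / 4 - η) * (n : ℝ) ≤ (G.degree v : ℝ)) →
      ∃ T : Finset (Finset (Fin n)),
        (∀ t ∈ T, G.IsNClique 3 t) ∧
        (∀ u v, G.Adj u v → ∀ t ∈ T, ∀ t' ∈ T, u ∈ t → v ∈ t → u ∈ t' → v ∈ t' → t = t') ∧
        (∀ S : Finset (Fin n), 4 ≤ S.card → S.card < g →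
          (T.filter (fun t => t ⊆ S)).card + 2 < S.card) ∧
        ((G.edgeFinset.filter (fun e => ¬ ∃ t ∈ T, ∀ v ∈ e, v ∈ t)).card : ℝ)
          ≤ γ * (n : ℝ) ^ 2 := by
  obtain ⟨η, hη, n₀, h1⟩ := h g γ hγ
  refine ⟨η, hη, n₀, fun n hn G _ hdeg => ?_⟩
  have hdegG : ∀ v, NW.deg G.edgeFinset v = G.degree v := by
    intro v
    unfold NW.deg
    rw [← SimpleGraph.card_neighborFinset_eq_degree]
    congr 1
    ext u
    simp [NW.mem_nbr]
  obtain ⟨T, hT, hTg, hTl⟩ := h1 (Fin n) G.edgeFinset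
    (fun e he => by
      rw [SimpleGraph.mem_edgeFinset] at he
      exact G.not_isDiag_of_mem_edgeSet he)
    (by rwa [Fintype.card_fin])
    (fun v => by rw [Fintype.card_fin, hdegG]; exact hdeg v)
  rw [Fintype.card_fin] at hTl
  refine ⟨T, ?_, ?_, hTg, ?_⟩
  · intro t ht
    obtain ⟨hc, hs⟩ := hT.1 t ht
    refine ⟨?_, hc⟩
    intro a ha b hb hab
    have : s(a, b) ∈ G.edgeFinset := hs (NW.mk_mem_edg.2 ⟨ha, hb, hab⟩)
    simpa using this
  · intro u v huv t ht t' ht' hu hv hu' hv'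
    by_contra hne
    exact disjoint_left.1 (hT.2 t ht t' ht' hne)
      (NW.mk_mem_edg.2 ⟨hu, hv, huv.ne⟩) (NW.mk_mem_edg.2 ⟨hu', hv', huv.ne⟩)
  · refine le_trans ?_ hTl
    have : G.edgeFinset.filter (fun e => ¬ ∃ t ∈ T, ∀ v ∈ e, v ∈ t)
        ⊆ G.edgeFinset \ T.biUnion NW.edg := by
      intro e he
      rw [mem_filter] at he
      rw [mem_sdiff, mem_biUnion]
      refine ⟨he.1, ?_⟩
      rintro ⟨t, ht, hte⟩
      exact he.2 ⟨t, ht, (NW.mem_edg.1 hte).1⟩
    exact_mod_cast card_le_card this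

end F1
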