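import Mathlib
import Pool.Agent.F1.Statements

/-!
# Project F1: iteration of the bites

`F1.Iter.matchStatement : BiteStatement → VecNonneg → MatchStatement`.
-/

set_option autoImplicit false
set_option linter.unusedSectionVars false

namespace F1

namespace Iter

open Finset NWC

/-- the transposed step -/
noncomputable def adj (J : ℕ) (c θ A η δ : ℝ) (l : Fin 7 → ℝ) : Fin 7 → ℝ :=
  ![l 0 * (1 - θ) + l 1 * θ ^ 2 + l 2 * θ ^ 2 + l 4 * (3 * η / 2 + c / η * δ),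
    l 1,
    l 2,
    l 3,
    l 1 * θ + l 4 * (1 - θ),
    l 1 * (θ ^ 2 * J ^ 2) + l 3 * (2 ^ J * θ ^ 2 + c * δ) + l 4 * (3 / A * θ * J ^ 2) +
      l 5 * (1 + c * δ),
    l 3 * c + l 4 * (c / η) + l 5 * c + l 6 * c]

theorem adj_sum (J : ℕ) (c θ A η δ : ℝ) (l v : Fin 7 → ℝ) :
    ∑ k, l k * stp J c θ A η δ v k = ∑ k, adj J c θ A η δ l k * v k := by
  have h : ∀ f : Fin 7 → ℝ, ∑ k, f k = f 0 + f 1 + f 2 + f 3 + f 4 + f 5 + f 6 := by
    intro f
    simp [Fin.sum_univ_succ]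
    ring
  rw [h, h]
  have s0 : stp J c θ A η δ v 0 = (1 - θ) * v 0 := rfl
  have s1 : stp J c θ A η δ v 1 = v 1 + θ * v 4 + θ ^ 2 * J ^ 2 * v 5 + θ ^ 2 * v 0 := rfl
  have s2 : stp J c θ A η δ v 2 = v 2 + θ ^ 2 * v 0 := rfl
  have s3 : stp J c θ A η δ v 3 = v 3 + 2 ^ J * θ ^ 2 * v 5 + c * (δ * v 5 + v 6) := rfl
  have s4 : stp J c θ A η δ v 4 = (1 - θ) * v 4 + 3 / A * θ * J ^ 2 * v 5 + 3 * η / 2 * v 0 +
    c / η * (δ * v 0 + v 6) := rfl
  have s5 : stp J c θ A η δ v 5 = v 5 + c * (δ * v 5 + v 6) := rfl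
  have s6 : stp J c θ A η δ v 6 = c * v 6 := rfl
  have a0 : adj J c θ A η δ l 0 = l 0 * (1 - θ) + l 1 * θ ^ 2 + l 2 * θ ^ 2 +
    l 4 * (3 * η / 2 + c / η * δ) := rfl
  have a1 : adj J c θ A η δ l 1 = l 1 := rfl
  have a2 : adj J c θ A η δ l 2 = l 2 := rfl
  have a3 : adj J c θ A η δ l 3 = l 3 := rfl
  have a4 : adj J c θ A η δ l 4 = l 1 * θ + l 4 * (1 - θ) := rfl
  have a5 : adj J c θ A η δ l 5 = l 1 * (θ ^ 2 * J ^ 2) + l 3 * (2 ^ J * θ ^ 2 + c * δ) +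
    l 4 * (3 / A * θ * J ^ 2) + l 5 * (1 + c * δ) := rfl
  have a6 : adj J c θ A η δ l 6 = l 3 * c + l 4 * (c / η) + l 5 * c + l 6 * c := rfl
  rw [s0, s1, s2, s3, s4, s5, s6, a0, a1, a2, a3, a4, a5, a6]
  ring

theorem adj_nonneg {J : ℕ} {c θ A η δ : ℝ} (hc : 0 ≤ c) (hθ0 : 0 ≤ θ) (hθ1 : θ ≤ 1) (hA : 0 ≤ A)
    (hη : 0 ≤ η) (hδ : 0 ≤ δ) {l : Fin 7 → ℝ} (hl : ∀ k, 0 ≤ l k) :
    ∀ k, 0 ≤ adj J c θ A η δ l k := by
  have h1 : 0 ≤ 1 - θ := by linarith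
  have h0' := hl 0
  have h1' := hl 1
  have h2' := hl 2
  have h3' := hl 3
  have h4' := hl 4
  have h5' := hl 5
  have h6' := hl 6
  intro k
  fin_cases k
  · change 0 ≤ l 0 * (1 - θ) + l 1 * θ ^ 2 + l 2 * θ ^ 2 + l 4 * (3 * η / 2 + c / η * δ)
    positivity
  · exact h1'
  · exact h2'
  · exact h3'
  · change 0 ≤ l 1 * θ + l 4 * (1 - θ)
    positivity
  · change 0 ≤ l 1 * (θ ^ 2 * J ^ 2) + l 3 * (2 ^ J * θ ^ 2 + c * δ) +
      l 4 * (3 / A * θ * J ^ 2) + l 5 * (1 + c * δ)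
    positivity
  · change 0 ≤ l 3 * c + l 4 * (c / η) + l 5 * c + l 6 * c
    positivity

/-- `R` bites. -/
theorem run {J : ℕ} {A c : ℝ} (hA : 3 ≤ A) (hc : 1 ≤ c)
    (hbite : ∀ (ι τ : Type) [Fintype ι] [Fintype τ] [DecidableEq ι] [DecidableEq τ] (S : Sys ι τ)
      (E₀ : Finset ι) (θ B δ η : ℝ) (s : St ι τ), S.Ctx J E₀ θ A B δ s → 0 < η →
      ∀ l : Fin 7 → ℝ, (∀ k, 0 ≤ l k) →
      ∃ s' : St ι τ, S.Valid E₀ A (B / (1 - θ) ^ 2) s' ∧
        ∑ k, l k * S.vec E₀ A s' k ≤ ∑ k, l k * stp J c θ A η δ (S.vec E₀ A s) k)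
    {ι τ : Type} [Fintype ι] [Fintype τ] [DecidableEq ι] [DecidableEq τ] (S : Sys ι τ)
    (hS : S.Good J) (E₀ : Finset ι) {θ δ η : ℝ} (hθ0 : 0 < θ) (hθ1 : θ ≤ 1 / 4)
    (hδ1 : δ ≤ 1 / 2) (hη : 0 < η) (B : ℝ) (hB : 0 ≤ B) (s : St ι τ)
    (hs : S.Valid E₀ A B s) : ∀ R : ℕ, B / ((1 - θ) ^ 2) ^ R * Real.exp (2 * A) ≤ δ →
    ∀ l : Fin 7 → ℝ, (∀ k, 0 ≤ l k) →
      ∃ s' : St ι τ, S.Valid E₀ A (B / ((1 - θ) ^ 2) ^ R) s' ∧
        ∑ k, l k * S.vec E₀ A s' k ≤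
          ∑ k, l k * ((stp J c θ A η δ)^[R] (S.vec E₀ A s)) k := by
  have hq0 : 0 < (1 - θ) ^ 2 := by
    have : 0 < 1 - θ := by linarith
    positivity
  have hq1 : (1 - θ) ^ 2 ≤ 1 := by
    have : 0 ≤ 1 - θ := by linarith
    nlinarith
  intro R
  induction R with
  | zero =>
    intro _ l _
    exact ⟨s, by simpa using hs, by simp⟩
  | succ R ih =>
    intro hR l hl
    have hBR : 0 ≤ B / ((1 - θ) ^ 2) ^ R := by positivity
    have hle : B / ((1 - θ) ^ 2) ^ R ≤ B / ((1 - θ) ^ 2) ^ (R + 1) := by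
      apply div_le_div_of_nonneg_left hB (by positivity)
      exact pow_le_pow_of_le_one hq0.le hq1 (Nat.le_succ R)
    have hδR : B / ((1 - θ) ^ 2) ^ R * Real.exp (2 * A) ≤ δ :=
      (mul_le_mul_of_nonneg_right hle (Real.exp_pos _).le).trans hR
    have hδ0 : 0 ≤ δ := le_trans (by positivity) hδR
    obtain ⟨s₁, hv₁, hl₁⟩ := ih hδR (adj J c θ A η δ l)
      (adj_nonneg (by linarith) hθ0.le (by linarith) (by linarith) hη.le hδ0 hl)
    obtain ⟨s₂, hv₂, hl₂⟩ := hbite ι τ S E₀ θ _ δ η s₁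
      ⟨hS, hv₁, hθ0, hθ1, hA, hBR, hδR, hδ1⟩ hη l hl
    refine ⟨s₂, ?_, ?_⟩
    · have e : B / ((1 - θ) ^ 2) ^ (R + 1) = B / ((1 - θ) ^ 2) ^ R / (1 - θ) ^ 2 := by
        rw [pow_succ, div_div]
      rw [e]; exact hv₂
    · calc ∑ k, l k * S.vec E₀ A s₂ k
          ≤ ∑ k, l k * stp J c θ A η δ (S.vec E₀ A s₁) k := hl₂
        _ = ∑ k, adj J c θ A η δ l k * S.vec E₀ A s₁ k := adj_sum _ _ _ _ _ _ _ _
        _ ≤ ∑ k, adj J c θ A η δ l k * ((stp J c θ A η δ)^[R] (S.vec E₀ A s)) k := hl₁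
        _ = ∑ k, l k * stp J c θ A η δ ((stp J c θ A η δ)^[R] (S.vec E₀ A s)) k :=
            (adj_sum _ _ _ _ _ _ _ _).symm
        _ = _ := by rw [Function.iterate_succ_apply']

/-- the bounds after `r` steps -/
structure Bd (R : ℕ) (θ G N K β g κ σ ε c : ℝ) (r : ℕ) (v : Fin 7 → ℝ) : Prop where
  b0 : v 0 ≤ (1 - θ) ^ r * N
  b1 : v 1 ≤ (1 - (1 - θ) ^ r) * G + r * κ * N
  b2 : v 2 ≤ r * θ ^ 2 * N
  b3 : v 3 ≤ r * σ * N
  b4 : v 4 ≤ (1 - θ) ^ r * G + r * g * N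
  b5 : v 5 ≤ (K + r * β) * N
  b6 : v 6 ≤ c ^ r * ε * N

theorem bd_step {J R : ℕ} {θ G N K β g κ σ ε c A η δ x : ℝ} (hθ0 : 0 ≤ θ) (hθ1 : θ ≤ 1)
    (hN : 0 ≤ N) (hK : 0 ≤ K) (hc : 1 ≤ c) (hA : 0 < A) (hη : 0 < η) (hδ : 0 ≤ δ) (hε : 0 ≤ ε)
    (hg : 0 ≤ g) (hx : c ^ R * ε ≤ x) (hβ : c * (δ * (K + 1) + x) ≤ β) (hβ1 : R * β ≤ 1)
    (hgd : 3 / A * θ * J ^ 2 * (K + 1) + 3 * η / 2 + c / η * (δ + x) ≤ g)
    (hκ : θ * R * g + θ ^ 2 * (J ^ 2 * (K + 1) + 1) ≤ κ)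
    (hσ : 2 ^ J * θ ^ 2 * (K + 1) + β ≤ σ) {r : ℕ} (hr : r < R) {v : Fin 7 → ℝ}
    (h : Bd R θ G N K β g κ σ ε c r v) :
    Bd R θ G N K β g κ σ ε c (r + 1) (stp J c θ A η δ v) := by
  obtain ⟨b0, b1, b2, b3, b4, b5, b6⟩ := h
  have hq0 : 0 ≤ 1 - θ := by linarith
  have hqr : (1 - θ) ^ r ≤ 1 := pow_le_one₀ hq0 (by linarith)
  have hqr0 : 0 ≤ (1 - θ) ^ r := pow_nonneg hq0 _
  have hcr : c ^ r ≤ c ^ R := pow_le_pow_right₀ hc hr.le
  have hx0 : 0 ≤ x := le_trans (by positivity) hx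
  have hβ0 : 0 ≤ β := le_trans (by positivity) hβ
  have hrR : (r : ℝ) ≤ R := by exact_mod_cast hr.le
  have v6 : v 6 ≤ x * N := by
    refine b6.trans (mul_le_mul_of_nonneg_right ?_ hN)
    exact (mul_le_mul_of_nonneg_right hcr hε).trans hx
  have v5 : v 5 ≤ (K + 1) * N := by
    refine b5.trans (mul_le_mul_of_nonneg_right ?_ hN)
    have := mul_le_mul_of_nonneg_right hrR hβ0
    linarith
  have v0 : v 0 ≤ N := by
    refine b0.trans ?_
    calc (1 - θ) ^ r * N ≤ 1 * N := mul_le_mul_of_nonneg_right hqr hN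
      _ = N := one_mul N
  have hc0 : 0 ≤ c := by linarith
  have hov : c * (δ * v 5 + v 6) ≤ β * N := by
    calc c * (δ * v 5 + v 6) ≤ c * (δ * ((K + 1) * N) + x * N) := by gcongr
      _ = c * (δ * (K + 1) + x) * N := by ring
      _ ≤ β * N := mul_le_mul_of_nonneg_right hβ hN
  refine ⟨?_, ?_, ?_, ?_, ?_, ?_, ?_⟩
  · change (1 - θ) * v 0 ≤ _
    calc (1 - θ) * v 0 ≤ (1 - θ) * ((1 - θ) ^ r * N) := mul_le_mul_of_nonneg_left b0 hq0
      _ = (1 - θ) ^ (r + 1) * N := by rw [pow_succ]; ring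
  · change v 1 + θ * v 4 + θ ^ 2 * J ^ 2 * v 5 + θ ^ 2 * v 0 ≤ _
    have e1 : θ * v 4 ≤ θ * ((1 - θ) ^ r * G + r * g * N) := mul_le_mul_of_nonneg_left b4 hθ0
    have e2 : θ ^ 2 * J ^ 2 * v 5 ≤ θ ^ 2 * J ^ 2 * ((K + 1) * N) :=
      mul_le_mul_of_nonneg_left v5 (by positivity)
    have e3 : θ ^ 2 * v 0 ≤ θ ^ 2 * N := mul_le_mul_of_nonneg_left v0 (by positivity)
    have e4 : (θ * r * g + θ ^ 2 * (J ^ 2 * (K + 1) + 1)) * N ≤ κ * N := by
      refine mul_le_mul_of_nonneg_right (le_trans ?_ hκ) hN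
      have : θ * r * g ≤ θ * R * g := by gcongr
      linarith
    have ep : (1 - θ) ^ (r + 1) = (1 - θ) ^ r * (1 - θ) := pow_succ _ _
    push_cast
    rw [ep]
    linarith
  · change v 2 + θ ^ 2 * v 0 ≤ _
    have e3 : θ ^ 2 * v 0 ≤ θ ^ 2 * N := mul_le_mul_of_nonneg_left v0 (by positivity)
    push_cast
    linarith
  · change v 3 + 2 ^ J * θ ^ 2 * v 5 + c * (δ * v 5 + v 6) ≤ _
    have e2 : 2 ^ J * θ ^ 2 * v 5 ≤ 2 ^ J * θ ^ 2 * ((K + 1) * N) :=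
      mul_le_mul_of_nonneg_left v5 (by positivity)
    have e3 : (2 ^ J * θ ^ 2 * (K + 1) + β) * N ≤ σ * N := mul_le_mul_of_nonneg_right hσ hN
    push_cast
    nlinarith
  · change (1 - θ) * v 4 + 3 / A * θ * J ^ 2 * v 5 + 3 * η / 2 * v 0 + c / η * (δ * v 0 + v 6) ≤ _
    have e1 : (1 - θ) * v 4 ≤ (1 - θ) * ((1 - θ) ^ r * G + r * g * N) :=
      mul_le_mul_of_nonneg_left b4 hq0
    have e2 : 3 / A * θ * J ^ 2 * v 5 ≤ 3 / A * θ * J ^ 2 * ((K + 1) * N) :=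
      mul_le_mul_of_nonneg_left v5 (by positivity)
    have e3 : 3 * η / 2 * v 0 ≤ 3 * η / 2 * N := mul_le_mul_of_nonneg_left v0 (by positivity)
    have e4 : c / η * (δ * v 0 + v 6) ≤ c / η * (δ * N + x * N) := by
      refine mul_le_mul_of_nonneg_left ?_ (by positivity)
      have := mul_le_mul_of_nonneg_left v0 hδ
      linarith
    have e5 : (3 / A * θ * J ^ 2 * (K + 1) + 3 * η / 2 + c / η * (δ + x)) * N ≤ g * N :=
      mul_le_mul_of_nonneg_right hgd hN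
    have e6 : (1 - θ) * (r * g * N) ≤ 1 * (r * g * N) :=
      mul_le_mul_of_nonneg_right (by linarith) (by positivity)
    have ep : (1 - θ) ^ (r + 1) = (1 - θ) ^ r * (1 - θ) := pow_succ _ _
    push_cast
    rw [ep]
    linarith
  · change v 5 + c * (δ * v 5 + v 6) ≤ _
    push_cast
    nlinarith
  · change c * v 6 ≤ _
    calc c * v 6 ≤ c * (c ^ r * ε * N) := mul_le_mul_of_nonneg_left b6 hc0
      _ = c ^ (r + 1) * ε * N := by rw [pow_succ]; ring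

section Clean

variable {ι τ : Type} [Fintype ι] [Fintype τ] [DecidableEq ι] [DecidableEq τ]

/-- cleaning a valid state -/
theorem clean {S : Sys ι τ} {J : ℕ} (hS : S.Good J) {E₀ : Finset ι} {A B : ℝ} {s : St ι τ}
    (hs : S.Valid E₀ A B s) : ∃ M : Finset τ, (∀ T ∈ M, S.ed T ⊆ E₀) ∧
      (∀ T ∈ M, ∀ T' ∈ M, T ≠ T' → Disjoint (S.ed T) (S.ed T')) ∧
      (∀ C ∈ S.conf, ¬ C ⊆ M) ∧
      ((E₀ \ S.cov M).card : ℝ) ≤ s.E.card + S.kil E₀ s + 3 * S.coll s.M + 3 * J * s.Rep := by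
  classical
  set P := (s.M ×ˢ s.M).filter (fun x => x.1 ≠ x.2 ∧ ¬ Disjoint (S.ed x.1) (S.ed x.2)) with hP
  set Q := s.F.filter (fun C => C ⊆ s.M) with hQ
  set D := P.image Prod.fst ∪ Q.biUnion id with hD
  refine ⟨s.M \ D, fun T hT => hs.MS T (mem_sdiff.mp hT).1, ?_, ?_, ?_⟩
  · intro T hT T' hT' hne
    by_contra hdis
    have h1 := (mem_sdiff.mp hT).1
    have h2 := (mem_sdiff.mp hT').1
    apply (mem_sdiff.mp hT).2
    rw [hD, mem_union]
    left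
    exact mem_image.mpr ⟨(T, T'), mem_filter.mpr ⟨mem_product.mpr ⟨h1, h2⟩, hne, hdis⟩, rfl⟩
  · intro C hC hCM
    have hCM' : C ⊆ s.M := hCM.trans sdiff_subset
    by_cases hF : C ∈ s.F
    · have h2 := hS.conf_two C hC
      obtain ⟨T, hT⟩ : C.Nonempty := card_pos.mp (by omega)
      apply (mem_sdiff.mp (hCM hT)).2
      rw [hD, mem_union]
      right
      exact mem_biUnion.mpr ⟨C, mem_filter.mpr ⟨hF, hCM'⟩, hT⟩
    · exact hs.I1 C hC hF hCM'
  · -- counting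
    have hsub : E₀ \ S.cov (s.M \ D) ⊆ s.E ∪ ((E₀ \ s.E) \ S.cov s.M) ∪ S.cov D := by
      intro e he
      rw [mem_sdiff] at he
      rw [mem_union, mem_union]
      by_cases h1 : e ∈ s.E
      · exact Or.inl (Or.inl h1)
      · by_cases h2 : e ∈ S.cov s.M
        · right
          obtain ⟨T, hT, heT⟩ := mem_biUnion.mp h2
          by_cases h3 : T ∈ D
          · exact mem_biUnion.mpr ⟨T, h3, heT⟩
          · exact absurd (mem_biUnion.mpr ⟨T, mem_sdiff.mpr ⟨hT, h3⟩, heT⟩) he.2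
        · left; right
          exact mem_sdiff.mpr ⟨mem_sdiff.mpr ⟨he.1, h1⟩, h2⟩
    have c1 : (E₀ \ S.cov (s.M \ D)).card ≤ s.E.card + S.kil E₀ s + (S.cov D).card :=
      (card_le_card hsub).trans ((card_union_le _ _).trans
        (Nat.add_le_add_right (card_union_le _ _) _))
    have c2 : (S.cov D).card ≤ 3 * D.card := by
      calc (S.cov D).card ≤ ∑ T ∈ D, (S.ed T).card := card_biUnion_le
        _ = 3 * D.card := by rw [sum_congr rfl (fun T _ => hS.card_ed T)]; simp [mul_comm]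
    have c3 : D.card ≤ S.coll s.M + J * Q.card := by
      calc D.card ≤ (P.image Prod.fst).card + (Q.biUnion id).card := card_union_le _ _
        _ ≤ P.card + ∑ C ∈ Q, (id C).card := Nat.add_le_add card_image_le card_biUnion_le
        _ ≤ S.coll s.M + J * Q.card := by
            refine Nat.add_le_add le_rfl ?_
            calc ∑ C ∈ Q, (id C).card ≤ ∑ C ∈ Q, J := by
                  refine sum_le_sum fun C hC => ?_
                  exact hS.conf_card C (hs.FC (mem_filter.mp hC).1)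
              _ = J * Q.card := by rw [sum_const, smul_eq_mul, mul_comm]
    have y0 : ∀ T, 0 ≤ s.y T := by
      intro T
      unfold St.y
      have := hs.X0 T
      split_ifs <;> linarith
    have c4 : (Q.card : ℝ) ≤ s.Rep := by
      have h1 : ∑ C ∈ Q, (1 : ℝ) ≤ ∑ C ∈ Q, s.yy C := by
        refine sum_le_sum fun C hC => ?_
        have hCM := (mem_filter.mp hC).2
        unfold St.yy
        have : ∏ T ∈ C, (1 : ℝ) ≤ ∏ T ∈ C, s.y T := by
          refine prod_le_prod (fun _ _ => zero_le_one) fun T hT => ?_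
          unfold St.y
          rw [if_pos (hCM hT)]
          linarith [hs.X0 T]
        simpa using this
      have h2 : ∑ C ∈ Q, s.yy C ≤ s.Rep := by
        unfold St.Rep
        refine sum_le_sum_of_subset_of_nonneg (filter_subset _ _) fun C _ _ => ?_
        exact prod_nonneg fun T _ => y0 T
      simpa using h1.trans h2
    have c5 : ((E₀ \ S.cov (s.M \ D)).card : ℝ) ≤ s.E.card + S.kil E₀ s +
        3 * (S.coll s.M + J * Q.card) := by
      have : (E₀ \ S.cov (s.M \ D)).card ≤ s.E.card + S.kil E₀ s +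
          3 * (S.coll s.M + J * Q.card) := by omega
      exact_mod_cast this
    have c6 : (J : ℝ) * Q.card ≤ J * s.Rep := mul_le_mul_of_nonneg_left c4 (by positivity)
    linarith

end Clean

/-- `x` small enough -/
theorem exists_small {c γ : ℝ} (hc : 0 ≤ c) (hγ : 0 < γ) : ∃ x : ℝ, 0 < x ∧ c * x ≤ γ := by
  refine ⟨γ / (c + 1), by positivity, ?_⟩
  rw [mul_div_assoc', div_le_iff₀ (by positivity)]
  nlinarith

theorem matchStatement (hB : BiteStatement) (_hV : VecNonneg) : MatchStatement := by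
  intro J K γ hK hγ
  -- constants
  set L : ℝ := 8 / γ with hL
  have hL0 : 0 < L := by positivity
  have hexp : Real.exp (-L) ≤ γ / 8 := by
    rw [Real.exp_neg, inv_le_comm₀ (Real.exp_pos _) (by positivity)]
    have : (γ / 8)⁻¹ = L := by rw [hL, inv_div]
    rw [this]
    linarith [Real.add_one_le_exp L]
  obtain ⟨A, hA3, hA⟩ : ∃ A : ℝ, 3 ≤ A ∧ 3 * L ^ 2 * J ^ 2 * (K + 1) / A ≤ γ / 8 := by
    refine ⟨max 3 (3 * L ^ 2 * J ^ 2 * (K + 1) * (8 / γ)), le_max_left _ _, ?_⟩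
    have h3 : (3 : ℝ) ≤ max 3 (3 * L ^ 2 * J ^ 2 * (K + 1) * (8 / γ)) := le_max_left _ _
    rw [div_le_iff₀ (by linarith)]
    have h4 := le_max_right (3 : ℝ) (3 * L ^ 2 * J ^ 2 * (K + 1) * (8 / γ))
    calc 3 * L ^ 2 * J ^ 2 * (K + 1) = γ / 8 * (3 * L ^ 2 * J ^ 2 * (K + 1) * (8 / γ)) := by
          field_simp
      _ ≤ _ := mul_le_mul_of_nonneg_left h4 (by positivity)
  have hA0 : 0 < A := by linarith
  obtain ⟨c, hc1, hbite⟩ := hB J A hA3
  have hc0 : 0 ≤ c := by linarith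
  set Y : ℝ := L ^ 2 * (J ^ 2 * (K + 1) + 1 + 3 + 3 * J * (2 ^ J * (K + 1))) with hY
  have hY0 : 0 ≤ Y := by positivity
  obtain ⟨R, hR⟩ := exists_nat_ge (max (4 * L) (Y * (8 / γ)) + 1)
  have hR1 : 4 * L ≤ R := by
    have := le_max_left (4 * L) (Y * (8 / γ)); linarith
  have hR2 : Y * (8 / γ) ≤ R := by
    have := le_max_right (4 * L) (Y * (8 / γ)); linarith
  have hR0 : (0 : ℝ) < R := by linarith
  set θ : ℝ := L / R with hθ
  have hθ0 : 0 < θ := by positivity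
  have hθ1 : θ ≤ 1 / 4 := by
    rw [hθ, div_le_iff₀ hR0]; linarith
  have hθR : θ * R = L := by rw [hθ]; field_simp
  -- `η`
  obtain ⟨η, hη0, hη⟩ := exists_small (c := 3 / 2 * L * R) (by positivity)
    (show 0 < γ / 8 by positivity)
  -- `z` bounds `δ` and `x`
  obtain ⟨z, hz0, hz⟩ := exists_small
    (c := L * R * (2 * c / η) + 3 * J * R * (c * (K + 2)) + R * (c * (K + 2)) + 2) (by positivity)
    (show 0 < min (γ / 8) 1 by positivity)
  have hz1 : L * R * (2 * c / η) * z ≤ γ / 8 := by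
    have h1 : L * R * (2 * c / η) * z ≤
        (L * R * (2 * c / η) + 3 * J * R * (c * (K + 2)) + R * (c * (K + 2)) + 2) * z := by
      refine mul_le_mul_of_nonneg_right ?_ hz0.le
      have : 0 ≤ 3 * J * R * (c * (K + 2)) + R * (c * (K + 2)) + 2 := by positivity
      linarith
    exact h1.trans (hz.trans (min_le_left _ _))
  have hz2 : 3 * J * R * (c * (K + 2)) * z ≤ γ / 8 := by
    have h1 : 3 * J * R * (c * (K + 2)) * z ≤
        (L * R * (2 * c / η) + 3 * J * R * (c * (K + 2)) + R * (c * (K + 2)) + 2) * z := by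
      refine mul_le_mul_of_nonneg_right ?_ hz0.le
      have : 0 ≤ L * R * (2 * c / η) + R * (c * (K + 2)) + 2 := by positivity
      linarith
    exact h1.trans (hz.trans (min_le_left _ _))
  have hz3 : R * (c * (K + 2)) * z ≤ 1 := by
    have h1 : R * (c * (K + 2)) * z ≤
        (L * R * (2 * c / η) + 3 * J * R * (c * (K + 2)) + R * (c * (K + 2)) + 2) * z := by
      refine mul_le_mul_of_nonneg_right ?_ hz0.le
      have : 0 ≤ L * R * (2 * c / η) + 3 * J * R * (c * (K + 2)) + 2 := by positivity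
      linarith
    exact h1.trans (hz.trans (min_le_right _ _))
  have hz4 : z ≤ 1 / 2 := by
    have h1 : 2 * z ≤
        (L * R * (2 * c / η) + 3 * J * R * (c * (K + 2)) + R * (c * (K + 2)) + 2) * z := by
      refine mul_le_mul_of_nonneg_right ?_ hz0.le
      have : 0 ≤ L * R * (2 * c / η) + 3 * J * R * (c * (K + 2)) + R * (c * (K + 2)) := by
        positivity
      linarith
    linarith [h1.trans (hz.trans (min_le_right _ _))]
  -- `ε`
  have hq0 : 0 < 1 - θ := by linarith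
  set Z : ℝ := Real.exp (2 * A) / ((1 - θ) ^ 2) ^ R with hZ
  have hZ0 : 0 < Z := by positivity
  obtain ⟨ε, hε0, hε⟩ := exists_small (c := c ^ R + Z) (by positivity) hz0
  have hε1 : c ^ R * ε ≤ z := by
    have : 0 ≤ Z * ε := by positivity
    nlinarith
  have hε2 : ε / ((1 - θ) ^ 2) ^ R * Real.exp (2 * A) ≤ z := by
    have e : ε / ((1 - θ) ^ 2) ^ R * Real.exp (2 * A) = Z * ε := by rw [hZ]; ring
    rw [e]
    have : 0 ≤ c ^ R * ε := by positivity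
    nlinarith
  refine ⟨ε, hε0, ?_⟩
  intro ι τ _ _ _ _ S hS E₀ w N hN hw0 hwε hwE hW hconf hbad
  have hN0 : 0 ≤ N := le_trans (by positivity) hN
  -- the initial state
  set s₀ : St ι τ := ⟨E₀, w, ∅, fun _ => 0, ∅⟩ with hs₀
  have hv₀ : S.Valid E₀ A ε s₀ := by
    refine ⟨subset_rfl, hw0, fun _ => le_rfl, hwE, hW, ?_, ?_, ?_, ?_, ?_, ?_, ?_⟩
    · intro T hT; simp [hs₀] at hT
    · intro T hT; simp [hs₀] at hT
    · intro T
      simpa [hs₀] using hwε T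
    · intro T _; simp [hs₀]; linarith
    · simp [hs₀]
    · intro C hC _ hsub
      have h1 := hS.conf_two C hC
      have h2 : C = ∅ := by simpa [hs₀] using hsub
      rw [h2] at h1
      simp at h1
    · intro C hC _ T hT hsub
      exfalso
      have h1 := hS.conf_two C hC
      have h2 : C.erase T = ∅ := by simpa [hs₀] using hsub
      have h3 := card_erase_of_mem hT
      rw [h2] at h3
      simp at h3
      omega
  have y₀ : ∀ T, s₀.y T = w T := by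
    intro T; simp [St.y, hs₀]
  set G : ℝ := ∑ e ∈ E₀, (1 - S.W w e) with hG
  have hG0 : 0 ≤ G := sum_nonneg fun e _ => by linarith [hW e]
  set β : ℝ := c * (K + 2) * z with hβ
  set g : ℝ := 3 / A * θ * J ^ 2 * (K + 1) + 3 * η / 2 + c / η * (z + z) with hg
  set κ : ℝ := θ * R * g + θ ^ 2 * (J ^ 2 * (K + 1) + 1) with hκ
  set σ : ℝ := 2 ^ J * θ ^ 2 * (K + 1) + β with hσ
  have hg0 : 0 ≤ g := by positivity
  have bd0 : Bd R θ G N K β g κ σ ε c 0 (S.vec E₀ A s₀) := by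
    refine ⟨?_, ?_, ?_, ?_, ?_, ?_, ?_⟩
    · change ((s₀.E.card : ℕ) : ℝ) ≤ _
      simpa [hs₀] using hN
    · change ((S.kil E₀ s₀ : ℕ) : ℝ) ≤ _
      simp [Sys.kil, hs₀]
    · change ((S.coll s₀.M : ℕ) : ℝ) ≤ _
      simp [Sys.coll, hs₀]
    · change s₀.Rep ≤ _
      simp [St.Rep, hs₀]
    · change S.Df s₀ + 3 / A * s₀.Psi ≤ _
      simp [Sys.Df, St.Psi, hs₀, hG]
    · change S.Th s₀ ≤ _
      have : S.Th s₀ = ∑ C ∈ S.conf, ∏ T ∈ C, w T := by
        unfold Sys.Th St.yy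
        exact sum_congr rfl fun C _ => prod_congr rfl fun T _ => y₀ T
      rw [this]
      simpa using hconf
    · change S.Xi s₀ ≤ _
      have : S.Xi s₀ = ∑ D ∈ S.bad, ∏ T ∈ D, w T := by
        unfold Sys.Xi St.yy
        exact sum_congr rfl fun C _ => prod_congr rfl fun T _ => y₀ T
      rw [this]
      simpa using hbad
  have bdR : ∀ r : ℕ, r ≤ R → Bd R θ G N K β g κ σ ε c r
      ((stp J c θ A η z)^[r] (S.vec E₀ A s₀)) := by
    intro r
    induction r with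
    | zero => intro _; exact bd0
    | succ r ih =>
      intro hr
      rw [Function.iterate_succ_apply']
      exact bd_step (x := z) hθ0.le (by linarith) hN0 hK.le hc1 hA0 hη0 hz0.le hε0.le hg0 hε1
        (le_of_eq (by rw [hβ]; ring)) (by rw [hβ]; linarith) le_rfl le_rfl le_rfl (by omega)
        (ih (by omega))
  -- the functional
  set l : Fin 7 → ℝ := ![1, 1, 3, 3 * J, 0, 0, 0] with hl
  have hl0 : ∀ k, 0 ≤ l k := by
    intro k
    fin_cases k <;> simp [hl]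
  obtain ⟨s, hv, hle⟩ := run hA3 hc1 hbite S hS E₀ hθ0 hθ1 hz4 hη0 ε hε0.le s₀ hv₀ R hε2 l hl0
  have hsum : ∀ v : Fin 7 → ℝ, ∑ k, l k * v k = v 0 + v 1 + 3 * v 2 + 3 * J * v 3 := by
    intro v
    simp [Fin.sum_univ_succ, hl]
    ring
  rw [hsum, hsum] at hle
  obtain ⟨b0, b1, b2, b3, _, _, _⟩ := bdR R le_rfl
  obtain ⟨M, hM1, hM2, hM3, hM4⟩ := clean hS hv
  refine ⟨M, hM1, hM2, hM3, ?_⟩
  have e0 : S.vec E₀ A s 0 = (s.E.card : ℝ) := rfl
  have e1 : S.vec E₀ A s 1 = (S.kil E₀ s : ℝ) := rfl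
  have e2 : S.vec E₀ A s 2 = (S.coll s.M : ℝ) := rfl
  have e3 : S.vec E₀ A s 3 = s.Rep := rfl
  rw [e0, e1, e2, e3] at hle
  -- the final estimate
  have hqR : (1 - θ) ^ R ≤ γ / 8 := by
    have h1 : (1 - θ) ^ R ≤ (Real.exp (-θ)) ^ R :=
      pow_le_pow_left₀ hq0.le (by linarith [Real.add_one_le_exp (-θ)]) R
    have h2 : (Real.exp (-θ)) ^ R = Real.exp (-L) := by
      rw [← Real.exp_nat_mul]; congr 1; linarith
    exact (h1.trans h2.le).trans hexp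
  have hqR0 : 0 ≤ (1 - θ) ^ R := pow_nonneg hq0.le _
  have t0 : (1 - θ) ^ R * N ≤ γ / 8 * N := mul_le_mul_of_nonneg_right hqR hN0
  have t1 : (1 - (1 - θ) ^ R) * G ≤ G := by nlinarith
  have hθ2R : (R : ℝ) * θ ^ 2 = L ^ 2 / R := by
    rw [hθ]; field_simp
  have hYR : Y / R ≤ γ / 8 := by
    rw [div_le_iff₀ hR0]
    have : Y = γ / 8 * (Y * (8 / γ)) := by field_simp
    rw [this]
    exact mul_le_mul_of_nonneg_left hR2 (by positivity)
  have hRg : (R : ℝ) * (θ * R * g) ≤ γ / 8 + γ / 8 + γ / 8 := by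
    have h1 : (R : ℝ) * (θ * R * g) = 3 * L ^ 2 * J ^ 2 * (K + 1) / A + 3 / 2 * L * R * η +
        L * R * (2 * c / η) * z := by
      have h2 : (R : ℝ) * (θ * R * g) = L * R * g := by rw [hθR]; ring
      rw [h2, hg]
      have h3 : (R : ℝ) * θ = L := by rw [mul_comm]; exact hθR
      have h4 : L * R * (3 / A * θ * J ^ 2 * (K + 1) + 3 * η / 2 + c / η * (z + z)) =
          3 * L * (R * θ) * J ^ 2 * (K + 1) / A + 3 / 2 * L * R * η + L * R * (2 * c / η) * z := by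
        ring
      rw [h4, h3]
      ring
    rw [h1]
    linarith
  have hfin : (R : ℝ) * κ + 3 * (R * θ ^ 2) + 3 * J * (R * σ) ≤
      γ / 8 + γ / 8 + γ / 8 + γ / 8 + γ / 8 := by
    have h1 : (R : ℝ) * κ + 3 * (R * θ ^ 2) + 3 * J * (R * σ) =
        R * (θ * R * g) + (R * θ ^ 2) * (J ^ 2 * (K + 1) + 1 + 3 + 3 * J * (2 ^ J * (K + 1))) +
        3 * J * R * (c * (K + 2)) * z := by
      rw [hκ, hσ, hβ]; ring
    have h2 : (R * θ ^ 2) * (J ^ 2 * (K + 1) + 1 + 3 + 3 * J * (2 ^ J * (K + 1))) = Y / R := by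
      rw [hθ2R, hY]; ring
    rw [h1, h2]
    linarith
  have hfinN := mul_le_mul_of_nonneg_right hfin hN0
  have b3' : 3 * (J : ℝ) * ((stp J c θ A η z)^[R] (S.vec E₀ A s₀)) 3 ≤ 3 * J * (R * σ * N) :=
    mul_le_mul_of_nonneg_left b3 (by positivity)
  have hγN : 0 ≤ γ * N := by positivity
  nlinarith

end Iter

end F1
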