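import Mathlib
import Pool.Agent.F1.Basic

/-!
# Project F1: overlap sums

`ovConf : OvConfStatement` and `ovPair : OvPairStatement`.  Every overlap of threats is charged to
a member `D` of `bad` all of whose members outside the overlap are chosen, so that the weight of
`D` is the product of the weights of the members of the overlap.
-/

set_option autoImplicit false
set_option linter.unusedSectionVars false

namespace F1.Overlap

open Finset NWC F1

section

variable {ι τ : Type} [Fintype ι] [Fintype τ] [DecidableEq ι] [DecidableEq τ]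
variable {S : Sys ι τ} {J : ℕ} {E₀ : Finset ι} {A B δ : ℝ} {s : St ι τ}

theorem mem_Nb {M : Finset τ} {T T' : τ} : T' ∈ S.Nb M T ↔ T' ≠ T ∧ ∃ C ∈ S.conf, T ∈ C ∧ T' ∈ C ∧
    ∀ T'' ∈ C, T'' = T ∨ T'' = T' ∨ T'' ∈ M := by simp [Sys.Nb]

/-- chosen members do not change the weight -/
theorem yy_eq_of (hv : S.Valid E₀ A B s) (hg : S.Good J) {U D : Finset τ} (hUD : U ⊆ D)
    (hD : ∀ x ∈ D, x ∈ U ∨ x ∈ s.M) : s.yy D = s.yy U := by
  unfold St.yy
  symm
  refine Finset.prod_subset hUD fun T hT hTU => ?_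
  exact hv.y_of_mem hg ((hD T hT).resolve_left hTU)

/-- overlaps of threats of two members of a configuration -/
theorem conf_bad (hg : S.Good J) {C : Finset τ} (hC : C ∈ S.conf)
    {T T' T'' : τ} (hT : T ∈ C) (hT' : T' ∈ C) (hne : T ≠ T') (h'' : T'' ∉ C)
    (h1 : T'' ∈ S.nt s.M T) (h2 : T'' ∈ S.nt s.M T') :
    ∃ D ∈ S.bad, insert T'' C ⊆ D ∧ ∀ x ∈ D, x ∈ insert T'' C ∨ x ∈ s.M := by
  unfold Sys.nt at h1 h2
  have aux : ∀ {U : τ}, U ∈ C → ∀ {C' : Finset τ}, (∀ x ∈ C', x = U ∨ x = T'' ∨ x ∈ s.M) →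
      ∀ x ∈ C', x ∈ insert T'' C ∨ x ∈ s.M := by
    intro U hU C' h x hx
    rcases h x hx with rfl | rfl | h3
    · exact Or.inl (Finset.mem_insert_of_mem hU)
    · exact Or.inl (Finset.mem_insert_self _ _)
    · exact Or.inr h3
  rcases Finset.mem_union.1 h1 with h1 | h1
  · rw [mem_Sh] at h1
    rcases Finset.mem_union.1 h2 with h2 | h2
    · rw [mem_Sh] at h2
      refine ⟨insert T'' C, hg.b2 C hC T hT T' hT' hne T'' h'' h1 h2, Finset.Subset.refl _,
        fun x hx => Or.inl hx⟩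
    · obtain ⟨h3, C', hC', a1, a2, a3⟩ := mem_Nb.1 h2
      have hCC : C ≠ C' := by
        rintro rfl
        exact h'' a2
      have hb := hg.b3 C hC C' hC' hCC T' (Finset.mem_inter.2 ⟨hT', a1⟩) T hT T'' a2
        (by rintro rfl; exact h'' hT) (fun hd => h1 hd.symm)
      refine ⟨C ∪ C', hb, ?_, ?_⟩
      · exact Finset.insert_subset (Finset.mem_union_right _ a2) Finset.subset_union_left
      · intro x hx
        rcases Finset.mem_union.1 hx with hx | hx
        · exact Or.inl (Finset.mem_insert_of_mem hx)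
        · exact aux hT' a3 x hx
  · obtain ⟨h3, C', hC', a1, a2, a3⟩ := mem_Nb.1 h1
    have hCC : C ≠ C' := by
      rintro rfl
      exact h'' a2
    rcases Finset.mem_union.1 h2 with h2 | h2
    · rw [mem_Sh] at h2
      have hb := hg.b3 C hC C' hC' hCC T (Finset.mem_inter.2 ⟨hT, a1⟩) T' hT' T'' a2
        (by rintro rfl; exact h'' hT') (fun hd => h2 hd.symm)
      refine ⟨C ∪ C', hb, ?_, ?_⟩
      · exact Finset.insert_subset (Finset.mem_union_right _ a2) Finset.subset_union_left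
      · intro x hx
        rcases Finset.mem_union.1 hx with hx | hx
        · exact Or.inl (Finset.mem_insert_of_mem hx)
        · exact aux hT a3 x hx
    · obtain ⟨h4, C'', hC'', c1, c2, c3⟩ := mem_Nb.1 h2
      have hb := hg.b5 C hC C' hC' C'' hC'' T (Finset.mem_inter.2 ⟨hT, a1⟩) T'
        (Finset.mem_inter.2 ⟨hT', c1⟩) T'' (Finset.mem_inter.2 ⟨a2, c2⟩) hne h''
      refine ⟨C ∪ C' ∪ C'', hb, ?_, ?_⟩
      · exact Finset.insert_subset (Finset.mem_union_right _ c2)
          (Finset.subset_union_left.trans Finset.subset_union_left)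
      · intro x hx
        rcases Finset.mem_union.1 hx with hx | hx
        · rcases Finset.mem_union.1 hx with hx | hx
          · exact Or.inl (Finset.mem_insert_of_mem hx)
          · exact aux hT a3 x hx
        · exact aux hT' c3 x hx

/-- overlaps of threats of two hyperedges through a common element -/
theorem pair_bad (hg : S.Good J) {e : ι} {T T' T'' : τ}
    (hT : e ∈ S.ed T) (hT' : e ∈ S.ed T') (hne : T ≠ T') (h'' : e ∉ S.ed T'')
    (hM : T ∉ s.M) (hM' : T' ∉ s.M)
    (h1 : T'' ∈ S.nt s.M T) (h2 : T'' ∈ S.nt s.M T') :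
    ∃ D ∈ S.bad, ({T, T', T''} : Finset τ) ⊆ D ∧
      ∀ x ∈ D, x ∈ ({T, T', T''} : Finset τ) ∨ x ∈ s.M := by
  have n1 : T'' ≠ T := by rintro rfl; exact h'' hT
  have n2 : T'' ≠ T' := by rintro rfl; exact h'' hT'
  have hmeet : ¬ Disjoint (S.ed T) (S.ed T') := Finset.not_disjoint_iff.2 ⟨e, hT, hT'⟩
  have hmeet' : ¬ Disjoint (S.ed T') (S.ed T) := Finset.not_disjoint_iff.2 ⟨e, hT', hT⟩
  unfold Sys.nt at h1 h2
  rcases Finset.mem_union.1 h1 with h1 | h1
  · rw [mem_Sh] at h1
    rcases Finset.mem_union.1 h2 with h2 | h2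
    · rw [mem_Sh] at h2
      exact ⟨{T, T', T''}, hg.b1 T T' T'' hne e (Finset.mem_inter.2 ⟨hT, hT'⟩) h'' h1 h2,
        Finset.Subset.refl _, fun x hx => Or.inl hx⟩
    · obtain ⟨h3, C, hC, a1, a2, a3⟩ := mem_Nb.1 h2
      have hTC : T ∉ C := by
        intro h
        rcases a3 T h with h | h | h
        · exact hne h
        · exact n1 h.symm
        · exact hM h
      have hb := hg.b2 C hC T' a1 T'' a2 n2.symm T hTC hmeet (fun hd => h1 hd.symm)
      refine ⟨insert T C, hb, ?_, ?_⟩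
      · intro x hx
        simp only [Finset.mem_insert, Finset.mem_singleton] at hx ⊢
        rcases hx with rfl | rfl | rfl
        · exact Or.inl rfl
        · exact Or.inr a1
        · exact Or.inr a2
      · intro x hx
        simp only [Finset.mem_insert, Finset.mem_singleton] at hx ⊢
        rcases hx with rfl | hx
        · exact Or.inl (Or.inl rfl)
        · rcases a3 x hx with h | h | h
          · exact Or.inl (Or.inr (Or.inl h))
          · exact Or.inl (Or.inr (Or.inr h))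
          · exact Or.inr h
  · obtain ⟨h3, C, hC, a1, a2, a3⟩ := mem_Nb.1 h1
    have hTC : T' ∉ C := by
      intro h
      rcases a3 T' h with h | h | h
      · exact hne h.symm
      · exact n2 h.symm
      · exact hM' h
    rcases Finset.mem_union.1 h2 with h2 | h2
    · rw [mem_Sh] at h2
      have hb := hg.b2 C hC T a1 T'' a2 n1.symm T' hTC hmeet' (fun hd => h2 hd.symm)
      refine ⟨insert T' C, hb, ?_, ?_⟩
      · intro x hx
        simp only [Finset.mem_insert, Finset.mem_singleton] at hx ⊢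
        rcases hx with rfl | rfl | rfl
        · exact Or.inr a1
        · exact Or.inl rfl
        · exact Or.inr a2
      · intro x hx
        simp only [Finset.mem_insert, Finset.mem_singleton] at hx ⊢
        rcases hx with rfl | hx
        · exact Or.inl (Or.inr (Or.inl rfl))
        · rcases a3 x hx with h | h | h
          · exact Or.inl (Or.inl h)
          · exact Or.inl (Or.inr (Or.inr h))
          · exact Or.inr h
    · obtain ⟨h4, C', hC', c1, c2, c3⟩ := mem_Nb.1 h2
      have hCC : C ≠ C' := by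
        rintro rfl
        exact hTC c1
      have hb := hg.b3 C hC C' hC' hCC T'' (Finset.mem_inter.2 ⟨a2, c2⟩) T a1 T' c1 hne hmeet
      refine ⟨C ∪ C', hb, ?_, ?_⟩
      · intro x hx
        simp only [Finset.mem_insert, Finset.mem_singleton, Finset.mem_union] at hx ⊢
        rcases hx with rfl | rfl | rfl
        · exact Or.inl a1
        · exact Or.inr c1
        · exact Or.inl a2
      · intro x hx
        simp only [Finset.mem_insert, Finset.mem_singleton, Finset.mem_union] at hx ⊢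
        rcases hx with hx | hx
        · rcases a3 x hx with h | h | h
          · exact Or.inl (Or.inl h)
          · exact Or.inl (Or.inr (Or.inr h))
          · exact Or.inr h
        · rcases c3 x hx with h | h | h
          · exact Or.inl (Or.inr (Or.inl h))
          · exact Or.inl (Or.inr (Or.inr h))
          · exact Or.inr h

end

/-- double counting: every `D` is used by at most `m` indices -/
theorem double_count {α β : Type} [Fintype α] (Q : Finset β) (g : β → ℝ)
    (hg : ∀ D ∈ Q, 0 ≤ g D) (R : α → β → Prop) [∀ a b, Decidable (R a b)] (m : ℝ)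
    (hm : ∀ D ∈ Q, (((univ : Finset α).filter (fun p => R p D)).card : ℝ) ≤ m) :
    ∑ p : α, ∑ D ∈ Q, (if R p D then g D else 0) ≤ m * ∑ D ∈ Q, g D := by
  rw [Finset.sum_comm, Finset.mul_sum]
  refine Finset.sum_le_sum fun D hD => ?_
  rw [← Finset.sum_filter, Finset.sum_const, nsmul_eq_mul]
  exact mul_le_mul_of_nonneg_right (hm D hD) (hg D hD)

theorem ovConf : OvConfStatement := by
  intro J
  refine ⟨((J : ℝ) + 1) ^ 3 + 2 ^ (3 * J) * (3 * (J : ℝ)) ^ 3, ?_, ?_⟩
  · have h1 : (1 : ℝ) ≤ ((J : ℝ) + 1) ^ 3 := one_le_pow₀ (by linarith [Nat.cast_nonneg (α := ℝ) J])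
    have h2 : (0 : ℝ) ≤ 2 ^ (3 * J) * (3 * (J : ℝ)) ^ 3 := by positivity
    linarith
  intro ι τ _ _ _ _ S E₀ A B δ s hg hv hX
  set N : Finset τ → τ → τ → τ → ℝ := fun C T T' T'' =>
    ∑ D ∈ S.bad, (if (C ⊆ D ∧ T ∈ D ∧ T' ∈ D ∧ T'' ∈ D) then s.yy D else 0) with hN
  have N0 : ∀ C T T' T'', 0 ≤ N C T T' T'' := by
    intro C T T' T''
    refine Finset.sum_nonneg fun D _ => ?_
    split_ifs
    · exact hv.yy_nonneg D
    · exact le_rfl
  have hXi : 0 ≤ S.Xi s := Finset.sum_nonneg fun D _ => hv.yy_nonneg D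
  -- one configuration
  have key : ∀ C ∈ S.conf, s.yy C * ∑ T ∈ C \ s.M, ∑ T' ∈ (C \ s.M).erase T,
      ∑ T'' ∈ S.nt s.M T ∩ S.nt s.M T', s.X T''
      ≤ (J : ℝ) ^ 3 * (δ * s.yy C) + ∑ T : τ, ∑ T' : τ, ∑ T'' : τ, N C T T' T'' := by
    intro C hC
    have hδ : 0 ≤ δ := by
      have h2 : 0 < C.card := lt_of_lt_of_le (by norm_num) (hg.conf_two C hC)
      obtain ⟨T, hT⟩ := Finset.card_pos.1 h2
      exact (hv.X0 T).trans (hX T)
    have hδC : 0 ≤ δ * s.yy C := mul_nonneg hδ (hv.yy_nonneg C)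
    have h0 : ∀ T T' T'', 0 ≤ (if T'' ∈ C then δ * s.yy C else 0) + N C T T' T'' := by
      intro T T' T''
      have := N0 C T T' T''
      split_ifs <;> linarith
    have term : ∀ T ∈ C, ∀ T' ∈ C, T ≠ T' → ∀ T'' ∈ S.nt s.M T ∩ S.nt s.M T',
        s.yy C * s.X T'' ≤ (if T'' ∈ C then δ * s.yy C else 0) + N C T T' T'' := by
      intro T hT T' hT' hne T'' hT''
      have hN0 := N0 C T T' T''
      by_cases hin : T'' ∈ C
      · rw [if_pos hin]
        have : s.yy C * s.X T'' ≤ s.yy C * δ := mul_le_mul_of_nonneg_left (hX T'') (hv.yy_nonneg C)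
        linarith
      · rw [if_neg hin, zero_add]
        obtain ⟨D, hD, hsub, hcov⟩ := conf_bad hg hC hT hT' hne hin
          (Finset.mem_inter.1 hT'').1 (Finset.mem_inter.1 hT'').2
        have e1 : s.yy D = s.y T'' * s.yy C := by
          rw [yy_eq_of hv hg hsub hcov]
          unfold St.yy
          rw [Finset.prod_insert hin]
        have e2 : s.yy C * s.X T'' ≤ s.yy D := by
          rw [e1, mul_comm]
          exact mul_le_mul_of_nonneg_right (Sys.Valid.X_le_y (s := s) T'') (hv.yy_nonneg C)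
        refine e2.trans ?_
        have hcond : C ⊆ D ∧ T ∈ D ∧ T' ∈ D ∧ T'' ∈ D := by
          have h5 : C ⊆ D := (Finset.subset_insert _ _).trans hsub
          exact ⟨h5, h5 hT, h5 hT', hsub (Finset.mem_insert_self _ _)⟩
        have h6 : s.yy D = (if (C ⊆ D ∧ T ∈ D ∧ T' ∈ D ∧ T'' ∈ D) then s.yy D else 0) := by
          rw [if_pos hcond]
        rw [h6]
        exact Finset.single_le_sum
          (f := fun D => (if (C ⊆ D ∧ T ∈ D ∧ T' ∈ D ∧ T'' ∈ D) then s.yy D else 0))
          (fun D' _ => by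
            show 0 ≤ (if (C ⊆ D' ∧ T ∈ D' ∧ T' ∈ D' ∧ T'' ∈ D') then s.yy D' else 0)
            split_ifs
            · exact hv.yy_nonneg D'
            · exact le_rfl) hD
    calc s.yy C * ∑ T ∈ C \ s.M, ∑ T' ∈ (C \ s.M).erase T,
          ∑ T'' ∈ S.nt s.M T ∩ S.nt s.M T', s.X T''
        = ∑ T ∈ C \ s.M, ∑ T' ∈ (C \ s.M).erase T,
          ∑ T'' ∈ S.nt s.M T ∩ S.nt s.M T', s.yy C * s.X T'' := by
          rw [Finset.mul_sum]
          refine Finset.sum_congr rfl fun T _ => ?_
          rw [Finset.mul_sum]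
          refine Finset.sum_congr rfl fun T' _ => ?_
          rw [Finset.mul_sum]
      _ ≤ ∑ T ∈ C \ s.M, ∑ T' ∈ (C \ s.M).erase T,
          ∑ T'' : τ, ((if T'' ∈ C then δ * s.yy C else 0) + N C T T' T'') := by
          refine Finset.sum_le_sum fun T hT => Finset.sum_le_sum fun T' hT' => ?_
          have h1 := (Finset.mem_sdiff.1 hT).1
          have h2 := (Finset.mem_sdiff.1 (Finset.mem_of_mem_erase hT')).1
          have h3 : T ≠ T' := (Finset.ne_of_mem_erase hT').symm
          refine le_trans (Finset.sum_le_sum (fun T'' hT'' => term T h1 T' h2 h3 T'' hT'')) ?_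
          exact Finset.sum_le_sum_of_subset_of_nonneg (Finset.subset_univ _)
            fun T'' _ _ => h0 T T' T''
      _ ≤ ∑ T ∈ C, ∑ T' ∈ C,
          ∑ T'' : τ, ((if T'' ∈ C then δ * s.yy C else 0) + N C T T' T'') := by
          refine le_trans (Finset.sum_le_sum (fun T _ =>
            Finset.sum_le_sum_of_subset_of_nonneg
              ((Finset.erase_subset _ _).trans Finset.sdiff_subset)
              fun T' _ _ => Finset.sum_nonneg fun T'' _ => h0 T T' T'')) ?_
          exact Finset.sum_le_sum_of_subset_of_nonneg Finset.sdiff_subset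
            fun T _ _ => Finset.sum_nonneg fun T' _ => Finset.sum_nonneg fun T'' _ => h0 T T' T''
      _ = ∑ T ∈ C, ∑ T' ∈ C, ∑ T'' : τ, (if T'' ∈ C then δ * s.yy C else 0)
          + ∑ T ∈ C, ∑ T' ∈ C, ∑ T'' : τ, N C T T' T'' := by
          rw [← Finset.sum_add_distrib]
          refine Finset.sum_congr rfl fun T _ => ?_
          rw [← Finset.sum_add_distrib]
          refine Finset.sum_congr rfl fun T' _ => ?_
          rw [← Finset.sum_add_distrib]
      _ ≤ (J : ℝ) ^ 3 * (δ * s.yy C) + ∑ T : τ, ∑ T' : τ, ∑ T'' : τ, N C T T' T'' := by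
          refine add_le_add ?_ ?_
          · have e1 : ∑ T'' : τ, (if T'' ∈ C then δ * s.yy C else 0)
                = (C.card : ℝ) * (δ * s.yy C) := by
              rw [← Finset.sum_filter, Finset.sum_const, nsmul_eq_mul]
              congr 2
              congr 1
              ext x
              simp
            simp only [e1, Finset.sum_const, nsmul_eq_mul]
            have hc : (C.card : ℝ) ≤ (J : ℝ) := by exact_mod_cast hg.conf_card C hC
            have hc0 : (0 : ℝ) ≤ (C.card : ℝ) := Nat.cast_nonneg _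
            have h3 : (C.card : ℝ) ^ 3 ≤ (J : ℝ) ^ 3 := pow_le_pow_left₀ hc0 hc 3
            calc (C.card : ℝ) * ((C.card : ℝ) * ((C.card : ℝ) * (δ * s.yy C)))
                = (C.card : ℝ) ^ 3 * (δ * s.yy C) := by ring
              _ ≤ _ := mul_le_mul_of_nonneg_right h3 hδC
          · refine le_trans (Finset.sum_le_sum (fun T _ =>
              Finset.sum_le_sum_of_subset_of_nonneg (Finset.subset_univ _)
                fun T' _ _ => Finset.sum_nonneg fun T'' _ => N0 C T T' T'')) ?_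
            exact Finset.sum_le_sum_of_subset_of_nonneg (Finset.subset_univ _)
              fun T _ _ => Finset.sum_nonneg fun T' _ => Finset.sum_nonneg fun T'' _ =>
                N0 C T T' T''
  have tot : ∑ C : Finset τ, ∑ T : τ, ∑ T' : τ, ∑ T'' : τ, N C T T' T''
      ≤ 2 ^ (3 * J) * (3 * (J : ℝ)) ^ 3 * S.Xi s := by
    have h1 := double_count (α := Finset τ × τ × τ × τ) S.bad s.yy (fun D _ => hv.yy_nonneg D)
      (fun p D => p.1 ⊆ D ∧ p.2.1 ∈ D ∧ p.2.2.1 ∈ D ∧ p.2.2.2 ∈ D)
      (2 ^ (3 * J) * (3 * (J : ℝ)) ^ 3) (by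
        intro D hD
        have hsub : ((univ : Finset (Finset τ × τ × τ × τ)).filter
            (fun p => p.1 ⊆ D ∧ p.2.1 ∈ D ∧ p.2.2.1 ∈ D ∧ p.2.2.2 ∈ D))
            ⊆ D.powerset ×ˢ D ×ˢ D ×ˢ D := by
          intro p hp
          simp only [Finset.mem_filter, Finset.mem_univ, true_and] at hp
          simp only [Finset.mem_product, Finset.mem_powerset]
          exact hp
        have hc := Finset.card_le_card hsub
        rw [Finset.card_product, Finset.card_product, Finset.card_product,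
          Finset.card_powerset] at hc
        have hD3 := hg.bad_card D hD
        have h2 : 2 ^ D.card * (D.card * (D.card * D.card))
            ≤ 2 ^ (3 * J) * ((3 * J) * ((3 * J) * (3 * J))) := by
          gcongr
          norm_num
        have h3 := hc.trans h2
        have h4 : ((((univ : Finset (Finset τ × τ × τ × τ)).filter
            (fun p => p.1 ⊆ D ∧ p.2.1 ∈ D ∧ p.2.2.1 ∈ D ∧ p.2.2.2 ∈ D)).card : ℕ) : ℝ)
            ≤ ((2 ^ (3 * J) * ((3 * J) * ((3 * J) * (3 * J))) : ℕ) : ℝ) := by exact_mod_cast h3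
        refine h4.trans (le_of_eq ?_)
        push_cast
        ring)
    rw [Fintype.sum_prod_type] at h1
    simp only [Fintype.sum_prod_type] at h1
    exact h1
  calc ∑ C ∈ S.conf, s.yy C * ∑ T ∈ C \ s.M, ∑ T' ∈ (C \ s.M).erase T,
        ∑ T'' ∈ S.nt s.M T ∩ S.nt s.M T', s.X T''
      ≤ ∑ C ∈ S.conf, ((J : ℝ) ^ 3 * (δ * s.yy C)
        + ∑ T : τ, ∑ T' : τ, ∑ T'' : τ, N C T T' T'') := Finset.sum_le_sum key
    _ = (J : ℝ) ^ 3 * (δ * S.Th s) + ∑ C ∈ S.conf, ∑ T : τ, ∑ T' : τ, ∑ T'' : τ, N C T T' T'' := by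
        rw [Finset.sum_add_distrib]
        congr 1
        unfold Sys.Th
        rw [Finset.mul_sum, Finset.mul_sum]
    _ ≤ (J : ℝ) ^ 3 * (δ * S.Th s) + 2 ^ (3 * J) * (3 * (J : ℝ)) ^ 3 * S.Xi s := by
        refine add_le_add le_rfl (le_trans ?_ tot)
        exact Finset.sum_le_sum_of_subset_of_nonneg (Finset.subset_univ _)
          fun C _ _ => Finset.sum_nonneg fun T _ => Finset.sum_nonneg fun T' _ =>
            Finset.sum_nonneg fun T'' _ => N0 C T T' T''
    _ ≤ (((J : ℝ) + 1) ^ 3 + 2 ^ (3 * J) * (3 * (J : ℝ)) ^ 3) * (δ * S.Th s + S.Xi s) := by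
        have hTh : 0 ≤ δ * S.Th s := by
          unfold Sys.Th
          rw [Finset.mul_sum]
          refine Finset.sum_nonneg fun C hC => ?_
          have h2 : 0 < C.card := lt_of_lt_of_le (by norm_num) (hg.conf_two C hC)
          obtain ⟨T, hT⟩ := Finset.card_pos.1 h2
          exact mul_nonneg ((hv.X0 T).trans (hX T)) (hv.yy_nonneg C)
        have hJ : (0 : ℝ) ≤ J := Nat.cast_nonneg _
        have h1 : (J : ℝ) ^ 3 ≤ ((J : ℝ) + 1) ^ 3 := pow_le_pow_left₀ hJ (by linarith) 3
        have h2 : (0 : ℝ) ≤ 2 ^ (3 * J) * (3 * (J : ℝ)) ^ 3 := by positivity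
        have h3 : (0 : ℝ) ≤ ((J : ℝ) + 1) ^ 3 := by positivity
        have h4 := mul_le_mul_of_nonneg_right h1 hTh
        have h5 := mul_nonneg h2 hTh
        have h6 := mul_nonneg h3 hXi
        linarith

theorem ovPair : OvPairStatement := by
  intro J
  refine ⟨1 + 3 * (3 * (J : ℝ)) ^ 4, ?_, ?_⟩
  · have h2 : (0 : ℝ) ≤ 3 * (3 * (J : ℝ)) ^ 4 := by positivity
    linarith
  intro ι τ _ _ _ _ S E₀ A B s hg hv
  set N : ι → τ → τ → τ → ℝ := fun e T T' T'' =>
    ∑ D ∈ S.bad, (if (e ∈ S.ed T ∧ T ∈ D ∧ T' ∈ D ∧ T'' ∈ D) then s.yy D else 0) with hN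
  have N0 : ∀ e T T' T'', 0 ≤ N e T T' T'' := by
    intro e T T' T''
    refine Finset.sum_nonneg fun D _ => ?_
    split_ifs
    · exact hv.yy_nonneg D
    · exact le_rfl
  have hXi : 0 ≤ S.Xi s := Finset.sum_nonneg fun D _ => hv.yy_nonneg D
  have term : ∀ e T T' T'', e ∈ S.ed T → e ∈ S.ed T' → T ≠ T' → e ∉ S.ed T'' →
      T'' ∈ S.nt s.M T → T'' ∈ S.nt s.M T' → s.X T * s.X T' * s.X T'' ≤ N e T T' T'' := by
    intro e T T' T'' hT hT' hne h'' h1 h2
    have hN0 := N0 e T T' T''
    by_cases hM : T ∈ s.M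
    · rw [hv.X_of_mem_M hg hM, zero_mul, zero_mul]
      exact hN0
    by_cases hM' : T' ∈ s.M
    · rw [hv.X_of_mem_M hg hM', mul_zero, zero_mul]
      exact hN0
    obtain ⟨D, hD, hsub, hcov⟩ := pair_bad hg hT hT' hne h'' hM hM' h1 h2
    have n1 : T'' ≠ T := by rintro rfl; exact h'' hT
    have n2 : T'' ≠ T' := by rintro rfl; exact h'' hT'
    have e1 : s.yy D = s.y T * (s.y T' * s.y T'') := by
      rw [yy_eq_of hv hg hsub hcov]
      unfold St.yy
      rw [Finset.prod_insert (by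
          simp only [Finset.mem_insert, Finset.mem_singleton, not_or]
          exact ⟨hne, n1.symm⟩),
        Finset.prod_insert (by
          simp only [Finset.mem_singleton]
          exact n2.symm), Finset.prod_singleton]
    have e2 : s.X T * s.X T' * s.X T'' ≤ s.yy D := by
      rw [e1, mul_assoc]
      refine mul_le_mul (Sys.Valid.X_le_y T) ?_ (mul_nonneg (hv.X0 _) (hv.X0 _)) (hv.y_nonneg T)
      exact mul_le_mul (Sys.Valid.X_le_y T') (Sys.Valid.X_le_y T'') (hv.X0 _) (hv.y_nonneg T')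
    refine e2.trans ?_
    have hcond : e ∈ S.ed T ∧ T ∈ D ∧ T' ∈ D ∧ T'' ∈ D := by
      refine ⟨hT, hsub ?_, hsub ?_, hsub ?_⟩ <;> simp
    have h6 : s.yy D = (if (e ∈ S.ed T ∧ T ∈ D ∧ T' ∈ D ∧ T'' ∈ D) then s.yy D else 0) := by
      rw [if_pos hcond]
    rw [h6]
    exact Finset.single_le_sum
      (f := fun D => (if (e ∈ S.ed T ∧ T ∈ D ∧ T' ∈ D ∧ T'' ∈ D) then s.yy D else 0))
      (fun D' _ => by
        show 0 ≤ (if (e ∈ S.ed T ∧ T ∈ D' ∧ T' ∈ D' ∧ T'' ∈ D') then s.yy D' else 0)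
        split_ifs
        · exact hv.yy_nonneg D'
        · exact le_rfl) hD
  have tot : ∑ e : ι, ∑ T : τ, ∑ T' : τ, ∑ T'' : τ, N e T T' T''
      ≤ 3 * (3 * (J : ℝ)) ^ 4 * S.Xi s := by
    have h1 := double_count (α := ι × τ × τ × τ) S.bad s.yy (fun D _ => hv.yy_nonneg D)
      (fun p D => p.1 ∈ S.ed p.2.1 ∧ p.2.1 ∈ D ∧ p.2.2.1 ∈ D ∧ p.2.2.2 ∈ D)
      (3 * (3 * (J : ℝ)) ^ 4) (by
        intro D hD
        have hsub : ((univ : Finset (ι × τ × τ × τ)).filter
            (fun p => p.1 ∈ S.ed p.2.1 ∧ p.2.1 ∈ D ∧ p.2.2.1 ∈ D ∧ p.2.2.2 ∈ D))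
            ⊆ (D.biUnion S.ed) ×ˢ D ×ˢ D ×ˢ D := by
          intro p hp
          simp only [Finset.mem_filter, Finset.mem_univ, true_and] at hp
          simp only [Finset.mem_product, Finset.mem_biUnion]
          exact ⟨⟨p.2.1, hp.2.1, hp.1⟩, hp.2⟩
        have hc := Finset.card_le_card hsub
        rw [Finset.card_product, Finset.card_product, Finset.card_product] at hc
        have hD3 := hg.bad_card D hD
        have hb : (D.biUnion S.ed).card ≤ D.card * 3 :=
          Finset.card_biUnion_le_card_mul D S.ed 3 fun T _ => (hg.card_ed T).le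
        have h2 : (D.biUnion S.ed).card * (D.card * (D.card * D.card))
            ≤ (3 * J * 3) * ((3 * J) * ((3 * J) * (3 * J))) := by
          refine Nat.mul_le_mul (hb.trans (Nat.mul_le_mul_right 3 hD3)) ?_
          gcongr
        have h3 := hc.trans h2
        have h4 : ((((univ : Finset (ι × τ × τ × τ)).filter
            (fun p => p.1 ∈ S.ed p.2.1 ∧ p.2.1 ∈ D ∧ p.2.2.1 ∈ D ∧ p.2.2.2 ∈ D)).card : ℕ) : ℝ)
            ≤ (((3 * J * 3) * ((3 * J) * ((3 * J) * (3 * J))) : ℕ) : ℝ) := by exact_mod_cast h3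
        refine h4.trans (le_of_eq ?_)
        push_cast
        ring)
    rw [Fintype.sum_prod_type] at h1
    simp only [Fintype.sum_prod_type] at h1
    exact h1
  calc ∑ e ∈ s.E, ∑ T ∈ S.star e, ∑ T' ∈ (S.star e).erase T,
        s.X T * s.X T' * ∑ T'' ∈ (S.nt s.M T ∩ S.nt s.M T') \ S.star e, s.X T''
      ≤ ∑ e ∈ s.E, ∑ T ∈ S.star e, ∑ T' ∈ (S.star e).erase T, ∑ T'' : τ, N e T T' T'' := by
        refine Finset.sum_le_sum fun e _ => Finset.sum_le_sum fun T hT =>
          Finset.sum_le_sum fun T' hT' => ?_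
        rw [Finset.mul_sum]
        have h1 := mem_star.1 hT
        have h2 := mem_star.1 (Finset.mem_of_mem_erase hT')
        have h3 : T ≠ T' := (Finset.ne_of_mem_erase hT').symm
        refine le_trans (Finset.sum_le_sum (fun T'' hT'' => term e T T' T'' h1 h2 h3
          (fun h => (Finset.mem_sdiff.1 hT'').2 (mem_star.2 h))
          (Finset.mem_inter.1 (Finset.mem_sdiff.1 hT'').1).1
          (Finset.mem_inter.1 (Finset.mem_sdiff.1 hT'').1).2)) ?_
        exact Finset.sum_le_sum_of_subset_of_nonneg (Finset.subset_univ _)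
          fun T'' _ _ => N0 e T T' T''
    _ ≤ ∑ e ∈ s.E, ∑ T ∈ S.star e, ∑ T' : τ, ∑ T'' : τ, N e T T' T'' := by
        refine Finset.sum_le_sum fun e _ => Finset.sum_le_sum fun T _ => ?_
        exact Finset.sum_le_sum_of_subset_of_nonneg (Finset.subset_univ _)
          fun T' _ _ => Finset.sum_nonneg fun T'' _ => N0 e T T' T''
    _ ≤ ∑ e ∈ s.E, ∑ T : τ, ∑ T' : τ, ∑ T'' : τ, N e T T' T'' := by
        refine Finset.sum_le_sum fun e _ => ?_
        exact Finset.sum_le_sum_of_subset_of_nonneg (Finset.subset_univ _)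
          fun T _ _ => Finset.sum_nonneg fun T' _ => Finset.sum_nonneg fun T'' _ => N0 e T T' T''
    _ ≤ ∑ e : ι, ∑ T : τ, ∑ T' : τ, ∑ T'' : τ, N e T T' T'' :=
        Finset.sum_le_sum_of_subset_of_nonneg (Finset.subset_univ _)
          fun e _ _ => Finset.sum_nonneg fun T _ => Finset.sum_nonneg fun T' _ =>
            Finset.sum_nonneg fun T'' _ => N0 e T T' T''
    _ ≤ 3 * (3 * (J : ℝ)) ^ 4 * S.Xi s := tot
    _ ≤ (1 + 3 * (3 * (J : ℝ)) ^ 4) * S.Xi s := by linarith

end F1.Overlap
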