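import Mathlib
import Pool.Agent.F1.Statements
import Pool.Agent.NW.NibbleOfLin

/-!
# Project F1: the combinatorial axioms hold for triples (`GoodStatement`)

`f(D) = |vs D| - |D|` is submodular up to the common vertices; configurations are the minimal
sets with `f = 2`, bad structures have `f ≤ 1`.
-/

set_option autoImplicit false
set_option linter.unusedSectionVars false

namespace F1

open Finset

namespace TriGood

variable {V : Type} [Fintype V] [DecidableEq V]

theorem vs_union (C D : Finset (Tri V)) : vs (C ∪ D) = vs C ∪ vs D := by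
  ext v
  simp only [vs, Finset.mem_biUnion, Finset.mem_union]
  constructor
  · rintro ⟨T, h | h, hv⟩
    · exact Or.inl ⟨T, h, hv⟩
    · exact Or.inr ⟨T, h, hv⟩
  · rintro (⟨T, h, hv⟩ | ⟨T, h, hv⟩)
    · exact ⟨T, Or.inl h, hv⟩
    · exact ⟨T, Or.inr h, hv⟩

theorem vs_mono {C D : Finset (Tri V)} (h : C ⊆ D) : vs C ⊆ vs D := by
  intro v hv
  simp only [vs, Finset.mem_biUnion] at hv ⊢
  obtain ⟨T, hT, hv⟩ := hv
  exact ⟨T, h hT, hv⟩

theorem sub_vs {C : Finset (Tri V)} {T : Tri V} (h : T ∈ C) : T.1 ⊆ vs C := by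
  intro v hv
  simp only [vs, Finset.mem_biUnion]
  exact ⟨T, h, hv⟩

theorem vs_inter_sub (C D : Finset (Tri V)) : vs (C ∩ D) ⊆ vs C ∩ vs D :=
  Finset.subset_inter (vs_mono Finset.inter_subset_left) (vs_mono Finset.inter_subset_right)

/-- submodularity with `m` extra common vertices -/
theorem submod {C D : Finset (Tri V)} {m : ℕ} (h : (C ∩ D).card + m ≤ (vs C ∩ vs D).card) :
    (vs (C ∪ D)).card + m + C.card + D.card ≤ (vs C).card + (vs D).card + (C ∪ D).card := by
  have h1 := Finset.card_union_add_card_inter (vs C) (vs D)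
  have h2 := Finset.card_union_add_card_inter C D
  rw [vs_union]
  omega

theorem conf_iff {J : ℕ} {C : Finset (Tri V)} : C ∈ (triSys V J).conf ↔
    (3 ≤ C.card ∧ C.card ≤ J ∧
    (∀ T ∈ C, ∀ T' ∈ C, T ≠ T' → Disjoint (NW.edg T.1) (NW.edg T'.1)) ∧
    (vs C).card = C.card + 2 ∧ ∀ D ⊆ C, D ≠ C → 2 ≤ D.card → D.card + 3 ≤ (vs D).card) := by
  show C ∈ univ.filter _ ↔ _
  rw [Finset.mem_filter]
  exact ⟨fun h => h.2, fun h => ⟨Finset.mem_univ _, h⟩⟩

theorem bad_iff {J : ℕ} {D : Finset (Tri V)} : D ∈ (triSys V J).bad ↔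
    (1 ≤ D.card ∧ D.card ≤ 3 * J ∧ (vs D).card ≤ D.card + 1) := by
  show D ∈ univ.filter _ ↔ _
  rw [Finset.mem_filter]
  exact ⟨fun h => h.2, fun h => ⟨Finset.mem_univ _, h⟩⟩

/-- adding a configuration which meets `D` in at least two members -/
theorem add_conf {J : ℕ} {C D : Finset (Tri V)} (hC : C ∈ (triSys V J).conf)
    (hD : (vs D).card ≤ D.card + 1) (h2 : 2 ≤ (D ∩ C).card) :
    (vs (D ∪ C)).card ≤ (D ∪ C).card + 1 := by
  obtain ⟨_, _, _, hc, hm⟩ := conf_iff.1 hC
  by_cases hsub : D ∩ C = C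
  · have : C ⊆ D := by rw [← hsub]; exact Finset.inter_subset_left
    rw [Finset.union_eq_left.2 this]
    exact hD
  · have h3 := hm (D ∩ C) Finset.inter_subset_right hsub h2
    have h4 := Finset.card_le_card (vs_inter_sub D C)
    have h5 := submod (C := D) (D := C) (m := 3) (by omega)
    omega

/-- two different configurations with at least two common members -/
theorem two_conf {J : ℕ} {C D : Finset (Tri V)} (hC : C ∈ (triSys V J).conf)
    (hD : D ∈ (triSys V J).conf) (hne : C ≠ D) (h2 : 2 ≤ (C ∩ D).card) :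
    (vs (C ∪ D)).card ≤ (C ∪ D).card + 1 := by
  obtain ⟨_, _, _, hc, hm⟩ := conf_iff.1 hC
  obtain ⟨_, _, _, hc', hm'⟩ := conf_iff.1 hD
  have hsub : C ∩ D ≠ C := by
    intro h
    have h1 : C ⊆ D := by rw [← h]; exact Finset.inter_subset_right
    rw [h] at h2
    have := hm' C h1 hne h2
    omega
  have h3 := hm (C ∩ D) Finset.inter_subset_left hsub h2
  have h4 := Finset.card_le_card (vs_inter_sub C D)
  have h5 := submod (C := C) (D := D) (m := 3) (by omega)
  omega

/-- a triple with two different edges inside `U` lies in `U` -/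
theorem sub_of_two {T : Finset V} (hT : T.card = 3) {U : Finset V} {e f : Sym2 V}
    (he : e ∈ NW.edg T) (hf : f ∈ NW.edg T) (hef : e ≠ f) (heU : e ∈ NW.edg U)
    (hfU : f ∈ NW.edg U) : T ⊆ U := by
  by_contra hcon
  have h1 : (T ∩ U).card ≤ 2 := by
    by_contra h
    push Not at h
    have : T ∩ U = T := Finset.eq_of_subset_of_card_le Finset.inter_subset_left (by omega)
    exact hcon (by rw [← this]; exact Finset.inter_subset_right)
  have h2 := NW.card_edg_le_one h1
  rw [← NW.edg_inter, Finset.card_le_one] at h2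
  exact hef (h2 e (Finset.mem_inter.2 ⟨he, heU⟩) f (Finset.mem_inter.2 ⟨hf, hfU⟩))

end TriGood

open TriGood in
theorem good : GoodStatement := by
  intro V _ _ J hJ
  refine
    { card_ed := fun T => NW.card_edg_three T.2
      lin := fun T T' h => NW.edg_lin T.2 T'.2 (fun h' => h (Subtype.ext h'))
      conf_two := fun C hC => by
        have := (conf_iff.1 hC).1
        omega
      conf_card := fun C hC => (conf_iff.1 hC).2.1
      conf_disj := fun C hC => (conf_iff.1 hC).2.2.1
      bad_card := fun D hD => (bad_iff.1 hD).2.1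
      b1 := ?_
      b2 := ?_
      b3 := ?_
      b5 := ?_ }
  · -- b1
    intro T T' T'' hne e he he'' h1 h2
    rw [Finset.mem_inter] at he
    have hT1 : T'' ≠ T := fun h => he'' (h ▸ he.1)
    have hT2 : T'' ≠ T' := fun h => he'' (h ▸ he.2)
    have hcard : ({T, T', T''} : Finset (Tri V)).card = 3 :=
      Finset.card_eq_three.2 ⟨T, T', T'', hne, hT1.symm, hT2.symm, rfl⟩
    -- the two edges of `T''`
    obtain ⟨e1, he1, he1'⟩ := Finset.not_disjoint_iff.1 h1
    obtain ⟨e2, he2, he2'⟩ := Finset.not_disjoint_iff.1 h2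
    have hlin : ∀ f, f ∈ NW.edg T.1 → f ∈ NW.edg T'.1 → f = e := by
      intro f hf hf'
      have := NW.edg_lin T.2 T'.2 (fun h' => hne (Subtype.ext h'))
      rw [Finset.card_le_one] at this
      exact this f (Finset.mem_inter.2 ⟨hf, hf'⟩) e (Finset.mem_inter.2 he)
    have h12 : e1 ≠ e2 := by
      rintro rfl
      exact he'' (hlin e1 he1' he2' ▸ he1)
    have hmono : ∀ {A B : Finset V}, A ⊆ B → NW.edg A ⊆ NW.edg B := by
      intro A B hAB f hf
      rw [NW.mem_edg] at hf ⊢
      exact ⟨fun v hv => hAB (hf.1 v hv), hf.2⟩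
    have hsub : T''.1 ⊆ T.1 ∪ T'.1 :=
      sub_of_two T''.2 he1 he2 h12 (hmono Finset.subset_union_left he1')
        (hmono Finset.subset_union_right he2')
    have hvs : vs ({T, T', T''} : Finset (Tri V)) ⊆ T.1 ∪ T'.1 := by
      intro v hv
      simp only [vs, Finset.mem_biUnion, Finset.mem_insert, Finset.mem_singleton] at hv
      obtain ⟨S, rfl | rfl | rfl, hv⟩ := hv
      · exact Finset.mem_union_left _ hv
      · exact Finset.mem_union_right _ hv
      · exact hsub hv
    have hint : 2 ≤ (T.1 ∩ T'.1).card := by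
      by_contra h
      push Not at h
      have h0 : NW.edg (T.1 ∩ T'.1) = ∅ := by
        rw [Finset.eq_empty_iff_forall_notMem]
        intro f hf
        induction f using Sym2.ind with
        | _ a b =>
          obtain ⟨ha, hb, hab⟩ := NW.mk_mem_edg.1 hf
          exact hab (Finset.card_le_one.1 (by omega) a ha b hb)
      have h1 : e ∈ NW.edg (T.1 ∩ T'.1) := by
        rw [← NW.edg_inter]; exact Finset.mem_inter.2 he
      rw [h0] at h1
      exact absurd h1 (Finset.notMem_empty e)
    have h3 := Finset.card_le_card hvs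
    have h4 := Finset.card_union_add_card_inter T.1 T'.1
    have h5 := T.2
    have h6 := T'.2
    rw [bad_iff]
    refine ⟨by omega, by omega, by omega⟩
  · -- b2
    intro C hC T₁ hT₁ T₂ hT₂ hne T hT h1 h2
    obtain ⟨hc3, hcJ, hdis, hc, hm⟩ := conf_iff.1 hC
    obtain ⟨e1, he1, he1'⟩ := Finset.not_disjoint_iff.1 h1
    obtain ⟨e2, he2, he2'⟩ := Finset.not_disjoint_iff.1 h2
    have h12 : e1 ≠ e2 := by
      rintro rfl
      exact Finset.disjoint_left.1 (hdis T₁ hT₁ T₂ hT₂ hne) he1' he2'
    have hmono : ∀ {A B : Finset V}, A ⊆ B → NW.edg A ⊆ NW.edg B := by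
      intro A B hAB f hf
      rw [NW.mem_edg] at hf ⊢
      exact ⟨fun v hv => hAB (hf.1 v hv), hf.2⟩
    have hsub : T.1 ⊆ vs C :=
      sub_of_two T.2 he1 he2 h12 (hmono (sub_vs hT₁) he1') (hmono (sub_vs hT₂) he2')
    have hvs : vs (insert T C) ⊆ vs C := by
      intro v hv
      simp only [vs, Finset.mem_biUnion, Finset.mem_insert] at hv
      obtain ⟨S, rfl | hS, hv⟩ := hv
      · exact hsub hv
      · exact sub_vs hS hv
    have h3 := Finset.card_le_card hvs
    have h4 : (insert T C).card = C.card + 1 := Finset.card_insert_of_notMem hT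
    rw [bad_iff]
    refine ⟨by omega, by omega, by omega⟩
  · -- b3
    intro C hC C' hC' hne T hT T₁ hT₁ T₂ hT₂ h12 hmeet
    obtain ⟨hc3, hcJ, hdis, hc, hm⟩ := conf_iff.1 hC
    obtain ⟨hc3', hcJ', hdis', hc', hm'⟩ := conf_iff.1 hC'
    rw [Finset.mem_inter] at hT
    have hu := Finset.card_union_le C C'
    have hpos : 1 ≤ (C ∪ C').card :=
      Finset.card_pos.2 ⟨T, Finset.mem_union_left _ hT.1⟩
    rw [bad_iff]
    refine ⟨hpos, by omega, ?_⟩
    by_cases h2 : 2 ≤ (C ∩ C').card
    · exact two_conf hC hC' hne h2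
    · have h1 : (C ∩ C').card ≤ 1 := by omega
      obtain ⟨e, he, he'⟩ := Finset.not_disjoint_iff.1 hmeet
      have heT : e ∉ NW.edg T.1 := by
        intro h
        have a1 : T₁ = T := by
          by_contra hcon
          exact Finset.disjoint_left.1 (hdis T₁ hT₁ T hT.1 hcon) he h
        have a2 : T₂ = T := by
          by_contra hcon
          exact Finset.disjoint_left.1 (hdis' T₂ hT₂ T hT.2 hcon) he' h
        exact h12 (a1.trans a2.symm)
      obtain ⟨x, hxe, hxT⟩ : ∃ x ∈ e, x ∉ T.1 := by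
        by_contra hcon
        push Not at hcon
        exact heT (NW.mem_edg.2 ⟨hcon, (NW.mem_edg.1 he).2⟩)
      have hins : insert x T.1 ⊆ vs C ∩ vs C' := by
        intro v hv
        rcases Finset.mem_insert.1 hv with rfl | hv
        · exact Finset.mem_inter.2 ⟨sub_vs hT₁ ((NW.mem_edg.1 he).1 _ hxe),
            sub_vs hT₂ ((NW.mem_edg.1 he').1 _ hxe)⟩
        · exact Finset.mem_inter.2 ⟨sub_vs hT.1 hv, sub_vs hT.2 hv⟩
      have h3 := Finset.card_le_card hins
      rw [Finset.card_insert_of_notMem hxT, T.2] at h3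
      have h5 := submod (C := C) (D := C') (m := 3) (by omega)
      omega
  · -- b5
    intro C hC C' hC' C'' hC'' T hT T' hT' T'' hT'' hne hTC
    obtain ⟨hc3, hcJ, hdis, hc, hm⟩ := conf_iff.1 hC
    obtain ⟨hc3', hcJ', hdis', hc', hm'⟩ := conf_iff.1 hC'
    obtain ⟨hc3'', hcJ'', hdis'', hc'', hm''⟩ := conf_iff.1 hC''
    rw [Finset.mem_inter] at hT hT' hT''
    have hu := Finset.card_union_le (C ∪ C') C''
    have hu' := Finset.card_union_le C C'
    have hpos : 1 ≤ (C ∪ C' ∪ C'').card :=
      Finset.card_pos.2 ⟨T, Finset.mem_union_left _ (Finset.mem_union_left _ hT.1)⟩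
    rw [bad_iff]
    refine ⟨hpos, by omega, ?_⟩
    have hTT'' : T ≠ T'' := fun h => hTC (h ▸ hT.1)
    have hT'T'' : T' ≠ T'' := fun h => hTC (h ▸ hT'.1)
    have hCC' : C ≠ C' := fun h => hTC (h ▸ hT''.1)
    have hCC'' : C ≠ C'' := fun h => hTC (h ▸ hT''.2)
    have pair : ∀ {S : Finset (Tri V)} {A B : Tri V}, A ∈ S → B ∈ S → A ≠ B → 2 ≤ S.card := by
      intro S A B hA hB hAB
      have : ({A, B} : Finset (Tri V)) ⊆ S := by
        intro X hX
        rcases Finset.mem_insert.1 hX with rfl | hX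
        · exact hA
        · rw [Finset.mem_singleton.1 hX]; exact hB
      have h := Finset.card_le_card this
      rwa [Finset.card_pair hAB] at h
    by_cases h1 : 2 ≤ (C ∩ C').card
    · refine add_conf hC'' (two_conf hC hC' hCC' h1) ?_
      exact pair (Finset.mem_inter.2 ⟨Finset.mem_union_left _ hT'.1, hT'.2⟩)
        (Finset.mem_inter.2 ⟨Finset.mem_union_right _ hT''.1, hT''.2⟩) hT'T''
    by_cases h2 : 2 ≤ (C ∩ C'').card
    · have h3 := add_conf hC' (two_conf hC hC'' hCC'' h2)
        (pair (Finset.mem_inter.2 ⟨Finset.mem_union_left _ hT.1, hT.2⟩)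
        (Finset.mem_inter.2 ⟨Finset.mem_union_right _ hT''.2, hT''.1⟩) hTT'')
      have h4 : C ∪ C'' ∪ C' = C ∪ C' ∪ C'' := by
        rw [Finset.union_assoc, Finset.union_comm C'' C', ← Finset.union_assoc]
      rwa [h4] at h3
    have hC'C'' : C' ≠ C'' := by
      rintro rfl
      exact h1 (pair (Finset.mem_inter.2 ⟨hT.1, hT.2⟩) (Finset.mem_inter.2 ⟨hT'.1, hT'.2⟩) hne)
    by_cases h3 : 2 ≤ (C' ∩ C'').card
    · have h4 := add_conf hC (two_conf hC' hC'' hC'C'' h3)
        (pair (Finset.mem_inter.2 ⟨Finset.mem_union_left _ hT.2, hT.1⟩)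
        (Finset.mem_inter.2 ⟨Finset.mem_union_right _ hT'.2, hT'.1⟩) hne)
      have h5 : C' ∪ C'' ∪ C = C ∪ C' ∪ C'' := by
        rw [Finset.union_comm, ← Finset.union_assoc]
      rwa [h5] at h4
    -- all pairwise intersections are single
    have hi1 : 3 ≤ (vs C ∩ vs C').card := by
      have : T.1 ⊆ vs C ∩ vs C' := Finset.subset_inter (sub_vs hT.1) (sub_vs hT.2)
      have h := Finset.card_le_card this
      rwa [T.2] at h
    have hf1 := submod (C := C) (D := C') (m := 2) (by omega)
    have hint : (C ∪ C') ∩ C'' = {T', T''} := by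
      ext X
      rw [Finset.mem_inter, Finset.mem_union, Finset.mem_insert, Finset.mem_singleton]
      constructor
      · rintro ⟨hX | hX, hX''⟩
        · left
          exact Finset.card_le_one.1 (by omega : (C ∩ C'').card ≤ 1) X
            (Finset.mem_inter.2 ⟨hX, hX''⟩) T' (Finset.mem_inter.2 hT')
        · right
          exact Finset.card_le_one.1 (by omega : (C' ∩ C'').card ≤ 1) X
            (Finset.mem_inter.2 ⟨hX, hX''⟩) T'' (Finset.mem_inter.2 hT'')
      · rintro (rfl | rfl)
        · exact ⟨Or.inl hT'.1, hT'.2⟩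
        · exact ⟨Or.inr hT''.1, hT''.2⟩
    have hcard2 : ((C ∪ C') ∩ C'').card = 2 := by rw [hint, Finset.card_pair hT'T'']
    have h6 := hm'' ((C ∪ C') ∩ C'') Finset.inter_subset_right
      (fun h => by rw [h] at hcard2; omega) (by omega)
    have h7 := Finset.card_le_card (vs_inter_sub (C ∪ C') C'')
    have h8 := submod (C := C ∪ C') (D := C'') (m := 3) (by omega)
    omega

end F1
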