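import Mathlib
import Pool.Agent.F1.Statements
import Pool.Agent.F1.TriGood

/-!
# Project F1: no configuration means high girth (`GirthStatement`)

A smallest set `D` of at least two members of `M` with `|vs D| ≤ |D| + 2` is a configuration.
-/

set_option autoImplicit false
set_option linter.unusedSectionVars false

namespace F1

open Finset

namespace TriGirth

variable {V : Type} [Fintype V] [DecidableEq V]

/-- two edge-disjoint triples have at most one common vertex -/
theorem inter_le_one {T T' : Finset V} (h : Disjoint (NW.edg T) (NW.edg T')) :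
    (T ∩ T').card ≤ 1 := by
  rw [Finset.card_le_one]
  intro a ha b hb
  by_contra hab
  rw [Finset.mem_inter] at ha hb
  exact Finset.disjoint_left.1 h (NW.mk_mem_edg.2 ⟨ha.1, hb.1, hab⟩)
    (NW.mk_mem_edg.2 ⟨ha.2, hb.2, hab⟩)

/-- two edge-disjoint triples have at least five vertices -/
theorem two_vs {D : Finset (Tri V)} (h2 : D.card = 2)
    (hD : ∀ T ∈ D, ∀ T' ∈ D, T ≠ T' → Disjoint (NW.edg T.1) (NW.edg T'.1)) :
    5 ≤ (vs D).card := by
  obtain ⟨T, T', hne, rfl⟩ := Finset.card_eq_two.1 h2
  have h := inter_le_one (hD T (by simp) T' (by simp) hne)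
  have h1 : T.1 ∪ T'.1 ⊆ vs ({T, T'} : Finset (Tri V)) :=
    Finset.union_subset (TriGood.sub_vs (by simp)) (TriGood.sub_vs (by simp))
  have h3 := Finset.card_le_card h1
  have h4 := Finset.card_union_add_card_inter T.1 T'.1
  have h5 := T.2
  have h6 := T'.2
  omega

end TriGirth

open TriGirth in
/-- no configuration means girth at least `J + 3` -/
theorem girth : GirthStatement := by
  intro V _ _ J M hM hconf U hU4 hUJ
  by_contra hcon
  push Not at hcon
  obtain ⟨D₀, hD₀, hD₀c⟩ := Finset.exists_subset_card_eq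
    (show U.card - 2 ≤ (M.filter (fun T => T.1 ⊆ U)).card by omega)
  have hP₀ : D₀ ⊆ M ∧ 2 ≤ D₀.card ∧ D₀.card ≤ J ∧ (vs D₀).card ≤ D₀.card + 2 := by
    refine ⟨hD₀.trans (Finset.filter_subset _ _), by omega, by omega, ?_⟩
    have : vs D₀ ⊆ U := by
      intro v hv
      simp only [vs, Finset.mem_biUnion] at hv
      obtain ⟨T, hT, hv⟩ := hv
      exact (Finset.mem_filter.1 (hD₀ hT)).2 hv
    have := Finset.card_le_card this
    omega
  obtain ⟨D, hD, hmin⟩ := Finset.exists_min_image
    (univ.filter (fun D : Finset (Tri V) =>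
      D ⊆ M ∧ 2 ≤ D.card ∧ D.card ≤ J ∧ (vs D).card ≤ D.card + 2)) Finset.card
    ⟨D₀, Finset.mem_filter.2 ⟨Finset.mem_univ _, hP₀⟩⟩
  obtain ⟨_, hDM, hD2, hDJ, hDv⟩ := Finset.mem_filter.1 hD
  have hsub : ∀ D' ⊆ D, D' ≠ D → 2 ≤ D'.card → D'.card + 3 ≤ (vs D').card := by
    intro D' hD' hne h2
    by_contra h
    push Not at h
    have hlt : D'.card < D.card := Finset.card_lt_card (hD'.ssubset_of_ne hne)
    have := hmin D' (Finset.mem_filter.2
      ⟨Finset.mem_univ _, hD'.trans hDM, h2, by omega, by omega⟩)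
    omega
  have hdis : ∀ T ∈ D, ∀ T' ∈ D, T ≠ T' → Disjoint (NW.edg T.1) (NW.edg T'.1) :=
    fun T hT T' hT' => hM T (hDM hT) T' (hDM hT')
  have h3 : 3 ≤ D.card := by
    by_contra h
    have := two_vs (D := D) (by omega) hdis
    omega
  have heq : (vs D).card = D.card + 2 := by
    obtain ⟨T, hT⟩ := Finset.card_pos.1 (show 0 < D.card by omega)
    have h1 := Finset.card_erase_of_mem hT
    have h4 := hsub (D.erase T) (Finset.erase_subset _ _)
      (fun h => by rw [h] at h1; omega) (by omega)
    have h5 := Finset.card_le_card (TriGood.vs_mono (Finset.erase_subset T D))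
    omega
  exact hconf D (TriGood.conf_iff.2 ⟨h3, hDJ, hdis, heq, hsub⟩) hDM

end F1
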