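import Mathlib
import Pool.Agent.F1.Basic

/-!
# Project F1: the state after a bite is valid, the seven quantities are nonnegative
-/

set_option autoImplicit false
set_option linter.unusedSectionVars false

namespace F1.Valid

open Finset NWC F1

section

variable {ι τ : Type} [Fintype ι] [Fintype τ] [DecidableEq ι] [DecidableEq τ]
variable {S : Sys ι τ} {J : ℕ} {E₀ : Finset ι} {θ A B δ : ℝ} {s : St ι τ}

theorem mem_newM {ω : τ ⊕ ι → Bool} {T : τ} : T ∈ newM ω ↔ ω (Sum.inl T) = true := by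
  simp [newM]

/-- a chosen hyperedge whose coin is dangerous kills -/
theorem X1_eq_zero_of_new {ω : τ ⊕ ι → Bool} {T T' : τ} (hT' : T' ∈ newM ω)
    (hnt : T' ∈ S.nt s.M T) : S.X1 θ A s ω T = 0 := by
  unfold Sys.X1
  refine if_neg ?_
  intro hoff
  have h1 := hoff (Sum.inl T') (by
    unfold Sys.nb
    rw [Finset.inl_mem_disjSum]
    exact hnt)
  rw [mem_newM.1 hT'] at h1
  exact absurd h1 (by simp)

theorem valid_nxt (h : S.Ctx J E₀ θ A B δ s) (ω : τ ⊕ ι → Bool) (hω : 0 < S.wt θ A s ω) :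
    S.Valid E₀ A (B / (1 - θ) ^ 2) (S.nxt θ A s ω) := by
  have hX2pos : ∀ T, 0 < S.X2 θ A s ω T → 0 < S.X1 θ A s ω T := fun T hT =>
    hT.trans_le (h.X2_le_X1 ω T)
  have hX2zero : ∀ T, S.X1 θ A s ω T = 0 → S.X2 θ A s ω T = 0 := fun T hT =>
    le_antisymm ((h.X2_le_X1 ω T).trans (le_of_eq hT)) (h.X2_nonneg ω T)
  have hF : ∀ C ∈ S.conf, C ∉ (S.nxt θ A s ω).F → C ∉ s.F ∧ (C ∩ newM ω).card ≤ 1 := by
    intro C hC hCF
    have h1 : C ∉ s.F ∪ S.conf.filter (fun C => 2 ≤ (C ∩ newM ω).card) := hCF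
    rw [Finset.mem_union, Finset.mem_filter, not_or, not_and] at h1
    refine ⟨h1.1, ?_⟩
    have := h1.2 hC
    omega
  refine
    { subE := ?_
      X0 := ?_
      a0 := ?_
      XE := ?_
      W1 := ?_
      ME := ?_
      MS := ?_
      XB := ?_
      XA := ?_
      FC := ?_
      I1 := ?_
      I2 := ?_ }
  · exact (Finset.filter_subset _ _).trans h.valid.subE
  · exact fun T => h.X2_nonneg ω T
  · intro T
    exact add_nonneg (h.valid.a0 T) (mul_nonneg h.θ0.le (h.o_nonneg T))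
  · intro T hT e he
    obtain ⟨h1, h2⟩ := h.X1_pos (hX2pos T hT)
    have h3 : e ∈ s.E := h.ed_subset h2 he
    show e ∈ s.E.filter (fun e => off (S.st e) ω)
    rw [Finset.mem_filter]
    exact ⟨h3, off_anti (st_subset_nb he) h1⟩
  · intro e
    show ∑ T ∈ S.star e, S.X2 θ A s ω T ≤ 1
    have h1 : ∑ T ∈ S.star e, S.X2 θ A s ω T ≤
        ∑ T ∈ S.star e, S.X1 θ A s ω T * (1 / max 1 (S.W (S.X1 θ A s ω) e)) :=
      Finset.sum_le_sum fun T hT => h.X2_le_trim ω (mem_star.1 hT)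
    rw [← Finset.sum_mul] at h1
    refine h1.trans ?_
    have h2 : ∑ T ∈ S.star e, S.X1 θ A s ω T = S.W (S.X1 θ A s ω) e := rfl
    rw [h2, mul_one_div, div_le_one (lt_of_lt_of_le one_pos (le_max_left _ _))]
    exact le_max_right _ _
  · intro T hT
    have hT' : T ∈ s.M ∪ newM ω := hT
    rw [Finset.mem_union] at hT'
    show Disjoint (S.ed T) (s.E.filter (fun e => off (S.st e) ω))
    rcases hT' with h1 | h1
    · exact Finset.disjoint_of_subset_right (Finset.filter_subset _ _) (h.valid.ME T h1)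
    · rw [Finset.disjoint_left]
      intro e he he'
      rw [Finset.mem_filter] at he'
      have h2 := he'.2 (Sum.inl T) (by
        unfold Sys.st
        rw [Finset.inl_mem_disjSum]
        exact mem_star.2 he)
      rw [mem_newM.1 h1] at h2
      exact absurd h2 (by simp)
  · intro T hT
    have hT' : T ∈ s.M ∪ newM ω := hT
    rw [Finset.mem_union] at hT'
    rcases hT' with h1 | h1
    · exact h.valid.MS T h1
    · exact (h.new_ed hω h1).trans h.valid.subE
  · intro T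
    show S.X2 θ A s ω T ≤ B / (1 - θ) ^ 2 * Real.exp (2 * (s.a T + θ * S.o s T))
    have hq := h.q_pos
    have h1 : S.X2 θ A s ω T ≤
        S.Xh θ A s T * (((1 - θ) ^ 2)⁻¹ * Real.exp (2 * (θ * S.o s T))) :=
      (h.X2_le_X1 ω T).trans (h.X1_le ω T)
    have h2 : S.Xh θ A s T ≤ B * Real.exp (2 * s.a T) := (h.Xh_le_X T).trans (h.valid.XB T)
    have h3 : 0 ≤ ((1 - θ) ^ 2)⁻¹ * Real.exp (2 * (θ * S.o s T)) := by positivity
    refine h1.trans ((mul_le_mul_of_nonneg_right h2 h3).trans (le_of_eq ?_))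
    rw [mul_add, Real.exp_add, div_eq_mul_inv]
    ring
  · intro T hT
    exact h.exposure_le (h.X1_pos (hX2pos T hT)).2
  · intro C hC
    have hC' : C ∈ s.F ∪ S.conf.filter (fun C => 2 ≤ (C ∩ newM ω).card) := hC
    rw [Finset.mem_union, Finset.mem_filter] at hC'
    rcases hC' with h1 | h1
    · exact h.valid.FC h1
    · exact h1.1
  · intro C hC hCF hsub
    obtain ⟨h1, h2⟩ := hF C hC hCF
    have hsub' : C ⊆ s.M ∪ newM ω := hsub
    rcases Finset.eq_empty_or_nonempty (C ∩ newM ω) with h3 | ⟨T, hT⟩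
    · refine h.valid.I1 C hC h1 fun T hT => ?_
      rcases Finset.mem_union.1 (hsub' hT) with h4 | h4
      · exact h4
      · exact absurd (Finset.mem_inter.2 ⟨hT, h4⟩) (by rw [h3]; exact Finset.notMem_empty T)
    · obtain ⟨hTC, hTn⟩ := Finset.mem_inter.1 hT
      have h4 : C.erase T ⊆ s.M := by
        intro T' hT'
        obtain ⟨hne, hT'C⟩ := Finset.mem_erase.1 hT'
        rcases Finset.mem_union.1 (hsub' hT'C) with h5 | h5
        · exact h5
        · exact absurd (Finset.card_le_one.1 h2 T' (Finset.mem_inter.2 ⟨hT'C, h5⟩) T hT) hne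
      have h5 := h.valid.I2 C hC h1 T hTC h4
      have h6 := h.X_pos_of_Xh (h.Xh_pos_of_new hω hTn)
      rw [h5] at h6
      exact lt_irrefl _ h6
  · intro C hC hCF T hTC hsub
    obtain ⟨h1, h2⟩ := hF C hC hCF
    have hsub' : C.erase T ⊆ s.M ∪ newM ω := hsub
    show S.X2 θ A s ω T = 0
    refine hX2zero T ?_
    rcases Finset.eq_empty_or_nonempty (C.erase T ∩ newM ω) with h3 | ⟨T', hT'⟩
    · have h4 : C.erase T ⊆ s.M := by
        intro T' hT'
        rcases Finset.mem_union.1 (hsub' hT') with h5 | h5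
        · exact h5
        · exact absurd (Finset.mem_inter.2 ⟨hT', h5⟩) (by rw [h3]; exact Finset.notMem_empty T')
      have h5 := h.valid.I2 C hC h1 T hTC h4
      have h6 : S.Xh θ A s T = 0 :=
        le_antisymm ((h.Xh_le_X T).trans (le_of_eq h5)) (h.Xh_nonneg T)
      unfold Sys.X1
      rw [h6, zero_mul, ite_self]
    · obtain ⟨hT'C, hT'n⟩ := Finset.mem_inter.1 hT'
      obtain ⟨hne, hT'C⟩ := Finset.mem_erase.1 hT'C
      refine X1_eq_zero_of_new hT'n ?_
      unfold Sys.nt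
      refine Finset.mem_union_right _ ?_
      unfold Sys.Nb
      rw [Finset.mem_filter]
      refine ⟨Finset.mem_univ _, hne, C, hC, hTC, hT'C, fun T'' hT''C => ?_⟩
      by_cases h4 : T'' = T
      · exact Or.inl h4
      · right
        rcases Finset.mem_union.1 (hsub' (Finset.mem_erase.2 ⟨h4, hT''C⟩)) with h5 | h5
        · exact Or.inr h5
        · exact Or.inl (Finset.card_le_one.1 h2 T'' (Finset.mem_inter.2 ⟨hT''C, h5⟩) T'
            (Finset.mem_inter.2 ⟨hT'C, hT'n⟩))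

end

/-- row F2, first part -/
theorem valid : ValidStatement := by
  intro ι τ _ _ _ _ S J E₀ θ A B δ s h
  exact ⟨h.pw_wt, fun ω hω => valid_nxt h ω hω⟩

/-- row F2, second part -/
theorem vec_nonneg : VecNonneg := by
  intro ι τ _ _ _ _ S E₀ A B s hA hv k
  have hPsi : 0 ≤ s.Psi := Finset.sum_nonneg fun T _ => mul_nonneg (hv.X0 T) (hv.a0 T)
  have hDf : 0 ≤ S.Df s := Finset.sum_nonneg fun e _ => by
    have := hv.W1 e
    linarith
  have h0 : (0 : ℝ) ≤ (s.E.card : ℝ) := Nat.cast_nonneg _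
  have h1 : (0 : ℝ) ≤ (S.kil E₀ s : ℝ) := Nat.cast_nonneg _
  have h2 : (0 : ℝ) ≤ (S.coll s.M : ℝ) := Nat.cast_nonneg _
  have h3 : 0 ≤ s.Rep := Finset.sum_nonneg fun C _ => hv.yy_nonneg C
  have h4 : 0 ≤ S.Df s + 3 / A * s.Psi := by positivity
  have h5 : 0 ≤ S.Th s := Finset.sum_nonneg fun C _ => hv.yy_nonneg C
  have h6 : 0 ≤ S.Xi s := Finset.sum_nonneg fun D _ => hv.yy_nonneg D
  unfold Sys.vec
  fin_cases k
  · exact h0
  · exact h1
  · exact h2
  · exact h3
  · exact h4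
  · exact h5
  · exact h6

end F1.Valid
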